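import Pool.Agent.Q283.LP.Stm
import Pool.Agent.Q283.FS.Lw

/-!
# Project LP: the law from the moments
-/

set_option autoImplicit false
set_option linter.unusedSectionVars false
set_option linter.unusedVariables false

open scoped Classical

namespace Q283.LP

open Finset Filter Topology
open Pool.Agent.Y697.PQ (ij cf ff gi gi_tendsto cf_pos)
open Pool.Agent.Y703.CQ (c2)
open Q283.GS (al al_pos hasSum_al)
open Q283.GM (qq qq_even qq_odd ij_self ij_self_pos tri_sum)

theorem qq_sum (I : ℕ) : HasSum (fun r => al r * qq 0 I (2 ^ r))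
    (∑ j ∈ range (I + 1), (-1) ^ j * ff j) := by
  have h1 : ∀ r, al r * qq 0 I (2 ^ r) =
      ∑ j ∈ range (I + 1), (-1) ^ j * cf j * (al r * ij j (2 ^ r)) := by
    intro r
    unfold qq
    rw [show ij 0 ((2 : ℝ) ^ 0) = 1 by simp [ij], div_one, mul_sum]
    refine sum_congr rfl fun j _ => ?_
    rw [zero_mul, pow_zero, inv_one, mul_one, zero_add]
    ring
  have h2 : (fun r => al r * qq 0 I (2 ^ r)) = fun r =>
      ∑ j ∈ range (I + 1), (-1) ^ j * cf j * (al r * ij j (2 ^ r)) := funext h1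
  rw [h2]
  refine hasSum_sum fun j _ => ?_
  have h3 := (Q283.FS.al_ij j).mul_left ((-1) ^ j * cf j)
  have h4 : (-1 : ℝ) ^ j * cf j * 2 ^ (j * (j - 1) / 2) = (-1) ^ j * ff j := by
    unfold ff
    ring
  rw [h4] at h3
  exact h3

theorem al_zero_gi : al 0 = gi := by
  have h0 : HasSum (fun r => al r * (if r = 0 then (1 : ℝ) else 0)) (al 0) := by
    have := hasSum_single (f := fun r => al r * (if r = 0 then (1 : ℝ) else 0)) 0 (by
      intro r hr
      rw [if_neg hr, mul_zero])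
    rw [if_pos rfl, mul_one] at this
    exact this
  refine le_antisymm ?_ ?_
  · have h1 : Tendsto (fun n : ℕ => ∑ j ∈ range (2 * n + 1), (-1) ^ j * ff j) atTop (𝓝 gi) :=
      gi_tendsto.comp (tendsto_atTop_mono (fun n => by show n ≤ 2 * n + 1; omega) tendsto_id)
    refine ge_of_tendsto h1 (Eventually.of_forall fun n => ?_)
    refine hasSum_le (fun r => ?_) h0 (qq_sum (2 * n))
    exact mul_le_mul_of_nonneg_left (qq_even ⟨n, by ring⟩ 0 r) (al_pos r).le
  · have h1 : Tendsto (fun n : ℕ => ∑ j ∈ range (2 * n + 1 + 1), (-1) ^ j * ff j) atTop (𝓝 gi) :=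
      gi_tendsto.comp (tendsto_atTop_mono (fun n => by show n ≤ 2 * n + 1 + 1; omega) tendsto_id)
    refine le_of_tendsto h1 (Eventually.of_forall fun n => ?_)
    refine hasSum_le (fun r => ?_) (qq_sum (2 * n + 1)) h0
    exact mul_le_mul_of_nonneg_left (qq_odd ⟨n, by ring⟩ 0 r) (al_pos r).le

theorem c2_gi : c2 = gi := by
  have h1 : al 0 = c2 * cf 0 := rfl
  have h2 : cf 0 = 1 := rfl
  rw [← al_zero_gi, h1, h2, mul_one]

/-- the coefficients -/
noncomputable def co (r i : ℕ) : ℝ := (-1) ^ i * cf i * (2 ^ (r * i))⁻¹ / ij r (2 ^ r)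

theorem qq_co (r I : ℕ) (x : ℝ) : qq r I x = ∑ i ∈ range (I + 1), co r i * ij (r + i) x := by
  unfold qq co
  rw [sum_div]
  refine sum_congr rfl fun i _ => ?_
  ring

theorem sum_co (r I : ℕ) : ∑ i ∈ range (I + 1), co r i * 2 ^ ((r + i) * (r + i - 1) / 2) =
    cf r * ∑ i ∈ range (I + 1), (-1) ^ i * ff i := by
  rw [mul_sum]
  refine sum_congr rfl fun i _ => ?_
  unfold co ff
  rw [ij_self, tri_sum, pow_add, pow_add]
  have h1 : (2 : ℝ) ^ (r * i) ≠ 0 := by positivity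
  have h2 : (2 : ℝ) ^ (r * (r - 1) / 2) ≠ 0 := by positivity
  have h3 := (cf_pos r).ne'
  field_simp

/-- the moments -/
def Mo {M : Type} [Fintype M] (A : ℕ) (δ : ℝ) {Ω : Type} [Fintype Ω] (rk : Ω → M → ℕ) : Prop :=
  ∀ a : M → ℕ, (∀ j, a j ≤ A) → |(∑ ω, ∏ j, ij (a j) (2 ^ rk ω j)) / (Fintype.card Ω : ℝ) -
    ∏ j, (2 : ℝ) ^ (a j * (a j - 1) / 2)| ≤ δ

/-- the probability of a value -/
noncomputable def pr {M : Type} [Fintype M] {Ω : Type} [Fintype Ω] (rk : Ω → M → ℕ) (r : M → ℕ) : ℝ :=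
  ((univ.filter fun ω => ∀ j, rk ω j = r j).card : ℝ) / (Fintype.card Ω : ℝ)

theorem qq_nonneg {I : ℕ} (hI : Even I) (r c : ℕ) : 0 ≤ qq r I (2 ^ c) := by
  refine le_trans ?_ (qq_even hI r c)
  split_ifs <;> norm_num

variable {M : Type} [Fintype M]

theorem up1 (r : M → ℕ) {I A : ℕ} (hI : Even I) (hA : ∀ j, r j + I ≤ A) {δ : ℝ} {Ω : Type}
    [Fintype Ω] [Nonempty Ω] {rk : Ω → M → ℕ} (h : Mo A δ rk) :
    pr rk r ≤ ∏ j, (cf (r j) * ∑ i ∈ range (I + 1), (-1) ^ i * ff i) +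
      (∑ i ∈ Fintype.piFinset fun _ : M => range (I + 1), |∏ j, co (r j) (i j)|) * δ := by
  have hΩ : (0 : ℝ) < Fintype.card Ω := by exact_mod_cast Fintype.card_pos
  have h1 : ((univ.filter fun ω => ∀ j, rk ω j = r j).card : ℝ) ≤
      ∑ ω, ∏ j, qq (r j) I (2 ^ rk ω j) := by
    have h2 : ((univ.filter fun ω => ∀ j, rk ω j = r j).card : ℝ) =
        ∑ ω, ∏ j, (if rk ω j = r j then (1 : ℝ) else 0) := by
      rw [card_filter, Nat.cast_sum]
      refine sum_congr rfl fun ω _ => ?_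
      rw [prod_ite_zero]
      by_cases h3 : ∀ j, rk ω j = r j
      · rw [if_pos h3, if_pos fun j _ => h3 j, prod_const_one, Nat.cast_one]
      · rw [if_neg h3, if_neg fun h4 => h3 fun j => h4 j (mem_univ j), Nat.cast_zero]
    rw [h2]
    refine sum_le_sum fun ω _ => prod_le_prod (fun j _ => ?_) fun j _ => qq_even hI _ _
    split_ifs <;> norm_num
  have h2 : ∑ ω, ∏ j, qq (r j) I (2 ^ rk ω j) =
      ∑ i ∈ Fintype.piFinset fun _ : M => range (I + 1), (∏ j, co (r j) (i j)) *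
        ∑ ω, ∏ j, ij (r j + i j) (2 ^ rk ω j) := by
    simp only [mul_sum]
    rw [sum_comm]
    refine sum_congr rfl fun ω _ => ?_
    simp only [qq_co]
    rw [prod_univ_sum]
    refine sum_congr rfl fun i _ => ?_
    rw [prod_mul_distrib]
  have h3 : ∏ j, (cf (r j) * ∑ i ∈ range (I + 1), (-1) ^ i * ff i) =
      ∑ i ∈ Fintype.piFinset fun _ : M => range (I + 1), (∏ j, co (r j) (i j)) *
        ∏ j, (2 : ℝ) ^ ((r j + i j) * (r j + i j - 1) / 2) := by
    simp only [← sum_co]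
    rw [prod_univ_sum]
    refine sum_congr rfl fun i _ => ?_
    rw [prod_mul_distrib]
  unfold pr
  refine (div_le_div_of_nonneg_right h1 hΩ.le).trans ?_
  rw [h2, h3, sum_mul, ← sum_add_distrib, sum_div]
  refine sum_le_sum fun i hi => ?_
  have h4 := h (fun j => r j + i j) fun j => by
    have h5 := Fintype.mem_piFinset.1 hi j
    rw [mem_range] at h5
    have := hA j
    show r j + i j ≤ A
    omega
  rw [mul_div_assoc]
  have h6 := le_abs_self ((∏ j, co (r j) (i j)) *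
    ((∑ ω, ∏ j, ij (r j + i j) (2 ^ rk ω j)) / (Fintype.card Ω : ℝ) -
      ∏ j, (2 : ℝ) ^ ((r j + i j) * (r j + i j - 1) / 2)))
  rw [abs_mul] at h6
  have h7 := mul_le_mul_of_nonneg_left h4 (abs_nonneg (∏ j, co (r j) (i j)))
  linarith

theorem Mo.mono {A A' : ℕ} {δ δ' : ℝ} {Ω : Type} [Fintype Ω] {rk : Ω → M → ℕ} (h : Mo A' δ' rk)
    (h1 : A ≤ A') (h2 : δ' ≤ δ) : Mo A δ rk := fun a ha =>
  (h a fun j => (ha j).trans h1).trans h2

theorem up2 (r : M → ℕ) {η : ℝ} (hη : 0 < η) : ∃ (A : ℕ) (δ : ℝ), 0 < δ ∧ ∀ (Ω : Type) [Fintype Ω]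
    [Nonempty Ω] (rk : Ω → M → ℕ), Mo A δ rk → pr rk r ≤ ∏ j, al (r j) + η := by
  have h1 : Tendsto (fun n : ℕ => ∏ j, (cf (r j) * ∑ i ∈ range (2 * n + 1), (-1) ^ i * ff i)) atTop
      (𝓝 (∏ j, al (r j))) := by
    refine tendsto_finsetProd _ fun j _ => ?_
    have h2 : al (r j) = cf (r j) * gi := by
      rw [← c2_gi, mul_comm]
      rfl
    rw [h2]
    exact (gi_tendsto.comp (tendsto_atTop_mono (fun n => by show n ≤ 2 * n + 1; omega)
      tendsto_id)).const_mul _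
  obtain ⟨n, hn⟩ := (h1.eventually (eventually_lt_nhds (show ∏ j, al (r j) <
    ∏ j, al (r j) + η / 2 by linarith))).exists
  obtain ⟨C, hC⟩ : ∃ C : ℝ, C = ∑ i ∈ Fintype.piFinset fun _ : M => range (2 * n + 1),
    |∏ j, co (r j) (i j)| := ⟨_, rfl⟩
  have hC0 : 0 ≤ C := by
    rw [hC]
    exact sum_nonneg fun _ _ => abs_nonneg _
  refine ⟨univ.sup r + 2 * n, η / (2 * (C + 1)), by positivity, fun Ω _ _ rk h => ?_⟩
  have h3 := up1 r (I := 2 * n) ⟨n, by ring⟩ (A := univ.sup r + 2 * n) (fun j =>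
    Nat.add_le_add_right (le_sup (f := r) (mem_univ j)) _) h
  rw [← hC] at h3
  have h4 : C * (η / (2 * (C + 1))) ≤ η / 2 := by
    rw [mul_div_assoc', div_le_div_iff₀ (by positivity) (by norm_num)]
    nlinarith
  linarith

theorem up3 (s : Finset (M → ℕ)) {η : ℝ} (hη : 0 < η) : ∃ (A : ℕ) (δ : ℝ), 0 < δ ∧
    ∀ (Ω : Type) [Fintype Ω] [Nonempty Ω] (rk : Ω → M → ℕ), Mo A δ rk →
      ∀ r ∈ s, pr rk r ≤ ∏ j, al (r j) + η := by
  induction s using Finset.induction_on with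
  | empty => exact ⟨0, 1, one_pos, fun Ω _ _ rk _ r hr => absurd hr (notMem_empty r)⟩
  | insert r s _ ih =>
    obtain ⟨A, δ, hδ, h1⟩ := ih
    obtain ⟨A', δ', hδ', h2⟩ := up2 r hη
    refine ⟨max A A', min δ δ', lt_min hδ hδ', fun Ω _ _ rk h q hq => ?_⟩
    rcases mem_insert.1 hq with rfl | hq
    · exact h2 Ω rk (h.mono (le_max_right _ _) (min_le_right _ _))
    · exact h1 Ω rk (h.mono (le_max_left _ _) (min_le_left _ _)) q hq

/-- large values are rare -/
theorem tail1 {A : ℕ} (hA : 1 ≤ A) {δ : ℝ} (hδ : δ ≤ 1) {Ω : Type} [Fintype Ω] [Nonempty Ω]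
    {rk : Ω → M → ℕ} (h : Mo A δ rk) (j : M) (B : ℕ) :
    ((univ.filter fun ω => B ≤ rk ω j).card : ℝ) / (Fintype.card Ω : ℝ) ≤ 3 / 2 ^ B := by
  have hΩ : (0 : ℝ) < Fintype.card Ω := by exact_mod_cast Fintype.card_pos
  have h1 := h (fun l => if l = j then 1 else 0) fun l => by
    show (if l = j then 1 else 0) ≤ A
    split_ifs <;> omega
  have h2 : ∀ ω, ∏ l, ij (if l = j then 1 else 0) (2 ^ rk ω l) = (2 : ℝ) ^ rk ω j - 1 := by
    intro ω
    rw [prod_eq_single j]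
    · rw [if_pos rfl]
      simp [ij]
    · intro l _ hl
      rw [if_neg hl]
      simp [ij]
    · intro h
      exact absurd (mem_univ j) h
  have h3 : ∏ l, (2 : ℝ) ^ ((if l = j then 1 else 0) * ((if l = j then 1 else 0) - 1) / 2) = 1 := by
    refine prod_eq_one fun l _ => ?_
    split_ifs <;> simp
  rw [h3, sum_congr rfl fun ω _ => h2 ω, sum_sub_distrib, sum_const, card_univ, nsmul_eq_mul,
    mul_one, sub_div, div_self hΩ.ne'] at h1
  have h4 := (abs_le.1 h1).2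
  have h5 : (2 : ℝ) ^ B * ((univ.filter fun ω => B ≤ rk ω j).card : ℝ) ≤ ∑ ω, (2 : ℝ) ^ rk ω j := by
    rw [card_filter, Nat.cast_sum, mul_sum]
    refine sum_le_sum fun ω _ => ?_
    split_ifs with h6
    · rw [Nat.cast_one, mul_one]
      exact pow_le_pow_right₀ (by norm_num) h6
    · rw [Nat.cast_zero, mul_zero]
      positivity
  rw [div_le_div_iff₀ hΩ (by positivity)]
  rw [sub_sub, sub_le_iff_le_add, div_le_iff₀ hΩ] at h4
  nlinarith

theorem pr_nonneg {Ω : Type} [Fintype Ω] (rk : Ω → M → ℕ) (r : M → ℕ) : 0 ≤ pr rk r := by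
  unfold pr
  positivity

theorem al_tendsto : Tendsto al atTop (𝓝 0) := hasSum_al.summable.tendsto_atTop_zero

theorem prod_al_le (r : M → ℕ) (j : M) : ∏ l, al (r l) ≤ al (r j) := by
  rw [← mul_prod_erase univ _ (mem_univ j)]
  refine mul_le_of_le_one_right (al_pos _).le (prod_le_one (fun l _ => (al_pos _).le) fun l _ => ?_)
  have h := hasSum_al
  exact (hasSum_al.tsum_eq ▸ hasSum_al.summable.le_tsum (r l) fun _ _ => (al_pos _).le)

theorem sum_al_le (B : ℕ) : ∑ r ∈ Fintype.piFinset fun _ : M => range B, ∏ j, al (r j) ≤ 1 := by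
  rw [← prod_univ_sum (fun _ : M => range B) fun _ b => al b]
  refine prod_le_one (fun j _ => sum_nonneg fun b _ => (al_pos b).le) fun j _ => ?_
  exact hasSum_al.tsum_eq ▸ hasSum_al.summable.sum_le_tsum _ fun _ _ => (al_pos _).le

/-- **The law from the moments.** -/
theorem t_LAW : S_LAW := by
  intro M _ ε hε
  obtain ⟨m, hm⟩ : ∃ m : ℕ, m = Fintype.card M := ⟨_, rfl⟩
  obtain ⟨B, hB1, hB2⟩ : ∃ B : ℕ, (3 * (m + 1) : ℝ) / 2 ^ B ≤ ε / 2 ∧ ∀ b, B ≤ b → al b ≤ ε := by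
    have h1 : ∀ᶠ B : ℕ in atTop, (3 * (m + 1) : ℝ) / 2 ^ B ≤ ε / 2 := by
      have h2 : Tendsto (fun B : ℕ => (3 * (m + 1) : ℝ) * (1 / 2) ^ B) atTop (𝓝 ((3 * (m + 1)) * 0)) :=
        (tendsto_pow_atTop_nhds_zero_of_lt_one (by norm_num) (by norm_num)).const_mul _
      rw [mul_zero] at h2
      filter_upwards [h2.eventually (eventually_le_nhds (show (0 : ℝ) < ε / 2 by positivity))]
        with B hB
      rw [one_div, inv_pow] at hB
      rw [div_eq_mul_inv]
      exact hB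
    have h3 : ∀ᶠ B : ℕ in atTop, al B ≤ ε := al_tendsto.eventually (eventually_le_nhds hε)
    obtain ⟨B₀, hB₀⟩ := eventually_atTop.1 h3
    obtain ⟨B, hB⟩ := (h1.and (eventually_ge_atTop B₀)).exists
    exact ⟨B, hB.1, fun b hb => hB₀ b (hB.2.trans hb)⟩
  obtain ⟨s, hs⟩ : ∃ s : Finset (M → ℕ), s = Fintype.piFinset fun _ : M => range B := ⟨_, rfl⟩
  obtain ⟨η, hη⟩ : ∃ η : ℝ, η = ε / (2 * (s.card + 1)) := ⟨_, rfl⟩
  have hη0 : 0 < η := by
    rw [hη]
    positivity
  have hηs : s.card * η ≤ ε / 2 := by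
    rw [hη, mul_div_assoc', div_le_div_iff₀ (by positivity) (by norm_num)]
    nlinarith
  have hηε : η ≤ ε := by
    rw [hη, div_le_iff₀ (by positivity)]
    have : (0 : ℝ) ≤ s.card := Nat.cast_nonneg _
    nlinarith
  obtain ⟨A, δ, hδ, hA⟩ := up3 s hη0
  refine ⟨max A 1, min δ 1, lt_min hδ one_pos, fun Ω _ _ rk h r => ?_⟩
  have hΩ : (0 : ℝ) < Fintype.card Ω := by exact_mod_cast Fintype.card_pos
  have hM : Mo (max A 1) (min δ 1) rk := h
  have hup : ∀ q ∈ s, pr rk q ≤ ∏ j, al (q j) + η := hA Ω rk (hM.mono (le_max_left _ _) (min_le_left _ _))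
  have htl : ∀ j, ((univ.filter fun ω => B ≤ rk ω j).card : ℝ) / (Fintype.card Ω : ℝ) ≤ 3 / 2 ^ B :=
    fun j => tail1 (le_max_right _ _) (min_le_right _ _) hM j B
  have hpB : (0 : ℝ) < 2 ^ B := by positivity
  have h3B : (3 : ℝ) / 2 ^ B ≤ ε / 2 := by
    refine le_trans ?_ hB1
    refine div_le_div_of_nonneg_right ?_ hpB.le
    have : (0 : ℝ) ≤ m := Nat.cast_nonneg _
    linarith
  show |pr rk r - ∏ j, al (r j)| ≤ ε
  by_cases hr : r ∈ s
  · rw [abs_le]
    refine ⟨?_, by linarith [hup r hr]⟩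
    -- the lower bound
    have h1 : (1 : ℝ) ≤ ∑ q ∈ s, pr rk q + m * (3 / 2 ^ B) := by
      have h2 : (univ : Finset Ω) ⊆ (s.biUnion fun q => univ.filter fun ω => ∀ j, rk ω j = q j) ∪
          (univ : Finset M).biUnion fun j => univ.filter fun ω => B ≤ rk ω j := by
        intro ω _
        rw [mem_union, mem_biUnion, mem_biUnion]
        by_cases h3 : ∃ j, B ≤ rk ω j
        · obtain ⟨j, hj⟩ := h3
          exact Or.inr ⟨j, mem_univ j, mem_filter.2 ⟨mem_univ _, hj⟩⟩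
        · push Not at h3
          refine Or.inl ⟨rk ω, ?_, mem_filter.2 ⟨mem_univ _, fun j => rfl⟩⟩
          rw [hs, Fintype.mem_piFinset]
          exact fun j => mem_range.2 (h3 j)
      have h4 := (card_le_card h2).trans ((card_union_le _ _).trans
        (Nat.add_le_add card_biUnion_le card_biUnion_le))
      rw [card_univ] at h4
      have h5 : (Fintype.card Ω : ℝ) ≤ ∑ q ∈ s, ((univ.filter fun ω => ∀ j, rk ω j = q j).card : ℝ) +
          ∑ j : M, ((univ.filter fun ω => B ≤ rk ω j).card : ℝ) := by exact_mod_cast h4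
      have h6 : (1 : ℝ) ≤ (∑ q ∈ s, ((univ.filter fun ω => ∀ j, rk ω j = q j).card : ℝ) +
          ∑ j : M, ((univ.filter fun ω => B ≤ rk ω j).card : ℝ)) / Fintype.card Ω := by
        rw [le_div_iff₀ hΩ, one_mul]
        exact h5
      rw [add_div, sum_div, sum_div] at h6
      refine h6.trans (add_le_add le_rfl ?_)
      refine (sum_le_sum fun j _ => htl j).trans (le_of_eq ?_)
      rw [sum_const, card_univ, nsmul_eq_mul, ← hm]
    have h2 : ∑ q ∈ s, pr rk q ≤ pr rk r + ∑ q ∈ s.erase r, (∏ j, al (q j) + η) := by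
      rw [← add_sum_erase s _ hr]
      exact add_le_add le_rfl (sum_le_sum fun q hq => hup q (mem_of_mem_erase hq))
    have h3 : ∑ q ∈ s.erase r, (∏ j, al (q j) + η) ≤ 1 - ∏ j, al (r j) + s.card * η := by
      rw [sum_add_distrib, sum_const, nsmul_eq_mul]
      have h4 : ∑ q ∈ s.erase r, ∏ j, al (q j) = ∑ q ∈ s, ∏ j, al (q j) - ∏ j, al (r j) := by
        rw [← add_sum_erase s _ hr]
        ring
      have h5 : ∑ q ∈ s, ∏ j, al (q j) ≤ 1 := by
        rw [hs]
        exact sum_al_le B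
      have h6 : ((s.erase r).card : ℝ) * η ≤ s.card * η :=
        mul_le_mul_of_nonneg_right (by exact_mod_cast card_le_card (erase_subset r s)) hη0.le
      linarith
    have h4 : (m : ℝ) * (3 / 2 ^ B) ≤ ε / 2 := by
      refine le_trans (le_of_eq ?_) (le_trans (div_le_div_of_nonneg_right
        (show (3 * m : ℝ) ≤ 3 * (m + 1) by linarith) hpB.le) hB1)
      ring
    linarith
  · obtain ⟨j, hj⟩ : ∃ j, B ≤ r j := by
      by_contra h1
      push Not at h1
      refine hr ?_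
      rw [hs, Fintype.mem_piFinset]
      exact fun j => mem_range.2 (h1 j)
    have h1 : pr rk r ≤ ε := by
      have h2 : pr rk r ≤ ((univ.filter fun ω => B ≤ rk ω j).card : ℝ) / (Fintype.card Ω : ℝ) := by
        unfold pr
        refine div_le_div_of_nonneg_right ?_ hΩ.le
        rw [Nat.cast_le]
        refine card_le_card fun ω hω => ?_
        rw [mem_filter] at hω ⊢
        exact ⟨hω.1, by rw [hω.2 j]; exact hj⟩
      linarith [htl j]
    have h2 : ∏ l, al (r l) ≤ ε := (prod_al_le r j).trans (hB2 _ hj)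
    have h3 : 0 ≤ ∏ l, al (r l) := prod_nonneg fun l _ => (al_pos _).le
    have h4 := pr_nonneg rk r
    rw [abs_le]
    constructor <;> linarith

end Q283.LP
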