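import Pool.Agent.Q283.LP.P1

/-!
# Project LP: pseudorandomness of all orders, for sets
-/

set_option autoImplicit false
set_option linter.unusedSectionVars false
set_option linter.unusedVariables false

open scoped Classical

namespace Q283.LP

open Finset Module Filter
open Q283.GM (Fam rk RC)
open Q283.GS (al)
open Q283.NJ (wt)

theorem al_le_one : al 0 ≤ 1 := by
  have h := sum_le_hasSum {0} (fun b _ => al_ge b) Q283.GS.hasSum_al
  rwa [sum_singleton] at h

theorem sum_cons {V : Type} [Fintype V] {k : ℕ} (F : (Fin (k + 1) → V) → ℝ) :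
    ∑ y : Fin (k + 1) → V, F y = ∑ x : V, ∑ h : Fin k → V, F (Fin.cons x h) := by
  rw [← Fintype.sum_prod_type' (f := fun (x : V) (h : Fin k → V) => F (Fin.cons x h))]
  exact (Fintype.sum_equiv (Fin.consEquiv fun _ : Fin (k + 1) => V) _ _ fun _ => rfl).symm

/-- the forms of the Gowers norm -/
noncomputable def eqF (k : ℕ) : Fin (Fintype.card (Finset (Fin k))) ≃ Finset (Fin k) :=
  (Fintype.equivFin (Finset (Fin k))).symm

/-- **No correlation with polynomial phases.** -/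
theorem pseudo_set (hGCS : S_GCS) {Φ : Fam} {f par : ℕ → ZMod 2} {P : Finset ℕ} {k : ℕ}
    {Nb : Finset ℕ} {ε : ℝ}
    (h : TT Φ f (fun j => eG k (eqF k j)) (fun _ => Nb) par ε P) (φ : Finset ℕ → ℝ)
    (hφ : ∀ (x : Vp par P) (y : Fin k → Vp par P),
      ∏ ω : Finset (Fin k), φ (sup (x + ∑ i ∈ ω, y i).1) = 1) :
    ((∑ d ∈ Tp (Fin 1) par P, ((if rk Φ f (sN Nb (d 0)) = 0 then 1 else 0) - al 0) * φ (d 0)) /
      ((Tp (Fin 1) par P).card : ℝ)) ^ (2 ^ k) ≤ 2 ^ (2 ^ k) * ε := by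
  obtain ⟨g, hg⟩ : ∃ g : Vp par P → ℝ, g = fun x =>
    (if rk Φ f (sN Nb (sup x.1)) = 0 then 1 else 0) - al 0 := ⟨_, rfl⟩
  have h1 := hGCS (Vp par P) k g (fun x => φ (sup x.1)) hφ
  have hM : Fintype.card (Finset (Fin k)) = 2 ^ k := by
    rw [Fintype.card_finset, Fintype.card_fin]
  have hM0 : 0 < Fintype.card (Finset (Fin k)) := by
    rw [hM]
    positivity
  have h2 := mean_prod hM0 (Tp (Fin (k + 1)) par P) (Tp_ne par P)
    (fun j d => rk Φ f (Fs (fun j => eG k (eqF k j)) (fun _ => Nb) d j) = 0) (κ := al 0) (ε := ε)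
    (al_ge 0) al_le_one (fun A => by
      refine le_trans (le_of_eq ?_) (pat_TT h A)
      congr 3
      exact congrArg Nat.cast (fcc fun _ _ => Iff.rfl))
  -- the two sides
  have e1 : (∑ d ∈ Tp (Fin 1) par P, ((if rk Φ f (sN Nb (d 0)) = 0 then 1 else 0) - al 0) * φ (d 0)) /
      ((Tp (Fin 1) par P).card : ℝ) =
      (∑ x, g x * φ (sup x.1)) / (Fintype.card (Vp par P) : ℝ) := by
    rw [card_Tp, sum_Tp]
    congr 1
    · rw [hg]
      refine Fintype.sum_equiv (Equiv.funUnique (Fin 1) (Vp par P)) _ _ fun x => ?_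
      rfl
    · norm_cast
      exact Fintype.card_congr (Equiv.funUnique (Fin 1) (Vp par P))
  have e2 : (∑ d ∈ Tp (Fin (k + 1)) par P, ∏ j,
      ((if rk Φ f (Fs (fun j => eG k (eqF k j)) (fun _ => Nb) d j) = 0 then 1 else 0) - al 0)) /
        ((Tp (Fin (k + 1)) par P).card : ℝ) =
      (∑ x, ∑ y : Fin k → Vp par P, ∏ ω : Finset (Fin k), g (x + ∑ i ∈ ω, y i)) /
        ((Fintype.card (Vp par P) : ℝ) * (Fintype.card (Fin k → Vp par P) : ℝ)) := by
    rw [card_Tp, sum_Tp, sum_cons]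
    congr 1
    · refine sum_congr rfl fun x _ => sum_congr rfl fun y _ => ?_
      rw [← Equiv.prod_comp (eqF k) fun ω => g (x + ∑ i ∈ ω, y i)]
      refine prod_congr rfl fun j _ => ?_
      rw [Fs_eG Nb (eqF k) x y j, hg]
    · rw [Fintype.card_fun, Fintype.card_fun, Fintype.card_fin, Fintype.card_fin, pow_succ]
      push_cast
      ring
  have h3 : |(∑ d ∈ Tp (Fin (k + 1)) par P, ∏ j,
      ((if rk Φ f (Fs (fun j => eG k (eqF k j)) (fun _ => Nb) d j) = 0 then (1 : ℝ) else 0) - al 0)) /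
        ((Tp (Fin (k + 1)) par P).card : ℝ)| ≤ 2 ^ Fintype.card (Finset (Fin k)) * ε := by
    convert h2
  rw [e1]
  rw [e2, hM] at h3
  exact h1.trans ((le_abs_self _).trans h3)

end Q283.LP
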