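import Pool.Agent.Q283.LP.X1
import Pool.Agent.Q283.LP.P2

/-!
# Project LP: the curve `X_0(14)`: the theorem for the integers
-/

set_option autoImplicit false
set_option linter.unusedSectionVars false
set_option linter.unusedVariables false

open scoped Classical

namespace Q283.LP

open Finset Module Filter
open Q283.GM (Fam rk RC)
open Pool.Agent.Y687 (DD DD_natAbs)
open Pool.Agent.Y687.JQ (CL of_adm sqf_unique DD_mul DD_ne)
open Pool.Agent.Y687.MQ (AdmD)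
open Q283.GS (al)
open Q283.NJ (wt pat_fin wt_tail)
open Q155.NL (Cl Alm)

/-- the corank is zero -/
def G14 (m : ℤ) : Prop := rk r14.Φ f14 (pf m) = 0

theorem hpar14 : ∀ p q, (r14.Φ.A p ↔ r14.Φ.A q) → f14 p = f14 q → r14.Φ.P p → r14.Φ.P q →
    par14 p = par14 q := by
  intro p q h1 h2 h3 h4
  have hA : ∀ p, r14.Φ.A p → p % 8 = 1 := by
    intro p hp
    have h5 : p % 168 ∈ r14.𝒜 := hp.2
    have h6 := (mem_filter.1 h5).2.1
    omega
  have hB : ∀ p, r14.Φ.B p → p % 8 = 3 ∨ p % 8 = 5 := by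
    intro p hp
    have h5 : p % 168 ∈ r14.ℬ := hp.2
    have h6 := (mem_filter.1 h5).2.1
    omega
  unfold par14
  rcases h3 with h3 | h3
  · rw [if_neg (by have := hA p h3; omega), if_neg (by have := hA q (h1.1 h3); omega)]
  · have hq : ¬ r14.Φ.A q := fun h => r14.Φ.dis p (h1.2 h) h3
    have hq' : r14.Φ.B q := h4.resolve_left hq
    have h5 := hB p h3
    have h6 := hB q hq'
    have h7 : ¬ p % 8 = 1 := by omega
    have h8 : ¬ q % 8 = 1 := by omega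
    unfold f14 at h2
    rw [if_neg h7, if_neg h8] at h2
    exact h2

section
variable (hX : S_X14)
include hX

/-- sums over tuples of sets and tuples of integers -/
theorem sum_tup {D n : ℕ} (hD : D ≠ 0) (F : (Fin n → ℤ) → ℝ) :
    ∑ d ∈ Tp (Fin n) par14 (prt r14.Φ D).primeFactors, F (fun i => DD (d i)) =
      ∑ d ∈ Fintype.piFinset fun _ : Fin n => dvD D, F d := by
  have hmem : ∀ d : Fin n → Finset ℕ, d ∈ Tp (Fin n) par14 (prt r14.Φ D).primeFactors ↔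
      ∀ i, d i ∈ sD D := by
    intro d
    rw [mem_Tp]
    refine forall_congr' fun i => ?_
    unfold sD
    rw [mem_filter, mem_powerset]
  refine sum_bij (fun d _ i => DD (d i)) ?_ ?_ ?_ ?_
  · intro d hd
    rw [hmem] at hd
    exact Fintype.mem_piFinset.2 fun i => (DD_mem hX hD ((mem_sD hX).1 (hd i)).1).2 (hd i)
  · intro d hd d' hd' he
    have h1 := (hmem d).1 hd
    have h2 := (hmem d').1 hd'
    funext i
    rw [← CL_DD_pf ((mem_sD hX).1 (h1 i)).1, ← CL_DD_pf ((mem_sD hX).1 (h2 i)).1]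
    exact congrArg pf (congrFun he i)
  · intro d hd
    rw [Fintype.mem_piFinset] at hd
    have h3 : ∀ i, pf (d i) ∈ sD D := fun i => pf_mem hX hD (hd i)
    exact ⟨fun i => pf (d i), (hmem _).2 h3, funext fun i => (DD_pf ((mem_dvD hD).1 (hd i)).1).2⟩
  · intro d _
    rfl

/-- the patterns -/
theorem pat_int {M n D : ℕ} (hD : D ≠ 0) {N : Fin M → ℤ} (hN : ∀ j, AdmD (N j))
    {e : Fin M → Fin n → ZMod 2} {ε : ℝ}
    (h : TT r14.Φ f14 e (fun j => pf (N j)) par14 ε (prt r14.Φ D).primeFactors)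
    (A : Finset (Fin M)) :
    |shD D (fun d => ∀ j, (G14 (sqf (frm (N j) (e j) d)) ↔ j ∈ A)) - wt (al 0) A| ≤ ε := by
  have h1 := law_int hX hD hN h {r | ∀ k, (r k = 0 ↔ k ∈ A)}
  rw [meas_al] at h1
  refine le_trans (le_of_eq ?_) h1
  congr 1

/-- the group of the sets -/
theorem sup_mem {D : ℕ} (x : Vp par14 (prt r14.Φ D).primeFactors) : sup x.1 ∈ sD D := by
  unfold sD
  rw [mem_filter, mem_powerset]
  exact ⟨sup_sub _, by rw [sum_sup]; exact x.2⟩

theorem DD_sum {D k : ℕ} (x : Vp par14 (prt r14.Φ D).primeFactors)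
    (y : Fin k → Vp par14 (prt r14.Φ D).primeFactors) (ω : Finset (Fin k)) :
    DD (sup (x + ∑ i ∈ ω, y i).1) = sqf (DD (sup x.1) * ∏ i ∈ ω, DD (sup (y i).1)) := by
  have hC : ∀ z : Vp par14 (prt r14.Φ D).primeFactors, CL (sup z.1) := fun z =>
    ((mem_sD hX).1 (sup_mem hX z)).1
  obtain ⟨S, hS, h1, b, hb, h2⟩ := DD_form (hC x) (fun _ : Fin k => 1) (d := fun i => sup (y i).1)
    (fun i => hC (y i)) ω
  have h3 : ((1 : ZMod 2)).val = 1 := rfl
  simp only [h3, pow_one] at h2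
  have h4 : S = sup (x + ∑ i ∈ ω, y i).1 := by
    ext p
    rw [← ind_one, ← ind_one, h1]
    by_cases hp : p ∈ (prt r14.Φ D).primeFactors
    · have h5 : ∀ z : Vp par14 (prt r14.Φ D).primeFactors, ind (sup z.1) p = z.1 ⟨p, hp⟩ := fun z =>
        ind_sup z.1 ⟨p, hp⟩
      have h6 : (x + ∑ i ∈ ω, y i).1 ⟨p, hp⟩ = x.1 ⟨p, hp⟩ + ∑ i ∈ ω, (y i).1 ⟨p, hp⟩ := by
        rw [Submodule.coe_add, Submodule.coe_sum, Pi.add_apply, Finset.sum_apply]
      rw [h5, h5, h6, sum_congr rfl fun i _ => by rw [one_mul, h5]]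
    · have h5 : ∀ z : Vp par14 (prt r14.Φ D).primeFactors, ind (sup z.1) p = 0 := fun z =>
        ind_not fun h => hp (sup_sub z.1 h)
      rw [h5, h5, sum_eq_zero fun i _ => by rw [h5, mul_zero], add_zero]
  rw [← h4]
  exact (sqf_eq hS.sqf hb h2).symm

/-- **No correlation with polynomial phases, for the integers.** -/
theorem pseudo_int (hGCS : S_GCS) {D k : ℕ} (hD : D ≠ 0) {N : ℤ} (hN : AdmD N) {ε : ℝ}
    (h : TT r14.Φ f14 (fun j => eG k (eqF k j)) (fun _ => pf N) par14 ε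
      (prt r14.Φ D).primeFactors) (φ : ℤ → ℝ)
    (hφ : ∀ x ∈ dvD D, ∀ y : Fin k → ℤ, (∀ i, y i ∈ dvD D) →
      ∏ ω : Finset (Fin k), φ (sqf (x * ∏ i ∈ ω, y i)) = 1) :
    ((∑ d ∈ dvD D, ((if G14 (sqf (N * d)) then 1 else 0) - al 0) * φ d) /
      ((dvD D).card : ℝ)) ^ (2 ^ k) ≤ 2 ^ (2 ^ k) * ε := by
  have h1 := pseudo_set hGCS h (fun S => φ (DD S)) (by
    intro x y
    rw [← hφ (DD (sup x.1)) ((DD_mem hX hD ((mem_sD hX).1 (sup_mem hX x)).1).2 (sup_mem hX x))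
      (fun i => DD (sup (y i).1)) fun i =>
        (DD_mem hX hD ((mem_sD hX).1 (sup_mem hX (y i))).1).2 (sup_mem hX (y i))]
    refine prod_congr rfl fun ω _ => ?_
    beta_reduce
    rw [DD_sum hX x y ω])
  have h2 : ∀ F : ℤ → ℝ, ∑ d ∈ Fintype.piFinset fun _ : Fin 1 => dvD D, F (d 0) = ∑ d ∈ dvD D, F d := by
    intro F
    refine sum_bij (fun d _ => d 0) (fun d hd => (Fintype.mem_piFinset.1 hd) 0) ?_ ?_ fun _ _ => rfl
    · intro d _ d' _ he
      funext i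
      rw [Subsingleton.elim i 0]
      exact he
    · intro d hd
      exact ⟨fun _ => d, Fintype.mem_piFinset.2 fun _ => hd, rfl⟩
  have h3 : ((Tp (Fin 1) par14 (prt r14.Φ D).primeFactors).card : ℝ) = ((dvD D).card : ℝ) := by
    have h4 := sum_tup hX (n := 1) hD fun _ => 1
    have h5 := h2 fun _ => 1
    rw [h5, sum_const, sum_const, nsmul_eq_mul, nsmul_eq_mul, mul_one, mul_one] at h4
    exact h4
  have h4 : ∑ d ∈ Tp (Fin 1) par14 (prt r14.Φ D).primeFactors,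
      ((if rk r14.Φ f14 (sN (pf N) (d 0)) = 0 then 1 else 0) - al 0) * φ (DD (d 0)) =
      ∑ d ∈ dvD D, ((if G14 (sqf (N * d)) then 1 else 0) - al 0) * φ d := by
    rw [← h2 fun d => ((if G14 (sqf (N * d)) then 1 else 0) - al 0) * φ d,
      ← sum_tup hX (n := 1) hD fun d => ((if G14 (sqf (N * d 0)) then 1 else 0) - al 0) * φ (d 0)]
    refine sum_congr rfl fun d hd => ?_
    have h5 : CL (d 0) := by
      have h6 : d 0 ∈ sD D := by
        unfold sD
        rw [mem_filter, mem_powerset]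
        exact (mem_Tp.1 hd) 0
      exact ((mem_sD hX).1 h6).1
    have h6 : sqf (N * DD (d 0)) = DD (sN (pf N) (d 0)) := by
      obtain ⟨c1, c2⟩ := DD_pf hN
      have h7 := DD_mul (pf N) (d 0)
      rw [c2] at h7
      exact sqf_eq (c1.symmDiff h5).sqf (DD_ne fun p hp => (h5.prime p (mem_inter.1 hp).2).ne_zero) h7
    have h7 : G14 (sqf (N * DD (d 0))) ↔ rk r14.Φ f14 (sN (pf N) (d 0)) = 0 := by
      unfold G14 sN at *
      rw [h6, CL_DD_pf ((DD_pf hN).1.symmDiff h5)]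
    congr 2
    by_cases h8 : rk r14.Φ f14 (sN (pf N) (d 0)) = 0
    · rw [if_pos h8, if_pos (h7.2 h8)]
    · rw [if_neg h8, if_neg fun h => h8 (h7.1 h)]
  rw [h3, h4] at h1
  exact h1

/-- **The theorem for the curve `X_0(14)`.** -/
theorem main14 (hGCS : S_GCS) (hTR : S_TR) (hASY : S_ASY2) (hSEC : SECd) (hTV : S_TV) :
    ∃ S : ℕ → Prop, Alm (fun _ => True) S ∧ Alm (Cl r14.Φ) S ∧
    (∀ (M n : ℕ) (N : Fin M → ℤ) (e : Fin M → Fin n → ZMod 2), (∀ j, AdmD (N j)) →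
      (∀ j, e j ≠ 0) → (∀ j l, j ≠ l → ¬ (e j = e l ∧ N j = N l)) → ∀ ε : ℝ, 0 < ε →
      ∀ᶠ D in atTop, S D → ∀ A : Finset (Fin M),
        |shD D (fun d => ∀ j, (G14 (sqf (frm (N j) (e j) d)) ↔ j ∈ A)) - wt (al 0) A| ≤ ε) ∧
    (∀ (k : ℕ) (N : ℤ), AdmD N → ∀ ε : ℝ, 0 < ε → ∀ᶠ D in atTop, S D → ∀ φ : ℤ → ℝ,
      (∀ x ∈ dvD D, ∀ y : Fin (k + 1) → ℤ, (∀ i, y i ∈ dvD D) →
        ∏ ω : Finset (Fin (k + 1)), φ (sqf (x * ∏ i ∈ ω, y i)) = 1) →
      |(∑ d ∈ dvD D, ((if G14 (sqf (N * d)) then 1 else 0) - al 0) * φ d) /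
        ((dvD D).card : ℝ)| ≤ ε) := by
  obtain ⟨S, hS1, hS2, hS3⟩ := mainLP hTR hASY hSEC hTV r14 f14 par14 hpar14
  have hP : ∀ N : ℤ, AdmD N → ∀ p ∈ pf N, r14.Φ.P p := fun N hN p hp =>
    ((hX.1 (pf N)).1 (DD_pf hN).1).1 p hp
  refine ⟨S, hS1, hS2, fun M n N e hN he hd ε hε => ?_, fun k N hN ε hε => ?_⟩
  · have h1 := hS3 M n (fun j => pf (N j)) e (fun j p hp => hP (N j) (hN j) p hp) he (by
      intro j l hjl hel hpf
      refine hd j l hjl ⟨hel, ?_⟩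
      beta_reduce at hpf
      rw [← (DD_pf (hN j)).2, ← (DD_pf (hN l)).2, hpf]) ε hε
    filter_upwards [h1, eventually_ne_atTop 0] with D hD hD0 hSD A
    exact pat_int hX hD0 hN (hD hSD) A
  · obtain ⟨K, hK⟩ : ∃ K, K = 2 ^ (k + 1) := ⟨_, rfl⟩
    have h1 := hS3 _ _ (fun _ => pf N) (fun j => eG (k + 1) (eqF (k + 1) j))
      (fun j p hp => hP N hN p hp) (fun j => eG_ne _) (by
      intro j l hjl hel
      exact absurd ((eqF (k + 1)).injective (eG_inj (k + 1) hel)) hjl) (ε ^ K / 2 ^ K) (by positivity)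
    filter_upwards [h1, eventually_ne_atTop 0] with D hD hD0 hSD φ hφ
    have h2 := pseudo_int hX hGCS hD0 hN (hD hSD) φ hφ
    rw [← hK, mul_div_cancel₀ _ (by positivity : (2 : ℝ) ^ K ≠ 0)] at h2
    have hKe : Even K := by
      rw [hK, pow_succ]
      exact even_two.mul_left _
    have hK0 : K ≠ 0 := by
      rw [hK]
      positivity
    refine le_of_pow_le_pow_left₀ hK0 hε.le ?_
    rw [hKe.pow_abs]
    exact h2

end

end Q283.LP
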