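import Pool.Agent.Q283.LP.Fin0
import Pool.Agent.Q283.LP.LAW
import Pool.Agent.Q283.LP.X2
import Pool.Agent.Q187.LP.ASY2
import Pool.Agent.Q222.LP.TV
import Pool.Agent.Q222.LP.TR
import Pool.Agent.Q222.LP.GCS
import Pool.Agent.Q222.LP.X14

/-!
# Project LP (helper283): the theorems without hypotheses
-/

set_option autoImplicit false
set_option linter.unusedVariables false

open scoped Classical

namespace Q283.LP

open Finset Filter
open Q283.GM (Fam rk RC)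
open Q155.NL (Cl Alm)

/-- the second moments -/
theorem secdF : SECd := secd t_LAW

/-- one set for all the families, for any classes -/
theorem mainF (ρ : RC) (f par : ℕ → ZMod 2)
    (hpar : ∀ p q, (ρ.Φ.A p ↔ ρ.Φ.A q) → f p = f q → ρ.Φ.P p → ρ.Φ.P q → par p = par q) :
    ∃ S : ℕ → Prop, Alm (fun _ => True) S ∧ Alm (Cl ρ.Φ) S ∧
    ∀ (M n : ℕ) (Nn : Fin M → Finset ℕ) (e : Fin M → Fin n → ZMod 2),
      (∀ j, ∀ p ∈ Nn j, ρ.Φ.P p) → (∀ j, e j ≠ 0) → Dst Nn e →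
      ∀ ε : ℝ, 0 < ε → ∀ᶠ D in atTop, S D → TT ρ.Φ f e Nn par ε (prt ρ.Φ D).primeFactors :=
  mainLP Pool.Agent.Q222.LP.t_TR Q187.LP.ASY2.t_ASY2 secdF Pool.Agent.Q222.LP.t_TV ρ f par hpar

end Q283.LP
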