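import Pool.Agent.Q283.LP.X3

/-!
# Project LP: one set of integers for all the families of forms, any classes (without parities)
-/

set_option autoImplicit false
set_option linter.unusedSectionVars false
set_option linter.unusedVariables false

open scoped Classical

namespace Q283.LP

open Finset Module Filter
open Q283.GM (Fam rk RC)
open Q283.GS (al)
open Q283.NJ (wt)
open Q155.NL (Cl Alm)

/-- the forms are different -/
def Df {M n : ℕ} (N : Fin M → ℕ) (e : Fin M → Fin n → ZMod 2) : Prop :=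
  ∀ j l, j ≠ l → ¬ (e j = e l ∧ N j = N l)

/-- **One set of integers of density one for all the families of forms.** -/
theorem mainN (ρ : RC) (f : ℕ → ZMod 2) : ∃ S : ℕ → Prop, Alm (fun _ => True) S ∧ Alm (Cl ρ.Φ) S ∧
    (∀ (M n : ℕ) (N : Fin M → ℕ) (e : Fin M → Fin n → ZMod 2), (∀ j, Cl ρ.Φ (N j)) →
      (∀ j, e j ≠ 0) → Df N e → ∀ ε : ℝ, 0 < ε → ∀ᶠ D in atTop, S D → ∀ R : Set (Fin M → ℕ),
        |shN ρ.Φ D (fun d => (fun j => rk ρ.Φ f (sqn (frn (N j) (e j) d)).primeFactors) ∈ R) -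
          ∑' r : R, ∏ j, al (r.1 j)| ≤ ε) ∧
    (∀ (k N : ℕ), Cl ρ.Φ N → ∀ ε : ℝ, 0 < ε → ∀ᶠ D in atTop, S D → ∀ φ : ℕ → ℝ,
      (∀ x ∈ dvN ρ.Φ D, ∀ y : Fin (k + 1) → ℕ, (∀ i, y i ∈ dvN ρ.Φ D) →
        ∏ ω : Finset (Fin (k + 1)), φ (sqn (x * ∏ i ∈ ω, y i)) = 1) →
      |(∑ d ∈ dvN ρ.Φ D, ((if rk ρ.Φ f (sqn (N * d)).primeFactors = 0 then 1 else 0) - al 0) * φ d) /
        ((dvN ρ.Φ D).card : ℝ)| ≤ ε) := by
  obtain ⟨S, hS1, hS2, hS3⟩ := mainF ρ f (fun _ => 0) fun _ _ _ _ _ _ => rfl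
  refine ⟨S, hS1, hS2, fun M n N e hN he hd ε hε => ?_, fun k N hN ε hε => ?_⟩
  · have h1 := hS3 M n (fun j => (N j).primeFactors) e (fun j p hp => (hN j).2 p hp) he (by
      intro j l hjl hel hpf
      refine hd j l hjl ⟨hel, ?_⟩
      rw [← Nat.prod_primeFactors_of_squarefree (hN j).1,
        ← Nat.prod_primeFactors_of_squarefree (hN l).1]
      exact congrArg (fun S : Finset ℕ => ∏ p ∈ S, p) hpf) ε hε
    filter_upwards [h1, eventually_ne_atTop 0] with D hD hD0 hSD R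
    exact law_N hD0 (fun j => (hN j).1) (hD hSD) R
  · obtain ⟨K, hK⟩ : ∃ K, K = 2 ^ (k + 1) := ⟨_, rfl⟩
    have h1 := hS3 _ _ (fun _ => N.primeFactors) (fun j => eG (k + 1) (eqF (k + 1) j))
      (fun j p hp => hN.2 p hp) (fun j => eG_ne _) (by
      intro j l hjl hel
      exact absurd ((eqF (k + 1)).injective (eG_inj (k + 1) hel)) hjl) (ε ^ K / 2 ^ K) (by positivity)
    filter_upwards [h1, eventually_ne_atTop 0] with D hD hD0 hSD φ hφ
    have h2 := pseudo_N Pool.Agent.Q222.LP.t_GCS hD0 hN.1 (hD hSD) φ hφ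
    rw [← hK, mul_div_cancel₀ _ (by positivity : (2 : ℝ) ^ K ≠ 0)] at h2
    have hKe : Even K := by
      rw [hK, pow_succ]
      exact even_two.mul_left _
    have hK0 : K ≠ 0 := by
      rw [hK]
      positivity
    refine le_of_pow_le_pow_left₀ hK0 hε.le ?_
    rw [hKe.pow_abs]
    exact h2

/-- the number of the divisors in the class -/
theorem card_dvN (Φ : Fam) {D : ℕ} (hD : D ≠ 0) :
    (dvN Φ D).card = 2 ^ (D.primeFactors.filter fun p => Φ.P p).card := by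
  rw [← card_powerset]
  refine card_bij (fun d _ => d.primeFactors) ?_ ?_ ?_
  · intro d hd
    obtain ⟨h1, h2⟩ := (mem_dvN hD).1 hd
    rw [mem_powerset]
    intro p hp
    exact mem_filter.2 ⟨Nat.primeFactors_mono h2 hD hp, h1.2 p hp⟩
  · intro d hd d' hd' he
    rw [← Nat.prod_primeFactors_of_squarefree ((mem_dvN hD).1 hd).1.1,
      ← Nat.prod_primeFactors_of_squarefree ((mem_dvN hD).1 hd').1.1, he]
  · intro S hS
    rw [mem_powerset] at hS
    obtain ⟨h1, h2⟩ := prod_Cl (Φ := Φ) (S := S) fun p hp => (mem_filter.1 (hS hp)).2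
    refine ⟨∏ p ∈ S, p, (mem_dvN hD).2 ⟨h1, ?_⟩, h2⟩
    exact (Finset.prod_dvd_prod_of_subset _ _ _ fun p hp => (mem_filter.1 (hS hp)).1).trans
      (Nat.prod_primeFactors_dvd D)

theorem one_dvN (Φ : Fam) {D : ℕ} (hD : D ≠ 0) : 1 ∈ dvN Φ D :=
  (mem_dvN hD).2 ⟨⟨squarefree_one, by simp⟩, one_dvd D⟩

end Q283.LP
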