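import Pool.Agent.Q283.LP.Stm
import Pool.Agent.Q203.LP.CNF

/-!
# Project LP: the moments
-/

set_option autoImplicit false
set_option linter.unusedSectionVars false
set_option linter.unusedVariables false

open scoped Classical

namespace Q283.LP

open Finset Module
open Pool.Agent.Y697.PQ (ij)

section
variable {U I N M : Type} [Fintype U] [Fintype I] [Fintype N] [Fintype M]

/-- a form attains the value one -/
theorem ex_one {e : N → ZMod 2} (h : e ≠ 0) : ∃ s : N → ZMod 2, ∑ i, e i * s i = 1 := by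
  obtain ⟨i, hi⟩ := Function.ne_iff.1 h
  have h1 : ∀ z : ZMod 2, z ≠ 0 → z = 1 := by decide
  refine ⟨Pi.single i 1, ?_⟩
  rw [Finset.sum_eq_single i]
  · rw [Pi.single_eq_same, mul_one]
    exact h1 _ hi
  · intro j _ hj
    rw [Pi.single_eq_of_ne hj, mul_zero]
  · exact fun h => absurd (mem_univ _) h

theorem mem_Jt {e : M → N → ZMod 2} {r : M → ℕ} {s : N → ZMod 2} {k : KK r} :
    k ∈ Jt e (fun k : KK r => k.1) s ↔ ∑ i, e k.1 i * s i = 1 := by
  unfold Jt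
  rw [mem_filter]
  exact and_iff_right (mem_univ _)

theorem z2d (a : ZMod 2) : a + a = 0 := by
  revert a
  decide

/-- an alternating form vanishes on the diagonal -/
theorem alt_zero {K : Type} (J : Finset K) (S : K → K → ZMod 2) (h1 : ∀ k l, S k l = S l k)
    (h2 : ∀ k, S k k = 0) (z : K → ZMod 2) : ∑ k ∈ J, ∑ l ∈ J, S k l * z k * z l = 0 := by
  induction J using Finset.induction_on with
  | empty => rw [sum_empty]
  | @insert a J ha ih =>
    rw [sum_insert ha, sum_insert ha]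
    have h3 : ∑ k ∈ J, ∑ l ∈ insert a J, S k l * z k * z l =
        ∑ k ∈ J, S k a * z k * z a + ∑ k ∈ J, ∑ l ∈ J, S k l * z k * z l := by
      rw [← sum_add_distrib]
      exact sum_congr rfl fun k _ => by rw [sum_insert ha]
    rw [h3, ih, h2]
    have h4 : ∑ k ∈ J, S k a * z k * z a = ∑ l ∈ J, S a l * z a * z l :=
      sum_congr rfl fun k _ => by rw [h1 k a]; ring
    rw [h4]
    have := z2d (∑ l ∈ J, S a l * z a * z l)
    linear_combination this

theorem pc_As {g : Gr U I} {e : M → N → ZMod 2} {b : M → U → Prop} {t : I → N → ZMod 2} {r : M → ℕ}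
    {S : KK r → KK r → ZMod 2} (hS : Alt (fun k : KK r => k.1) S) {x c : KK r → U ⊕ I → ZMod 2}
    (hx : Sx g e b t r x) (hA : As r S x c) : Pc e t r x c := by
  intro p q
  obtain ⟨J, hJ⟩ : ∃ J, J = Jt e (fun k : KK r => k.1) (t p) ∩ Jt e (fun k : KK r => k.1) (t q) :=
    ⟨_, rfl⟩
  rw [← hJ]
  have hz : ∀ k ∈ J, ∀ l, l ∉ J → S k l = 0 := by
    intro k hk l hl
    by_contra hne
    apply hl
    have h1 : k.1 = l.1 := by
      by_contra h
      exact hne (hS.2.2 k l h)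
    rw [hJ, mem_inter, mem_Jt, mem_Jt] at hk ⊢
    rw [← h1]
    exact hk
  have h1 : ∀ k ∈ J, (x k (.inr p) + x k (.inr q)) * (c k (.inr p) + c k (.inr q)) =
      ∑ l ∈ J, S k l * (x k (.inr p) + x k (.inr q)) * (x l (.inr p) + x l (.inr q)) := by
    intro k hk
    have h2 : ∑ l ∈ J, S k l * (x k (.inr p) + x k (.inr q)) * (x l (.inr p) + x l (.inr q)) =
        ∑ l, S k l * (x k (.inr p) + x k (.inr q)) * (x l (.inr p) + x l (.inr q)) :=
      sum_subset (subset_univ _) fun l _ hl => by rw [hz k hk l hl]; ring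
    rw [h2, hA k p, hA k q, ← sum_add_distrib, mul_sum]
    exact sum_congr rfl fun l _ => by ring
  rw [sum_congr rfl h1]
  exact alt_zero J S hS.1 hS.2.1 fun k => x k (.inr p) + x k (.inr q)

/-- for a full pair of the coefficients `S` the vectors at the pattern `s` are arbitrary -/
theorem full_x {g : Gr U I} {e : M → N → ZMod 2} {b : M → U → Prop} {t : I → N → ZMod 2} {r : M → ℕ}
    {S : KK r → KK r → ZMod 2} {x c : KK r → U ⊕ I → ZMod 2}
    (hx : Sx g e b t r x) (hA : As r S x c) (hF : Fl e t r x c) (s : N → ZMod 2)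
    (y : KK r → ZMod 2) (hy : ∀ k, k ∉ Jt e (fun k : KK r => k.1) s → y k = 0) :
    ∃ p : I, t p = s ∧ ∀ k, x k (.inr p) = y k := by
  obtain ⟨J, hJ⟩ : ∃ J, J = Jt e (fun k : KK r => k.1) s := ⟨_, rfl⟩
  -- the set of all vectors
  obtain ⟨E, hE⟩ : ∃ E : Finset (KK r → ZMod 2), E = univ.filter fun y => ∀ k, k ∉ J → y k = 0 := ⟨_, rfl⟩
  have hEc : E.card = 2 ^ J.card := by
    have h1 : E = Fintype.piFinset fun k : KK r => if k ∈ J then (univ : Finset (ZMod 2)) else {0} := by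
      ext y
      rw [hE, mem_filter, Fintype.mem_piFinset]
      constructor
      · rintro ⟨-, h⟩ k
        split_ifs with hk
        · exact mem_univ _
        · rw [mem_singleton]
          exact h k hk
      · intro h
        refine ⟨mem_univ _, fun k hk => ?_⟩
        have := h k
        rw [if_neg hk, mem_singleton] at this
        exact this
    rw [h1, Fintype.card_piFinset]
    have h2 : ∀ k : KK r, (if k ∈ J then (univ : Finset (ZMod 2)) else {0}).card =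
        if k ∈ J then 2 else 1 := by
      intro k
      split_ifs
      · rw [card_univ, ZMod.card]
      · exact card_singleton _
    rw [prod_congr rfl fun k _ => h2 k, prod_ite, prod_const, prod_const_one, mul_one,
      filter_mem_eq_inter, univ_inter]
  -- the image
  obtain ⟨X, hX⟩ : ∃ X : Finset (KK r → ZMod 2), X =
    (univ.filter fun p : I => t p = s).image fun p => fun k => x k (.inr p) := ⟨_, rfl⟩
  have hXE : X ⊆ E := by
    intro y hy
    rw [hX, mem_image] at hy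
    obtain ⟨p, hp, rfl⟩ := hy
    rw [hE, mem_filter]
    refine ⟨mem_univ _, fun k hk => hx k _ fun h => hk ?_⟩
    rw [hJ, mem_Jt, ← (mem_filter.1 hp).2]
    exact h.1
  have hXc : X.card = 2 ^ J.card := by
    have h1 := hF s
    rw [← hJ] at h1
    rw [← h1]
    have h2 : (Zf t r x c s).image Prod.fst = X := by
      unfold Zf
      rw [image_image, hX]
      rfl
    rw [← h2]
    refine card_image_of_injOn ?_
    intro z hz w hw hzw
    unfold Zf at hz hw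
    rw [coe_image] at hz hw
    obtain ⟨p, hp, rfl⟩ := hz
    obtain ⟨q, hq, rfl⟩ := hw
    refine Prod.ext hzw ?_
    funext k
    show c k (.inr p) = c k (.inr q)
    rw [hA k p, hA k q]
    refine sum_congr rfl fun l _ => ?_
    rw [show x l (.inr p) = x l (.inr q) from congrFun hzw l]
  have hXE' : X = E := eq_of_subset_of_card_le hXE (by rw [hXc, hEc])
  have h3 : y ∈ X := by
    rw [hXE', hE, mem_filter]
    exact ⟨mem_univ _, fun k hk => hy k (by rw [← hJ]; exact hk)⟩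
  rw [hX, mem_image] at h3
  obtain ⟨p, hp, h4⟩ := h3
  exact ⟨p, (mem_filter.1 hp).2, fun k => congrFun h4 k⟩

/-- the vector of one coordinate -/
theorem single_x {g : Gr U I} {e : M → N → ZMod 2} {b : M → U → Prop} {t : I → N → ZMod 2} {r : M → ℕ}
    {S : KK r → KK r → ZMod 2} {x c : KK r → U ⊕ I → ZMod 2} (he : ∀ j, e j ≠ 0)
    (hx : Sx g e b t r x) (hA : As r S x c) (hF : Fl e t r x c) (k₀ : KK r) :
    ∃ p : I, ∀ k, x k (.inr p) = if k = k₀ then 1 else 0 := by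
  obtain ⟨s, hs⟩ := ex_one (he k₀.1)
  obtain ⟨p, -, hp⟩ := full_x hx hA hF s (fun k => if k = k₀ then 1 else 0) fun k hk => by
    rw [if_neg]
    rintro rfl
    exact hk (mem_Jt.2 hs)
  exact ⟨p, hp⟩

theorem idp_As {g : Gr U I} {e : M → N → ZMod 2} {b : M → U → Prop} {t : I → N → ZMod 2} {r : M → ℕ}
    {S : KK r → KK r → ZMod 2} {x c : KK r → U ⊕ I → ZMod 2} (he : ∀ j, e j ≠ 0)
    (hx : Sx g e b t r x) (hA : As r S x c) (hF : Fl e t r x c) : Idp r x := by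
  intro j a ha
  funext i₀
  obtain ⟨p, hp⟩ := single_x he hx hA hF (⟨j, i₀⟩ : KK r)
  have h1 := ha p
  rw [sum_eq_single i₀] at h1
  · rw [hp, if_pos rfl, mul_one] at h1
    exact h1
  · intro i _ hi
    rw [hp, if_neg, mul_zero]
    intro h
    exact hi (by simpa using h)
  · exact fun h => absurd (mem_univ _) h

theorem S_unique {g : Gr U I} {e : M → N → ZMod 2} {b : M → U → Prop} {t : I → N → ZMod 2}
    {r : M → ℕ} {S S' : KK r → KK r → ZMod 2} {x c : KK r → U ⊕ I → ZMod 2} (he : ∀ j, e j ≠ 0)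
    (hx : Sx g e b t r x) (hA : As r S x c) (hA' : As r S' x c) (hF : Fl e t r x c) : S = S' := by
  funext k l
  obtain ⟨p, hp⟩ := single_x he hx hA hF l
  have h1 : ∀ T : KK r → KK r → ZMod 2, ∑ l', T k l' * x l' (.inr p) = T k l := by
    intro T
    rw [sum_eq_single l]
    · rw [hp, if_pos rfl, mul_one]
    · intro l' _ hl'
      rw [hp, if_neg hl', mul_zero]
    · exact fun h => absurd (mem_univ _) h
  rw [← h1 S, ← h1 S', ← hA k p, hA' k p]

/-- the coefficients exist -/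
theorem ex_As (hSTR : S_STR) {g : Gr U I} {e : M → N → ZMod 2} {b : M → U → Prop}
    {t : I → N → ZMod 2} {r : M → ℕ} (hinj : Function.Injective e) (he : ∀ j, e j ≠ 0)
    (hp : ∀ s : N → ZMod 2, ∃ p, ¬ g.aI p ∧ t p = s) {x c : KK r → U ⊕ I → ZMod 2}
    (hx : Sx g e b t r x) (hc : Sx g e b t r c) (hP : Pc e t r x c) (hI : Idp r x)
    (hF : Fl e t r x c) : ∃ S, Alt (fun k : KK r => k.1) S ∧ As r S x c := by
  have hFa := Pool.Agent.Q203.LP.fa_Zf g e b t r hp x c hx hc hP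
  obtain ⟨S, hS, h1, -⟩ := (hSTR N M (KK r) e (fun k => k.1) (Zf t r x c) hinj he hFa).2 hF (by
    intro j a ha k hk
    have h2 := hI j (fun i => a ⟨j, i⟩) fun p => by
      have h3 := ha (t p) (fun k => x k (.inr p), fun k => c k (.inr p))
        (mem_image.2 ⟨p, mem_filter.2 ⟨mem_univ _, rfl⟩, rfl⟩)
      rw [← h3]
      refine Finset.sum_bij (fun i _ => (⟨j, i⟩ : KK r)) ?_ ?_ ?_ ?_
      · intro i _
        exact mem_filter.2 ⟨mem_univ _, rfl⟩
      · intro i _ i' _ h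
        simpa using h
      · rintro ⟨j', i'⟩ h
        have h4 : j' = j := (mem_filter.1 h).2
        subst h4
        exact ⟨i', mem_univ _, rfl⟩
      · intro i _
        rfl
    obtain ⟨j', i'⟩ := k
    have h4 : j' = j := hk
    subst h4
    exact congrFun h2 i')
  refine ⟨S, hS, fun k p => ?_⟩
  exact h1 (t p) _ (mem_image.2 ⟨p, mem_filter.2 ⟨mem_univ _, rfl⟩, rfl⟩) k

theorem abs_sn (a : ZMod 2) : |sn a| ≤ 1 := by
  unfold sn
  split_ifs <;> norm_num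

/-- **The main sum.** -/
theorem main_Z (hSTR : S_STR) (hSUM : S_SUM) {g : Gr U I} {e : M → N → ZMod 2} {b : M → U → Prop}
    {t : I → N → ZMod 2} {r : M → ℕ} (hinj : Function.Injective e) (he : ∀ j, e j ≠ 0)
    (hp : ∀ s : N → ZMod 2, ∃ p, ¬ g.aI p ∧ t p = s)
    (hreg : ∀ (j : M) (w : Finset U), w.Nonempty → (∀ u ∈ w, g.aU u) →
      ∃ p, g.aI p ∧ ∑ i, e j i * t p i = 1 ∧ ∑ u ∈ w, g.lb p u ≠ 0) :
    |(∑ y ∈ univ.filter (fun y : (KK r → U ⊕ I → ZMod 2) × (KK r → U ⊕ I → ZMod 2) =>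
        Sx g e b t r y.1 ∧ Sx g e b t r y.2 ∧ Pc e t r y.1 y.2 ∧ Idp r y.1),
        sn (th g e b t r 0 y.1 y.2)) -
      ((univ.filter fun S : KK r → KK r → ZMod 2 => Alt (fun k : KK r => k.1) S).card : ℤ) *
        2 ^ Ns g e b t r| ≤
    (1 + (univ.filter fun S : KK r → KK r → ZMod 2 => Alt (fun k : KK r => k.1) S).card : ℤ) *
      (univ.filter fun y : (KK r → U ⊕ I → ZMod 2) × (KK r → U ⊕ I → ZMod 2) => Sx g e b t r y.1 ∧
        Sx g e b t r y.2 ∧ Pc e t r y.1 y.2 ∧ ¬ Fl e t r y.1 y.2).card := by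
  obtain ⟨A, hA⟩ : ∃ A, A = univ.filter fun S : KK r → KK r → ZMod 2 =>
    Alt (fun k : KK r => k.1) S := ⟨_, rfl⟩
  obtain ⟨F, hF⟩ : ∃ F, F = univ.filter fun y : (KK r → U ⊕ I → ZMod 2) × (KK r → U ⊕ I → ZMod 2) =>
    Sx g e b t r y.1 ∧ Sx g e b t r y.2 ∧ Pc e t r y.1 y.2 ∧ ¬ Fl e t r y.1 y.2 := ⟨_, rfl⟩
  obtain ⟨σ, hσ⟩ : ∃ σ : (KK r → U ⊕ I → ZMod 2) × (KK r → U ⊕ I → ZMod 2) → ℤ,
    σ = fun y => sn (th g e b t r 0 y.1 y.2) := ⟨_, rfl⟩
  have hσ1 : ∀ y, |σ y| ≤ 1 := by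
    intro y
    rw [hσ]
    exact abs_sn _
  obtain ⟨Q, hQ⟩ : ∃ Q, Q = univ.filter (fun y : (KK r → U ⊕ I → ZMod 2) × (KK r → U ⊕ I → ZMod 2) =>
        Sx g e b t r y.1 ∧ Sx g e b t r y.2 ∧ Pc e t r y.1 y.2 ∧ Idp r y.1) := ⟨_, rfl⟩
  obtain ⟨B, hB⟩ : ∃ B : (KK r → KK r → ZMod 2) →
      Finset ((KK r → U ⊕ I → ZMod 2) × (KK r → U ⊕ I → ZMod 2)), B = fun S =>
      univ.filter (fun y : (KK r → U ⊕ I → ZMod 2) × (KK r → U ⊕ I → ZMod 2) => Sx g e b t r y.1 ∧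
        Sx g e b t r y.2 ∧ As r S y.1 y.2) := ⟨_, rfl⟩
  have hmemA : ∀ S, S ∈ A ↔ Alt (fun k : KK r => k.1) S := fun S => by
    rw [hA, mem_filter]
    exact and_iff_right (mem_univ _)
  have hmemF : ∀ y, y ∈ F ↔ Sx g e b t r y.1 ∧ Sx g e b t r y.2 ∧ Pc e t r y.1 y.2 ∧
      ¬ Fl e t r y.1 y.2 := fun y => by
    rw [hF, mem_filter]
    exact and_iff_right (mem_univ _)
  have hmemQ : ∀ y, y ∈ Q ↔ Sx g e b t r y.1 ∧ Sx g e b t r y.2 ∧ Pc e t r y.1 y.2 ∧
      Idp r y.1 := fun y => by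
    rw [hQ, mem_filter]
    exact and_iff_right (mem_univ _)
  have hmemB : ∀ S y, y ∈ B S ↔ Sx g e b t r y.1 ∧ Sx g e b t r y.2 ∧ As r S y.1 y.2 := fun S y => by
    rw [hB, mem_filter]
    exact and_iff_right (mem_univ _)
  -- the full part of `Q`
  have h1 : Q.filter (fun y => Fl e t r y.1 y.2) =
      A.biUnion fun S => (B S).filter fun y => Fl e t r y.1 y.2 := by
    ext y
    rw [mem_filter, mem_biUnion, hmemQ]
    constructor
    · rintro ⟨⟨a1, a2, a3, a4⟩, a5⟩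
      obtain ⟨S, hS, hS'⟩ := ex_As hSTR hinj he hp a1 a2 a3 a4 a5
      exact ⟨S, (hmemA S).2 hS, mem_filter.2 ⟨(hmemB S y).2 ⟨a1, a2, hS'⟩, a5⟩⟩
    · rintro ⟨S, hS, h⟩
      rw [mem_filter, hmemB] at h
      obtain ⟨⟨a1, a2, a3⟩, a5⟩ := h
      exact ⟨⟨a1, a2, pc_As ((hmemA S).1 hS) a1 a3, idp_As he a1 a3 a5⟩, a5⟩
  have h2 : ∑ y ∈ Q.filter (fun y => Fl e t r y.1 y.2), σ y =
      ∑ S ∈ A, ∑ y ∈ (B S).filter (fun y => Fl e t r y.1 y.2), σ y := by
    rw [h1]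
    refine sum_biUnion ?_
    intro S hS S' hS' hne
    rw [Function.onFun, Finset.disjoint_left]
    intro y hy hy'
    rw [mem_filter, hmemB] at hy hy'
    exact hne (S_unique he hy.1.1 hy.1.2.2 hy'.1.2.2 hy.2)
  have h3 : ∀ S ∈ A, ∑ y ∈ B S, σ y = 2 ^ Ns g e b t r := by
    intro S hS
    rw [hB, hσ]
    exact hSUM U I N M g e b t r S ((hmemA S).1 hS) hreg
  have hnf : ∀ S ∈ A, |∑ y ∈ (B S).filter (fun y => ¬ Fl e t r y.1 y.2), σ y| ≤ F.card := by
    intro S hS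
    refine (abs_sum_le_sum_abs _ _).trans ((sum_le_sum fun y _ => hσ1 y).trans ?_)
    rw [sum_const, nsmul_eq_mul, mul_one]
    refine Nat.cast_le.2 (card_le_card fun y hy => ?_)
    rw [mem_filter, hmemB] at hy
    exact (hmemF y).2 ⟨hy.1.1, hy.1.2.1, pc_As ((hmemA S).1 hS) hy.1.1 hy.1.2.2, hy.2⟩
  have h4 : |∑ y ∈ Q.filter (fun y => ¬ Fl e t r y.1 y.2), σ y| ≤ F.card := by
    refine (abs_sum_le_sum_abs _ _).trans ((sum_le_sum fun y _ => hσ1 y).trans ?_)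
    rw [sum_const, nsmul_eq_mul, mul_one]
    refine Nat.cast_le.2 (card_le_card fun y hy => ?_)
    rw [mem_filter, hmemQ] at hy
    exact (hmemF y).2 ⟨hy.1.1, hy.1.2.1, hy.1.2.2.1, hy.2⟩
  have h5 : ∑ y ∈ Q, σ y - (A.card : ℤ) * 2 ^ Ns g e b t r =
      ∑ y ∈ Q.filter (fun y => ¬ Fl e t r y.1 y.2), σ y -
        ∑ S ∈ A, ∑ y ∈ (B S).filter (fun y => ¬ Fl e t r y.1 y.2), σ y := by
    rw [← sum_filter_add_sum_filter_not Q (fun y => Fl e t r y.1 y.2), h2]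
    have h6 : (A.card : ℤ) * 2 ^ Ns g e b t r = ∑ S ∈ A,
        (∑ y ∈ (B S).filter (fun y => Fl e t r y.1 y.2), σ y +
          ∑ y ∈ (B S).filter (fun y => ¬ Fl e t r y.1 y.2), σ y) := by
      rw [← nsmul_eq_mul, ← sum_const]
      refine sum_congr rfl fun S hS => ?_
      rw [← h3 S hS, ← sum_filter_add_sum_filter_not (B S) (fun y => Fl e t r y.1 y.2)]
    rw [h6, sum_add_distrib]
    ring
  have h7 : |∑ y ∈ Q, σ y - (A.card : ℤ) * 2 ^ Ns g e b t r| ≤ (1 + (A.card : ℤ)) * F.card := by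
    rw [h5]
    refine (abs_sub _ _).trans ?_
    have h8 : |∑ S ∈ A, ∑ y ∈ (B S).filter (fun y => ¬ Fl e t r y.1 y.2), σ y| ≤ (A.card : ℤ) * F.card := by
      refine (abs_sum_le_sum_abs _ _).trans ((sum_le_sum hnf).trans ?_)
      rw [sum_const, nsmul_eq_mul]
    rw [add_mul, one_mul]
    exact add_le_add h4 h8
  rw [← hA, ← hF, ← hQ]
  rw [hσ] at h7
  exact h7

/-- the sum over the tables -/
theorem sum_NT (hFOU : S_FOU) (hALP : S_ALP) (g : Gr U I) (e : M → N → ZMod 2) (b : M → U → Prop)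
    (t : I → N → ZMod 2) (r : M → ℕ) :
    (∑ α : I → I → ZMod 2, (NT g e b t r α : ℤ)) * 2 ^ Ns g e b t r =
      (Fintype.card (I → I → ZMod 2) : ℤ) *
      ∑ y ∈ univ.filter (fun y : (KK r → U ⊕ I → ZMod 2) × (KK r → U ⊕ I → ZMod 2) =>
        Sx g e b t r y.1 ∧ Sx g e b t r y.2 ∧ Pc e t r y.1 y.2 ∧ Idp r y.1),
        sn (th g e b t r 0 y.1 y.2) := by
  rw [sum_mul, sum_congr rfl fun α _ => hFOU U I N M g e b t r α]
  obtain ⟨X, hX⟩ : ∃ X, X = univ.filter fun x => Sx g e b t r x ∧ Idp r x := ⟨_, rfl⟩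
  obtain ⟨C, hC⟩ : ∃ C, C = univ.filter (Sx g e b t r) := ⟨_, rfl⟩
  rw [← hX, ← hC]
  have h1 : ∑ α : I → I → ZMod 2, ∑ x ∈ X, ∑ c ∈ C, sn (th g e b t r α x c) =
      ∑ x ∈ X, ∑ c ∈ C, ∑ α : I → I → ZMod 2, sn (th g e b t r α x c) := by
    rw [sum_comm]
    exact sum_congr rfl fun x _ => sum_comm
  rw [h1]
  have h2 : ∀ x ∈ X, ∀ c ∈ C, ∑ α : I → I → ZMod 2, sn (th g e b t r α x c) =
      if Pc e t r x c then (Fintype.card (I → I → ZMod 2) : ℤ) * sn (th g e b t r 0 x c) else 0 := by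
    intro x hx c hc
    rw [hX, mem_filter] at hx
    rw [hC, mem_filter] at hc
    obtain ⟨g1, g2⟩ := hALP U I N M g e b t r x c hx.2.1 hc.2
    split_ifs with hP
    · rw [sum_congr rfl fun α _ => by rw [g1 hP α], sum_const, card_univ, nsmul_eq_mul]
    · exact g2 hP
  rw [sum_congr rfl fun x hx => sum_congr rfl fun c hc => h2 x hx c hc, ← sum_product',
    ← sum_filter, ← mul_sum]
  refine congrArg _ (sum_congr ?_ fun _ _ => rfl)
  ext y
  rw [mem_filter, mem_filter, mem_product, hX, hC, mem_filter, mem_filter]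
  constructor
  · rintro ⟨⟨⟨-, a1, a2⟩, -, a3⟩, a4⟩
    exact ⟨mem_univ _, a1, a3, a4, a2⟩
  · rintro ⟨-, a1, a3, a4, a2⟩
    exact ⟨⟨⟨mem_univ _, a1, a2⟩, mem_univ _, a3⟩, a4⟩

end

/-- **The moments.** -/
theorem t_FT (hSTR : S_STR) (hNT : S_NT) (hFOU : S_FOU) (hALP : S_ALP) (hCNF : S_CNF)
    (hSUM : S_SUM) (hALT : S_ALT) : S_FT := by
  intro N M _ _ e r hinj he
  obtain ⟨C, hC⟩ := hCNF N M e r hinj he
  refine ⟨C, fun δ hδ => ?_⟩
  obtain ⟨a, ha⟩ : ∃ a : ℕ, a = (univ.filter fun S : KK r → KK r → ZMod 2 =>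
    Alt (fun k : KK r => k.1) S).card := ⟨_, rfl⟩
  have ha' : (a : ℝ) = ∏ j, (2 : ℝ) ^ (r j * (r j - 1) / 2) := by
    rw [ha, hALT M r]
    push_cast
    rfl
  obtain ⟨R, hR⟩ := hC (δ / (1 + a)) (by positivity)
  refine ⟨R, fun U I _ _ g b t hT => ?_⟩
  have h1 := hR U I g b t hT
  have h2 := main_Z (g := g) (b := b) (t := t) (r := r) hSTR hSUM hinj he hT.pas hT.reg
  have h3 := sum_NT hFOU hALP g e b t r
  obtain ⟨Z, hZ⟩ : ∃ Z, Z = ∑ y ∈ univ.filter (fun y : (KK r → U ⊕ I → ZMod 2) ×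
      (KK r → U ⊕ I → ZMod 2) =>
        Sx g e b t r y.1 ∧ Sx g e b t r y.2 ∧ Pc e t r y.1 y.2 ∧ Idp r y.1),
        sn (th g e b t r 0 y.1 y.2) := ⟨_, rfl⟩
  rw [← hZ, ← ha] at h2
  rw [← hZ] at h3
  obtain ⟨n, hn⟩ : ∃ n, n = Ns g e b t r := ⟨_, rfl⟩
  rw [← hn] at h1 h2 h3
  have hpos : (0 : ℝ) < 2 ^ n := by positivity
  have hc : (0 : ℝ) < (Fintype.card (I → I → ZMod 2) : ℝ) := by exact_mod_cast Fintype.card_pos
  have h4 : (∑ α : I → I → ZMod 2, ∏ j, ij (r j) (2 ^ g.co α (FF e b t j))) =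
      ∑ α : I → I → ZMod 2, (NT g e b t r α : ℝ) :=
    sum_congr rfl fun α _ => (hNT U I N M g e b t r α hT.reg).symm
  have h5 : (∑ α : I → I → ZMod 2, (NT g e b t r α : ℝ)) * 2 ^ n =
      (Fintype.card (I → I → ZMod 2) : ℝ) * (Z : ℝ) := by exact_mod_cast h3
  have h6 : (∑ α : I → I → ZMod 2, (NT g e b t r α : ℝ)) / (Fintype.card (I → I → ZMod 2) : ℝ) =
      (Z : ℝ) / 2 ^ n := by
    rw [div_eq_div_iff hc.ne' hpos.ne', h5, mul_comm]
  rw [h4, h6, ← ha']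
  have h7 : (Z : ℝ) / 2 ^ n - a = ((Z : ℝ) - a * 2 ^ n) / 2 ^ n := by
    field_simp
  rw [h7, abs_div, abs_of_pos hpos, div_le_iff₀ hpos]
  have h8 : |(Z : ℝ) - a * 2 ^ n| ≤ (1 + a) *
      ((univ.filter fun y : (KK r → U ⊕ I → ZMod 2) × (KK r → U ⊕ I → ZMod 2) => Sx g e b t r y.1 ∧
        Sx g e b t r y.2 ∧ Pc e t r y.1 y.2 ∧ ¬ Fl e t r y.1 y.2).card : ℝ) := by
    exact_mod_cast h2
  refine h8.trans ((mul_le_mul_of_nonneg_left h1 (by positivity)).trans (le_of_eq ?_))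
  field_simp

end Q283.LP
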