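import Pool.Agent.Q283.LP.F1
import Pool.Agent.Q283.Q3.Lawq
import Pool.Agent.Q283.NJ.G2

/-!
# Project LP: patterns, and pseudorandomness of all orders
-/

set_option autoImplicit false
set_option linter.unusedSectionVars false
set_option linter.unusedVariables false

open scoped Classical

namespace Q283.LP

open Finset Module Filter
open Q283.GM (Fam rk RC)
open Q283.GS (al)
open Q283.NJ (wt)

theorem al_ge (r : ℕ) : 0 ≤ al r := by
  rw [Q155.NL.al_cf]
  exact Q155.KG.al_nonneg r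

/-- the measure of the vectors that vanish exactly on a set -/
theorem meas_al {M : ℕ} (A : Finset (Fin M)) :
    ∑' r : {r : Fin M → ℕ | ∀ k, (r k = 0 ↔ k ∈ A)}, ∏ k, al (r.1 k) = wt (al 0) A := by
  unfold wt
  have h1 : ∀ k : Fin M, HasSum (fun r : ℕ => if (r = 0 ↔ k ∈ A) then al r else 0)
      (if k ∈ A then al 0 else 1 - al 0) := by
    intro k
    by_cases hk : k ∈ A
    · rw [if_pos hk]
      have : (fun r : ℕ => if (r = 0 ↔ k ∈ A) then al r else 0) =
          fun r => if r = 0 then al 0 else 0 := by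
        funext r
        by_cases hr : r = 0
        · subst hr
          simp [hk]
        · simp [hk, hr]
      rw [this]
      exact hasSum_ite_eq 0 (al 0)
    · rw [if_neg hk]
      have h2 : HasSum (fun r : ℕ => if r = 0 then al 0 else 0) (al 0) := hasSum_ite_eq 0 (al 0)
      refine (Q283.GS.hasSum_al.sub h2).congr_fun ?_
      intro r
      by_cases hr : r = 0
      · subst hr
        simp [hk]
      · simp [hk, hr]
  have h2 := Q283.T3B.hasSum_pi (M := M) (fun k r => if (r = 0 ↔ k ∈ A) then al r else 0) _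
    (fun k r => by
      show 0 ≤ if (r = 0 ↔ k ∈ A) then al r else 0
      split_ifs
      · exact al_ge r
      · exact le_rfl) h1
  rw [tsum_subtype {r : Fin M → ℕ | ∀ k, (r k = 0 ↔ k ∈ A)} fun r => ∏ k, al (r k)]
  have h3 : (fun r : Fin M → ℕ => ({r : Fin M → ℕ | ∀ k, (r k = 0 ↔ k ∈ A)}.indicator
      fun r => ∏ k, al (r k)) r) =
      fun r => ∏ k, if (r k = 0 ↔ k ∈ A) then al (r k) else 0 := by
    funext r
    by_cases hr : ∀ k, (r k = 0 ↔ k ∈ A)
    · rw [Set.indicator_of_mem (show r ∈ {r : Fin M → ℕ | ∀ k, (r k = 0 ↔ k ∈ A)} from hr)]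
      exact prod_congr rfl fun k _ => (if_pos (hr k)).symm
    · rw [Set.indicator_of_notMem (show r ∉ {r : Fin M → ℕ | ∀ k, (r k = 0 ↔ k ∈ A)} from hr)]
      obtain ⟨k, hk⟩ := not_forall.1 hr
      exact (prod_eq_zero (mem_univ k) (if_neg hk)).symm
  rw [h3, h2.tsum_eq]
  rw [Finset.prod_ite, Finset.prod_const, Finset.prod_const]
  congr 2
  · congr 1
    ext k
    simp
  · have h4 : (univ.filter fun k : Fin M => ¬ k ∈ A) = univ \ A := by
      ext k
      simp
    rw [h4, card_sdiff_of_subset (subset_univ A), card_univ, Fintype.card_fin]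

section grp
variable (par : ℕ → ZMod 2) (P : Finset ℕ)

/-- the group of the subsets of `P` with even parity -/
noncomputable def Vp : Submodule (ZMod 2) (↥P → ZMod 2) where
  carrier := {x | ∑ p : ↥P, par p * x p = 0}
  add_mem' := by
    intro x y hx hy
    show ∑ p : ↥P, par p * (x p + y p) = 0
    simp only [mul_add, sum_add_distrib]
    rw [show ∑ p : ↥P, par p * x p = 0 from hx, show ∑ p : ↥P, par p * y p = 0 from hy, add_zero]
  zero_mem' := by
    show ∑ p : ↥P, par p * 0 = 0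
    simp
  smul_mem' := by
    intro c x hx
    show ∑ p : ↥P, par p * (c * x p) = 0
    have h1 : ∑ p : ↥P, par p * (c * x p) = c * ∑ p : ↥P, par p * x p := by
      rw [mul_sum]
      exact sum_congr rfl fun p _ => by ring
    rw [h1, show ∑ p : ↥P, par p * x p = 0 from hx, mul_zero]

variable {par P}

theorem mem_Vp {x : ↥P → ZMod 2} : x ∈ Vp par P ↔ ∑ p : ↥P, par p * x p = 0 := Iff.rfl

/-- the set of the vector -/
noncomputable def sup (x : ↥P → ZMod 2) : Finset ℕ := (univ.filter fun p => x p = 1).image Subtype.val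

theorem sup_sub (x : ↥P → ZMod 2) : sup x ⊆ P := by
  intro p hp
  obtain ⟨q, -, rfl⟩ := mem_image.1 hp
  exact q.2

theorem ind_sup (x : ↥P → ZMod 2) (p : ↥P) : ind (sup x) p = x p := by
  have h0 : ∀ z : ZMod 2, z ≠ 1 → z = 0 := by decide
  by_cases h : x p = 1
  · rw [h, ind_one]
    exact mem_image_of_mem _ (mem_filter.2 ⟨mem_univ _, h⟩)
  · rw [h0 _ h]
    refine ind_not fun h' => h ?_
    obtain ⟨q, hq, he⟩ := mem_image.1 h'
    rw [Subtype.val_injective he] at hq
    exact (mem_filter.1 hq).2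

theorem sup_ind {d : Finset ℕ} (h : d ⊆ P) : sup (fun p : ↥P => ind d p) = d := by
  ext p
  constructor
  · intro hp
    obtain ⟨q, hq, rfl⟩ := mem_image.1 hp
    exact ind_one.1 (mem_filter.1 hq).2
  · intro hp
    exact mem_image.2 ⟨⟨p, h hp⟩, mem_filter.2 ⟨mem_univ _, ind_mem hp⟩, rfl⟩

theorem sum_sup (x : ↥P → ZMod 2) : ∑ p ∈ sup x, par p = ∑ p : ↥P, par p * x p := by
  have h0 : ∀ z : ZMod 2, z ≠ 1 → z = 0 := by decide
  unfold sup
  rw [sum_image fun a _ b _ h => Subtype.val_injective h, sum_filter]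
  refine sum_congr rfl fun p _ => ?_
  split_ifs with h
  · rw [h, mul_one]
  · rw [h0 _ h, mul_zero]

/-- sums over the tuples of sets are sums over the group -/
theorem sum_Tp {n : ℕ} (F : (Fin n → Finset ℕ) → ℝ) :
    ∑ d ∈ Tp (Fin n) par P, F d = ∑ x : Fin n → Vp par P, F fun i => sup (x i).1 := by
  symm
  refine sum_bij (fun x _ i => sup (x i).1) ?_ ?_ ?_ ?_
  · intro x _
    exact mem_Tp.2 fun i => ⟨sup_sub _, by rw [sum_sup]; exact (x i).2⟩
  · intro x _ y _ h
    funext i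
    refine Subtype.ext (funext fun p => ?_)
    rw [← ind_sup (x i).1 p, ← ind_sup (y i).1 p]
    exact congrArg (fun S => ind S p) (congrFun h i)
  · intro d hd
    rw [mem_Tp] at hd
    have h1 : ∀ i, (fun p : ↥P => ind (d i) p) ∈ Vp par P := by
      intro i
      rw [mem_Vp, ← sum_sup, sup_ind (hd i).1]
      exact (hd i).2
    exact ⟨fun i => ⟨fun p => ind (d i) p, h1 i⟩, mem_univ _, funext fun i => sup_ind (hd i).1⟩
  · intro x _
    rfl

theorem card_Tp {n : ℕ} : ((Tp (Fin n) par P).card : ℝ) = (Fintype.card (Fin n → Vp par P) : ℝ) := by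
  have h := sum_Tp (par := par) (P := P) (n := n) fun _ => 1
  rw [sum_const, sum_const, nsmul_eq_mul, nsmul_eq_mul, mul_one, mul_one, card_univ] at h
  exact h

end grp

section pseudo
variable {Φ : Fam} {f par : ℕ → ZMod 2} {P : Finset ℕ}

/-- the patterns -/
theorem pat_TT {M n : ℕ} {e : Fin M → Fin n → ZMod 2} {Nn : Fin M → Finset ℕ} {ε : ℝ}
    (h : TT Φ f e Nn par ε P) (A : Finset (Fin M)) :
    |(((Tp (Fin n) par P).filter fun d => ∀ j, (rk Φ f (Fs e Nn d j) = 0 ↔ j ∈ A)).card : ℝ) /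
      ((Tp (Fin n) par P).card : ℝ) - wt (al 0) A| ≤ ε := by
  have h1 := h {r | ∀ k, (r k = 0 ↔ k ∈ A)}
  rw [meas_al] at h1
  refine le_trans (le_of_eq ?_) h1
  congr 3
  exact congrArg Nat.cast (fcc fun _ _ => Iff.rfl)

/-- the alternating sum of the weights -/
theorem wt_alt {M : ℕ} (hM : 0 < M) (κ : ℝ) :
    ∑ A : Finset (Fin M), wt κ A * ((1 - κ) ^ A.card * (-κ) ^ (M - A.card)) = 0 := by
  have h1 : ∀ A : Finset (Fin M), wt κ A * ((1 - κ) ^ A.card * (-κ) ^ (M - A.card)) =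
      (κ * (1 - κ)) ^ A.card * ((1 - κ) * (-κ)) ^ (M - A.card) := by
    intro A
    unfold wt
    rw [mul_pow, mul_pow]
    ring
  have h2 := Finset.sum_pow_mul_eq_add_pow (κ * (1 - κ)) ((1 - κ) * (-κ)) (univ : Finset (Fin M))
  rw [card_univ, Fintype.card_fin, powerset_univ] at h2
  rw [sum_congr rfl fun A _ => h1 A, h2]
  have h3 : κ * (1 - κ) + (1 - κ) * (-κ) = 0 := by ring
  rw [h3, zero_pow hM.ne']

/-- the mean of the product -/
theorem mean_prod {M : ℕ} (hM : 0 < M) {α : Type} (D : Finset α) (hD : D.Nonempty)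
    (Q : Fin M → α → Prop) {κ ε : ℝ} (h0 : 0 ≤ κ) (h1 : κ ≤ 1)
    (h : ∀ A : Finset (Fin M), |((D.filter fun d => ∀ j, (Q j d ↔ j ∈ A)).card : ℝ) / (D.card : ℝ) -
      wt κ A| ≤ ε) :
    |(∑ d ∈ D, ∏ j, ((if Q j d then 1 else 0) - κ)) / (D.card : ℝ)| ≤ 2 ^ M * ε := by
  have hDp : (0 : ℝ) < D.card := by exact_mod_cast card_pos.2 hD
  have h2 : ∀ d ∈ D, ∏ j, ((if Q j d then (1 : ℝ) else 0) - κ) =
      ∑ A : Finset (Fin M), if (∀ j, (Q j d ↔ j ∈ A)) then (1 - κ) ^ A.card * (-κ) ^ (M - A.card)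
        else 0 := by
    intro d _
    rw [sum_eq_single (univ.filter fun j => Q j d)]
    · rw [if_pos fun j => by rw [mem_filter]; exact (and_iff_right (mem_univ _)).symm]
      have h3 : ∀ j : Fin M, (if Q j d then (1 : ℝ) else 0) - κ = if Q j d then 1 - κ else -κ := by
        intro j
        split_ifs <;> ring
      rw [prod_congr rfl fun j _ => h3 j, prod_ite, prod_const, prod_const]
      congr 2
      have h4 : (univ.filter fun j => ¬ Q j d) = univ \ univ.filter fun j => Q j d := by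
        ext j
        simp
      rw [h4, card_sdiff_of_subset (subset_univ _), card_univ, Fintype.card_fin]
    · intro A _ hA
      rw [if_neg]
      intro h3
      apply hA
      ext j
      rw [mem_filter]
      exact ⟨fun hj => ⟨mem_univ _, (h3 j).2 hj⟩, fun hj => (h3 j).1 hj.2⟩
    · exact fun h' => absurd (mem_univ _) h'
  rw [sum_congr rfl h2, sum_comm, sum_div]
  have h3 : ∀ A : Finset (Fin M), (∑ d ∈ D, if (∀ j, (Q j d ↔ j ∈ A)) then
      (1 - κ) ^ A.card * (-κ) ^ (M - A.card) else 0) / (D.card : ℝ) =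
      (((D.filter fun d => ∀ j, (Q j d ↔ j ∈ A)).card : ℝ) / (D.card : ℝ) - wt κ A) *
        ((1 - κ) ^ A.card * (-κ) ^ (M - A.card)) +
      wt κ A * ((1 - κ) ^ A.card * (-κ) ^ (M - A.card)) := by
    intro A
    rw [← sum_filter, sum_const, nsmul_eq_mul]
    ring
  rw [sum_congr rfl fun A _ => h3 A, sum_add_distrib, wt_alt hM, add_zero]
  refine (abs_sum_le_sum_abs _ _).trans ?_
  have h4 : ∀ A ∈ (univ : Finset (Finset (Fin M))),
      |(((D.filter fun d => ∀ j, (Q j d ↔ j ∈ A)).card : ℝ) / (D.card : ℝ) - wt κ A) *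
        ((1 - κ) ^ A.card * (-κ) ^ (M - A.card))| ≤ ε := by
    intro A _
    rw [abs_mul]
    have h5 : |(1 - κ) ^ A.card * (-κ) ^ (M - A.card)| ≤ 1 := by
      rw [abs_mul, abs_pow, abs_pow, abs_neg, abs_of_nonneg h0, abs_of_nonneg (by linarith)]
      exact mul_le_one₀ (pow_le_one₀ (by linarith) (by linarith)) (by positivity)
        (pow_le_one₀ h0 h1)
    calc _ ≤ ε * 1 := mul_le_mul (h A) h5 (abs_nonneg _) ((abs_nonneg _).trans (h A))
      _ = ε := mul_one _
  refine (sum_le_sum h4).trans (le_of_eq ?_)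
  rw [sum_const, card_univ, Fintype.card_finset, Fintype.card_fin, nsmul_eq_mul]
  push_cast
  rfl

/-- the exponents of the Gowers norm -/
noncomputable def eG (k : ℕ) (ω : Finset (Fin k)) : Fin (k + 1) → ZMod 2 :=
  Fin.cons 1 fun i => if i ∈ ω then 1 else 0

theorem eG_ne {k : ℕ} (ω : Finset (Fin k)) : eG k ω ≠ 0 := by
  intro h
  have h1 := congrFun h 0
  rw [show eG k ω 0 = 1 from Fin.cons_zero _ _] at h1
  exact one_ne_zero h1

theorem eG_inj (k : ℕ) : Function.Injective (eG k) := by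
  intro ω ω' h
  ext i
  have h1 := congrFun h i.succ
  rw [show eG k ω i.succ = if i ∈ ω then 1 else 0 from Fin.cons_succ _ _ _,
    show eG k ω' i.succ = if i ∈ ω' then 1 else 0 from Fin.cons_succ _ _ _] at h1
  by_cases h2 : i ∈ ω <;> by_cases h3 : i ∈ ω'
  · exact ⟨fun _ => h3, fun _ => h2⟩
  · rw [if_pos h2, if_neg h3] at h1
    exact absurd h1 one_ne_zero
  · rw [if_neg h2, if_pos h3] at h1
    exact absurd h1.symm one_ne_zero
  · exact ⟨fun h => absurd h h2, fun h => absurd h h3⟩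

/-- the set of the form `N d` -/
noncomputable def sN (Nb d : Finset ℕ) : Finset ℕ := symmDiff Nb d

theorem Fs_eG {k : ℕ} (Nb : Finset ℕ) (eq : Fin (Fintype.card (Finset (Fin k))) ≃ Finset (Fin k))
    (x : Vp par P) (h : Fin k → Vp par P) (j : Fin (Fintype.card (Finset (Fin k)))) :
    Fs (fun j => eG k (eq j)) (fun _ => Nb)
      (fun i => sup ((Fin.cons x h : Fin (k + 1) → Vp par P) i).1) j =
      sN Nb (sup (x + ∑ i ∈ eq j, h i).1) := by
  ext p
  rw [mem_Fs, sN, ← ind_one, ← ind_add, Fin.sum_univ_succ]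
  have e0 : eG k (eq j) 0 = 1 := Fin.cons_zero _ _
  have e1 : ∀ i : Fin k, eG k (eq j) i.succ = if i ∈ eq j then 1 else 0 := fun i => Fin.cons_succ _ _ _
  rw [e0, one_mul]
  by_cases hp : p ∈ P
  · have h1 : ∀ y : Vp par P, ind (sup y.1) p = y.1 ⟨p, hp⟩ := fun y => ind_sup y.1 ⟨p, hp⟩
    have h2 : ∑ i : Fin k, eG k (eq j) i.succ *
        ind (sup ((Fin.cons x h : Fin (k + 1) → Vp par P) i.succ).1) p =
        ∑ i ∈ eq j, (h i).1 ⟨p, hp⟩ := by
      have h4 : ∑ i : Fin k, (if i ∈ eq j then (h i).1 ⟨p, hp⟩ else 0) =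
          ∑ i ∈ eq j, (h i).1 ⟨p, hp⟩ := by
        rw [sum_ite_mem, univ_inter]
      rw [← h4]
      refine sum_congr rfl fun i _ => ?_
      rw [e1, Fin.cons_succ, h1]
      split_ifs
      · rw [one_mul]
      · rw [zero_mul]
    rw [h2, Fin.cons_zero, h1, h1]
    have h3 : (x + ∑ i ∈ eq j, h i).1 ⟨p, hp⟩ = x.1 ⟨p, hp⟩ + ∑ i ∈ eq j, (h i).1 ⟨p, hp⟩ := by
      rw [Submodule.coe_add, Submodule.coe_sum, Pi.add_apply, Finset.sum_apply]
    rw [h3]
  · have h1 : ∀ y : ↥P → ZMod 2, ind (sup y) p = 0 := fun y => ind_not fun h => hp (sup_sub y h)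
    rw [h1, h1]
    rw [sum_eq_zero fun i _ => by rw [h1, mul_zero], add_zero]

end pseudo

end Q283.LP
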