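import Pool.Agent.Q283.LP.X4

/-!
# Project LP: independent tuples of divisors, and blocks of forms
-/

set_option autoImplicit false
set_option linter.unusedSectionVars false
set_option linter.unusedVariables false

open scoped Classical

namespace Q283.LP

open Finset Module Filter
open Q283.GM (Fam rk RC)
open Q283.GS (al)
open Q283.NJ (wt)
open Q155.NL (Cl Alm)

/-! ### squarefree parts -/

theorem mem_sqn {n p : ℕ} : p ∈ (sqn n).primeFactors ↔ n.factorization p % 2 = 1 := by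
  rw [sqn_pf, mem_filter]
  refine ⟨fun h => h.2, fun h => ⟨?_, h⟩⟩
  rw [← Nat.support_factorization, Finsupp.mem_support_iff]
  intro h3
  rw [h3] at h
  exact absurd h (by decide)

theorem sqn_ext {a b : ℕ} (h : ∀ p, a.factorization p % 2 = b.factorization p % 2) : sqn a = sqn b := by
  rw [← Nat.prod_primeFactors_of_squarefree (sqn_sqf a), ← Nat.prod_primeFactors_of_squarefree (sqn_sqf b)]
  refine prod_congr ?_ fun _ _ => rfl
  ext p
  rw [mem_sqn, mem_sqn, h]

theorem sqn_mul_sq {a b : ℕ} (ha : a ≠ 0) (hb : b ≠ 0) : sqn (a * b ^ 2) = sqn a := by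
  refine sqn_ext fun p => ?_
  rw [Nat.factorization_mul ha (pow_ne_zero 2 hb), Finsupp.add_apply, Nat.factorization_pow,
    Finsupp.smul_apply, smul_eq_mul, Nat.add_mul_mod_self_left]

/-! ### the exponents of the sets -/

/-- the exponents of a set -/
def eT {n : ℕ} (T : Finset (Fin n)) : Fin n → ZMod 2 := fun i => if i ∈ T then 1 else 0

theorem frn_eT {n : ℕ} (N : ℕ) (T : Finset (Fin n)) (d : Fin n → ℕ) :
    frn N (eT T) d = N * ∏ i ∈ T, d i := by
  unfold frn eT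
  congr 1
  rw [← Finset.prod_subset (Finset.subset_univ T)]
  · refine prod_congr rfl fun i hi => ?_
    have h3 : (1 : ZMod 2).val = 1 := rfl
    rw [if_pos hi, h3, pow_one]
  · intro i _ hi
    rw [if_neg hi, ZMod.val_zero, pow_zero]

theorem eT_ne {n : ℕ} {T : Finset (Fin n)} (hT : T.Nonempty) : eT T ≠ 0 := by
  obtain ⟨i, hi⟩ := hT
  intro h
  have h1 := congrFun h i
  unfold eT at h1
  rw [if_pos hi, Pi.zero_apply] at h1
  exact absurd h1 (by decide)

theorem eT_inj {n : ℕ} {T U : Finset (Fin n)} (h : eT T = eT U) : T = U := by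
  ext i
  have h1 := congrFun h i
  unfold eT at h1
  by_cases h2 : i ∈ T <;> by_cases h3 : i ∈ U
  · exact ⟨fun _ => h3, fun _ => h2⟩
  · rw [if_pos h2, if_neg h3] at h1
    exact absurd h1 (by decide)
  · rw [if_neg h2, if_pos h3] at h1
    exact absurd h1 (by decide)
  · exact ⟨fun h => absurd h h2, fun h => absurd h h3⟩

/-! ### members of the class -/

theorem exists_seq (ρ : RC) : ∃ a : ℕ → ℕ, Function.Injective a ∧ ∀ i, Cl ρ.Φ (a i) := by
  have h1 : {p : ℕ | p.Prime ∧ p ≡ 1 [MOD ρ.m]}.Infinite :=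
    Nat.infinite_setOfPred_prime_modEq_one ρ.pos.ne'
  refine ⟨fun i => (h1.natEmbedding _ i : ℕ), fun i j hij => (h1.natEmbedding _).injective
    (Subtype.ext hij), fun i => ?_⟩
  obtain ⟨h2, h3⟩ := (h1.natEmbedding _ i).2
  have hm : 1 < ρ.m := by
    obtain ⟨k, hk⟩ := ρ.h4
    have := ρ.pos
    omega
  have h4 : ((h1.natEmbedding _ i : ℕ)) % ρ.m = 1 := by
    have h5 : ((h1.natEmbedding _ i : ℕ)) % ρ.m = 1 % ρ.m := h3
    rw [h5, Nat.mod_eq_of_lt hm]
  refine ⟨h2.squarefree, fun p hp => ?_⟩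
  rw [h2.primeFactors, mem_singleton] at hp
  rw [hp, RC.P_iff, h4]
  exact ⟨h2, mem_union_left _ ρ.h1⟩

/-! ### the law for arbitrary index types -/

/-- the law for all the families -/
def LawS (ρ : RC) (f : ℕ → ZMod 2) (S : ℕ → Prop) : Prop :=
  ∀ (M n : ℕ) (N : Fin M → ℕ) (e : Fin M → Fin n → ZMod 2), (∀ j, Cl ρ.Φ (N j)) →
      (∀ j, e j ≠ 0) → Df N e → ∀ ε : ℝ, 0 < ε → ∀ᶠ D in atTop, S D → ∀ R : Set (Fin M → ℕ),
        |shN ρ.Φ D (fun d => (fun j => rk ρ.Φ f (sqn (frn (N j) (e j) d)).primeFactors) ∈ R) -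
          ∑' r : R, ∏ j, al (r.1 j)| ≤ ε

theorem shN_congr {Φ : Fam} {D n : ℕ} {P Q : (Fin n → ℕ) → Prop} (h : ∀ d, P d ↔ Q d) :
    shN Φ D P = shN Φ D Q := by
  have : P = Q := funext fun d => propext (h d)
  rw [this]

/-- the patterns, for any finite index type -/
theorem law_ty {ρ : RC} {f : ℕ → ZMod 2} {S : ℕ → Prop} (h : LawS ρ f S) (J : Type) [Fintype J]
    {n : ℕ} (N : J → ℕ) (e : J → Fin n → ZMod 2) (hN : ∀ j, Cl ρ.Φ (N j)) (he : ∀ j, e j ≠ 0)
    (hd : ∀ j l, j ≠ l → ¬ (e j = e l ∧ N j = N l)) {ε : ℝ} (hε : 0 < ε) :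
    ∀ᶠ D in atTop, S D → ∀ Q : Finset J,
      |shN ρ.Φ D (fun d => ∀ j, (rk ρ.Φ f (sqn (frn (N j) (e j) d)).primeFactors = 0 ↔ j ∈ Q)) -
        al 0 ^ Q.card * (1 - al 0) ^ (Fintype.card J - Q.card)| ≤ ε := by
  obtain ⟨g⟩ : Nonempty (J ≃ Fin (Fintype.card J)) := ⟨Fintype.equivFin J⟩
  have h1 := h (Fintype.card J) n (fun i => N (g.symm i)) (fun i => e (g.symm i)) (fun _ => hN _)
    (fun _ => he _) (fun i l hil => hd _ _ fun h' => hil (g.symm.injective h')) ε hε
  filter_upwards [h1] with D hD hS Q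
  have h2 := hD hS {r | ∀ k, (r k = 0 ↔ k ∈ Q.map g.toEmbedding)}
  rw [meas_al] at h2
  unfold wt at h2
  rw [card_map] at h2
  refine le_trans (le_of_eq ?_) h2
  congr 2
  refine shN_congr fun d => ?_
  constructor
  · intro h3 k
    rw [mem_map_equiv]
    exact h3 (g.symm k)
  · intro h3 j
    have h4 := h3 (g j)
    rw [mem_map_equiv] at h4
    simp only [Equiv.symm_apply_apply] at h4
    exact h4

/-! ### independent tuples -/

/-- no product of the members of the tuple is a square -/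
def IdN {n : ℕ} (d : Fin n → ℕ) : Prop := ∀ T : Finset (Fin n), T.Nonempty → ¬ IsSquare (∏ i ∈ T, d i)

/-- the independent tuples -/
noncomputable def IkN (Φ : Fam) (n D : ℕ) : Finset (Fin n → ℕ) :=
  (Fintype.piFinset fun _ : Fin n => dvN Φ D).filter IdN

theorem mem_IkN {Φ : Fam} {n D : ℕ} {d : Fin n → ℕ} : d ∈ IkN Φ n D ↔ (∀ i, d i ∈ dvN Φ D) ∧ IdN d := by
  unfold IkN
  rw [mem_filter, Fintype.mem_piFinset]

theorem al0_c2 : al 0 = Pool.Agent.Y703.CQ.c2 := by
  have h1 : al 0 = Pool.Agent.Y703.CQ.c2 * Pool.Agent.Y697.PQ.cf 0 := rfl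
  have h2 : Pool.Agent.Y697.PQ.cf 0 = 1 := rfl
  rw [h1, h2, mul_one]

theorem al0_lt : 0.4194 < al 0 ∧ al 0 < 0.4195 := by
  rw [al0_c2]
  exact ⟨Pool.Agent.Y948.CQ.t_C2.2.2.2.1, Pool.Agent.Y948.CQ.t_C2.2.2.2.2⟩

theorem shN_mono {Φ : Fam} {D n : ℕ} {P Q : (Fin n → ℕ) → Prop}
    (h : ∀ d ∈ Fintype.piFinset fun _ : Fin n => dvN Φ D, P d → Q d) : shN Φ D P ≤ shN Φ D Q := by
  unfold shN
  refine div_le_div_of_nonneg_right ?_ (Nat.cast_nonneg _)
  rw [Nat.cast_le]
  refine card_le_card fun d hd => ?_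
  obtain ⟨h1, h2⟩ := Finset.mem_filter.1 hd
  exact Finset.mem_filter.2 ⟨h1, h d h1 h2⟩

/-- the squares are rare -/
theorem sq_rare {ρ : RC} {f : ℕ → ZMod 2} {S : ℕ → Prop} (h : LawS ρ f S) {n : ℕ}
    {T : Finset (Fin n)} (hT : T.Nonempty) {ε : ℝ} (hε : 0 < ε) :
    ∀ᶠ D in atTop, S D → shN ρ.Φ D (fun d => IsSquare (∏ i ∈ T, d i)) ≤ ε := by
  obtain ⟨a, ha, haC⟩ := exists_seq ρ
  obtain ⟨m, hm⟩ := exists_pow_lt_of_lt_one (show 0 < ε / 2 by positivity) (show (0.6 : ℝ) < 1 by norm_num)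
  obtain ⟨A, hA⟩ : ∃ A : Finset (Fin m), A = univ.filter fun j : Fin m =>
    rk ρ.Φ f (a j).primeFactors = 0 := ⟨_, rfl⟩
  have h1 := law_ty h (Fin m) (fun j => a j) (fun _ => eT T) (fun j => haC j) (fun _ => eT_ne hT)
    (fun j l hjl h' => hjl (Fin.ext (ha h'.2))) (show 0 < ε / 2 by positivity)
  obtain ⟨k1, k2⟩ := al0_lt
  filter_upwards [h1, eventually_ne_atTop 0] with D hD hD0 hS
  have h2 := (abs_le.1 (hD hS A)).2
  have h3 : al 0 ^ A.card * (1 - al 0) ^ (Fintype.card (Fin m) - A.card) ≤ 0.6 ^ m := by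
    have hA1 : A.card ≤ m := by
      have := A.card_le_univ
      rwa [Fintype.card_fin] at this
    rw [Fintype.card_fin]
    calc al 0 ^ A.card * (1 - al 0) ^ (m - A.card) ≤ 0.6 ^ A.card * 0.6 ^ (m - A.card) := by
          refine mul_le_mul ?_ ?_ (pow_nonneg (by linarith) _) (by positivity)
          · exact pow_le_pow_left₀ (by linarith) (by linarith) _
          · exact pow_le_pow_left₀ (by linarith) (by linarith) _
      _ = 0.6 ^ m := by
          rw [← pow_add]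
          congr 1
          omega
  have h4 : shN ρ.Φ D (fun d => IsSquare (∏ i ∈ T, d i)) ≤ shN ρ.Φ D (fun d =>
      ∀ j : Fin m, (rk ρ.Φ f (sqn (frn (a j) (eT T) d)).primeFactors = 0 ↔ j ∈ A)) := by
    refine shN_mono fun d hd hsq j => ?_
    obtain ⟨b, hb⟩ := hsq
    have hd0 : ∏ i ∈ T, d i ≠ 0 := Finset.prod_ne_zero_iff.2 fun i _ =>
      ((mem_dvN hD0).1 (Fintype.mem_piFinset.1 hd i)).1.1.ne_zero
    have hb0 : b ≠ 0 := by
      rintro rfl
      exact hd0 (by rw [hb, mul_zero])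
    rw [frn_eT, hb, ← pow_two, sqn_mul_sq (haC j).1.ne_zero hb0, sqn_of_sqf (haC j).1, hA, mem_filter]
    exact ⟨fun h => ⟨mem_univ _, h⟩, fun h => h.2⟩
  linarith

theorem shN_nonneg {Φ : Fam} {D n : ℕ} (P : (Fin n → ℕ) → Prop) : 0 ≤ shN Φ D P := by
  unfold shN
  positivity

theorem pi_pos (Φ : Fam) {n D : ℕ} (hD : D ≠ 0) :
    (0 : ℝ) < ((Fintype.piFinset fun _ : Fin n => dvN Φ D).card : ℝ) := by
  have h : (Fintype.piFinset fun _ : Fin n => dvN Φ D).Nonempty :=
    ⟨fun _ => 1, Fintype.mem_piFinset.2 fun _ => one_dvN Φ hD⟩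
  exact_mod_cast Finset.card_pos.2 h

/-- **Almost all the tuples are independent.** -/
theorem ind_most {ρ : RC} {f : ℕ → ZMod 2} {S : ℕ → Prop} (h : LawS ρ f S) (n : ℕ) {ε : ℝ}
    (hε : 0 < ε) : ∀ᶠ D in atTop, S D →
      (1 - ε) * ((Fintype.piFinset fun _ : Fin n => dvN ρ.Φ D).card : ℝ) ≤ ((IkN ρ.Φ n D).card : ℝ) := by
  have h1 : ∀ T : Finset (Fin n), ∀ᶠ D in atTop, S D → T.Nonempty →
      shN ρ.Φ D (fun d => IsSquare (∏ i ∈ T, d i)) ≤ ε / 2 ^ n := by
    intro T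
    by_cases hT : T.Nonempty
    · filter_upwards [sq_rare h hT (show 0 < ε / 2 ^ n by positivity)] with D hD hS _
      exact hD hS
    · exact Eventually.of_forall fun D _ h' => absurd h' hT
  filter_upwards [eventually_all.2 h1, eventually_ne_atTop 0] with D hD hD0 hS
  have hpos := pi_pos ρ.Φ (n := n) hD0
  obtain ⟨I, hI⟩ : ∃ I, I = Fintype.piFinset fun _ : Fin n => dvN ρ.Φ D := ⟨_, rfl⟩
  rw [← hI] at hpos ⊢
  have h2 : I \ IkN ρ.Φ n D ⊆ (univ.filter fun T : Finset (Fin n) => T.Nonempty).biUnion fun T =>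
      I.filter fun d => IsSquare (∏ i ∈ T, d i) := by
    intro d hd
    rw [Finset.mem_sdiff] at hd
    have h3 : ¬ IdN d := fun h' => hd.2 (by
      unfold IkN
      rw [← hI]
      exact mem_filter.2 ⟨hd.1, h'⟩)
    unfold IdN at h3
    push Not at h3
    obtain ⟨T, hT, hsq⟩ := h3
    exact mem_biUnion.2 ⟨T, mem_filter.2 ⟨mem_univ _, hT⟩, mem_filter.2 ⟨hd.1, hsq⟩⟩
  have h3 : ((I \ IkN ρ.Φ n D).card : ℝ) ≤ ε * I.card := by
    calc ((I \ IkN ρ.Φ n D).card : ℝ) ≤ (((univ.filter fun T : Finset (Fin n) => T.Nonempty).biUnion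
          fun T => I.filter fun d => IsSquare (∏ i ∈ T, d i)).card : ℝ) := by
          exact_mod_cast card_le_card h2
      _ ≤ ∑ T ∈ univ.filter fun T : Finset (Fin n) => T.Nonempty,
          ((I.filter fun d => IsSquare (∏ i ∈ T, d i)).card : ℝ) := by
          exact_mod_cast card_biUnion_le
      _ ≤ ∑ T ∈ univ.filter (fun T : Finset (Fin n) => T.Nonempty), ε / 2 ^ n * (I.card : ℝ) := by
          refine sum_le_sum fun T hT => ?_
          have h4 := hD T hS (mem_filter.1 hT).2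
          unfold shN at h4
          rw [← hI, div_le_iff₀ hpos] at h4
          refine le_trans (le_of_eq ?_) h4
          exact congrArg Nat.cast (fcc fun _ _ => Iff.rfl)
      _ ≤ ∑ T : Finset (Fin n), ε / 2 ^ n * (I.card : ℝ) :=
          sum_le_sum_of_subset_of_nonneg (filter_subset _ _) fun _ _ _ => by positivity
      _ = ε * I.card := by
          rw [sum_const, card_univ, Fintype.card_finset, Fintype.card_fin, nsmul_eq_mul]
          push_cast
          field_simp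
  have h4 : IkN ρ.Φ n D ⊆ I := by
    unfold IkN
    rw [← hI]
    exact filter_subset _ _
  have h5 : ((I \ IkN ρ.Φ n D).card : ℝ) = (I.card : ℝ) - (IkN ρ.Φ n D).card := by
    rw [card_sdiff_of_subset h4, Nat.cast_sub (card_le_card h4)]
  linarith

/-- from all the tuples to the independent ones -/
theorem to_ind {E : Type} {I I' : Finset E} (hs : I' ⊆ I) (hI : 0 < (I.card : ℝ)) {δ c : ℝ}
    (hδ : δ ≤ 1 / 2) (hδ0 : 0 ≤ δ) (h : (1 - δ) * (I.card : ℝ) ≤ I'.card) (hc0 : 0 ≤ c) (hc1 : c ≤ 1)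
    {P : E → Prop} (hP : |((I.filter P).card : ℝ) / I.card - c| ≤ δ) :
    |((I'.filter P).card : ℝ) - c * I'.card| ≤ 4 * δ * I'.card := by
  have hI' : (1 / 2 : ℝ) * I.card ≤ I'.card := by
    refine le_trans ?_ h
    exact mul_le_mul_of_nonneg_right (by linarith) hI.le
  have h1 : ((I'.filter P).card : ℝ) ≤ (I.filter P).card := by
    exact_mod_cast card_le_card (filter_subset_filter _ hs)
  have h2 : ((I.filter P).card : ℝ) ≤ (I'.filter P).card + (I.card - I'.card) := by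
    have h3 : I.filter P ⊆ I'.filter P ∪ (I \ I') := by
      intro x hx
      obtain ⟨h4, h5⟩ := mem_filter.1 hx
      by_cases h6 : x ∈ I'
      · exact mem_union_left _ (mem_filter.2 ⟨h6, h5⟩)
      · exact mem_union_right _ (Finset.mem_sdiff.2 ⟨h4, h6⟩)
    have h4 := (card_le_card h3).trans (card_union_le _ _)
    have h5 : ((I \ I').card : ℝ) = (I.card : ℝ) - I'.card := by
      rw [card_sdiff_of_subset hs, Nat.cast_sub (card_le_card hs)]
    have h6 : ((I.filter P).card : ℝ) ≤ (I'.filter P).card + (I \ I').card := by exact_mod_cast h4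
    linarith
  have h3 : ((I'.card : ℝ)) ≤ I.card := by exact_mod_cast card_le_card hs
  obtain ⟨p1, p2⟩ := abs_le.1 hP
  have e1 : ((I.filter P).card : ℝ) ≤ (c + δ) * I.card := by
    have : ((I.filter P).card : ℝ) / I.card ≤ c + δ := by linarith
    rwa [div_le_iff₀ hI] at this
  have e2 : (c - δ) * I.card ≤ ((I.filter P).card : ℝ) := by
    have : c - δ ≤ ((I.filter P).card : ℝ) / I.card := by linarith
    rwa [le_div_iff₀ hI] at this
  have h7 : (I.card : ℝ) - I'.card ≤ δ * I.card := by linarith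
  rw [abs_le]
  constructor
  · have : (c - δ) * I'.card ≤ (c - δ) * I.card + δ * (I.card - I'.card) := by
      nlinarith
    nlinarith
  · have : c * ((I.card : ℝ) - I'.card) ≤ 1 * (δ * I.card) :=
      mul_le_mul hc1 h7 (by linarith) (by norm_num)
    nlinarith

/-- the number of the independent tuples with a property -/
noncomputable def cnI (Φ : Fam) (D : ℕ) {n : ℕ} (P : (Fin n → ℕ) → Prop) : ℝ :=
  (((IkN Φ n D).filter P).card : ℝ)

theorem cnI_congr {Φ : Fam} {D n : ℕ} {P Q : (Fin n → ℕ) → Prop} (h : ∀ d ∈ IkN Φ n D, P d ↔ Q d) :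
    cnI Φ D P = cnI Φ D Q := by
  unfold cnI
  exact congrArg Nat.cast (fcc h)

theorem to_indS (Φ : Fam) {n D : ℕ} (hD : D ≠ 0) {δ c : ℝ} (hδ : δ ≤ 1 / 2) (hδ0 : 0 ≤ δ)
    (h : (1 - δ) * ((Fintype.piFinset fun _ : Fin n => dvN Φ D).card : ℝ) ≤ (IkN Φ n D).card)
    (hc0 : 0 ≤ c) (hc1 : c ≤ 1) {P : (Fin n → ℕ) → Prop} (hP : |shN Φ D P - c| ≤ δ) :
    |cnI Φ D P - c * (IkN Φ n D).card| ≤ 4 * δ * (IkN Φ n D).card :=
  to_ind (I := Fintype.piFinset fun _ : Fin n => dvN Φ D) (filter_subset _ _) (pi_pos Φ hD) hδ hδ0 h hc0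
    hc1 hP

/-! ### pairs of bases and characters -/

/-- the pairs of an index and a nonempty set -/
abbrev Pn (M n : ℕ) := {y : Fin M × Finset (Fin n) // y.2.Nonempty}

theorem card_Pn (M n : ℕ) : Fintype.card (Pn M n) = M * (2 ^ n - 1) := by
  have h1 : (univ.filter fun T : Finset (Fin n) => T.Nonempty).card = 2 ^ n - 1 := by
    have h2 : (univ.filter fun T : Finset (Fin n) => T.Nonempty) = univ.erase ∅ := by
      ext T
      rw [mem_filter, mem_erase, nonempty_iff_ne_empty]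
      tauto
    rw [h2, card_erase_of_mem (mem_univ _), card_univ, Fintype.card_finset, Fintype.card_fin]
  rw [Fintype.card_subtype]
  have h2 : (univ.filter fun y : Fin M × Finset (Fin n) => y.2.Nonempty) =
      univ ×ˢ (univ.filter fun T : Finset (Fin n) => T.Nonempty) := by
    ext y
    rw [mem_filter, mem_product, mem_filter]
    simp only [mem_univ, true_and]
  rw [h2, card_product, h1, card_univ, Fintype.card_fin]

/-- the form of a pair is good -/
noncomputable def gdP (ρ : RC) (f : ℕ → ZMod 2) {M n : ℕ} (N : Fin M → ℕ) (y : Pn M n)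
    (d : Fin n → ℕ) : Prop := rk ρ.Φ f (sqn (N y.1.1 * ∏ i ∈ y.1.2, d i)).primeFactors = 0

/-- **The patterns of all the characters.** -/
theorem pat_ch {ρ : RC} {f : ℕ → ZMod 2} {S : ℕ → Prop} (h : LawS ρ f S) (M n : ℕ)
    (N : Fin M → ℕ) (hN : ∀ j, Cl ρ.Φ (N j)) (hinj : Function.Injective N) {ε : ℝ} (hε : 0 < ε) :
    ∀ᶠ D in atTop, S D → ∀ Q : Finset (Pn M n),
      |cnI ρ.Φ D (fun d => ∀ y, (gdP ρ f N y d ↔ y ∈ Q)) -
        al 0 ^ Q.card * (1 - al 0) ^ (M * (2 ^ n - 1) - Q.card) * (IkN ρ.Φ n D).card| ≤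
          ε * (IkN ρ.Φ n D).card := by
  obtain ⟨δ, hδ⟩ : ∃ δ : ℝ, δ = min (ε / 4) (1 / 2) := ⟨_, rfl⟩
  have hδ0 : 0 < δ := by
    rw [hδ]
    exact lt_min (by positivity) (by norm_num)
  have hδ1 : δ ≤ 1 / 2 := by
    rw [hδ]
    exact min_le_right _ _
  have hδ2 : 4 * δ ≤ ε := by
    have : δ ≤ ε / 4 := by
      rw [hδ]
      exact min_le_left _ _
    linarith
  have h1 := law_ty h (Pn M n) (fun y => N y.1.1) (fun y => eT y.1.2) (fun y => hN _)
    (fun y => eT_ne y.2) (fun y z hyz h' => hyz (Subtype.ext (Prod.ext (hinj h'.2) (eT_inj h'.1)))) hδ0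
  obtain ⟨k1, k2⟩ := al0_lt
  filter_upwards [h1, ind_most h n hδ0, eventually_ne_atTop 0] with D hD hind hD0 hS Q
  have h2 := hD hS Q
  rw [card_Pn] at h2
  have h3 : shN ρ.Φ D (fun d => ∀ y, (gdP ρ f N y d ↔ y ∈ Q)) = shN ρ.Φ D (fun d : Fin n → ℕ =>
      ∀ y : Pn M n, (rk ρ.Φ f (sqn (frn (N y.1.1) (eT y.1.2) d)).primeFactors = 0 ↔ y ∈ Q)) := by
    refine shN_congr fun d => forall_congr' fun y => ?_
    unfold gdP
    rw [frn_eT]
  rw [← h3] at h2
  have h4 := to_indS ρ.Φ hD0 hδ1 hδ0.le (hind hS)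
    (mul_nonneg (pow_nonneg (by linarith) _) (pow_nonneg (by linarith) _))
    (mul_le_one₀ (pow_le_one₀ (by linarith) (by linarith)) (pow_nonneg (by linarith) _)
      (pow_le_one₀ (by linarith) (by linarith))) h2
  exact h4.trans (mul_le_mul_of_nonneg_right hδ2 (Nat.cast_nonneg _))

/-- **From the intersections to the patterns.** -/
theorem exclN {E : Type} (I : Finset E) {M : ℕ} (P : Fin M → E → Prop) {p δ : ℝ}
    (h : ∀ B : Finset (Fin M), |((I.filter fun e => ∀ j ∈ B, P j e).card : ℝ) -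
      p ^ B.card * I.card| ≤ δ * I.card) (A : Finset (Fin M)) :
    |((I.filter fun e => ∀ j, (P j e ↔ j ∈ A)).card : ℝ) -
      (p ^ A.card * (1 - p) ^ (M - A.card)) * I.card| ≤ 2 ^ M * (δ * I.card) := by
  have hδ : 0 ≤ δ * I.card := (abs_nonneg _).trans (h ∅)
  obtain ⟨x, hx⟩ : ∃ x : Fin M → E → ℝ, x = fun j e => if P j e then 1 else 0 := ⟨_, rfl⟩
  have hprod : ∀ (B : Finset (Fin M)) (e : E), ∏ j ∈ B, x j e = if ∀ j ∈ B, P j e then 1 else 0 := by
    intro B e
    by_cases hB : ∀ j ∈ B, P j e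
    · rw [if_pos hB]
      refine prod_eq_one fun j hj => ?_
      rw [hx]
      exact if_pos (hB j hj)
    · rw [if_neg hB]
      push Not at hB
      obtain ⟨j, hj, hPj⟩ := hB
      refine prod_eq_zero hj ?_
      rw [hx]
      exact if_neg hPj
  have hcard : ∀ B : Finset (Fin M), ((I.filter fun e => ∀ j ∈ B, P j e).card : ℝ) =
      ∑ e ∈ I, ∏ j ∈ B, x j e := by
    intro B
    rw [card_filter]
    push_cast
    exact sum_congr rfl fun e _ => (hprod B e).symm
  have hex : ((I.filter fun e => ∀ j, (P j e ↔ j ∈ A)).card : ℝ) =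
      ∑ e ∈ I, (∏ j ∈ A, x j e) * ∏ j ∈ Aᶜ, (-x j e + 1) := by
    rw [card_filter]
    push_cast
    refine sum_congr rfl fun e _ => ?_
    by_cases hA : ∀ j, (P j e ↔ j ∈ A)
    · rw [if_pos hA, prod_eq_one fun j hj => ?_, prod_eq_one fun j hj => ?_, one_mul]
      · rw [hx]
        have h1 : ¬ P j e := fun h' => (mem_compl.1 hj) ((hA j).1 h')
        show -(if P j e then (1 : ℝ) else 0) + 1 = 1
        rw [if_neg h1]
        norm_num
      · rw [hx]
        exact if_pos ((hA j).2 hj)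
    · rw [if_neg hA]
      push Not at hA
      obtain ⟨j, hj⟩ := hA
      symm
      rw [mul_eq_zero]
      rcases hj with ⟨h1, h2⟩ | ⟨h1, h2⟩
      · right
        refine prod_eq_zero (mem_compl.2 h2) ?_
        rw [hx]
        show -(if P j e then (1 : ℝ) else 0) + 1 = 0
        rw [if_pos h1]
        norm_num
      · left
        refine prod_eq_zero h2 ?_
        rw [hx]
        exact if_neg h1
  have hdisj : ∀ t ∈ (Aᶜ).powerset, Disjoint A t := fun t ht =>
    disjoint_left.2 fun j hj hjt => (mem_compl.1 (mem_powerset.1 ht hjt)) hj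
  have h1 : ((I.filter fun e => ∀ j, (P j e ↔ j ∈ A)).card : ℝ) =
      ∑ t ∈ (Aᶜ).powerset, (-1 : ℝ) ^ t.card * ((I.filter fun e => ∀ j ∈ A ∪ t, P j e).card : ℝ) := by
    rw [hex]
    have h2 : ∀ e ∈ I, (∏ j ∈ A, x j e) * ∏ j ∈ Aᶜ, (-x j e + 1) =
        ∑ t ∈ (Aᶜ).powerset, (-1 : ℝ) ^ t.card * ∏ j ∈ A ∪ t, x j e := by
      intro e _
      rw [prod_add, mul_sum]
      refine sum_congr rfl fun t ht => ?_
      rw [prod_const_one, mul_one, prod_neg, prod_union (hdisj t ht)]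
      ring
    rw [sum_congr rfl h2, sum_comm]
    refine sum_congr rfl fun t _ => ?_
    rw [hcard, mul_sum]
  have h2 : (p ^ A.card * (1 - p) ^ (M - A.card)) * (I.card : ℝ) =
      ∑ t ∈ (Aᶜ).powerset, (-1 : ℝ) ^ t.card * (p ^ (A ∪ t).card * I.card) := by
    have h3 : (1 - p) ^ (M - A.card) = ∏ j ∈ Aᶜ, (-p + 1) := by
      rw [prod_const, card_compl, Fintype.card_fin]
      congr 1
      ring
    rw [h3, prod_add, mul_sum, sum_mul]
    refine sum_congr rfl fun t ht => ?_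
    rw [prod_const_one, mul_one, prod_const, card_union_of_disjoint (hdisj t ht), pow_add, neg_pow]
    ring
  rw [h1, h2, ← sum_sub_distrib]
  refine (abs_sum_le_sum_abs _ _).trans ?_
  have h3 : ∀ t ∈ (Aᶜ).powerset, |(-1 : ℝ) ^ t.card *
      ((I.filter fun e => ∀ j ∈ A ∪ t, P j e).card : ℝ) -
      (-1 : ℝ) ^ t.card * (p ^ (A ∪ t).card * I.card)| ≤ δ * I.card := by
    intro t _
    rw [← mul_sub, abs_mul, abs_pow, abs_neg, abs_one, one_pow, one_mul]
    exact h (A ∪ t)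
  refine (sum_le_sum h3).trans ?_
  rw [sum_const, nsmul_eq_mul, card_powerset]
  push_cast
  refine mul_le_mul_of_nonneg_right ?_ hδ
  refine pow_le_pow_right₀ (by norm_num) ?_
  rw [card_compl, Fintype.card_fin]
  exact Nat.sub_le _ _

/-- all the twists for the new characters are good -/
def NNf (ρ : RC) (f : ℕ → ZMod 2) (n N : ℕ) (d : Fin n → ℕ) : Prop :=
  ∀ T : Finset (Fin n), T.Nonempty → rk ρ.Φ f (sqn (N * ∏ i ∈ T, d i)).primeFactors = 0

/-- **The patterns of the blocks.** -/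
theorem pat_bl {ρ : RC} {f : ℕ → ZMod 2} {S : ℕ → Prop} (h : LawS ρ f S) (M n : ℕ)
    (N : Fin M → ℕ) (hN : ∀ j, Cl ρ.Φ (N j)) (hinj : Function.Injective N) {ε : ℝ} (hε : 0 < ε) :
    ∀ᶠ D in atTop, S D → ∀ A : Finset (Fin M),
      |cnI ρ.Φ D (fun d => ∀ j, (NNf ρ f n (N j) d ↔ j ∈ A)) -
        ((al 0 ^ (2 ^ n - 1)) ^ A.card * (1 - al 0 ^ (2 ^ n - 1)) ^ (M - A.card)) *
          (IkN ρ.Φ n D).card| ≤ ε * (IkN ρ.Φ n D).card := by
  have hall : ∀ B : Finset (Fin M), ∀ᶠ D in atTop, S D →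
      |cnI ρ.Φ D (fun d => ∀ j ∈ B, NNf ρ f n (N j) d) -
        (al 0 ^ (2 ^ n - 1)) ^ B.card * (IkN ρ.Φ n D).card| ≤ ε / 2 ^ M * (IkN ρ.Φ n D).card := by
    intro B
    have h4 := pat_ch h B.card n (fun i => N (B.orderEmbOfFin rfl i)) (fun i => hN _)
      (fun i l hil => (B.orderEmbOfFin rfl).injective (hinj hil)) (show 0 < ε / 2 ^ M by positivity)
    filter_upwards [h4] with D h5 hS
    have h6 := h5 hS univ
    rw [card_univ, card_Pn, Nat.sub_self, pow_zero, mul_one, mul_comm B.card, pow_mul] at h6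
    refine le_trans (le_of_eq ?_) h6
    congr 2
    refine cnI_congr fun d _ => ?_
    constructor
    · intro h' y
      refine ⟨fun _ => mem_univ _, fun _ => ?_⟩
      exact h' _ (Finset.orderEmbOfFin_mem B rfl y.1.1) y.1.2 y.2
    · intro h' j hj T hT
      obtain ⟨i, hi⟩ : ∃ i, B.orderEmbOfFin rfl i = j := by
        have h7 := Finset.range_orderEmbOfFin B rfl
        have h8 : j ∈ Set.range (B.orderEmbOfFin rfl) := by
          rw [h7]
          exact hj
        exact h8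
      rw [← hi]
      exact (h' ⟨(i, T), hT⟩).2 (mem_univ _)
  filter_upwards [eventually_all.2 hall] with D h5 hS A
  have h6 := exclN (IkN ρ.Φ n D) (fun j d => NNf ρ f n (N j) d) (δ := ε / 2 ^ M) (fun B => by
    have h8 := h5 B hS
    unfold cnI at h8
    refine le_trans (le_of_eq ?_) h8
    congr 2
    exact congrArg Nat.cast (fcc fun _ _ => Iff.rfl)) A
  have h7 : (2 : ℝ) ^ M * (ε / 2 ^ M * (IkN ρ.Φ n D).card) = ε * (IkN ρ.Φ n D).card := by
    field_simp
  rw [h7] at h6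
  refine le_trans (le_of_eq ?_) h6
  unfold cnI
  congr 2
  exact congrArg Nat.cast (fcc fun _ _ => Iff.rfl)

/-- the number of the elements with a property -/
noncomputable def cE {E : Type} (I : Finset E) (P : E → Prop) : ℝ := ((I.filter P).card : ℝ)

theorem cE_congr {E : Type} {I : Finset E} {P Q : E → Prop} (h : ∀ d ∈ I, P d ↔ Q d) :
    cE I P = cE I Q := by
  unfold cE
  exact congrArg Nat.cast (fcc h)

/-- the number of the indices with a property -/
noncomputable def nJ (J : Type) [Fintype J] (P : J → Prop) : ℕ := (univ.filter P).card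

/-- **The law of large numbers.** -/
theorem lln_gen {E : Type} {I : Finset E} (hI : 0 < (I.card : ℝ)) (J : Type) [Fintype J]
    (P : J → E → Prop) {p δ : ℝ} (hp0 : 0 ≤ p) (hp1 : p ≤ 1)
    (h : ∀ Q : Finset J, |cE I (fun e => ∀ y, (P y e ↔ y ∈ Q)) -
      p ^ Q.card * (1 - p) ^ (Fintype.card J - Q.card) * I.card| ≤ δ * I.card)
    (hJ : 0 < Fintype.card J) {η : ℝ} (hη : 0 < η) :
    cE I (fun e => η ≤ |(nJ J (fun y => P y e) : ℝ) / Fintype.card J - p|) ≤
      (2 * Real.exp (-(η ^ 2 * Fintype.card J / 4)) + 2 ^ Fintype.card J * δ) * I.card := by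
  obtain ⟨g⟩ : Nonempty (J ≃ Fin (Fintype.card J)) := ⟨Fintype.equivFin J⟩
  obtain ⟨m, hm⟩ : ∃ m, m = Fintype.card J := ⟨_, rfl⟩
  rw [← hm] at g h hJ ⊢
  have h2 := Q283.NJ.pat_fin I m (fun k e => P (g.symm k) e) (p := p) (ε := δ) (fun A => by
    have h3 := h (A.map g.symm.toEmbedding)
    rw [card_map] at h3
    have h4 : ((I.filter fun e => ∀ k, (P (g.symm k) e ↔ k ∈ A)).card : ℝ) =
        cE I (fun e => ∀ y, (P y e ↔ y ∈ A.map g.symm.toEmbedding)) := by
      refine congrArg Nat.cast (fcc fun e _ => ?_)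
      constructor
      · intro h5 y
        rw [mem_map_equiv, ← h5, Equiv.symm_symm, Equiv.symm_apply_apply]
      · intro h5 k
        rw [h5, mem_map_equiv, Equiv.symm_symm, Equiv.apply_symm_apply]
    unfold Q283.NJ.wt
    rw [h4]
    have h5 : cE I (fun e => ∀ y, (P y e ↔ y ∈ A.map g.symm.toEmbedding)) / I.card -
        p ^ A.card * (1 - p) ^ (m - A.card) =
        (cE I (fun e => ∀ y, (P y e ↔ y ∈ A.map g.symm.toEmbedding)) -
        p ^ A.card * (1 - p) ^ (m - A.card) * I.card) / I.card := by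
      field_simp
    rw [h5, abs_div, abs_of_pos hI, div_le_iff₀ hI]
    exact h3) fun j => η ≤ |(j : ℝ) / m - p|
  have h3 := (abs_le.1 h2).2
  have h4 := Q283.NJ.wt_tail hp0 hp1 hJ hη
  have h5 : ((I.filter fun e => η ≤ |((univ.filter fun k : Fin m => P (g.symm k) e).card : ℝ) / m -
      p|).card : ℝ) / I.card ≤ 2 * Real.exp (-(η ^ 2 * m / 4)) + 2 ^ m * δ := by
    refine le_trans ?_ (add_le_add h4 le_rfl)
    linarith
  rw [div_le_iff₀ hI] at h5
  refine le_trans (le_of_eq ?_) h5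
  refine congrArg Nat.cast (fcc fun e _ => ?_)
  have h6 : nJ J (fun y => P y e) = (univ.filter fun k : Fin m => P (g.symm k) e).card := by
    unfold nJ
    refine card_bij (fun y _ => g y) (fun y hy => ?_) (fun a _ b _ hab => g.injective hab) fun k hk => ?_
    · rw [mem_filter, Equiv.symm_apply_apply]
      exact ⟨mem_univ _, (mem_filter.1 hy).2⟩
    · exact ⟨g.symm k, mem_filter.2 ⟨mem_univ _, (mem_filter.1 hk).2⟩, Equiv.apply_symm_apply _ _⟩
  rw [h6]

theorem ikn_ne {ρ : RC} {f : ℕ → ZMod 2} {S : ℕ → Prop} (h : LawS ρ f S) (n : ℕ) :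
    ∀ᶠ D in atTop, S D → (IkN ρ.Φ n D).Nonempty := by
  filter_upwards [ind_most h n (show (0 : ℝ) < 1 / 2 by norm_num), eventually_ne_atTop 0] with D hD hD0 hS
  have h1 := hD hS
  have h2 := pi_pos ρ.Φ (n := n) hD0
  have h3 : (0 : ℝ) < ((IkN ρ.Φ n D).card : ℝ) := by linarith
  exact Finset.card_pos.1 (by exact_mod_cast h3)

end Q283.LP
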