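import Pool.Agent.Q283.LP.L2

/-!
# Project LP: the local statement
-/

set_option autoImplicit false
set_option linter.unusedSectionVars false
set_option linter.unusedVariables false

open scoped Classical

namespace Q283.LP

open Finset Module
open Q283.GM (Fam Kr rk mem_Kr nr_symm)
open Pool.Agent.Y703.CQ (nr prs)
open Q155.NL (Tu lb xt xt_add φp φp_surj Rg RN Loc)
open Q283.GS (al)
open Pool.Agent.Q1.PT (avg avg_hom)

section
variable {N M : Type} [Fintype N] [Fintype M] {ι : Type} [Fintype ι] {Φ : Fam} {f : ℕ → ZMod 2}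
  {J1 : Finset ι} {S₀ W : Finset ℕ} {p q : ι → ℕ}

/-- the map of the indices -/
def vm (V : Finset ℕ) (p : ι → ℕ) : ↥V ⊕ ι → ℕ := Sum.elim (fun u => u) p

theorem lab_nr (hl : ∀ i, lb f (S₀ ∪ W) (p i) = lb f (S₀ ∪ W) (q i)) (i : ι)
    (u : ↥(S₀ ∪ W)) : nr (p i) u = nr (q i) u := congrFun (congrArg (fun z => z.2.1) (hl i)) u

theorem lab_f (hl : ∀ i, lb f (S₀ ∪ W) (p i) = lb f (S₀ ∪ W) (q i)) (i : ι) :
    f (p i) = f (q i) := congrArg (fun z => z.2.2) (hl i)

/-- **The coranks.** -/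
theorem rk_dd (hp : Tu Φ J1 (S₀ ∪ W) p)
    (hl : ∀ i, lb f (S₀ ∪ W) (p i) = lb f (S₀ ∪ W) (q i)) {X : ι → ι → ZMod 2}
    (hX : ∀ i ∈ J1, ∀ l, X i l + X l i = nr (p i) (p l)) (e : M → N → ZMod 2) {Nn : M → Finset ℕ}
    (hN : ∀ j, Nn j ⊆ W) (τ : (↥(S₀ ∪ W) → N → ZMod 2) × (ι → N → ZMod 2))
    (h0 : ∀ u : ↥(S₀ ∪ W), (u : ℕ) ∉ S₀ → τ.1 u = 0) (j : M) :
    rk Φ f (Fs e Nn (dd S₀ (S₀ ∪ W) p τ) j) =
      (gr Φ f J1 (S₀ ∪ W) q).co X (FF e (bb e (mk Nn (S₀ ∪ W)) τ.1) τ.2 j) := by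
  obtain ⟨hinj, hP⟩ := hp
  have hd : ∀ l, p l ∉ S₀ ∪ W := fun l => (hP l).2.1
  symm
  refine co_eq _ _ _ Φ f _ (vm (S₀ ∪ W) p) ?_ ?_ ?_ ?_ ?_ ?_
  · rintro (u | i) (u' | i') h
    · exact congrArg Sum.inl (Subtype.ext h)
    · exact absurd (show (u : ℕ) = p i' from h) fun h' => hd i' (h' ▸ u.2)
    · exact absurd (show p i = (u' : ℕ) from h) fun h' => hd i (h' ▸ u'.2)
    · exact congrArg Sum.inr (hinj h)
  · rintro (u | l)
    · show mk Nn (S₀ ∪ W) j u + ∑ i, e j i * τ.1 u i = 1 ↔ (u : ℕ) ∈ _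
      rw [mem_Fs]
      unfold mk
      have h1 : ∑ i, e j i * ind (dd S₀ (S₀ ∪ W) p τ i) u = ∑ i, e j i * τ.1 u i :=
        Finset.sum_congr rfl fun i _ => by rw [ind_dd_u (S₀ := S₀) hd τ i u]
      show _ ↔ ind (Nn j) u + ∑ i, e j i * ind (dd S₀ (S₀ ∪ W) p τ i) u = 1
      rw [h1]
    · show ∑ i, e j i * τ.2 l i = 1 ↔ p l ∈ _
      have h1 : ∑ i, e j i * ind (dd S₀ (S₀ ∪ W) p τ i) (p l) = ∑ i, e j i * τ.2 l i :=
        Finset.sum_congr rfl fun i _ => by rw [ind_dd_l (S₀ := S₀) hinj hd τ i l]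
      rw [mem_Fs, ind_not fun h => hd l (mem_union_right _ (hN j h)), zero_add, h1]
  · intro x hx
    have h1 : x ∈ Nn j ∪ univ.biUnion (dd S₀ (S₀ ∪ W) p τ) := (mem_filter.1 hx).1
    rcases mem_union.1 h1 with h2 | h2
    · exact ⟨Sum.inl ⟨x, mem_union_right _ (hN j h2)⟩, rfl⟩
    · obtain ⟨i, -, h3⟩ := mem_biUnion.1 h2
      rcases mem_union.1 (dd_sub h0 i h3) with h4 | h4
      · exact ⟨Sum.inl ⟨x, mem_union_left _ h4⟩, rfl⟩
      · obtain ⟨l, -, rfl⟩ := mem_image.1 h4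
        exact ⟨Sum.inr l, rfl⟩
  · rintro (u | l)
    · exact Iff.rfl
    · exact (hP l).2.2
  · rintro (u | i) (u' | i') hb ha hact
    · rfl
    · have hu : Φ.A (u : ℕ) := hact
      show nr (q i') u = nr (u : ℕ) (p i')
      rw [← lab_nr hl i' u, nr_symm (Φ.hA _ hu).1 (Φ.hA _ hu).2 (hP i').1.prime
        (Fam.ne_two (hP i').1)]
    · show nr (q i) u' = nr (p i) u'
      rw [← lab_nr hl i u']
    · have hi : i ∈ J1 := hact
      exact hX i hi i'
  · rintro (u | i) _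
    · rfl
    · exact (lab_f hl i).symm

/-- the regularity -/
theorem rgg (ht : Tu Φ J1 (S₀ ∪ W) q) {A R : ℕ} (h : Rg Φ A R W S₀ (univ.image q)) :
    Rgg (gr Φ f J1 (S₀ ∪ W) q) A R := by
  obtain ⟨h1, h2, h3⟩ := h
  have hA : ∀ i, Φ.A (q i) ↔ i ∈ J1 := fun i => (ht.2 i).2.2.symm
  have hc : Fintype.card ↥(S₀ ∪ W) = (S₀ ∪ W).card := Fintype.card_coe _
  refine ⟨fun w hw hwA => ?_, ?_, ?_⟩
  · have h4 := h1 (w.image Subtype.val) (fun x hx => by
      obtain ⟨u, -, rfl⟩ := mem_image.1 hx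
      exact u.2) (hw.image _) (fun x hx => by
      obtain ⟨u, hu, rfl⟩ := mem_image.1 hx
      exact hwA u hu)
    rw [Q155.NL.card_lab ht.1] at h4
    rw [hc]
    refine h4.trans (le_of_eq (fcc fun i _ => ?_))
    rw [Finset.sum_image fun a _ b _ h => Subtype.val_injective h, hA i]
    exact Iff.rfl
  · rw [Q155.NL.card_lab ht.1] at h2
    rw [hc]
    exact h2.trans (le_of_eq (fcc fun i _ => hA i))
  · rw [Q155.NL.card_lab ht.1] at h3
    rw [hc]
    exact h3.trans (le_of_eq (fcc fun i _ => by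
      rw [hA i]
      exact Iff.rfl))

/-- the fibres of the tuples -/
theorem TA_fib (par : ℕ → ZMod 2) (V : Finset ℕ) (τ : ↥V → N → ZMod 2)
    (h : ∃ t, (τ, t) ∈ TA N par S₀ V q) :
    Fintype.card (ι → N → ZMod 2) ≤ 2 ^ Fintype.card N *
      (univ.filter fun t : ι → N → ZMod 2 => (τ, t) ∈ TA N par S₀ V q).card := by
  obtain ⟨t₀, ht₀⟩ := h
  let L : (ι → N → ZMod 2) →+ (N → ZMod 2) :=
    { toFun := fun t i => ∑ l, par (q l) * t l i
      map_zero' := by
        funext i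
        simp
      map_add' := fun s t => by
        funext i
        simp only [Pi.add_apply, mul_add, Finset.sum_add_distrib] }
  have h1 : ∀ v : N → ZMod 2, (univ.filter fun t => L t = v).card ≤
      (univ.filter fun t : ι → N → ZMod 2 => (τ, t) ∈ TA N par S₀ V q).card := by
    intro v
    rcases (univ.filter fun t => L t = v).eq_empty_or_nonempty with h0 | ⟨s, hs⟩
    · rw [h0, card_empty]
      exact Nat.zero_le _
    · have hs' : L s = v := (mem_filter.1 hs).2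
      refine Finset.card_le_card_of_injOn (fun t => t + (t₀ - s)) ?_ ?_
      · intro t ht
        have ht' : L t = v := (mem_filter.1 ht).2
        refine mem_coe.2 (mem_filter.2 ⟨mem_univ _, mem_TA.2 ⟨(mem_TA.1 ht₀).1, fun i => ?_⟩⟩)
        have h2 := (mem_TA.1 ht₀).2 i
        have h3 : L (t + (t₀ - s)) = L t₀ := by
          rw [map_add, map_sub, ht', hs']
          abel
        have h4 := congrFun h3 i
        show ∑ u : ↥V, par u * τ u i + L (t + (t₀ - s)) i = 0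
        rw [h4]
        exact h2
      · intro a _ b _ hab
        exact add_right_cancel hab
  have h2 : Fintype.card (ι → N → ZMod 2) = ∑ v : N → ZMod 2, (univ.filter fun t => L t = v).card := by
    rw [← Finset.card_univ]
    exact Finset.card_eq_sum_card_fiberwise fun t _ => mem_coe.2 (mem_univ _)
  rw [h2]
  refine (Finset.sum_le_sum fun v _ => h1 v).trans (le_of_eq ?_)
  rw [Finset.sum_const, smul_eq_mul, Finset.card_univ, Fintype.card_fun, ZMod.card]

end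

section
variable {N M : Type} [Fintype N] [Fintype M] {ι : Type} [Fintype ι] [LinearOrder ι] {Φ : Fam}
  {f : ℕ → ZMod 2} {J1 : Finset ι} {S₀ W : Finset ℕ} {p q : ι → ℕ}

/-- the mean over the tables is the mean over the matrices -/
theorem avg_tb (h : (ι → ι → ZMod 2) → ℝ)
    (hh : ∀ X X' : ι → ι → ZMod 2, (∀ i ∈ J1, ∀ l, X i l + X l i = X' i l + X' l i) → h X = h X') :
    avg (fun α : prs J1 → ZMod 2 => h (xt α)) = avg h := by
  rw [← avg_hom (φp J1) (φp_surj J1) (fun α => h (xt α))]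
  congr 1
  funext x
  refine hh _ _ fun i hi l => ?_
  exact xt_add (fun i l => x i l + x l i) (fun _ _ _ _ => add_comm _ _)
    (fun i => Q155.KT.z2_dbl _) hi l

/-- **The local statement.** -/
theorem locL (hSEC : ∀ (N M : Type) [Fintype N] [Fintype M] (e : M → N → ZMod 2),
    Function.Injective e → (∀ j, e j ≠ 0) → ∀ (D₀ : ℕ) (δ : ℝ), 0 < δ → ∃ A R : ℕ,
    ∀ (U I : Type) [Fintype U] [Fintype I] (g : Gr U I) (m : M → U → ZMod 2)
      (T : Finset ((U → N → ZMod 2) × (I → N → ZMod 2))), Rgg g A R → T.Nonempty →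
    (∀ τ : U → N → ZMod 2, (∃ t, (τ, t) ∈ T) →
      Fintype.card (I → N → ZMod 2) ≤ D₀ * (univ.filter fun t => (τ, t) ∈ T).card) →
    ∀ r : M → ℕ, (∑ α : I → I → ZMod 2, (shr g e m T r α - ∏ j, al (r j)) ^ 2) /
      (Fintype.card (I → I → ZMod 2) : ℝ) ≤ δ) (hTV : S_TV)
    (Φ : Fam) (f : ℕ → ZMod 2) {e : M → N → ZMod 2} (hinj : Function.Injective e)
    (he0 : ∀ j, e j ≠ 0) {Nn : M → Finset ℕ} {W : Finset ℕ} (hN : ∀ j, Nn j ⊆ W)
    {par : ℕ → ZMod 2} (hpar : ∀ p q, (Φ.A p ↔ Φ.A q) → f p = f q → Φ.P p → Φ.P q → par p = par q)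
    {ε ε' : ℝ} (hε : 0 < ε) (hε' : 0 < ε') :
    ∃ A R : ℕ, Loc Φ f (Rg Φ A R W) (TT Φ f e Nn par ε) W ε' := by
  obtain ⟨B, ε₁, hε₁, hB⟩ := hTV M ε hε
  obtain ⟨δ, hδ⟩ : ∃ δ : ℝ, δ = ε' * ε₁ ^ 2 / ((B + 1 : ℕ) : ℝ) ^ Fintype.card M := ⟨_, rfl⟩
  have hBp : (0 : ℝ) < ((B + 1 : ℕ) : ℝ) ^ Fintype.card M := by positivity
  have hδ0 : 0 < δ := by
    rw [hδ]
    positivity
  obtain ⟨A, R, hAR⟩ := hSEC N M e hinj he0 (2 ^ Fintype.card N) δ hδ0
  refine ⟨A, R, ?_⟩
  intro ι _ _ J1 S₀ q hS ht hRg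
  obtain ⟨g, hg⟩ : ∃ g, g = gr Φ f J1 (S₀ ∪ W) q := ⟨_, rfl⟩
  obtain ⟨T, hT⟩ : ∃ T, T = TA N par S₀ (S₀ ∪ W) q := ⟨_, rfl⟩
  have hTne : T.Nonempty := by
    rw [hT]
    exact TA_ne par S₀ (S₀ ∪ W) q
  have hsec := hAR _ _ g (mk Nn (S₀ ∪ W)) T (by rw [hg]; exact rgg ht hRg) hTne (by
    intro τ hτ
    rw [hT] at hτ ⊢
    exact TA_fib par (S₀ ∪ W) τ hτ)
  have hTp : (0 : ℝ) < (T.card : ℝ) := by exact_mod_cast Finset.card_pos.2 hTne
  -- the property of the tables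
  obtain ⟨Q, hQ⟩ : ∃ Q : (ι → ι → ZMod 2) → Prop, Q = fun X => ∀ Rs : Set (M → ℕ),
      |((T.filter fun τ => (fun j => g.co X (FF e (bb e (mk Nn (S₀ ∪ W)) τ.1) τ.2 j)) ∈ Rs).card : ℝ) /
        (T.card : ℝ) - ∑' r : Rs, ∏ j, al (r.1 j)| ≤ ε := ⟨_, rfl⟩
  refine ⟨fun α => Q (xt α), ?_, ?_⟩
  · -- the tables without the property
    have h1 : ∀ α : prs J1 → ZMod 2, ¬ Q (xt α) → ∃ r ∈ Fintype.piFinset fun _ : M => range (B + 1),
        ε₁ ^ 2 ≤ (shr g e (mk Nn (S₀ ∪ W)) T r (xt α) - ∏ j, al (r j)) ^ 2 := by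
      intro α hα
      by_contra hc
      push Not at hc
      apply hα
      rw [hQ]
      have : Nonempty ↥T := hTne.to_subtype
      have h2 := hB ↥T (fun τ j => g.co (xt α) (FF e (bb e (mk Nn (S₀ ∪ W)) τ.1.1) τ.1.2 j)) (by
        intro r hr
        have h3 := hc r (Fintype.mem_piFinset.2 fun j => mem_range.2 (by have := hr j; omega))
        have h4 := abs_lt_of_sq_lt_sq h3 hε₁.le
        unfold shr at h4
        have h5 : (univ.filter fun τ : ↥T => ∀ j,
            g.co (xt α) (FF e (bb e (mk Nn (S₀ ∪ W)) τ.1.1) τ.1.2 j) = r j).card =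
            (T.filter fun τ => ∀ j,
            g.co (xt α) (FF e (bb e (mk Nn (S₀ ∪ W)) τ.1) τ.2 j) = r j).card := by
          refine Finset.card_bij (fun τ _ => τ.1) (fun τ hτ => ?_) (fun a _ b _ h => Subtype.ext h)
            fun τ hτ => ?_
          · exact mem_filter.2 ⟨τ.2, (mem_filter.1 hτ).2⟩
          · obtain ⟨k1, k2⟩ := mem_filter.1 hτ
            exact ⟨⟨τ, k1⟩, mem_filter.2 ⟨mem_univ _, k2⟩, rfl⟩
        rw [h5, Fintype.card_coe]
        exact h4.le)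
      intro Rs
      have h3 := h2 Rs
      have h5 : (univ.filter fun τ : ↥T => (fun j =>
          g.co (xt α) (FF e (bb e (mk Nn (S₀ ∪ W)) τ.1.1) τ.1.2 j)) ∈ Rs).card =
          (T.filter fun τ => (fun j =>
          g.co (xt α) (FF e (bb e (mk Nn (S₀ ∪ W)) τ.1) τ.2 j)) ∈ Rs).card := by
        refine Finset.card_bij (fun τ _ => τ.1) (fun τ hτ => ?_) (fun a _ b _ h => Subtype.ext h)
          fun τ hτ => ?_
        · exact mem_filter.2 ⟨τ.2, (mem_filter.1 hτ).2⟩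
        · obtain ⟨k1, k2⟩ := mem_filter.1 hτ
          exact ⟨⟨τ, k1⟩, mem_filter.2 ⟨mem_univ _, k2⟩, rfl⟩
      rw [h5, Fintype.card_coe] at h3
      exact h3
    have h2 : (univ.filter fun α : prs J1 → ZMod 2 => ¬ Q (xt α)) ⊆
        (Fintype.piFinset fun _ : M => range (B + 1)).biUnion fun r =>
          univ.filter fun α : prs J1 → ZMod 2 =>
            ε₁ ^ 2 ≤ (shr g e (mk Nn (S₀ ∪ W)) T r (xt α) - ∏ j, al (r j)) ^ 2 := by
      intro α hα
      obtain ⟨r, hr, h3⟩ := h1 α (mem_filter.1 hα).2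
      exact mem_biUnion.2 ⟨r, hr, mem_filter.2 ⟨mem_univ _, h3⟩⟩
    have h3 : ∀ r : M → ℕ, ((univ.filter fun α : prs J1 → ZMod 2 =>
        ε₁ ^ 2 ≤ (shr g e (mk Nn (S₀ ∪ W)) T r (xt α) - ∏ j, al (r j)) ^ 2).card : ℝ) ≤
        δ / ε₁ ^ 2 * 2 ^ (prs J1).card := by
      intro r
      have h4 := Q155.NL.markov (Ω := prs J1 → ZMod 2)
        (h := fun α => (shr g e (mk Nn (S₀ ∪ W)) T r (xt α) - ∏ j, al (r j)) ^ 2)
        (fun α => sq_nonneg _) (t := ε₁ ^ 2) (by positivity)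
      rw [avg_tb (J1 := J1) (fun X => (shr g e (mk Nn (S₀ ∪ W)) T r X - ∏ j, al (r j)) ^ 2)
        (fun X X' hX => by
          have h5 : shr g e (mk Nn (S₀ ∪ W)) T r X = shr g e (mk Nn (S₀ ∪ W)) T r X' := by
            unfold shr
            congr 2
            refine fcc fun τ _ => forall_congr' fun j => ?_
            rw [co_congr g (α := X) (α' := X') _ (by rw [hg]; exact hX)]
          beta_reduce
          rw [h5])] at h4
      have h5 : Fintype.card (prs J1 → ZMod 2) = 2 ^ (prs J1).card := by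
        rw [Fintype.card_fun, ZMod.card, Fintype.card_coe]
      rw [h5] at h4
      push_cast at h4
      refine le_trans ?_ (h4.trans ?_)
      · exact le_of_eq (by norm_cast)
      · refine mul_le_mul_of_nonneg_right ?_ (by positivity)
        refine div_le_div_of_nonneg_right ?_ (by positivity)
        have h6 := hsec r
        exact (le_of_eq (Q155.NL.avg_inst _ _ _)).trans h6
    calc ((univ.filter fun α : prs J1 → ZMod 2 => ¬ Q (xt α)).card : ℝ)
        ≤ (((Fintype.piFinset fun _ : M => range (B + 1)).biUnion fun r =>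
          univ.filter fun α : prs J1 → ZMod 2 =>
            ε₁ ^ 2 ≤ (shr g e (mk Nn (S₀ ∪ W)) T r (xt α) - ∏ j, al (r j)) ^ 2).card : ℝ) := by
          exact_mod_cast Finset.card_le_card h2
      _ ≤ ∑ r ∈ Fintype.piFinset fun _ : M => range (B + 1), ((univ.filter fun α : prs J1 → ZMod 2 =>
            ε₁ ^ 2 ≤ (shr g e (mk Nn (S₀ ∪ W)) T r (xt α) - ∏ j, al (r j)) ^ 2).card : ℝ) := by
          exact_mod_cast Finset.card_biUnion_le
      _ ≤ ∑ r ∈ Fintype.piFinset fun _ : M => range (B + 1), δ / ε₁ ^ 2 * 2 ^ (prs J1).card :=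
          Finset.sum_le_sum fun r _ => h3 r
      _ = ε' * 2 ^ (prs J1).card := by
          have h6 : (Fintype.piFinset fun _ : M => range (B + 1)).card = (B + 1) ^ Fintype.card M := by
            rw [Fintype.card_piFinset]
            simp
          rw [Finset.sum_const, h6, nsmul_eq_mul, hδ]
          push_cast at hBp ⊢
          field_simp
  · -- the property of the primes
    intro p hp hl hQp
    rw [hQ] at hQp
    intro Rs
    have h1 := hQp Rs
    have hd : ∀ l, p l ∉ S₀ ∪ W := fun l => (hp.2 l).2.1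
    have hpq : ∀ l, par (q l) = par (p l) := fun l =>
      hpar _ _ ((ht.2 l).2.2.symm.trans (hp.2 l).2.2) (lab_f hl l).symm (ht.2 l).1 (hp.2 l).1
    have hX : ∀ i ∈ J1, ∀ l, xt (fun e : prs J1 => nr (p e.1.1) (p e.1.2)) i l +
        xt (fun e : prs J1 => nr (p e.1.1) (p e.1.2)) l i = nr (p i) (p l) := by
      intro i hi l
      refine xt_add (fun i l => nr (p i) (p l)) (fun i hi l hl' => ?_) (fun i => ?_) hi l
      · have hA := ((hp.2 i).2.2).1 hi
        have hB' := ((hp.2 l).2.2).1 hl'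
        exact nr_symm (Φ.hA _ hA).1 (Φ.hA _ hA).2 (Φ.hA _ hB').1 (Fam.ne_two (Or.inl hB'))
      · exact Pool.Agent.Y657.CQ.nr_self _
    have h2 := card_TA (N := N) (S₀ := S₀) (V := S₀ ∪ W) (q := q) subset_union_left hp.1 hd par hpq
      (fun d => (fun j => rk Φ f (Fs e Nn d j)) ∈ Rs)
      (fun τ => (fun j => g.co (xt fun e : prs J1 => nr (p e.1.1) (p e.1.2))
        (FF e (bb e (mk Nn (S₀ ∪ W)) τ.1) τ.2 j)) ∈ Rs) (by
        intro τ hτ
        have h3 : (fun j => rk Φ f (Fs e Nn (dd S₀ (S₀ ∪ W) p τ) j)) = fun j =>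
            g.co (xt fun e : prs J1 => nr (p e.1.1) (p e.1.2))
              (FF e (bb e (mk Nn (S₀ ∪ W)) τ.1) τ.2 j) := by
          funext j
          rw [hg]
          exact rk_dd hp hl hX e hN τ (mem_TA.1 hτ).1 j
        rw [h3])
    have h3 := card_TA (N := N) (S₀ := S₀) (V := S₀ ∪ W) (q := q) subset_union_left hp.1 hd par hpq
      (fun _ => True) (fun _ => True) (fun _ _ => Iff.rfl)
    have e1 : ∀ {α : Type} (s : Finset α) (i : DecidablePred fun _ : α => True),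
        (@Finset.filter _ (fun _ => True) i s).card = s.card := fun s i =>
      congrArg Finset.card (@Finset.filter_true_of_mem _ _ i _ fun _ _ => trivial)
    rw [e1, e1] at h3
    rw [hT, h3] at h1
    have h4 : ((TA N par S₀ (S₀ ∪ W) q).filter fun τ => (fun j =>
        g.co (xt fun e : prs J1 => nr (p e.1.1) (p e.1.2))
          (FF e (bb e (mk Nn (S₀ ∪ W)) τ.1) τ.2 j)) ∈ Rs).card =
        ((Tp N par (S₀ ∪ univ.image p)).filter fun d =>
          (fun j => rk Φ f (Fs e Nn d j)) ∈ Rs).card := by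
      refine Eq.trans ?_ h2
      exact fcc fun _ _ => Iff.rfl
    refine le_trans (le_of_eq ?_) h1
    congr 3
    refine congrArg Nat.cast ?_
    refine Eq.trans ?_ (h4.symm.trans ?_)
    · exact fcc fun _ _ => Iff.rfl
    · exact fcc fun _ _ => Iff.rfl

end

end Q283.LP
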