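import Pool.Agent.Q283.LP.L3

/-!
# Project LP: almost all members of a class
-/

set_option autoImplicit false
set_option linter.unusedSectionVars false
set_option linter.unusedVariables false

open scoped Classical

namespace Q283.LP

open Finset Module Filter
open Q283.GM (Fam Ok SS rk)
open Pool.Agent.Y703.CQ (nr prs)
open Q155.NL (Loc Rg Cl Alm cnt cs mem_cs cnt_SS alm_mono alm_of_tendsto)
open Q283.GS (al)

section
variable {N M : Type} [Fintype N] [Fintype M]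

/-- the law of the second moment -/
def SECc : Prop := ∀ (N M : Type) [Fintype N] [Fintype M] (e : M → N → ZMod 2),
  Function.Injective e → (∀ j, e j ≠ 0) → ∀ (D₀ : ℕ) (δ : ℝ), 0 < δ → ∃ A R : ℕ,
  ∀ (U I : Type) [Fintype U] [Fintype I] (g : Gr U I) (m : M → U → ZMod 2)
    (T : Finset ((U → N → ZMod 2) × (I → N → ZMod 2))), Rgg g A R → T.Nonempty →
  (∀ τ : U → N → ZMod 2, (∃ t, (τ, t) ∈ T) →
    Fintype.card (I → N → ZMod 2) ≤ D₀ * (univ.filter fun t => (τ, t) ∈ T).card) →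
  ∀ r : M → ℕ, (∑ α : I → I → ZMod 2, (shr g e m T r α - ∏ j, al (r j)) ^ 2) /
    (Fintype.card (I → I → ZMod 2) : ℝ) ≤ δ

/-- **Almost all members of the class.** -/
theorem alm_TT (hSEC : SECc) (hTV : S_TV) (Φ : Fam) {δ : ℝ} (hΦ : Ok Φ δ) (f : ℕ → ZMod 2)
    {e : M → N → ZMod 2} (hinj : Function.Injective e) (he0 : ∀ j, e j ≠ 0) {Nn : M → Finset ℕ}
    (hN : ∀ j, ∀ p ∈ Nn j, p.Prime) {par : ℕ → ZMod 2}
    (hpar : ∀ p q, (Φ.A p ↔ Φ.A q) → f p = f q → Φ.P p → Φ.P q → par p = par q)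
    {ε : ℝ} (hε : 0 < ε) : Alm (Cl Φ) fun D => TT Φ f e Nn par ε D.primeFactors := by
  obtain ⟨W, hW⟩ : ∃ W : Finset ℕ, W = univ.biUnion Nn := ⟨_, rfl⟩
  have hWp : ∀ u ∈ W, u.Prime := by
    intro u hu
    rw [hW, mem_biUnion] at hu
    obtain ⟨j, -, hj⟩ := hu
    exact hN j u hj
  have hNW : ∀ j, Nn j ⊆ W := fun j => by
    rw [hW]
    exact subset_biUnion_of_mem Nn (mem_univ j)
  have h1 : Tendsto (fun X : ℕ => (((SS Φ X).filter (TT Φ f e Nn par ε)).card : ℝ) /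
      ((SS Φ X).card : ℝ)) atTop (nhds 1) := by
    refine Pool.Agent.Q34.NL.asy Pool.Agent.Q34.NL.key Pool.Agent.Q210.NL.bad Φ δ hΦ _ W hWp ?_
    intro ε' hε'
    obtain ⟨A, R, h⟩ := locL hSEC hTV Φ f hinj he0 hNW hpar hε hε'
    exact ⟨A, R, Q110.NL.box Φ f _ _ W ε' hε'.le (Q155.NL.labN Φ f A R W) h⟩
  have h2 : ∀ X : ℕ, cnt (Cl Φ) X = (SS Φ X).card := by
    intro X
    have h3 := cnt_SS Φ X fun _ => True
    have h4 : ∀ i : DecidablePred (fun _ : Finset ℕ => True),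
        (@Finset.filter _ (fun _ => True) i (SS Φ X)).card = (SS Φ X).card := fun i =>
      congrArg Finset.card (@Finset.filter_true_of_mem _ _ i _ fun _ _ => trivial)
    rw [h4] at h3
    rw [← h3]
    unfold cnt
    congr 1
    ext D
    rw [mem_cs, mem_cs]
    tauto
  refine alm_of_tendsto ?_
  refine h1.congr fun X => ?_
  rw [← cnt_SS, h2]

end

end Q283.LP
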