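import Pool.Agent.Q283.LP.Stm
import Pool.Agent.Q283.GM.RC
import Pool.Agent.Q155.NL.NatD
import Pool.Agent.Y687.JQ.Mat2

/-!
# Project LP (helper283): statements of further parts (total variation, all integers, polynomial phases,
the curve `X_0(14)`)
-/

set_option autoImplicit false
set_option linter.unusedVariables false

open scoped Classical

namespace Q283.LP

open Finset Filter
open Q155.NL (Alm Cl)
open Q283.GS (al)
open Q283.GM (RC Fam rk)

/-- JOB LP-TV. From the single values to all sets of values.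
PROOF. The sum of `∏ j, al (r j)` over all `r` is `1` (`Q283.GS.hasSum_al`, product), so there is `B` such that the sum over
`r ≤ B` is at least `1 - ε / 8`. Let `ε' = ε / (8 (B + 1) ^ #M)`. Then the share of the `ω` with `rk ω ≤ B` is at least
`1 - ε / 4`, and for a set `R` split into `R ∩ {≤ B}` and the rest. -/
def S_TV : Prop := ∀ (M : Type) [Fintype M] (ε : ℝ), 0 < ε → ∃ (B : ℕ) (ε' : ℝ), 0 < ε' ∧
  ∀ (Ω : Type) [Fintype Ω] [Nonempty Ω] (rk : Ω → M → ℕ),
  (∀ r : M → ℕ, (∀ j, r j ≤ B) → |((univ.filter fun ω => ∀ j, rk ω j = r j).card : ℝ) /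
    (Fintype.card Ω : ℝ) - ∏ j, al (r j)| ≤ ε') →
  ∀ R : Set (M → ℕ), |((univ.filter fun ω => rk ω ∈ R).card : ℝ) / (Fintype.card Ω : ℝ) -
    ∑' r : R, ∏ j, al (r.1 j)| ≤ ε

/-- the part of `D` which is composed of the primes of the family -/
noncomputable def prt (Φ : Fam) (D : ℕ) : ℕ := ∏ p ∈ D.primeFactors.filter (fun p => Φ.P p), p

/-- JOB LP-TR. From the class to all integers. This generalises `Q283.NJ.alm_sp` (files `Q283/NJ/F1`, `F2`, `F3`; there the
class is given by `p % 3 = 1`, of density `1/2`, so that both the class and the complement have the density `1/2`).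
PROOF. The same with the powers `(1 + log X) ^ δ` instead of the square root `sl X`, `δ = ρ.δ`: for a set `A` of primes with
`∑_{p ≤ y, p ∈ A} 1 / p ≤ δ log log y + C` one has `∑_{n ≤ X} 1 / n ≤ C' (1 + log X) ^ δ` over the squarefree `n` composed of primes of
`A` (`rLA_le`, `r_le`) and the number of these `n` is at most `C' X (1 + log X) ^ (δ - 1)` (`g_le`, from `Y488.CX.t_SIE`).
For the class: `RC.up`; for the complement, of density `1 - δ`: `RC.mert` (`P2` are the primes `≤ y` outside the class).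
`0 < δ ≤ 1`: `RC.δ_pos`, `RC.δ_le`. -/
def S_TR : Prop := ∀ (ρ : RC) (T : ℕ → Prop), Alm (Cl ρ.Φ) T → Alm (fun _ => True) fun D => T (prt ρ.Φ D)

/-- JOB LP-GCS. Polynomial phases are controlled by the Gowers norm.
PROOF. Induction on `k` for `f = g φ`: `(mean f) ^ (2 ^ k) ≤ mean over (x, h) of ∏ ω, f (x + ∑ i ∈ ω, h i)`. For `k + 1`:
`(mean f)^2 = mean over h of mean over x of f x * f (x + h)`, and `(mean over h of a h) ^ (2 ^ k) ≤ mean over h of (a h) ^ (2 ^ k)`
(convexity; for `k = 0` an equality); apply the induction hypothesis to `x ↦ f x * f (x + h)`. (`Finset (Fin (k + 1))` as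
pairs of a subset of `Fin k` and the information whether the last, or first, element is a member.) At last
`∏ ω, f = ∏ ω, g * ∏ ω, φ = ∏ ω, g`. -/
def S_GCS : Prop := ∀ (V : Type) [AddCommGroup V] [Fintype V] (k : ℕ) (g φ : V → ℝ),
  (∀ (x : V) (h : Fin k → V), ∏ ω : Finset (Fin k), φ (x + ∑ i ∈ ω, h i) = 1) →
  ((∑ x, g x * φ x) / (Fintype.card V : ℝ)) ^ (2 ^ k) ≤
    (∑ x, ∑ h : Fin k → V, ∏ ω : Finset (Fin k), g (x + ∑ i ∈ ω, h i)) /
      ((Fintype.card V : ℝ) * (Fintype.card (Fin k → V) : ℝ))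

/-! ### the curve `X_0(14)` -/

/-- the residue classes for `X_0(14)` -/
def r14 : RC where
  m := 168
  𝒜 := (range 168).filter fun a => a % 8 = 1 ∧ (a % 7 = 1 ∨ a % 7 = 2 ∨ a % 7 = 4) ∧ a % 3 ≠ 0
  ℬ := (range 168).filter fun b => (b % 8 = 3 ∨ b % 8 = 5) ∧ (b % 7 = 3 ∨ b % 7 = 5 ∨ b % 7 = 6) ∧
    b % 3 ≠ 0
  h4 := by decide
  pos := by norm_num
  hA := by decide
  h1 := by decide
  hB := by decide
  hBn := by decide
  dis := by decide

/-- the diagonal for `X_0(14)`, and the parity for the passive primes -/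
noncomputable def f14 (p : ℕ) : ZMod 2 := if p % 8 = 1 then Pool.Agent.Y687.JQ.fD p else
  if p % 8 = 5 then 1 else 0

/-- the parity -/
def par14 (p : ℕ) : ZMod 2 := if p % 8 = 5 then 1 else 0

/-- JOB LP-X14. PROOF. (1) for a prime `p` the condition modulo `168` is the condition modulo `8` and `7` and `p ≠ 3`; see
`Y687.JQ.CL_iff`. (2) `Y687.JQ.rzs_iff`, `Y687.JQ.det_iff` (`Gd`, `Sol`, `cu`), `Q283.GM.mem_Kr`: both say that the
system has only the trivial solution (the support: `p % 8 = 1` is the same as active for the prime factors of `D`, see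
`AdmD`); `finrank = 0` means `Kr = ⊥` (the module `Kr` is finite dimensional as the vectors are supported on a finite set).
(3) the law `al r = c2 * cf r`, so `al 0 = c2`. -/
def S_X14 : Prop :=
  (∀ S : Finset ℕ, Pool.Agent.Y687.JQ.CL S ↔ (∀ p ∈ S, r14.Φ.P p) ∧ ∑ p ∈ S, par14 p = 0) ∧
  (∀ D : ℤ, Pool.Agent.Y687.MQ.AdmD D →
    ((Pool.Agent.Y687.MQ.matD D).det ≠ 0 ↔ rk r14.Φ f14 D.natAbs.primeFactors = 0)) ∧
  al 0 = ∏' i : ℕ, (1 - (1 / 2 : ℝ) ^ (2 * i + 1))

end Q283.LP
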