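import Pool.Agent.Q283.LP.V8

/-!
# Project LP (helper283), fourth version: classes with a parity condition, any fields of residues
-/

set_option autoImplicit false
set_option linter.unusedSectionVars false
set_option linter.unusedVariables false

open scoped Classical

namespace Q283.LP

open Finset Module Filter
open Q283.GM (Fam rk RC HM Ok mem_Kr Kr)
open Pool.Agent.Y703.CQ (nr)
open Q155.NL (Cl Alm cnt cs mem_cs alm_mono exists_dense alm_and)
open Q283.GS (al)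
open Q283.NJ (wt)

/-- the class with the parity -/
def ClP (Φ : Fam) (par : ℕ → ZMod 2) (D : ℕ) : Prop := Cl Φ D ∧ ∑ p ∈ D.primeFactors, par p = 0

theorem one_ClP (Φ : Fam) (par : ℕ → ZMod 2) : ClP Φ par 1 :=
  ⟨⟨squarefree_one, by simp⟩, by simp⟩

/-- the members of the class which divide `D` -/
noncomputable def dvP (Φ : Fam) (par : ℕ → ZMod 2) (D : ℕ) : Finset ℕ := D.divisors.filter (ClP Φ par)

section
variable {Φ : Fam} {par : ℕ → ZMod 2}

theorem mem_dvP {D : ℕ} (hD : D ≠ 0) {d : ℕ} : d ∈ dvP Φ par D ↔ ClP Φ par d ∧ d ∣ D := by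
  unfold dvP
  rw [mem_filter, Nat.mem_divisors]
  tauto

theorem one_dvP {D : ℕ} (hD : D ≠ 0) : 1 ∈ dvP Φ par D := (mem_dvP hD).2 ⟨one_ClP Φ par, one_dvd D⟩

variable {n M : ℕ}

/-- sums over tuples of divisors and tuples of sets -/
theorem sum_tupP {D : ℕ} (hD : D ≠ 0) (F : (Fin n → Finset ℕ) → ℝ) :
    ∑ S ∈ Tp (Fin n) par (prt Φ D).primeFactors, F S =
      ∑ d ∈ Fintype.piFinset fun _ : Fin n => dvP Φ par D, F fun i => (d i).primeFactors := by
  symm
  refine sum_bij (fun d _ i => (d i).primeFactors) ?_ ?_ ?_ fun _ _ => rfl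
  · intro d hd
    rw [Fintype.mem_piFinset] at hd
    refine mem_Tp.2 fun i => ?_
    obtain ⟨h1, h2⟩ := (mem_dvP hD).1 (hd i)
    obtain ⟨⟨k1, k2⟩, k3⟩ := h1
    refine ⟨fun p hp => ?_, k3⟩
    rw [prt_pf, mem_filter]
    exact ⟨Nat.primeFactors_mono h2 hD hp, k2 p hp⟩
  · intro d hd d' hd' he
    rw [Fintype.mem_piFinset] at hd hd'
    funext i
    rw [← Nat.prod_primeFactors_of_squarefree ((mem_dvP hD).1 (hd i)).1.1.1,
      ← Nat.prod_primeFactors_of_squarefree ((mem_dvP hD).1 (hd' i)).1.1.1]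
    exact congrArg (fun S : Finset ℕ => ∏ p ∈ S, p) (congrFun he i)
  · intro S hS
    rw [mem_Tp] at hS
    have h1 : ∀ i, ∀ p ∈ S i, p ∈ D.primeFactors ∧ Φ.P p := by
      intro i p hp
      have h2 := (hS i).1 hp
      rw [prt_pf, mem_filter] at h2
      exact h2
    refine ⟨fun i => ∏ p ∈ S i, p, ?_, ?_⟩
    · rw [Fintype.mem_piFinset]
      intro i
      obtain ⟨h2, h4⟩ := prod_Cl fun p hp => (h1 i p hp).2
      refine (mem_dvP hD).2 ⟨⟨h2, ?_⟩, ?_⟩
      · rw [h4]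
        exact (hS i).2
      · have h3 : ∏ p ∈ S i, p ∣ ∏ p ∈ D.primeFactors, p :=
          Finset.prod_dvd_prod_of_subset _ _ _ fun p hp => (h1 i p hp).1
        exact h3.trans (Nat.prod_primeFactors_dvd D)
    · funext i
      exact (prod_Cl fun p hp => (h1 i p hp).2).2

/-- the tuples of members of the class which divide `D` -/
noncomputable def IP (Φ : Fam) (par : ℕ → ZMod 2) (n D : ℕ) : Finset (Fin n → ℕ) :=
  Fintype.piFinset fun _ : Fin n => dvP Φ par D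

theorem mem_IP {D : ℕ} {d : Fin n → ℕ} : d ∈ IP Φ par n D ↔ ∀ i, d i ∈ dvP Φ par D :=
  Fintype.mem_piFinset

theorem IP_pos {D : ℕ} (hD : D ≠ 0) : (0 : ℝ) < ((IP Φ par n D).card : ℝ) := by
  have h : (IP Φ par n D).Nonempty := ⟨fun _ => 1, mem_IP.2 fun _ => one_dvP hD⟩
  exact_mod_cast Finset.card_pos.2 h

theorem card_tupP {D : ℕ} (hD : D ≠ 0) (P : (Fin n → ℕ) → Prop) (Q : (Fin n → Finset ℕ) → Prop)
    (h : ∀ d ∈ IP Φ par n D, (Q (fun i => (d i).primeFactors) ↔ P d)) :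
    (((Tp (Fin n) par (prt Φ D).primeFactors).filter Q).card : ℝ) = cE (IP Φ par n D) P := by
  unfold cE
  rw [card_filter, card_filter, Nat.cast_sum, Nat.cast_sum]
  rw [sum_tupP hD fun S => ((if Q S then 1 else 0 : ℕ) : ℝ)]
  refine sum_congr rfl fun d hd => ?_
  by_cases h1 : P d
  · rw [if_pos h1, if_pos ((h d hd).2 h1)]
  · rw [if_neg h1, if_neg fun h2 => h1 ((h d hd).1 h2)]

theorem card_tupP' {D : ℕ} (hD : D ≠ 0) :
    ((Tp (Fin n) par (prt Φ D).primeFactors).card : ℝ) = ((IP Φ par n D).card : ℝ) := by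
  have h := sum_tupP (n := n) (Φ := Φ) (par := par) hD fun _ => 1
  rw [sum_const, sum_const, nsmul_eq_mul, nsmul_eq_mul, mul_one, mul_one] at h
  exact h

end

/-! ### the forms -/

/-- the set of a form -/
theorem sqn_form {n : ℕ} {N : ℕ} (hN : Squarefree N) {d : Fin n → ℕ} (hd : ∀ i, Squarefree (d i))
    (T : Finset (Fin n)) :
    Fs (fun _ : Unit => eT T) (fun _ => N.primeFactors) (fun i => (d i).primeFactors) () =
      (sqn (N * ∏ i ∈ T, d i)).primeFactors := by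
  ext p
  have h2 := odd_set T (a := N) (y := d) (fun _ => 1) hN (fun i _ => hd i) p
  simp only [pow_one, Nat.cast_one, one_mul] at h2
  rw [h2, mem_Fs]
  have h4 : ∑ i, eT T i * ind (d i).primeFactors p = ∑ i ∈ T, ind (d i).primeFactors p := by
    unfold eT
    rw [← Finset.sum_subset (Finset.subset_univ T)]
    · exact sum_congr rfl fun i hi => by rw [if_pos hi, one_mul]
    · intro i _ hi
      rw [if_neg hi, zero_mul]
  rw [h4]

theorem sqn_forms {M n : ℕ} {N : Fin M → ℕ} (hN : ∀ j, Squarefree (N j)) {d : Fin n → ℕ}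
    (hd : ∀ i, Squarefree (d i)) (T : Fin M → Finset (Fin n)) (j : Fin M) :
    Fs (fun j => eT (T j)) (fun j => (N j).primeFactors) (fun i => (d i).primeFactors) j =
      (sqn (N j * ∏ i ∈ T j, d i)).primeFactors := by
  rw [← sqn_form (hN j) hd (T j)]
  ext p
  rw [mem_Fs, mem_Fs]

/-- the measure of a set of vectors -/
noncomputable def muR {M : ℕ} (R : Set (Fin M → ℕ)) : ℝ := ∑' r : R, ∏ j, al (r.1 j)

/-- the law for all the families -/
def LawP (Φ : Fam) (f par : ℕ → ZMod 2) (S : ℕ → Prop) : Prop :=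
  ∀ (M n : ℕ) (N : Fin M → ℕ) (T : Fin M → Finset (Fin n)),
    (∀ j, Cl Φ (N j)) → (∀ j, (T j).Nonempty) →
    (∀ j l, j ≠ l → ¬ (N j = N l ∧ T j = T l)) → ∀ ε : ℝ, 0 < ε →
    ∀ᶠ D in atTop, S D → ∀ R : Set (Fin M → ℕ),
      |cE (IP Φ par n D) (fun d => (fun j => rk Φ f (sqn (N j * ∏ i ∈ T j, d i)).primeFactors) ∈ R) -
        muR R * (IP Φ par n D).card| ≤ ε * (IP Φ par n D).card

/-- the conditions on the classes of primes -/
structure SepR (ρ : RC) (Ad : ℕ → Prop) : Prop where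
  pr : ∀ u, Ad u → u.Prime ∧ u ≠ 2
  mem : ∀ p, ρ.Φ.P p → Ad p
  hm : ∀ e : Finset ℕ, e.Nonempty → (∀ u ∈ e, Ad u) → HM fun p => ρ.Φ.A p ∧ ∑ u ∈ e, nr p u ≠ 0

theorem basP {ρ : RC} {Ad : ℕ → Prop} (h : SepR ρ Ad) (g : ℕ → ZMod 2) :
    Bas ρ.Φ g fun c B => c = 0 ∧ ∀ u ∈ B, Ad u where
  pr c B h1 p hp := h.pr p (h1.2 p hp)
  sep c c' B B' h1 h2 hne := by
    have h3 : B ≠ B' := hne (h1.1.trans h2.1.symm)
    have h4 := h.hm (symmDiff B B') (by
      rw [nonempty_iff_ne_empty]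
      intro h5
      exact h3 (symmDiff_eq_bot.1 h5)) (by
      intro u hu
      rcases Finset.mem_symmDiff.1 hu with h5 | h5
      · exact h1.2 u h5.1
      · exact h2.2 u h5.1)
    refine (congrArg HM ?_).mp h4
    funext p
    rw [h1.1, h2.1, add_zero, zero_mul, zero_add]

theorem fh_zero (f g : ℕ → ZMod 2) : fh f g 0 = f := by
  funext p
  unfold fh
  rw [zero_mul, add_zero]

/-- no correlation with polynomial phases, several twists at once -/
def PhP (Φ : Fam) (f par : ℕ → ZMod 2) (S : ℕ → Prop) : Prop :=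
  ∀ (k M : ℕ) (N : Fin M → ℕ), 0 < M → (∀ j, Cl Φ (N j)) → Function.Injective N →
    ∀ ε : ℝ, 0 < ε → ∀ᶠ D in atTop, S D → ∀ φ : ℕ → ℝ,
      (∀ x ∈ dvP Φ par D, ∀ y : Fin (k + 1) → ℕ, (∀ i, y i ∈ dvP Φ par D) →
        ∏ ω : Finset (Fin (k + 1)), φ (sqn (x * ∏ i ∈ ω, y i)) = 1) →
      |(∑ d ∈ dvP Φ par D, (∏ j, ((if rk Φ f (sqn (N j * d)).primeFactors = 0 then 1 else 0) - al 0)) *
        φ d) / ((dvP Φ par D).card : ℝ)| ≤ ε

theorem lawP_of {ρ : RC} {f par : ℕ → ZMod 2} {S : ℕ → Prop} {Ad : ℕ → Prop} (hS : SepR ρ Ad)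
    (hS3 : ∀ (M n : ℕ) (Nn : Fin M → Finset ℕ) (e : Fin M → Fin n → ZMod 2) (h : Fin M → ZMod 2),
      (∀ j, h j = 0 ∧ ∀ u ∈ Nn j, Ad u) → (∀ j, e j ≠ 0) → Dst3 Nn e h →
      ∀ ε : ℝ, 0 < ε → ∀ᶠ D in atTop, S D → TT3 ρ.Φ f par e h Nn par ε (prt ρ.Φ D).primeFactors) :
    LawP ρ.Φ f par S := by
  intro M n N T hN hT hd ε hε
  have h1 := hS3 M n (fun j => (N j).primeFactors) (fun j => eT (T j)) (fun _ => 0) (fun j =>
    ⟨rfl, fun u hu => hS.mem u ((hN j).2 u hu)⟩) (fun j => eT_ne (hT j)) (by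
      intro j l hjl hel hh hVV
      refine hd j l hjl ⟨?_, eT_inj hel⟩
      rw [← Nat.prod_primeFactors_of_squarefree (hN j).1,
        ← Nat.prod_primeFactors_of_squarefree (hN l).1]
      exact congrArg (fun S : Finset ℕ => ∏ p ∈ S, p) hVV) ε hε
  filter_upwards [h1, eventually_ne_atTop 0] with D hD hD0 hSD R
  have h2 := hD hSD R
  have hpos := IP_pos (Φ := ρ.Φ) (par := par) (n := n) hD0
  have h3 := card_tupP (n := n) (Φ := ρ.Φ) (par := par) hD0
    (fun d => (fun j => rk ρ.Φ f (sqn (N j * ∏ i ∈ T j, d i)).primeFactors) ∈ R)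
    (fun d => (fun j => rk ρ.Φ (fh f par 0) (Fs (fun j => eT (T j)) (fun j => (N j).primeFactors) d j)) ∈ R)
    (by
    intro d hdI
    have hcl : ∀ i, Squarefree (d i) := fun i => ((mem_dvP hD0).1 (mem_IP.1 hdI i)).1.1.1
    rw [fh_zero]
    beta_reduce
    have h5 : (fun j => rk ρ.Φ f (Fs (fun j => eT (T j)) (fun j => (N j).primeFactors)
        (fun i => (d i).primeFactors) j)) =
        fun j => rk ρ.Φ f (sqn (N j * ∏ i ∈ T j, d i)).primeFactors := by
      funext j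
      rw [sqn_forms (fun j => (hN j).1) hcl T j]
    rw [h5])
  have h4 := card_tupP' (n := n) (Φ := ρ.Φ) (par := par) hD0
  rw [h4] at h2
  have h5 : ∀ x : ℝ, x / ((IP ρ.Φ par n D).card : ℝ) - muR R =
      (x - muR R * (IP ρ.Φ par n D).card) / ((IP ρ.Φ par n D).card : ℝ) := by
    intro x
    field_simp
  have h6 : |((((Tp (Fin n) par (prt ρ.Φ D).primeFactors).filter fun d =>
      (fun j => rk ρ.Φ (fh f par 0) (Fs (fun j => eT (T j)) (fun j => (N j).primeFactors) d j)) ∈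
        R).card : ℕ) : ℝ) / ((IP ρ.Φ par n D).card : ℝ) - muR R| ≤ ε := h2
  rw [h5, abs_div, abs_of_pos hpos, div_le_iff₀ hpos] at h6
  refine le_trans (le_of_eq ?_) h6
  congr 2
  rw [← h3]

/-- **No correlation with polynomial phases**, for the integers. -/
theorem pseudo_P {Φ : Fam} {f par : ℕ → ZMod 2} {D M k : ℕ} (hD : D ≠ 0) (hM : 0 < M) {N : Fin M → ℕ}
    (hN : ∀ j, Cl Φ (N j)) {ε : ℝ}
    (h : TT3 Φ f par (fun j => eG k (eqM M k j).2) (fun _ => 0)
      (fun j => (N (eqM M k j).1).primeFactors) par ε (prt Φ D).primeFactors) (φ : ℕ → ℝ)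
    (hφ : ∀ x ∈ dvP Φ par D, ∀ y : Fin k → ℕ, (∀ i, y i ∈ dvP Φ par D) →
      ∏ ω : Finset (Fin k), φ (sqn (x * ∏ i ∈ ω, y i)) = 1) :
    ((∑ d ∈ dvP Φ par D, (∏ j, ((if rk Φ f (sqn (N j * d)).primeFactors = 0 then 1 else 0) - al 0)) *
      φ d) / ((dvP Φ par D).card : ℝ)) ^ (2 ^ k) ≤ 2 ^ (M * 2 ^ k) * ε := by
  have hsup : ∀ z : Vp par (prt Φ D).primeFactors, (∏ p ∈ sup z.1, p) ∈ dvP Φ par D ∧
      (∏ p ∈ sup z.1, p).primeFactors = sup z.1 := by
    intro z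
    have h1 : ∀ p ∈ sup z.1, p ∈ D.primeFactors ∧ Φ.P p := by
      intro p hp
      have h2 := sup_sub z.1 hp
      rw [prt_pf, mem_filter] at h2
      exact h2
    obtain ⟨h2, h3⟩ := prod_Cl fun p hp => (h1 p hp).2
    refine ⟨(mem_dvP hD).2 ⟨⟨h2, ?_⟩, ?_⟩, h3⟩
    · rw [h3, sum_sup]
      exact z.2
    · exact (Finset.prod_dvd_prod_of_subset _ _ _ fun p hp => (h1 p hp).1).trans
        (Nat.prod_primeFactors_dvd D)
  have h1 := pseudo_set3 (c := fun _ : Fin M => (0 : ZMod 2)) (Nb := fun j => (N j).primeFactors) hM h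
    (fun S => φ (∏ p ∈ S, p)) (by
    intro x y
    rw [← hφ _ (hsup x).1 (fun i => ∏ p ∈ sup (y i).1, p) fun i => (hsup (y i)).1]
    refine prod_congr rfl fun ω _ => ?_
    congr 1
    rw [← Nat.prod_primeFactors_of_squarefree (sqn_sqf _)]
    refine prod_congr ?_ fun _ _ => rfl
    ext p
    have h2 := odd_set ω (a := ∏ p ∈ sup x.1, p) (y := fun i => ∏ p ∈ sup (y i).1, p) (fun _ => 1)
      ((mem_dvP hD).1 (hsup x).1).1.1.1 (fun i _ => ((mem_dvP hD).1 (hsup (y i)).1).1.1.1) p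
    simp only [pow_one, Nat.cast_one, one_mul] at h2
    rw [h2, (hsup x).2, ← ind_one]
    have h5 : ∑ i ∈ ω, ind (∏ p ∈ sup (y i).1, p).primeFactors p = ∑ i ∈ ω, ind (sup (y i).1) p :=
      sum_congr rfl fun i _ => by rw [(hsup (y i)).2]
    rw [h5]
    by_cases hp : p ∈ (prt Φ D).primeFactors
    · have h6 : ∀ z : Vp par (prt Φ D).primeFactors, ind (sup z.1) p = z.1 ⟨p, hp⟩ :=
        fun z => ind_sup z.1 ⟨p, hp⟩
      have h7 : (x + ∑ i ∈ ω, y i).1 ⟨p, hp⟩ = x.1 ⟨p, hp⟩ + ∑ i ∈ ω, (y i).1 ⟨p, hp⟩ := by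
        rw [Submodule.coe_add, Submodule.coe_sum, Pi.add_apply, Finset.sum_apply]
      rw [h6, h6, h7, sum_congr rfl fun i _ => h6 (y i)]
    · have h6 : ∀ z : Vp par (prt Φ D).primeFactors, ind (sup z.1) p = 0 := fun z =>
        ind_not fun h => hp (sup_sub z.1 h)
      rw [h6, h6, sum_eq_zero fun i _ => h6 (y i), add_zero])
  have h2 : ∀ F : ℕ → ℝ, ∑ d ∈ Fintype.piFinset fun _ : Fin 1 => dvP Φ par D, F (d 0) =
      ∑ d ∈ dvP Φ par D, F d := by
    intro F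
    refine sum_bij (fun d _ => d 0) (fun d hd => (Fintype.mem_piFinset.1 hd) 0) ?_ ?_ fun _ _ => rfl
    · intro d _ d' _ he
      funext i
      rw [Subsingleton.elim i 0]
      exact he
    · intro d hd
      exact ⟨fun _ => d, Fintype.mem_piFinset.2 fun _ => hd, rfl⟩
  have h3 : ((Tp (Fin 1) par (prt Φ D).primeFactors).card : ℝ) = ((dvP Φ par D).card : ℝ) := by
    have h4 := sum_tupP (n := 1) (Φ := Φ) (par := par) hD fun _ => 1
    have h5 := h2 fun _ => 1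
    rw [h5, sum_const, sum_const, nsmul_eq_mul, nsmul_eq_mul, mul_one, mul_one] at h4
    exact h4
  have h4 : ∑ S ∈ Tp (Fin 1) par (prt Φ D).primeFactors,
      (∏ j, ((if rk Φ (fh f par 0) (sN (N j).primeFactors (S 0)) = 0 then 1 else 0) - al 0)) *
        φ (∏ p ∈ S 0, p) =
      ∑ d ∈ dvP Φ par D, (∏ j, ((if rk Φ f (sqn (N j * d)).primeFactors = 0 then 1 else 0) - al 0)) *
        φ d := by
    rw [sum_tupP hD fun S => (∏ j, ((if rk Φ (fh f par 0) (sN (N j).primeFactors (S 0)) = 0 then 1 else 0) -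
      al 0)) * φ (∏ p ∈ S 0, p), ← h2 fun d =>
        (∏ j, ((if rk Φ f (sqn (N j * d)).primeFactors = 0 then 1 else 0) - al 0)) * φ d]
    refine sum_congr rfl fun d hd => ?_
    have h5 := (mem_dvP hD).1 (Fintype.mem_piFinset.1 hd 0)
    rw [Nat.prod_primeFactors_of_squarefree h5.1.1.1]
    congr 1
    refine prod_congr rfl fun j _ => ?_
    have h6 : (sqn (N j * d 0)).primeFactors = sN (N j).primeFactors (d 0).primeFactors := by
      ext p
      have h7 := odd_set {0} (a := N j) (y := d) (fun _ : Fin 1 => 1) (hN j).1 (fun i hi => by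
        rw [Finset.mem_singleton.1 hi]
        exact h5.1.1.1) p
      rw [prod_singleton, sum_singleton, pow_one, Nat.cast_one, one_mul] at h7
      rw [h7]
      unfold sN
      rw [← ind_one, ← ind_add]
    rw [h6, fh_zero]
  rw [h3] at h1
  rw [h4] at h1
  exact h1

/-- **One set of integers of density one**, with the phases. -/
theorem mainP (ρ : RC) (f par : ℕ → ZMod 2) {Ad : ℕ → Prop} (hA : SepR ρ Ad) :
    ∃ S : ℕ → Prop, Alm (fun _ => True) S ∧ Alm (Cl ρ.Φ) S ∧ LawP ρ.Φ f par S ∧ PhP ρ.Φ f par S := by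
  obtain ⟨S, hS1, hS2, hS3⟩ := mainV ρ f par par (fun _ _ _ _ h _ _ => h) _ (basP hA par)
  refine ⟨S, hS1, hS2, lawP_of hA hS3, fun k M N hM hN hinj ε hε => ?_⟩
  obtain ⟨K, hK⟩ : ∃ K, K = 2 ^ (k + 1) := ⟨_, rfl⟩
  have h1 := hS3 _ _ (fun j => (N (eqM M (k + 1) j).1).primeFactors)
    (fun j => eG (k + 1) (eqM M (k + 1) j).2)
    (fun _ => 0) (fun j => ⟨rfl, fun u hu => hA.mem u ((hN _).2 u hu)⟩) (fun j => eG_ne _) (by
      intro j l hjl hel hh hVV
      beta_reduce at hel hh hVV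
      have h6 : (eqM M (k + 1) j).1 = (eqM M (k + 1) l).1 := by
        apply hinj
        rw [← Nat.prod_primeFactors_of_squarefree (hN _).1,
          ← Nat.prod_primeFactors_of_squarefree (hN (eqM M (k + 1) l).1).1]
        exact congrArg (fun S : Finset ℕ => ∏ p ∈ S, p) hVV
      exact hjl ((eqM M (k + 1)).injective (Prod.ext h6 (eG_inj (k + 1) hel))))
      (ε ^ K / 2 ^ (M * K)) (by positivity)
  filter_upwards [h1, eventually_ne_atTop 0] with D hD hD0 hSD φ hφ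
  have h2 := pseudo_P hD0 hM hN (hD hSD) φ hφ
  rw [← hK, mul_div_cancel₀ _ (by positivity : (2 : ℝ) ^ (M * K) ≠ 0)] at h2
  have hKe : Even K := by
    rw [hK, pow_succ]
    exact even_two.mul_left _
  have hK0 : K ≠ 0 := by
    rw [hK]
    positivity
  refine le_of_pow_le_pow_left₀ hK0 hε.le ?_
  rw [hKe.pow_abs]
  exact h2

end Q283.LP
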