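import Pool.Agent.Q225.BKC.LAW
import Pool.Agent.Q283.LP.W1

/-!
# Project LP (helper283), fourth version: the primes `1` modulo `4` and the field `ℚ(√-q)`
-/

set_option autoImplicit false
set_option linter.unusedSectionVars false
set_option linter.unusedVariables false

open scoped Classical

namespace Q283.LP

open Finset Filter
open Pool.Agent.Q274.BKC (corank SP R n4)
open Q283.GM (RC Fam Kr rk mem_Kr HM hm_cls)
open Q155.NL (Cl)

/-- the active classes -/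
noncomputable def cA4 (q : ℕ) : Finset ℕ :=
  (range (8 * q)).filter fun a => a % 4 = 1 ∧ a.Coprime q ∧ IsSquare (a : ZMod q)

/-- the passive classes -/
noncomputable def cB4 (q : ℕ) : Finset ℕ :=
  (range (8 * q)).filter fun a => a % 4 = 1 ∧ a.Coprime q ∧ ¬ IsSquare (a : ZMod q)

theorem cop4 {a q : ℕ} (h1 : a % 4 = 1) (h2 : a.Coprime q) : a.Coprime (8 * q) := by
  refine Nat.Coprime.mul_right ?_ h2
  have h3 : a.Coprime (2 ^ 3) := by
    refine Nat.Coprime.pow_right 3 ?_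
    rw [Nat.coprime_two_right]
    exact Nat.odd_iff.2 (by omega)
  exact h3

theorem mem_cA4 {q a : ℕ} : a ∈ cA4 q ↔ a < 8 * q ∧ a % 4 = 1 ∧ a.Coprime q ∧
    IsSquare (a : ZMod q) := by
  unfold cA4
  rw [Finset.mem_filter, Finset.mem_range]

theorem mem_cB4 {q a : ℕ} : a ∈ cB4 q ↔ a < 8 * q ∧ a % 4 = 1 ∧ a.Coprime q ∧
    ¬ IsSquare (a : ZMod q) := by
  unfold cB4
  rw [Finset.mem_filter, Finset.mem_range]

/-- the family -/
noncomputable def rhoP (q : ℕ) (hq : q.Prime) (h7 : q % 8 = 7) : RC where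
  m := 8 * q
  𝒜 := cA4 q
  ℬ := cB4 q
  h4 := ⟨2 * q, by ring⟩
  pos := Nat.mul_pos (by norm_num) hq.pos
  hA := by
    intro a ha
    obtain ⟨h1, h2, h3, h4⟩ := Finset.mem_filter.1 ha
    exact ⟨mem_range.1 h1, cop4 h2 h3, h2⟩
  h1 := by
    refine Finset.mem_filter.2 ⟨mem_range.2 ?_, by norm_num, Nat.coprime_one_left q, ?_⟩
    · have := hq.pos; omega
    · rw [Nat.cast_one]; exact IsSquare.one
  hB := by
    intro a ha
    obtain ⟨h1, h2, h3, h4⟩ := Finset.mem_filter.1 ha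
    exact ⟨mem_range.1 h1, cop4 h2 h3⟩
  hBn := by
    obtain ⟨b, hb⟩ := (Pool.Agent.Q225.BKC.rho q hq h7).hBn
    obtain ⟨h1, h2, h3, h4⟩ := Finset.mem_filter.1 hb
    exact ⟨b, mem_cB4.2 ⟨mem_range.1 h1, by omega, h3, h4⟩⟩
  dis := by
    rw [Finset.disjoint_left]
    intro a ha hb
    exact (Finset.mem_filter.1 hb).2.2.2 (Finset.mem_filter.1 ha).2.2.2

section
variable {q : ℕ} (hq : q.Prime) (h7 : q % 8 = 7)

theorem res_mod4 {p : ℕ} : (p % (8 * q)) % 4 = p % 4 ∧ ((p % (8 * q)).Coprime q ↔ p.Coprime q) ∧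
    (((p % (8 * q) : ℕ) : ZMod q) = (p : ZMod q)) := by
  obtain ⟨e1, e2, e3⟩ := Pool.Agent.Q225.BKC.res_mod (q := q) (p := p)
  exact ⟨by omega, e2, e3⟩

/-- the active primes -/
theorem A_iff4 (p : ℕ) : (rhoP q hq h7).Φ.A p ↔ p.Prime ∧ p % 4 = 1 ∧ IsSquare (-(q : ZMod p)) := by
  have : Fact q.Prime := ⟨hq⟩
  have h2 : q ≠ 2 := by rintro rfl; norm_num at h7
  obtain ⟨e1, e2, e3⟩ := res_mod4 (q := q) (p := p)
  have e : (rhoP q hq h7).Φ.A p ↔ p.Prime ∧ p % (8 * q) ∈ cA4 q := Iff.rfl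
  rw [e]
  refine and_congr_right fun hp => ?_
  have : Fact p.Prime := ⟨hp⟩
  rw [mem_cA4, e1, e2, e3]
  constructor
  · rintro ⟨-, g1, g2, g3⟩
    refine ⟨g1, ?_⟩
    have : -(q : ZMod p) = (-1) * q := by ring
    rw [this]
    refine IsSquare.mul ?_ ?_
    · rw [ZMod.exists_sq_eq_neg_one_iff]; omega
    · rw [ZMod.exists_sq_eq_prime_iff_of_mod_four_eq_one (by omega) h2]
      exact g3
  · rintro ⟨g1, g3⟩
    have g2 : p ≠ q := by
      rintro rfl
      omega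
    refine ⟨Nat.mod_lt _ (Nat.mul_pos (by norm_num) hq.pos), g1,
      (Nat.coprime_primes hp hq).2 g2, ?_⟩
    rw [← ZMod.exists_sq_eq_prime_iff_of_mod_four_eq_one (by omega) h2]
    have : (q : ZMod p) = (-1) * (-(q : ZMod p)) := by ring
    rw [this]
    refine IsSquare.mul ?_ g3
    rw [ZMod.exists_sq_eq_neg_one_iff]; omega

/-- the primes of the class -/
theorem P_iff4 (p : ℕ) : (rhoP q hq h7).Φ.P p ↔ p.Prime ∧ p % 4 = 1 := by
  rw [RC.P_iff]
  obtain ⟨e1, e2, e3⟩ := res_mod4 (q := q) (p := p)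
  refine and_congr_right fun hp => ?_
  show p % (8 * q) ∈ cA4 q ∪ cB4 q ↔ _
  unfold cA4 cB4
  rw [mem_union, mem_filter, mem_filter, e1, e2, mem_range, Nat.coprime_primes hp hq]
  have hlt : p % (8 * q) < 8 * q := Nat.mod_lt _ (Nat.mul_pos (by norm_num) hq.pos)
  have hne : p % 4 = 1 → p ≠ q := by
    rintro h rfl
    omega
  tauto

/-- the separation -/
theorem sepP : SepR (rhoP q hq h7) fun u => u.Prime ∧ u % 4 = 1 where
  pr u h := ⟨h.1, by
    rintro rfl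
    have := h.2
    omega⟩
  mem p h := (P_iff4 hq h7 p).1 h
  hm e he hu := by
    refine Pool.Agent.Q225.BKC.hm_mono ?_ (Pool.Agent.Q225.BKC.hm_sep hq h7 he fun r hr => ?_)
    · rintro p - ⟨h1, h2⟩
      obtain ⟨g1, g2, g3, g4⟩ := (Pool.Agent.Q225.BKC.A_iff hq h7 p).1 h1
      exact ⟨(A_iff4 hq h7 p).2 ⟨g1, by omega, g4⟩, h2⟩
    · obtain ⟨g1, g2⟩ := hu r hr
      refine ⟨g1, ?_, ?_⟩
      · rintro rfl
        omega
      · rintro rfl
        omega

end

/-! ### The corank -/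

/-- all the prime factors are `1` modulo `4` -/
def G4 (D : ℕ) : Prop := ∀ p : ℕ, p.Prime → p ∣ D → p % 4 = 1

section
variable {q : ℕ} (hq : q.Prime) (h7 : q % 8 = 7) {D : ℕ} (hD : G4 D)
include hD

theorem SP_iff4 (p : ℕ) : p ∈ SP q D ↔ p ∈ D.primeFactors ∧ (rhoP q hq h7).Φ.A p := by
  unfold SP
  rw [Finset.mem_filter]
  refine and_congr_right fun hp => ?_
  have hpp := Nat.prime_of_mem_primeFactors hp
  have hpd := Nat.dvd_of_mem_primeFactors hp
  rw [A_iff4]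
  exact ⟨fun h => ⟨hpp, hD p hpp hpd, h⟩, fun h => h.2.2⟩

/-- a row of the system -/
theorem rowA4 (x : ℕ → ZMod 2) (hx : ∀ p, ¬ (p ∈ D.primeFactors ∧ (rhoP q hq h7).Φ.A p) → x p = 0)
    (i : SP q D) :
    (R q D).mulVec (fun j => x j) i =
      ∑ r ∈ D.primeFactors, Pool.Agent.Y703.CQ.nr i r * (x r + x i) + n4 q i * x i := by
  have hi := (SP_iff4 hq h7 hD i).1 i.2
  have e1 : ∑ r ∈ D.primeFactors, Pool.Agent.Y703.CQ.nr i r * (x r + x i) =
      ∑ r ∈ SP q D, Pool.Agent.Q274.BKC.nr i r * x r +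
        (∑ r ∈ D.primeFactors, Pool.Agent.Q274.BKC.nr i r) * x i := by
    have hsub : SP q D ⊆ D.primeFactors := Finset.filter_subset _ _
    have : ∑ r ∈ SP q D, Pool.Agent.Q274.BKC.nr i r * x r =
        ∑ r ∈ D.primeFactors, Pool.Agent.Q274.BKC.nr i r * x r := by
      refine Finset.sum_subset hsub fun r hr hr' => ?_
      rw [hx r (fun h => hr' ((SP_iff4 hq h7 hD r).2 h)), mul_zero]
    rw [this, Finset.sum_mul, ← Finset.sum_add_distrib]
    refine Finset.sum_congr rfl fun r _ => ?_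
    rw [← Pool.Agent.Q225.BKC.nr_eq]
    ring
  have e2 : ∑ r ∈ SP q D, Pool.Agent.Q274.BKC.nr i r * x r =
      ∑ j : SP q D, Pool.Agent.Q274.BKC.nr i j * x j :=
    (Finset.sum_coe_sort (SP q D) (fun r => Pool.Agent.Q274.BKC.nr i r * x r)).symm
  have e5 : ∑ r ∈ D.primeFactors, Pool.Agent.Q274.BKC.nr i r =
      ∑ r ∈ D.primeFactors.erase i, Pool.Agent.Q274.BKC.nr i r := by
    rw [← Finset.add_sum_erase D.primeFactors (fun r => Pool.Agent.Q274.BKC.nr i r) hi.1,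
      Pool.Agent.Q225.BKC.nr_self, zero_add]
  rw [e1, e2, e5]
  unfold Matrix.mulVec dotProduct
  rw [← Finset.add_sum_erase univ _ (Finset.mem_univ i),
    ← Finset.add_sum_erase univ (fun j : SP q D => Pool.Agent.Q274.BKC.nr i j * x j)
      (Finset.mem_univ i), Pool.Agent.Q225.BKC.nr_self, zero_mul, zero_add]
  have e3 : ∑ j ∈ univ.erase i, R q D i j * x j =
      ∑ j ∈ univ.erase i, Pool.Agent.Q274.BKC.nr i j * x j := by
    refine Finset.sum_congr rfl fun j hj => ?_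
    have hne : i ≠ j := fun h => (Finset.mem_erase.1 hj).1 h.symm
    congr 1
    unfold R
    rw [Matrix.of_apply, if_neg hne]
  rw [e3]
  have e4 : R q D i i = ∑ r ∈ D.primeFactors.erase i, Pool.Agent.Q274.BKC.nr i r + n4 q i := by
    unfold R
    rw [Matrix.of_apply, if_pos rfl]
  show R q D i i * x i + _ = _
  rw [e4]
  ring

/-- the kernel of the matrix -/
theorem ker_eq4 : (Kr (rhoP q hq h7).Φ (n4 q) D.primeFactors).map (Pool.Agent.Q225.BKC.res q D) =
    LinearMap.ker (R q D).mulVecLin := by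
  ext v
  rw [Submodule.mem_map, LinearMap.mem_ker, Matrix.mulVecLin_apply]
  constructor
  · rintro ⟨x, hx, rfl⟩
    obtain ⟨h1, h2⟩ := mem_Kr.1 hx
    funext i
    have hi := (SP_iff4 hq h7 hD i).1 i.2
    exact (rowA4 hq h7 hD x h1 i).trans (h2 i hi.1 hi.2)
  · intro hv
    set x : ℕ → ZMod 2 := fun p => if h : p ∈ SP q D then v ⟨p, h⟩ else 0 with hx
    have e : Pool.Agent.Q225.BKC.res q D x = v := by
      funext j
      rw [Pool.Agent.Q225.BKC.res_apply, hx]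
      simp only [j.2, dite_true]
    have h0 : ∀ p, ¬ (p ∈ D.primeFactors ∧ (rhoP q hq h7).Φ.A p) → x p = 0 := by
      intro p hp
      rw [hx]
      exact dif_neg fun h => hp ((SP_iff4 hq h7 hD p).1 h)
    refine ⟨x, mem_Kr.2 ⟨h0, fun p hp ha => ?_⟩, e⟩
    have hpP : p ∈ SP q D := (SP_iff4 hq h7 hD p).2 ⟨hp, ha⟩
    have h1 := rowA4 hq h7 hD x h0 ⟨p, hpP⟩
    rw [← e] at hv
    have h2 := congrFun hv ⟨p, hpP⟩
    exact h1.symm.trans h2

theorem res_inj4 {x : ℕ → ZMod 2} (hx : x ∈ Kr (rhoP q hq h7).Φ (n4 q) D.primeFactors)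
    (h : Pool.Agent.Q225.BKC.res q D x = 0) : x = 0 := by
  obtain ⟨h1, -⟩ := mem_Kr.1 hx
  funext p
  by_cases hp : p ∈ D.primeFactors ∧ (rhoP q hq h7).Φ.A p
  · exact congrFun h ⟨p, (SP_iff4 hq h7 hD p).2 hp⟩
  · exact h1 p hp

/-- the corank is the dimension of the kernel of the matrix -/
theorem corank_eq4 : corank q D = rk (rhoP q hq h7).Φ (n4 q) D.primeFactors := by
  unfold corank rk
  rw [← ker_eq4 hq h7 hD]
  have hinj : Function.Injective ((Pool.Agent.Q225.BKC.res q D).domRestrict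
      (Kr (rhoP q hq h7).Φ (n4 q) D.primeFactors)) := by
    rw [← LinearMap.ker_eq_bot, Submodule.eq_bot_iff]
    rintro ⟨x, hx⟩ h
    rw [LinearMap.mem_ker] at h
    exact Subtype.ext (res_inj4 hq h7 hD hx h)
  have h2 : LinearMap.range ((Pool.Agent.Q225.BKC.res q D).domRestrict
      (Kr (rhoP q hq h7).Φ (n4 q) D.primeFactors)) =
      (Kr (rhoP q hq h7).Φ (n4 q) D.primeFactors).map (Pool.Agent.Q225.BKC.res q D) := by
    rw [LinearMap.range_domRestrict]
  rw [← h2]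
  exact (LinearEquiv.ofInjective _ hinj).finrank_eq.symm

end

/-- the class does not depend on `q` -/
theorem cl_iff4 {q : ℕ} (hq : q.Prime) (h7 : q % 8 = 7) (D : ℕ) :
    Cl (rhoP q hq h7).Φ D ↔ Squarefree D ∧ G4 D := by
  refine and_congr_right fun hD => ?_
  constructor
  · intro g p hp hd
    exact ((P_iff4 hq h7 p).1 (g p (Nat.mem_primeFactors.2 ⟨hp, hd, hD.ne_zero⟩))).2
  · intro g p hp
    exact (P_iff4 hq h7 p).2 ⟨Nat.prime_of_mem_primeFactors hp,
      g p (Nat.prime_of_mem_primeFactors hp) (Nat.dvd_of_mem_primeFactors hp)⟩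

end Q283.LP
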