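import Pool.Agent.Q283.LP.W1

/-!
# Project LP (helper283), fourth version: consequences of the law
-/

set_option autoImplicit false
set_option linter.unusedSectionVars false
set_option linter.unusedVariables false

open scoped Classical

namespace Q283.LP

open Finset Module Filter
open Q283.GM (Fam rk RC HM Ok mem_Kr Kr)
open Pool.Agent.Y703.CQ (nr)
open Q155.NL (Cl Alm)
open Q283.GS (al)
open Q283.NJ (wt)

/-- the form is nonsingular -/
def gdf (Φ : Fam) (f : ℕ → ZMod 2) {n : ℕ} (N : ℕ) (T : Finset (Fin n)) (d : Fin n → ℕ) : Prop :=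
  rk Φ f (sqn (N * ∏ i ∈ T, d i)).primeFactors = 0

/-- the patterns, for any finite index type -/
theorem lawP_ty {Φ : Fam} {f par : ℕ → ZMod 2} {S : ℕ → Prop} (h : LawP Φ f par S) (J : Type)
    [Fintype J] {n : ℕ} (N : J → ℕ) (T : J → Finset (Fin n)) (hN : ∀ j, Cl Φ (N j))
    (hT : ∀ j, (T j).Nonempty) (hd : ∀ j l, j ≠ l → ¬ (N j = N l ∧ T j = T l)) {ε : ℝ} (hε : 0 < ε) :
    ∀ᶠ D in atTop, S D → ∀ Q : Finset J,
      |cE (IP Φ par n D) (fun d => ∀ j, (gdf Φ f (N j) (T j) d ↔ j ∈ Q)) -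
        al 0 ^ Q.card * (1 - al 0) ^ (Fintype.card J - Q.card) * (IP Φ par n D).card| ≤
          ε * (IP Φ par n D).card := by
  obtain ⟨g⟩ : Nonempty (J ≃ Fin (Fintype.card J)) := ⟨Fintype.equivFin J⟩
  have h1 := h (Fintype.card J) n (fun i => N (g.symm i))
    (fun i => T (g.symm i)) (fun _ => hN _)
    (fun _ => hT _) (fun i l hil => hd _ _ fun h' => hil (g.symm.injective h')) ε hε
  filter_upwards [h1] with D hD hS Q
  have h2 := hD hS {r | ∀ k, (r k = 0 ↔ k ∈ Q.map g.toEmbedding)}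
  unfold muR at h2
  rw [meas_al] at h2
  unfold wt at h2
  rw [card_map] at h2
  refine le_trans (le_of_eq ?_) h2
  congr 2
  refine cE_congr fun d _ => ?_
  constructor
  · intro h3 k
    rw [mem_map_equiv]
    exact h3 (g.symm k)
  · intro h3 j
    have h4 := h3 (g j)
    rw [mem_map_equiv] at h4
    simp only [Equiv.symm_apply_apply] at h4
    exact h4

/-- the squares are rare -/
theorem sq_rareP {ρ : RC} {f par : ℕ → ZMod 2} {S : ℕ → Prop} (h : LawP ρ.Φ f par S) {n : ℕ}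
    {T : Finset (Fin n)} (hT : T.Nonempty) {ε : ℝ} (hε : 0 < ε) : ∀ᶠ D in atTop, S D →
      cE (IP ρ.Φ par n D) (fun d => IsSquare (∏ i ∈ T, d i)) ≤ ε * (IP ρ.Φ par n D).card := by
  obtain ⟨a, ha, haC⟩ := exists_seq ρ
  obtain ⟨m, hm⟩ := exists_pow_lt_of_lt_one (show 0 < ε / 2 by positivity) (show (0.6 : ℝ) < 1 by norm_num)
  obtain ⟨A, hA⟩ : ∃ A : Finset (Fin m), A = univ.filter fun j : Fin m =>
    rk ρ.Φ f (a j).primeFactors = 0 := ⟨_, rfl⟩
  have h1 := lawP_ty h (Fin m) (fun j => a j) (fun _ => T) (fun j => haC j) (fun _ => hT)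
    (fun j l hjl h' => hjl (Fin.ext (ha h'.1))) (show 0 < ε / 2 by positivity)
  obtain ⟨k1, k2⟩ := al0_lt
  filter_upwards [h1, eventually_ne_atTop 0] with D hD hD0 hS
  have hpos := IP_pos (Φ := ρ.Φ) (par := par) (n := n) hD0
  have h2 := (abs_le.1 (hD hS A)).2
  have h3 : al 0 ^ A.card * (1 - al 0) ^ (Fintype.card (Fin m) - A.card) ≤ 0.6 ^ m := by
    have hA1 : A.card ≤ m := by
      have := A.card_le_univ
      rwa [Fintype.card_fin] at this
    rw [Fintype.card_fin]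
    calc al 0 ^ A.card * (1 - al 0) ^ (m - A.card) ≤ 0.6 ^ A.card * 0.6 ^ (m - A.card) := by
          refine mul_le_mul ?_ ?_ (pow_nonneg (by linarith) _) (by positivity)
          · exact pow_le_pow_left₀ (by linarith) (by linarith) _
          · exact pow_le_pow_left₀ (by linarith) (by linarith) _
      _ = 0.6 ^ m := by
          rw [← pow_add]
          congr 1
          omega
  have h4 : cE (IP ρ.Φ par n D) (fun d => IsSquare (∏ i ∈ T, d i)) ≤ cE (IP ρ.Φ par n D) (fun d =>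
      ∀ j : Fin m, (gdf ρ.Φ f (a j) T d ↔ j ∈ A)) := by
    refine cE_mono fun d hd hsq j => ?_
    obtain ⟨k, hk⟩ := hsq
    have hd0 : ∏ i ∈ T, d i ≠ 0 := Finset.prod_ne_zero_iff.2 fun i _ =>
      ((mem_dvP hD0).1 (mem_IP.1 hd i)).1.1.1.ne_zero
    have hk0 : k ≠ 0 := by
      rintro rfl
      exact hd0 (by rw [hk, mul_zero])
    unfold gdf
    rw [hk, ← pow_two, sqn_mul_sq (haC j).1.ne_zero hk0, sqn_of_sqf (haC j).1, hA, mem_filter]
    exact ⟨fun h => ⟨mem_univ _, h⟩, fun h => h.2⟩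
  have h5 := mul_le_mul_of_nonneg_right h3 hpos.le
  have h6 : (0.6 : ℝ) ^ m * (IP ρ.Φ par n D).card ≤ ε / 2 * (IP ρ.Φ par n D).card :=
    mul_le_mul_of_nonneg_right hm.le hpos.le
  linarith

/-- **Almost all the tuples are independent.** -/
theorem dep_rareP {ρ : RC} {f par : ℕ → ZMod 2} {S : ℕ → Prop} (h : LawP ρ.Φ f par S) (n : ℕ) {ε : ℝ}
    (hε : 0 < ε) : ∀ᶠ D in atTop, S D →
      cE (IP ρ.Φ par n D) (fun d => ¬ IdN d) ≤ ε * (IP ρ.Φ par n D).card := by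
  have h1 : ∀ T : Finset (Fin n), ∀ᶠ D in atTop, S D → T.Nonempty →
      cE (IP ρ.Φ par n D) (fun d => IsSquare (∏ l ∈ T, d l)) ≤ ε / 2 ^ n * (IP ρ.Φ par n D).card := by
    intro T
    by_cases hT : T.Nonempty
    · filter_upwards [sq_rareP h hT (show 0 < ε / 2 ^ n by positivity)] with D hD hS _
      exact hD hS
    · exact Eventually.of_forall fun D _ h' => absurd h' hT
  filter_upwards [eventually_all.2 h1] with D hD hS
  obtain ⟨I, hI⟩ : ∃ I, I = IP ρ.Φ par n D := ⟨_, rfl⟩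
  rw [← hI] at hD ⊢
  have h2 : I.filter (fun d => ¬ IdN d) ⊆
      (univ.filter fun T : Finset (Fin n) => T.Nonempty).biUnion fun T =>
      I.filter fun d => IsSquare (∏ l ∈ T, d l) := by
    intro d hd
    obtain ⟨h3, h4⟩ := mem_filter.1 hd
    unfold IdN at h4
    push Not at h4
    obtain ⟨T, hT, hsq⟩ := h4
    exact mem_biUnion.2 ⟨T, mem_filter.2 ⟨mem_univ _, hT⟩, mem_filter.2 ⟨h3, hsq⟩⟩
  calc cE I (fun d => ¬ IdN d) ≤ (((univ.filter fun T : Finset (Fin n) => T.Nonempty).biUnion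
        fun T => I.filter fun d => IsSquare (∏ l ∈ T, d l)).card : ℝ) := by
        refine le_trans (le_of_eq ?_) (Nat.cast_le.2 (card_le_card h2))
        unfold cE
        exact congrArg Nat.cast (fcc fun _ _ => Iff.rfl)
    _ ≤ ∑ T ∈ univ.filter fun T : Finset (Fin n) => T.Nonempty,
        ((I.filter fun d => IsSquare (∏ l ∈ T, d l)).card : ℝ) := by
        exact_mod_cast card_biUnion_le
    _ ≤ ∑ T ∈ univ.filter (fun T : Finset (Fin n) => T.Nonempty), ε / 2 ^ n * (I.card : ℝ) := by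
        refine sum_le_sum fun T hT => ?_
        have h4 := hD T hS (mem_filter.1 hT).2
        refine le_trans (le_of_eq ?_) h4
        unfold cE
        exact congrArg Nat.cast (fcc fun _ _ => Iff.rfl)
    _ ≤ ∑ T : Finset (Fin n), ε / 2 ^ n * (I.card : ℝ) :=
        sum_le_sum_of_subset_of_nonneg (filter_subset _ _) fun _ _ _ => by positivity
    _ = ε * I.card := by
        rw [sum_const, card_univ, Fintype.card_finset, Fintype.card_fin, nsmul_eq_mul]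
        push_cast
        field_simp

/-- all the twists by the products over the sets of `𝒳` are good -/
def GP (Φ : Fam) (f : ℕ → ZMod 2) {n : ℕ} (𝒳 : Finset (Finset (Fin n))) (N : ℕ) (d : Fin n → ℕ) : Prop :=
  ∀ T ∈ 𝒳, gdf Φ f N T d

/-- the intersections -/
theorem interP {Φ : Fam} {f par : ℕ → ZMod 2} {S : ℕ → Prop} (h : LawP Φ f par S) {M n : ℕ}
    (N : Fin M → ℕ) (𝒳 : Finset (Finset (Fin n))) (h𝒳 : ∀ T ∈ 𝒳, T.Nonempty)
    (hN : ∀ j, Cl Φ (N j)) (hinj : Function.Injective N) (B : Finset (Fin M)) {ε : ℝ} (hε : 0 < ε) :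
    ∀ᶠ D in atTop, S D → |cE (IP Φ par n D) (fun d => ∀ j ∈ B, GP Φ f 𝒳 (N j) d) -
      (∏ j ∈ B, al 0 ^ 𝒳.card) * (IP Φ par n D).card| ≤ ε * (IP Φ par n D).card := by
  have h1 := lawP_ty h (↥B × ↥𝒳) (n := n) (fun j => N j.1.1) (fun j => j.2.1) (fun j => hN _)
    (fun j => h𝒳 _ j.2.2) (by
      intro j l hjl h'
      exact hjl (Prod.ext (Subtype.ext (hinj h'.1)) (Subtype.ext h'.2))) hε
  filter_upwards [h1] with D hD hS
  have h2 := hD hS univ
  rw [card_univ, Nat.sub_self, pow_zero, mul_one, Fintype.card_prod, Fintype.card_coe,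
    Fintype.card_coe, mul_comm B.card, pow_mul] at h2
  rw [prod_const]
  refine le_trans (le_of_eq ?_) h2
  congr 2
  refine cE_congr fun d _ => ?_
  constructor
  · intro h3 j
    exact ⟨fun _ => mem_univ _, fun _ => h3 _ j.1.2 _ j.2.2⟩
  · intro h3 k hk T hT
    exact (h3 (⟨k, hk⟩, ⟨T, hT⟩)).2 (mem_univ _)

/-- **The patterns of the blocks.** -/
theorem patP {ρ : RC} {f par : ℕ → ZMod 2} {S : ℕ → Prop} (h : LawP ρ.Φ f par S) {M n : ℕ}
    (N : Fin M → ℕ) (𝒳 : Finset (Finset (Fin n))) (h𝒳 : ∀ T ∈ 𝒳, T.Nonempty)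
    (hN : ∀ j, Cl ρ.Φ (N j)) (hinj : Function.Injective N) {ε : ℝ} (hε : 0 < ε) :
    ∀ᶠ D in atTop, S D → ∀ Q : Finset (Fin M),
      |cE (IP ρ.Φ par n D) (fun d => IdN d ∧ ∀ j, (GP ρ.Φ f 𝒳 (N j) d ↔ j ∈ Q)) -
        (al 0 ^ 𝒳.card) ^ Q.card * (1 - al 0 ^ 𝒳.card) ^ (M - Q.card) * (IP ρ.Φ par n D).card| ≤
          ε * (IP ρ.Φ par n D).card := by
  obtain ⟨δ, hδ⟩ : ∃ δ : ℝ, δ = ε / 2 / 2 ^ M := ⟨_, rfl⟩
  have hδ0 : 0 < δ := by
    rw [hδ]
    positivity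
  have h1 : ∀ B : Finset (Fin M), ∀ᶠ D in atTop, S D →
      |cE (IP ρ.Φ par n D) (fun d => ∀ j ∈ B, GP ρ.Φ f 𝒳 (N j) d) -
      (∏ j ∈ B, al 0 ^ 𝒳.card) * (IP ρ.Φ par n D).card| ≤ δ * (IP ρ.Φ par n D).card := fun B =>
    interP h N 𝒳 h𝒳 hN hinj B hδ0
  filter_upwards [eventually_all.2 h1, dep_rareP h n (show 0 < ε / 2 by positivity)] with D hD hdep hS Q
  have h2 := exclP (IP ρ.Φ par n D) (fun j d => GP ρ.Φ f 𝒳 (N j) d) (p := fun _ => al 0 ^ 𝒳.card)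
    (fun B => hD B hS) Q
  rw [prod_const, prod_const, card_compl, Fintype.card_fin] at h2
  have h3 : (2 : ℝ) ^ M * (δ * (IP ρ.Φ par n D).card) = ε / 2 * (IP ρ.Φ par n D).card := by
    rw [hδ]
    field_simp
  rw [h3] at h2
  have h4 := hdep hS
  have h5 : cE (IP ρ.Φ par n D) (fun d => IdN d ∧ ∀ j, (GP ρ.Φ f 𝒳 (N j) d ↔ j ∈ Q)) ≤
      cE (IP ρ.Φ par n D) (fun d => ∀ j, (GP ρ.Φ f 𝒳 (N j) d ↔ j ∈ Q)) := cE_mono fun d _ hd => hd.2
  have h6 : cE (IP ρ.Φ par n D) (fun d => ∀ j, (GP ρ.Φ f 𝒳 (N j) d ↔ j ∈ Q)) ≤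
      cE (IP ρ.Φ par n D) (fun d => IdN d ∧ ∀ j, (GP ρ.Φ f 𝒳 (N j) d ↔ j ∈ Q)) +
        cE (IP ρ.Φ par n D) (fun d => ¬ IdN d) := by
    refine le_trans (cE_mono fun d _ hd => ?_) (cE_or _ _)
    by_cases h7 : IdN d
    · exact Or.inl ⟨h7, hd⟩
    · exact Or.inr h7
  rw [abs_le] at h2 ⊢
  constructor <;> linarith

/-- **The law of large numbers.** -/
theorem llnP {Φ : Fam} {f par : ℕ → ZMod 2} {S : ℕ → Prop} (h : LawP Φ f par S) {M n : ℕ}
    (N : Fin M → ℕ) (𝒳 : Finset (Finset (Fin n))) (h𝒳 : ∀ T ∈ 𝒳, T.Nonempty)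
    (hN : ∀ j, Cl Φ (N j)) (hinj : Function.Injective N) (hM : 0 < M) {ε : ℝ} (hε : 0 < ε) :
    ∀ᶠ D in atTop, S D → ∀ η : ℝ, 0 < η →
      cE (IP Φ par n D) (fun d => η ≤ |(nJ (Fin M) (fun j => GP Φ f 𝒳 (N j) d) : ℝ) / M -
        al 0 ^ 𝒳.card|) ≤ (2 * Real.exp (-(η ^ 2 * M / 4)) + ε) * (IP Φ par n D).card := by
  obtain ⟨δ, hδ⟩ : ∃ δ : ℝ, δ = ε / 2 ^ M / 2 ^ M := ⟨_, rfl⟩
  have hδ0 : 0 < δ := by
    rw [hδ]
    positivity
  obtain ⟨k1, k2⟩ := al0_lt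
  have h1 : ∀ B : Finset (Fin M), ∀ᶠ D in atTop, S D →
      |cE (IP Φ par n D) (fun d => ∀ j ∈ B, GP Φ f 𝒳 (N j) d) -
      (∏ j ∈ B, al 0 ^ 𝒳.card) * (IP Φ par n D).card| ≤ δ * (IP Φ par n D).card := fun B =>
    interP h N 𝒳 h𝒳 hN hinj B hδ0
  filter_upwards [eventually_all.2 h1, eventually_ne_atTop 0] with D hD hD0 hS η hη
  have hpos := IP_pos (Φ := Φ) (par := par) (n := n) hD0
  have h2 : ∀ Q : Finset (Fin M), |cE (IP Φ par n D) (fun d => ∀ j, (GP Φ f 𝒳 (N j) d ↔ j ∈ Q)) -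
      (al 0 ^ 𝒳.card) ^ Q.card * (1 - al 0 ^ 𝒳.card) ^ (Fintype.card (Fin M) - Q.card) *
        (IP Φ par n D).card| ≤ ε / 2 ^ M * (IP Φ par n D).card := by
    intro Q
    have h3 := exclP (IP Φ par n D) (fun j d => GP Φ f 𝒳 (N j) d) (p := fun _ => al 0 ^ 𝒳.card)
      (fun B => hD B hS) Q
    have h4 : (2 : ℝ) ^ M * (δ * (IP Φ par n D).card) = ε / 2 ^ M * (IP Φ par n D).card := by
      rw [hδ]
      field_simp
    rw [h4, prod_const, prod_const, card_compl] at h3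
    exact h3
  have h3 := lln_gen hpos (Fin M) (fun j d => GP Φ f 𝒳 (N j) d) (p := al 0 ^ 𝒳.card)
    (δ := ε / 2 ^ M)
    (pow_nonneg (by linarith) _) (pow_le_one₀ (by linarith) (by linarith)) h2
    (by rw [Fintype.card_fin]; exact hM) hη
  rw [Fintype.card_fin] at h3
  have h4 : (2 : ℝ) ^ M * (ε / 2 ^ M) = ε := by field_simp
  rw [h4] at h3
  exact h3

/-- the nonempty sets -/
def neS (n : ℕ) : Finset (Finset (Fin n)) := univ.erase ∅

theorem mem_neS {n : ℕ} {T : Finset (Fin n)} : T ∈ neS n ↔ T.Nonempty := by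
  unfold neS
  rw [mem_erase, nonempty_iff_ne_empty]
  exact ⟨fun h => h.1, fun h => ⟨h, mem_univ _⟩⟩

theorem card_neS (n : ℕ) : (neS n).card = 2 ^ n - 1 := by
  unfold neS
  rw [card_erase_of_mem (mem_univ _), card_univ, Fintype.card_finset, Fintype.card_fin]

/-- **One set for countably many families** -/
theorem combine {C : ℕ → Prop} (P : ℕ → (ℕ → Prop) → Prop)
    (hP : ∀ i (S S' : ℕ → Prop), (∀ᶠ D in atTop, S' D → S D) → P i S → P i S')
    (h : ∀ i, ∃ S : ℕ → Prop, Alm (fun _ => True) S ∧ Alm C S ∧ P i S) :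
    ∃ S : ℕ → Prop, Alm (fun _ => True) S ∧ Alm C S ∧ ∀ i, P i S := by
  choose S h1 h2 h3 using h
  obtain ⟨S₁, hS₁, h11⟩ := Q155.NL.exists_dense h1
  obtain ⟨S₂, hS₂, h12⟩ := Q155.NL.exists_dense h2
  refine ⟨fun D => S₁ D ∨ S₂ D, Q155.NL.alm_mono hS₁ fun D _ h => Or.inl h,
    Q155.NL.alm_mono hS₂ fun D _ h => Or.inr h, fun i => hP i (S i) _ ?_ (h3 i)⟩
  filter_upwards [h11 i, h12 i] with D a b hab
  rcases hab with hab | hab
  · exact a hab
  · exact b hab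

theorem lawP_mono {Φ : Fam} {f par : ℕ → ZMod 2} {S S' : ℕ → Prop} (h : ∀ᶠ D in atTop, S' D → S D)
    (hS : LawP Φ f par S) : LawP Φ f par S' := by
  intro M n N T hN hT hd ε hε
  filter_upwards [h, hS M n N T hN hT hd ε hε] with D a b c
  exact b (a c)

end Q283.LP
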