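import Pool.Agent.Q283.LP.W8

/-!
# Project LP (helper283), fourth version: infinite sequences
-/

set_option autoImplicit false
set_option linter.unusedSectionVars false
set_option linter.unusedVariables false

open scoped Classical

namespace Q283.LP

open Finset Filter
open Pool.Agent.Q274.BKC (corank SP R n4)
open Q283.GM (RC Fam Kr rk mem_Kr HM hm_cls)
open Q155.NL (Cl Alm)
open Q283.GS (al)
open Q283.NJ (wt)

/-- the patterns, for any finite index type -/
theorem laws_ty {q : ℕ} {S : ℕ → Prop} (h : Laws q S) (J : Type) [Fintype J] {n : ℕ} (N : J → ℕ)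
    (T : J → Finset (Fin n)) (hN : ∀ j, W1 (N j)) (hT : ∀ j, (T j).Nonempty)
    (hd : ∀ j l, j ≠ l → ¬ (N j = N l ∧ T j = T l)) {ε : ℝ} (hε : 0 < ε) :
    ∀ᶠ D in atTop, S D → ∀ Q : Finset J,
      |cE (I8 n D) (fun d => ∀ j, (crk q (N j) (T j) d = 0 ↔ j ∈ Q)) -
        al 0 ^ Q.card * (1 - al 0) ^ (Fintype.card J - Q.card) * (I8 n D).card| ≤
          ε * (I8 n D).card := by
  obtain ⟨g⟩ : Nonempty (J ≃ Fin (Fintype.card J)) := ⟨Fintype.equivFin J⟩
  have h1 := h.law (Fintype.card J) n (fun i => N (g.symm i))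
    (fun i => T (g.symm i)) (fun _ => hN _)
    (fun _ => hT _) (fun i l hil => hd _ _ fun h' => hil (g.symm.injective h')) ε hε
  filter_upwards [h1] with D hD hS Q
  have h2 := hD hS {r | ∀ k, (r k = 0 ↔ k ∈ Q.map g.toEmbedding)}
  unfold muR at h2
  rw [meas_al] at h2
  unfold wt at h2
  rw [card_map] at h2
  refine le_trans (le_of_eq ?_) h2
  congr 2
  refine cE_congr fun d _ => ?_
  constructor
  · intro h3 k
    rw [mem_map_equiv]
    exact h3 (g.symm k)
  · intro h3 j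
    have h4 := h3 (g j)
    rw [mem_map_equiv] at h4
    simp only [Equiv.symm_apply_apply] at h4
    exact h4

/-- infinitely many members of the class -/
theorem exists_seq8 : ∃ a : ℕ → ℕ, Function.Injective a ∧ ∀ i, W1 (a i) := by
  have h7 : Nat.Prime 7 := by norm_num
  obtain ⟨a, ha, hC⟩ := exists_seq (rhoP 7 h7 rfl)
  exact ⟨a, ha, fun i => (cl_iff4 h7 rfl _).1 (hC i)⟩

/-- a fixed value is rare -/
theorem val_rare {q : ℕ} {S : ℕ → Prop} (h : Laws q S) (b : ℕ) {ε : ℝ} (hε : 0 < ε) :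
    ∀ᶠ D in atTop, S D → cE (I8 1 D) (fun d => d 0 = b) ≤ ε * (I8 1 D).card := by
  obtain ⟨a, ha, haC⟩ := exists_seq8
  obtain ⟨m, hm⟩ := exists_pow_lt_of_lt_one (show 0 < ε / 2 by positivity) (show (0.6 : ℝ) < 1 by norm_num)
  obtain ⟨A, hA⟩ : ∃ A : Finset (Fin m), A = univ.filter fun j : Fin m =>
    corank q (sqn (a j * b)) = 0 := ⟨_, rfl⟩
  have h1 := laws_ty h (Fin m) (n := 1) (fun j => a j) (fun _ => {0}) (fun j => haC j)
    (fun _ => singleton_nonempty _)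
    (fun j l hjl h' => hjl (Fin.ext (ha h'.1))) (show 0 < ε / 2 by positivity)
  obtain ⟨k1, k2⟩ := al0_lt
  filter_upwards [h1, eventually_ne_atTop 0] with D hD hD0 hS
  have hpos := I8_pos (n := 1) hD0
  have h2 := (abs_le.1 (hD hS A)).2
  have h3 : al 0 ^ A.card * (1 - al 0) ^ (Fintype.card (Fin m) - A.card) ≤ 0.6 ^ m := by
    have hA1 : A.card ≤ m := by
      have := A.card_le_univ
      rwa [Fintype.card_fin] at this
    rw [Fintype.card_fin]
    calc al 0 ^ A.card * (1 - al 0) ^ (m - A.card) ≤ 0.6 ^ A.card * 0.6 ^ (m - A.card) := by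
          refine mul_le_mul ?_ ?_ (pow_nonneg (by linarith) _) (by positivity)
          · exact pow_le_pow_left₀ (by linarith) (by linarith) _
          · exact pow_le_pow_left₀ (by linarith) (by linarith) _
      _ = 0.6 ^ m := by
          rw [← pow_add]
          congr 1
          omega
  have h4 : cE (I8 1 D) (fun d => d 0 = b) ≤ cE (I8 1 D) (fun d =>
      ∀ j : Fin m, (crk q (a j) {0} d = 0 ↔ j ∈ A)) := by
    refine cE_mono fun d hd hb j => ?_
    unfold crk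
    rw [prod_singleton, hb, hA, mem_filter]
    exact ⟨fun h => ⟨mem_univ _, h⟩, fun h => h.2⟩
  have h5 := mul_le_mul_of_nonneg_right h3 hpos.le
  have h6 : (0.6 : ℝ) ^ m * (I8 1 D).card ≤ ε / 2 * (I8 1 D).card :=
    mul_le_mul_of_nonneg_right hm.le hpos.le
  linarith

/-- the integers of a set of density one are unbounded -/
theorem alm_inf {S : ℕ → Prop} (h : Alm (fun _ => True) S) (D₀ : ℕ) : ∃ D, D₀ ≤ D ∧ S D := by
  by_contra hne
  push Not at hne
  obtain ⟨X₀, hX⟩ := eventually_atTop.1 (h (1 / 2) (by norm_num))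
  obtain ⟨X, hX1⟩ : ∃ X, X = max X₀ (4 * D₀ + 4) := ⟨_, rfl⟩
  have h1 := hX X (by rw [hX1]; exact le_max_left _ _)
  have h2 : Q155.NL.cnt (fun _ => True) X = X := by
    have h0 : Q155.NL.cs (fun _ => True) X = Finset.Icc 1 X := by
      ext D
      rw [Q155.NL.mem_cs, Finset.mem_Icc]
      exact ⟨fun h => h.1, fun h => ⟨h, trivial⟩⟩
    unfold Q155.NL.cnt
    rw [h0, Nat.card_Icc]
    omega
  have h3 : X - D₀ ≤ Q155.NL.cnt (fun D => True ∧ ¬ S D) X := by
    have h4 : Finset.Icc (D₀ + 1) X ⊆ Q155.NL.cs (fun D => True ∧ ¬ S D) X := by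
      intro D hD
      rw [Finset.mem_Icc] at hD
      rw [Q155.NL.mem_cs]
      exact ⟨⟨by omega, hD.2⟩, trivial, hne D (by omega)⟩
    have h5 := card_le_card h4
    rw [Nat.card_Icc] at h5
    unfold Q155.NL.cnt
    omega
  rw [h2] at h1
  have h4 : 4 * D₀ + 4 ≤ X := by
    rw [hX1]
    exact le_max_right _ _
  have h5 : ((X - D₀ : ℕ) : ℝ) ≤ 1 / 2 * X := le_trans (by exact_mod_cast h3) h1
  rw [Nat.cast_sub (by omega)] at h5
  have h6 : (4 * D₀ + 4 : ℝ) ≤ X := by exact_mod_cast h4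
  have h7 : (0 : ℝ) ≤ D₀ := Nat.cast_nonneg _
  linarith

/-- **The choice of the next element.** -/
theorem next {q : ℕ} {S : ℕ → Prop} (hS : Alm (fun _ => True) S) (h : Laws q S) (B C : Finset ℕ)
    (hB : ∀ N ∈ B, W1 N) : ∃ d : ℕ, W8 d ∧ d ∉ C ∧ ∀ N ∈ B, corank q (sqn (N * d)) = 0 := by
  obtain ⟨k1, k2⟩ := al0_lt
  obtain ⟨κ', hκ'⟩ : ∃ κ' : ℝ, κ' = al 0 ^ B.card := ⟨_, rfl⟩
  have hκ0 : 0 < κ' := by
    rw [hκ']
    exact pow_pos (by linarith) _
  obtain ⟨ε, hε⟩ : ∃ ε : ℝ, ε = κ' / (2 * (C.card + 2)) := ⟨_, rfl⟩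
  have hε0 : 0 < ε := by
    rw [hε]
    positivity
  have h1 := laws_ty h ↥B (n := 1) (fun N => N.1) (fun _ => {0}) (fun N => hB _ N.2)
    (fun _ => singleton_nonempty _) (fun j l hjl h' => hjl (Subtype.ext h'.1)) hε0
  have h2 : ∀ c ∈ C, ∀ᶠ D in atTop, S D → cE (I8 1 D) (fun d => d 0 = c) ≤ ε * (I8 1 D).card :=
    fun c _ => val_rare h c hε0
  have h3 : ∀ᶠ D in atTop, ∀ c ∈ C, S D → cE (I8 1 D) (fun d => d 0 = c) ≤ ε * (I8 1 D).card :=
    (Finset.eventually_all C).2 h2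
  obtain ⟨D₀, hD₀⟩ := eventually_atTop.1 ((h1.and h3).and (eventually_ne_atTop 0))
  obtain ⟨D, hD, hSD⟩ := alm_inf hS D₀
  obtain ⟨⟨g1, g2⟩, hD0⟩ := hD₀ D hD
  have hpos := I8_pos (n := 1) hD0
  have e1 := (abs_le.1 (g1 hSD univ)).1
  rw [card_univ, Nat.sub_self, pow_zero, mul_one, Fintype.card_coe, ← hκ'] at e1
  by_contra hcon
  push Not at hcon
  have e2 : cE (I8 1 D) (fun d => ∀ j : ↥B, (crk q j.1 {0} d = 0 ↔ j ∈ univ)) ≤
      ∑ c ∈ C, cE (I8 1 D) (fun d => d 0 = c) := by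
    have e3 : (I8 1 D).filter (fun d => ∀ j : ↥B, (crk q j.1 {0} d = 0 ↔ j ∈ univ)) ⊆
        C.biUnion fun c => (I8 1 D).filter fun d => d 0 = c := by
      intro d hd
      obtain ⟨m1, m2⟩ := mem_filter.1 hd
      have m3 : d 0 ∈ C := by
        by_contra hC
        obtain ⟨N, hN, hne⟩ := hcon (d 0) ((mem_I8 hD0).1 m1 0).1 hC
        refine hne ?_
        have m4 := (m2 ⟨N, hN⟩).2 (mem_univ _)
        unfold crk at m4
        rwa [prod_singleton] at m4
      exact mem_biUnion.2 ⟨d 0, m3, mem_filter.2 ⟨m1, rfl⟩⟩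
    have e4 := (card_le_card e3).trans card_biUnion_le
    refine le_trans ?_ (le_trans (Nat.cast_le.2 e4) (le_of_eq ?_))
    · unfold cE
      exact le_of_eq (congrArg Nat.cast (fcc fun _ _ => Iff.rfl))
    · rw [Nat.cast_sum]
      refine sum_congr rfl fun c _ => ?_
      unfold cE
      exact congrArg Nat.cast (fcc fun _ _ => Iff.rfl)
  have e5 : ∑ c ∈ C, cE (I8 1 D) (fun d => d 0 = c) ≤ C.card * (ε * (I8 1 D).card) := by
    rw [← nsmul_eq_mul]
    exact sum_le_card_nsmul _ _ _ fun c hc => g2 c hc hSD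
  have e6 : κ' * (I8 1 D).card ≤ (C.card + 1) * ε * (I8 1 D).card := by
    have : ((C.card : ℝ) + 1) * ε * (I8 1 D).card = C.card * (ε * (I8 1 D).card) + ε * (I8 1 D).card := by
      ring
    linarith
  have e7 : κ' ≤ (C.card + 1) * ε := le_of_mul_le_mul_right e6 hpos
  have e8 : ((C.card : ℝ) + 1) * ε < κ' := by
    rw [hε, mul_div_assoc', div_lt_iff₀ (by positivity)]
    have : (0 : ℝ) ≤ C.card := Nat.cast_nonneg _
    nlinarith
  linarith

/-- the next sets of bases -/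
noncomputable def nx (B : Finset ℕ) (d : ℕ) : Finset ℕ := B ∪ B.image fun N => sqn (N * d)

/-- **An infinite sequence.** -/
theorem inf_seq {q : ℕ} {S : ℕ → Prop} (hS : Alm (fun _ => True) S) (h : Laws q S) (B₀ : Finset ℕ)
    (hB : ∀ N ∈ B₀, W1 N) : ∃ d : ℕ → ℕ, (∀ k, W8 (d k)) ∧
      (∀ T : Finset ℕ, T.Nonempty → ¬ IsSquare (∏ k ∈ T, d k)) ∧
      ∀ N ∈ B₀, ∀ T : Finset ℕ, T.Nonempty → corank q (sqn (N * ∏ k ∈ T, d k)) = 0 := by
  choose f hf1 hf2 hf3 using fun (B : {B : Finset ℕ // ∀ N ∈ B, W1 N}) (C : Finset ℕ) =>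
    next hS h B.1 C B.2
  have hnx : ∀ (B : {B : Finset ℕ // ∀ N ∈ B, W1 N}) (d : ℕ), W8 d → ∀ N ∈ nx B.1 d, W1 N := by
    intro B d hd N hN
    rcases mem_union.1 hN with hN | hN
    · exact B.2 N hN
    · obtain ⟨N', hN', rfl⟩ := mem_image.1 hN
      have h1 := w1_sqn (n := 1) (d := fun _ => d) (B.2 N' hN') (fun _ => hd.1) {0}
      rwa [prod_singleton] at h1
  obtain ⟨g, hg⟩ : ∃ g : {B : Finset ℕ // ∀ N ∈ B, W1 N} → {B : Finset ℕ // ∀ N ∈ B, W1 N},
      ∀ B, (g B).1 = nx B.1 (f B B.1) := ⟨fun B => ⟨nx B.1 (f B B.1), hnx B _ (hf1 B B.1)⟩, fun B => rfl⟩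
  have hB1 : ∀ N ∈ insert 1 B₀, W1 N := by
    intro N hN
    rcases mem_insert.1 hN with rfl | hN
    · exact ⟨squarefree_one, fun p hp h => absurd (Nat.dvd_one.1 h) hp.one_lt.ne'⟩
    · exact hB N hN
  obtain ⟨st, hst0, hst⟩ : ∃ st : ℕ → {B : Finset ℕ // ∀ N ∈ B, W1 N},
      (st 0).1 = insert 1 B₀ ∧ ∀ k, (st (k + 1)).1 = nx (st k).1 (f (st k) (st k).1) := by
    refine ⟨fun k => g^[k] ⟨insert 1 B₀, hB1⟩, rfl, fun k => ?_⟩
    have h1 : g^[k + 1] ⟨insert 1 B₀, hB1⟩ = g (g^[k] ⟨insert 1 B₀, hB1⟩) :=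
      Function.iterate_succ_apply' _ _ _
    beta_reduce
    rw [h1, hg]
  obtain ⟨d, hd⟩ : ∃ d : ℕ → ℕ, d = fun k => f (st k) (st k).1 := ⟨_, rfl⟩
  have hdk : ∀ k, f (st k) (st k).1 = d k := fun k => by rw [hd]
  have hd8 : ∀ k, W8 (d k) := fun k => by rw [← hdk]; exact hf1 _ _
  have hd0 : ∀ k, d k ≠ 0 := fun k => (hd8 k).1.1.ne_zero
  -- the products are in the sets
  have key : ∀ (m : ℕ) (N : ℕ), N ∈ insert 1 B₀ → ∀ T : Finset ℕ, (∀ k ∈ T, k < m) →
      sqn (N * ∏ k ∈ T, d k) ∈ (st m).1 := by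
    intro m
    induction m with
    | zero =>
      intro N hN T hT
      have hT0 : T = ∅ := Finset.eq_empty_of_forall_notMem fun k hk => absurd (hT k hk) (by omega)
      rw [hT0, prod_empty, mul_one, hst0]
      have hN1 : W1 N := by
        rcases mem_insert.1 hN with rfl | hN
        · exact ⟨squarefree_one, fun p hp h => absurd (Nat.dvd_one.1 h) hp.one_lt.ne'⟩
        · exact hB N hN
      rw [sqn_of_sqf hN1.1]
      exact hN
    | succ m ih =>
      intro N hN T hT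
      rw [hst, hdk]
      unfold nx
      by_cases hm : m ∈ T
      · refine mem_union_right _ (mem_image.2 ⟨sqn (N * ∏ k ∈ T.erase m, d k),
          ih N hN _ fun k hk => ?_, ?_⟩)
        · have h1 := hT k (mem_of_mem_erase hk)
          have h2 := ne_of_mem_erase hk
          omega
        · have h1 : N * ∏ k ∈ T, d k = (N * ∏ k ∈ T.erase m, d k) * d m := by
            rw [← Finset.mul_prod_erase T d hm]
            ring
          have hN0 : N ≠ 0 := by
            rcases mem_insert.1 hN with rfl | hN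
            · exact one_ne_zero
            · exact (hB N hN).1.ne_zero
          have h2 : N * ∏ k ∈ T.erase m, d k ≠ 0 :=
            mul_ne_zero hN0 (Finset.prod_ne_zero_iff.2 fun k _ => hd0 k)
          obtain ⟨c, hc, hc2⟩ : ∃ c : ℕ, c ≠ 0 ∧ N * ∏ k ∈ T.erase m, d k =
            sqn (N * ∏ k ∈ T.erase m, d k) * c ^ 2 := nat_sqf h2
          rw [h1]
          conv_rhs => rw [hc2]
          have h3 : sqn (N * ∏ k ∈ T.erase m, d k) * c ^ 2 * d m =
              sqn (N * ∏ k ∈ T.erase m, d k) * d m * c ^ 2 := by ring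
          rw [h3, sqn_mul_sq (mul_ne_zero (sqn_sqf _).ne_zero (hd0 m)) hc]
      · refine mem_union_left _ (ih N hN T fun k hk => ?_)
        have h1 := hT k hk
        have h2 : k ≠ m := fun h => hm (h ▸ hk)
        omega
  -- the maximum of the set
  have hmax : ∀ T : Finset ℕ, T.Nonempty → ∃ m ∈ T, ∀ k ∈ T.erase m, k < m := by
    intro T hT
    refine ⟨T.max' hT, T.max'_mem hT, fun k hk => ?_⟩
    exact lt_of_le_of_ne (T.le_max' k (mem_of_mem_erase hk)) (ne_of_mem_erase hk)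
  have hsplit : ∀ (N : ℕ), N ≠ 0 → ∀ (T : Finset ℕ) (m : ℕ), m ∈ T →
      sqn (N * ∏ k ∈ T, d k) = sqn (sqn (N * ∏ k ∈ T.erase m, d k) * d m) := by
    intro N hN0 T m hm
    have h1 : N * ∏ k ∈ T, d k = (N * ∏ k ∈ T.erase m, d k) * d m := by
      rw [← Finset.mul_prod_erase T d hm]
      ring
    have h2 : N * ∏ k ∈ T.erase m, d k ≠ 0 :=
      mul_ne_zero hN0 (Finset.prod_ne_zero_iff.2 fun k _ => hd0 k)
    obtain ⟨c, hc, hc2⟩ : ∃ c : ℕ, c ≠ 0 ∧ N * ∏ k ∈ T.erase m, d k =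
      sqn (N * ∏ k ∈ T.erase m, d k) * c ^ 2 := nat_sqf h2
    rw [h1]
    conv_lhs => rw [hc2]
    have h3 : sqn (N * ∏ k ∈ T.erase m, d k) * c ^ 2 * d m =
        sqn (N * ∏ k ∈ T.erase m, d k) * d m * c ^ 2 := by ring
    rw [h3, sqn_mul_sq (mul_ne_zero (sqn_sqf _).ne_zero (hd0 m)) hc]
  refine ⟨d, hd8, fun T hT hsq => ?_, fun N hN T hT => ?_⟩
  · obtain ⟨m, hm, hlt⟩ := hmax T hT
    have h1 := key m 1 (mem_insert_self 1 _) (T.erase m) hlt
    obtain ⟨b, hb⟩ := hsq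
    have hb0 : b ≠ 0 := by
      rintro rfl
      exact (Finset.prod_ne_zero_iff.2 fun k (_ : k ∈ T) => hd0 k) (by rw [hb, mul_zero])
    have h2 : d m = sqn (1 * ∏ k ∈ T.erase m, d k) := by
      rw [← sqn_of_sqf (hd8 m).1.1]
      refine sqn_ext fun p => ?_
      have h3 : (∏ k ∈ T, d k).factorization p = 2 * b.factorization p := by
        rw [hb, Nat.factorization_mul hb0 hb0, Finsupp.add_apply]
        ring
      have h4 : (∏ k ∈ T, d k).factorization p =
          (d m).factorization p + (∏ k ∈ T.erase m, d k).factorization p := by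
        rw [← Finset.mul_prod_erase T d hm, Nat.factorization_mul (hd0 m)
          (Finset.prod_ne_zero_iff.2 fun k _ => hd0 k), Finsupp.add_apply]
      rw [one_mul]
      omega
    have h5 := hf2 (st m) (st m).1
    rw [hdk, h2] at h5
    exact h5 h1
  · obtain ⟨m, hm, hlt⟩ := hmax T hT
    have h1 := key m N (mem_insert_of_mem hN) (T.erase m) hlt
    rw [hsplit N (hB N hN).1.ne_zero T m hm, ← hdk]
    exact hf3 (st m) (st m).1 _ h1

end Q283.LP
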