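import Pool.Agent.Q283.LP.W10

/-!
# Project LP (helper283): twists over the fields
-/

set_option autoImplicit false
set_option linter.unusedSectionVars false
set_option linter.unusedVariables false

open scoped Classical

namespace Q283.LP

open Finset Filter
open Pool.Agent.Q274.BKC (corank)
open Q155.NL (Cl Alm)
open Q283.GS (al)

theorem sqn_sqn {a b : ℕ} (ha : a ≠ 0) (hb : b ≠ 0) : sqn (sqn a * b) = sqn (a * b) := by
  obtain ⟨c, hc, h⟩ : ∃ c : ℕ, c ≠ 0 ∧ a = sqn a * c ^ 2 := nat_sqf ha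
  have h1 : a * b = sqn a * b * c ^ 2 := by
    calc a * b = sqn a * c ^ 2 * b := by rw [← h]
      _ = sqn a * b * c ^ 2 := by ring
  rw [h1, sqn_mul_sq (mul_ne_zero (sqn_sqf _).ne_zero hb) hc]

/-- `{0} ∪ (T + 1)` -/
def zs {n : ℕ} (T : Finset (Fin n)) : Finset (Fin (n + 1)) := insert 0 (T.map (Fin.succEmb n))

theorem zs_inj {n : ℕ} {T T' : Finset (Fin n)} (h : zs T = zs T') : T = T' := by
  have h1 : ∀ U : Finset (Fin n), (zs U).erase 0 = U.map (Fin.succEmb n) := by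
    intro U
    unfold zs
    refine erase_insert ?_
    rw [Finset.mem_map]
    rintro ⟨x, -, hx⟩
    exact Fin.succ_ne_zero x hx
  have h2 := congrArg (fun U => U.erase 0) h
  simp only [h1] at h2
  exact map_injective _ h2

theorem prod_zs {n : ℕ} (T : Finset (Fin n)) (d : Fin (n + 1) → ℕ) :
    ∏ l ∈ zs T, d l = d 0 * ∏ l ∈ T, d l.succ := by
  unfold zs
  rw [prod_insert, prod_map]
  · rfl
  · rw [Finset.mem_map]
    rintro ⟨x, -, hx⟩
    exact Fin.succ_ne_zero x hx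

/-- **All the twists over the fields.** -/
theorem tw_all {q : ℕ} {S : ℕ → Prop} (h : Laws q S) {M n : ℕ} (N : Fin M → ℕ)
    (hN : ∀ j, W1 (N j)) (hinj : Function.Injective N) {ε : ℝ} (hε : 0 < ε) :
    ∀ᶠ D in atTop, S D → |cE (I8 (n + 1) D) (fun d => IdN (fun l : Fin n => d l.succ) ∧
      ∀ j, ∀ T : Finset (Fin n), corank q (sqn (N j * d 0 * ∏ l ∈ T, d l.succ)) = 0) -
        al 0 ^ (M * 2 ^ n) * (I8 (n + 1) D).card| ≤ ε * (I8 (n + 1) D).card := by
  have h1 := laws_ty h (Fin M × Finset (Fin n)) (n := n + 1) (fun j => N j.1) (fun j => zs j.2)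
    (fun j => hN _) (fun j => ⟨0, mem_insert_self _ _⟩) (by
      rintro ⟨j, T⟩ ⟨l, T'⟩ hjl ⟨h2, h3⟩
      exact hjl (Prod.ext (hinj h2) (zs_inj h3))) (ε := ε / 2) (by positivity)
  have h2 := h.dep (n + 1) (ε / 2) (by positivity)
  filter_upwards [h1, h2, eventually_ne_atTop 0] with D k1 k2 hD0 hS
  have e1 := k1 hS univ
  have e2 := k2 hS
  have ec : Fintype.card (Fin M × Finset (Fin n)) = M * 2 ^ n := by
    rw [Fintype.card_prod, Fintype.card_fin, Fintype.card_finset, Fintype.card_fin]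
  rw [card_univ, Nat.sub_self, pow_zero, mul_one, ec] at e1
  have e3 : ∀ d : Fin (n + 1) → ℕ, (∀ j : Fin M × Finset (Fin n),
      (crk q (N j.1) (zs j.2) d = 0 ↔ j ∈ univ)) ↔
      ∀ j, ∀ T : Finset (Fin n), corank q (sqn (N j * d 0 * ∏ l ∈ T, d l.succ)) = 0 := by
    intro d
    constructor
    · intro h j T
      have h1 := (h (j, T)).2 (mem_univ _)
      unfold crk at h1
      rw [prod_zs, ← mul_assoc] at h1
      exact h1
    · rintro h ⟨j, T⟩
      refine iff_of_true ?_ (mem_univ _)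
      unfold crk
      rw [prod_zs, ← mul_assoc]
      exact h j T
  have e4 : cE (I8 (n + 1) D) (fun d => ∀ j : Fin M × Finset (Fin n),
      (crk q (N j.1) (zs j.2) d = 0 ↔ j ∈ univ)) =
      cE (I8 (n + 1) D) (fun d => ∀ j, ∀ T : Finset (Fin n),
        corank q (sqn (N j * d 0 * ∏ l ∈ T, d l.succ)) = 0) := cE_congr fun d _ => e3 d
  rw [e4] at e1
  have hI : ∀ d : Fin (n + 1) → ℕ, IdN d → IdN fun l : Fin n => d l.succ := by
    intro d hd T hT
    have h5 := hd (T.map (Fin.succEmb n)) (map_nonempty.2 hT)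
    rw [prod_map] at h5
    exact h5
  have e5 : cE (I8 (n + 1) D) (fun d => ∀ j, ∀ T : Finset (Fin n),
        corank q (sqn (N j * d 0 * ∏ l ∈ T, d l.succ)) = 0) ≤
      cE (I8 (n + 1) D) (fun d => IdN (fun l : Fin n => d l.succ) ∧ ∀ j, ∀ T : Finset (Fin n),
        corank q (sqn (N j * d 0 * ∏ l ∈ T, d l.succ)) = 0) +
      cE (I8 (n + 1) D) (fun d => ¬ IdN d) := by
    refine le_trans (cE_mono fun d _ hd => ?_) (cE_or _ _)
    by_cases h6 : IdN d
    · exact Or.inl ⟨hI d h6, hd⟩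
    · exact Or.inr h6
  have e6 : cE (I8 (n + 1) D) (fun d => IdN (fun l : Fin n => d l.succ) ∧ ∀ j, ∀ T : Finset (Fin n),
        corank q (sqn (N j * d 0 * ∏ l ∈ T, d l.succ)) = 0) ≤
      cE (I8 (n + 1) D) (fun d => ∀ j, ∀ T : Finset (Fin n),
        corank q (sqn (N j * d 0 * ∏ l ∈ T, d l.succ)) = 0) := cE_mono fun d _ hd => hd.2
  have hc : (0 : ℝ) ≤ (I8 (n + 1) D).card := Nat.cast_nonneg _
  rw [abs_le] at e1 ⊢
  constructor
  · nlinarith [e1.1]
  · nlinarith [e1.2]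

end Q283.LP
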