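import Pool.Agent.Q283.LP.L5
import Pool.Agent.Q283.GM.Sep

/-!
# Project LP: one set of integers for all families of forms
-/

set_option autoImplicit false
set_option linter.unusedSectionVars false
set_option linter.unusedVariables false

open scoped Classical

namespace Q283.LP

open Finset Module Filter
open Q283.GM (Fam rk RC HM Ok hm_sep)
open Pool.Agent.Y703.CQ (nr prs)
open Q155.NL (Cl Alm cnt cs mem_cs alm_mono exists_dense alm_and)
open Q283.GS (al)

theorem prt_pf (Φ : Fam) (D : ℕ) : (prt Φ D).primeFactors = D.primeFactors.filter fun p => Φ.P p :=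
  Nat.primeFactors_prod fun p hp => (mem_filter.1 hp).2.prime

theorem prt_Cl (Φ : Fam) {D : ℕ} (h : Cl Φ D) : prt Φ D = D := by
  unfold prt
  rw [filter_true_of_mem h.2]
  exact Nat.prod_primeFactors_of_squarefree h.1

theorem prt_mem (Φ : Fam) (D : ℕ) : Cl Φ (prt Φ D) := by
  refine ⟨?_, fun p hp => ?_⟩
  · unfold prt
    exact Finset.squarefree_prod_of_pairwise_isCoprime (fun x hx y hy hxy => by
      rw [Function.onFun, ← Nat.coprime_iff_isRelPrime]
      exact (Nat.coprime_primes (mem_filter.1 hx).2.prime (mem_filter.1 hy).2.prime).2 hxy)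
      fun x hx => (mem_filter.1 hx).2.prime.squarefree
  · rw [prt_pf] at hp
    exact (mem_filter.1 hp).2

/-- the forms of a family are different -/
def Dst {M n : ℕ} (Nn : Fin M → Finset ℕ) (e : Fin M → Fin n → ZMod 2) : Prop :=
  ∀ j l, j ≠ l → e j = e l → Nn j ≠ Nn l

/-- **One set for all families.** -/
theorem mainLP (hTR : S_TR) (hASY : S_ASY2) (hSEC : SECd) (hTV : S_TV) (ρ : RC) (f par : ℕ → ZMod 2)
    (hpar : ∀ p q, (ρ.Φ.A p ↔ ρ.Φ.A q) → f p = f q → ρ.Φ.P p → ρ.Φ.P q → par p = par q) :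
    ∃ S : ℕ → Prop, Alm (fun _ => True) S ∧ Alm (Cl ρ.Φ) S ∧
    ∀ (M n : ℕ) (Nn : Fin M → Finset ℕ) (e : Fin M → Fin n → ZMod 2),
      (∀ j, ∀ p ∈ Nn j, ρ.Φ.P p) → (∀ j, e j ≠ 0) → Dst Nn e →
      ∀ ε : ℝ, 0 < ε → ∀ᶠ D in atTop, S D → TT ρ.Φ f e Nn par ε (prt ρ.Φ D).primeFactors := by
  -- the countable index type
  obtain ⟨g, hg⟩ := exists_surjective_nat
    (Σ (M : ℕ) (n : ℕ), (Fin M → Finset ℕ) × (Fin M → Fin n → ZMod 2) × ℕ)
  obtain ⟨T, hT⟩ : ∃ T : ℕ → ℕ → Prop, T = fun i D =>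
    ((∀ j, ∀ p ∈ (g i).2.2.1 j, ρ.Φ.P p) → (∀ j, (g i).2.2.2.1 j ≠ 0) →
      Dst (g i).2.2.1 (g i).2.2.2.1 →
      TT ρ.Φ f (g i).2.2.2.1 (g i).2.2.1 par (1 / (((g i).2.2.2.2 : ℕ) + 1 : ℝ))
        (prt ρ.Φ D).primeFactors) := ⟨_, rfl⟩
  have h1 : ∀ i, Alm (Cl ρ.Φ) (T i) ∧ Alm (fun _ => True) (T i) := by
    intro i
    by_cases h : (∀ j, ∀ p ∈ (g i).2.2.1 j, ρ.Φ.P p) ∧ (∀ j, (g i).2.2.2.1 j ≠ 0) ∧
      Dst (g i).2.2.1 (g i).2.2.2.1
    · obtain ⟨a1, a2, a3⟩ := h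
      have h2 := alm_TT2 hASY hSEC hTV ρ.Φ ρ.ok f (e := (g i).2.2.2.1) a2 (Nn := (g i).2.2.1)
        (fun j p hp => (a1 j p hp).prime) (fun j l hjl hel => by
          have hne : (symmDiff ((g i).2.2.1 j) ((g i).2.2.1 l)).Nonempty := by
            rw [nonempty_iff_ne_empty]
            intro h3
            exact a3 j l hjl hel (symmDiff_eq_bot.1 h3)
          have h3 := hm_sep ρ.h4 ρ.pos hne (fun r hr => by
            have h4 : ρ.Φ.P r := by
              rcases mem_symmDiff.1 hr with h | h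
              · exact a1 j r h.1
              · exact a1 l r h.1
            have h5 := (ρ.P_iff r).1 h4
            refine ⟨h4.prime, Fam.ne_two h4, ?_⟩
            have h6 := (ρ.hAB _ h5.2).2
            unfold Nat.Coprime at h6 ⊢
            rw [← h6, Nat.gcd_comm r, Nat.gcd_rec, Nat.gcd_comm])
          refine h3.mono fun p hp h4 => ⟨⟨hp, ?_⟩, h4.2⟩
          rw [h4.1]
          exact ρ.h1) hpar (ε := 1 / (((g i).2.2.2.2 : ℕ) + 1 : ℝ)) (by positivity)
      have h3 := hTR ρ _ h2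
      refine ⟨alm_mono h2 fun D hD h => ?_, alm_mono h3 fun D _ h => ?_⟩
      · rw [hT]
        intro _ _ _
        rw [prt_Cl _ hD]
        exact h
      · rw [hT]
        intro _ _ _
        exact h
    · have h2 : ∀ D, T i D := by
        intro D
        rw [hT]
        intro b1 b2 b3
        exact absurd ⟨b1, b2, b3⟩ h
      exact ⟨alm_mono (Q155.NL.alm_true _) fun D _ _ => h2 D,
        alm_mono (Q155.NL.alm_true _) fun D _ _ => h2 D⟩
  obtain ⟨S₁, hS₁, h11⟩ := exists_dense fun i => (h1 i).2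
  obtain ⟨S₂, hS₂, h12⟩ := exists_dense fun i => (h1 i).1
  refine ⟨fun D => S₁ D ∨ S₂ D, alm_mono hS₁ fun D _ h => Or.inl h,
    alm_mono hS₂ fun D _ h => Or.inr h, fun M n Nn e hN he hd ε hε => ?_⟩
  obtain ⟨k, hk⟩ := exists_nat_one_div_lt hε
  obtain ⟨i, hi⟩ := hg ⟨M, n, Nn, e, k⟩
  filter_upwards [h11 i, h12 i] with D hD1 hD2 hSD
  have h3 : T i D := by
    rcases hSD with h | h
    · exact hD1 h
    · exact hD2 h
  rw [hT] at h3
  beta_reduce at h3
  rw [hi] at h3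
  intro R
  exact (h3 hN he hd R).trans hk.le

end Q283.LP
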