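import Pool.Agent.Q283.LP.Stm
import Pool.Agent.Q155.NL.Stm

/-!
# Project LP, second version (helper283): forms with equal exponents and different bases

In the first version (`Stm`) the exponents `e j` of the forms are pairwise different. Here only the pairs
(exponent, base) are different. For two forms with the same exponent the sets of large primes are the same; the
forms are separated by the labels with respect to the difference of the bases (`Ty2.sep`).
-/

set_option autoImplicit false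
set_option linter.unusedVariables false

open scoped Classical

namespace Q283.LP

open Finset Module Filter
open Pool.Agent.Y697.PQ (ij)
open Q283.GS (al)

section
variable {U I N M : Type} [Fintype U] [Fintype I] [Fintype N] [Fintype M]

/-- the label of `p` with respect to the small members of the form `j` -/
noncomputable def lj (g : Gr U I) (b : M → U → Prop) (p : I) (j : M) : ZMod 2 :=
  ∑ u ∈ univ.filter (b j), g.lb p u

/-- the typical tuples -/
structure Ty2 (g : Gr U I) (e : M → N → ZMod 2) (b : M → U → Prop) (C R : ℕ)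
    (t : I → N → ZMod 2) : Prop where
  ty : Ty g e C R t
  sep : ∀ j l, j ≠ l → e j = e l → C * Fintype.card U + R ≤
    (univ.filter fun p => g.aI p ∧ ∑ i, e j i * t p i = 1 ∧ lj g b p j ≠ lj g b p l).card

/-- JOB LP-CNF2. As `S_CNF` (proved in `Q203/LP/CNF.lean`), without the hypothesis that `e` is injective (not used: the
bound `#Z t ≤ 2 ^ #Jt t` for admissible families, the first part of `S_STR`, only needs `S_ISO`, see `Q98/LP/STR.lean`). -/
def S_CNF2 : Prop := ∀ (N M : Type) [Fintype N] [Fintype M] (e : M → N → ZMod 2) (r : M → ℕ),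
  (∀ j, e j ≠ 0) → ∃ C : ℕ, ∀ δ : ℝ, 0 < δ → ∃ R : ℕ,
  ∀ (U I : Type) [Fintype U] [Fintype I] (g : Gr U I) (b : M → U → Prop) (t : I → N → ZMod 2),
  Ty g e C R t →
  ((univ.filter fun y : (KK r → U ⊕ I → ZMod 2) × (KK r → U ⊕ I → ZMod 2) => Sx g e b t r y.1 ∧
    Sx g e b t r y.2 ∧ Pc e t r y.1 y.2 ∧ ¬ Fl e t r y.1 y.2).card : ℝ) ≤ δ * 2 ^ Ns g e b t r

/-- JOB LP-STR2 (first part). A full admissible family consists of subspaces. PROOF. As in `S_STR`: the span of `Z t` is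
isotropic for `Bf (Jt t)` and supported on `Jt t`, so by `S_ISO` it has at most `2 ^ #Jt t = #Z t` elements. -/
def S_CLO : Prop := ∀ (N M K : Type) [Fintype N] [Fintype M] [Fintype K] (e : M → N → ZMod 2)
  (κ : K → M) (Z : (N → ZMod 2) → Finset (WW K)), Fa e κ Z →
  (∀ t, (Z t).card = 2 ^ (Jt e κ t).card) → ∀ t, ∀ z ∈ Z t, ∀ w ∈ Z t, z + w ∈ Z t

/-- JOB LP-STR2 (second part). The structure of the admissible families when forms with equal exponents are separated:
`𝒟` is a set of pairs (pattern, vector of labels).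
PROOF. As for `S_STR` (proof of helper98 in `Q98/LP/STR.lean`), with one more restriction. As there, `Z t` is the subspace
`L t` of dimension `#Jt t`, `Qf (Jt t) = 0` and `Bf (Jt t ∩ Jt t')` vanishes on `L t × L t'`; by `S_DEC` it is stable under the
restrictions to `Jt t ∩ Jt t'`, and these restrictions of `L t` are in `L t'`. (NEW) For `(s, λ) ∈ 𝒟` let
`J = {k ∈ Jt s : λ (κ k) = 1}` and `J' = {k ∈ Jt s : λ (κ k) = 0}`. The last hypothesis says `Bf J = 0` on `L s`, hence also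
`Bf J' = Bf (Jt s) - Bf J = 0`. So `res J (L s)` and `res J' (L s)` are isotropic, of dimension at most `#J` and `#J'`
(`S_ISO`), and `L s` is contained in their sum, so by dimensions `L s` is equal to the sum and it is stable under
`res J` and `res J'`. Let `j` be a form with `e_j · t = 1` and `z ∈ L t`. The intersection of the `Jt t'` over the `t'` with
`e_j · t' = 1` is the class `{k : e (κ k) = e j}` (if `e l ≠ e j` there is `t'` with `e_j · t' = 1` and `e_l · t' = 0`), so the restriction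
`z'` of `z` to the class is in `L t'` for all `t'` with `e_j · t' = 1`. For each `l ≠ j` with `e l = e j` take `(s, λ) ∈ 𝒟` with
`e_j · s = 1`, `λ j ≠ λ l`: restrict `z'` (which is in `L s`) to `J` if `λ j = 1`, to `J'` if `λ j = 0`; the result is in `L s`, its support is
in the class, hence it is in `L t'` for all `t'` with `e_j · t' = 1` (`S_DEC` for `s, t'`), it contains the block of `j` and not the
block of `l`. After all `l` we get: the restriction of `z` to the block `{k : κ k = j}` is in `L t'` for every `t'` with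
`e_j · t' = 1`. The rest (independence, the maps `S_t`) is as in `S_STR`. -/
def S_STR2 : Prop := ∀ (N M K : Type) [Fintype N] [Fintype M] [Fintype K] (e : M → N → ZMod 2)
  (κ : K → M) (Z : (N → ZMod 2) → Finset (WW K)) (𝒟 : Set ((N → ZMod 2) × (M → ZMod 2))),
  (∀ j, e j ≠ 0) → Fa e κ Z → (∀ t, (Z t).card = 2 ^ (Jt e κ t).card) →
  (∀ (j : M) (c : K → ZMod 2), (∀ t, ∀ z ∈ Z t, ∑ k ∈ univ.filter (fun k => κ k = j), c k * z.1 k = 0) →
      ∀ k, κ k = j → c k = 0) →
  (∀ j l, j ≠ l → e j = e l → ∃ y ∈ 𝒟, ∑ i, e j i * y.1 i = 1 ∧ y.2 j ≠ y.2 l) →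
  (∀ y ∈ 𝒟, ∀ z ∈ Z y.1, ∀ w ∈ Z y.1,
    ∑ k ∈ Jt e κ y.1, y.2 (κ k) * (z.1 k * w.2 k + w.1 k * z.2 k) = 0) →
  ∃ S : K → K → ZMod 2, Alt κ S ∧ (∀ t, ∀ z ∈ Z t, ∀ k, z.2 k = ∑ l, S k l * z.1 l) ∧
      ∀ t, ∀ x : K → ZMod 2, (∀ k, k ∉ Jt e κ t → x k = 0) → ∃ z ∈ Z t, z.1 = x

/-- the pairs with values in the family `Y` -/
def Vy (t : I → N → ZMod 2) (r : M → ℕ) (Y : (N → ZMod 2) → Finset (WW (KK r)))
    (x c : KK r → U ⊕ I → ZMod 2) : Prop :=
  ∀ p : I, ((fun k => x k (.inr p), fun k => c k (.inr p)) : WW (KK r)) ∈ Y (t p)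

/-- JOB LP-GS. The sum of the signs over the pairs with values in a full admissible family of subspaces is small, if
at many active large indices the labels do not respect the family.
PROOF. For the table `α = 0` the symbols between large indices vanish. Fix the values of `x`, `c` at the small indices
(at most `2 ^ (2 #K #U)` possibilities, `K = KK r`). The values at the passive large indices are `0`, and the value `z_p` at an
active large `p` runs through `Y (t p)` (the support condition is `Fa.sup`). The exponent `th` is a constant plus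
`∑_p T_p (z_p)` where, with `J = Jt (t p)` and `ℓ k = lj g b p k.1`,
`T_p (z) = ∑_{k ∈ J} z.2 k * z.1 k * (ℓ k + fI p) + ∑_{k ∈ J} (z.2 k * ∑ u, lb p u * x k u + z.1 k * ∑ u, lb p u * c k u) + ∑_{k ∈ J} ∑ u, lb p u * c k u * x k u`
(sums over the small members `u` of the form of `k`; the first two come from the rows of `p`, the last two from the rows of
the `u`, which see `p` if and only if `p` is a member, `k ∈ J`). The part with `fI p` is `fI p * Qf J z = 0` (`Fa.pair` with `w = 0`). So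
`T_p (z + w) + T_p z + T_p w + T_p 0 = ∑_{k ∈ J} ℓ k * (z.1 k * w.2 k + w.1 k * z.2 k)`; if this is not zero for some
`z, w ∈ Y (t p)`, then `T_p` is not constant on `Y (t p)` (which contains `z + w` and `0`) and
`|∑_{z ∈ Y (t p)} sn (T_p z)| ≤ #Y (t p) - 2 ≤ #Y (t p) (1 - 2^-#K)`, as `#Y (t p) = 2 ^ #J ≤ 2 ^ #K`; for the other `p` it is at
most `#Y (t p)`. -/
def S_GS : Prop := ∀ (U I N M : Type) [Fintype U] [Fintype I] [Fintype N] [Fintype M] (g : Gr U I)
  (e : M → N → ZMod 2) (b : M → U → Prop) (t : I → N → ZMod 2) (r : M → ℕ)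
  (Y : (N → ZMod 2) → Finset (WW (KK r))) (n : ℕ), Fa e (fun k : KK r => k.1) Y →
  (∀ s, (Y s).card = 2 ^ (Jt e (fun k : KK r => k.1) s).card) →
  (∀ s, ∀ z ∈ Y s, ∀ w ∈ Y s, z + w ∈ Y s) →
  n ≤ (univ.filter fun p : I => g.aI p ∧ ∃ z ∈ Y (t p), ∃ w ∈ Y (t p),
    ∑ k ∈ Jt e (fun k : KK r => k.1) (t p), lj g b p k.1 * (z.1 k * w.2 k + w.1 k * z.2 k) ≠ 0).card →
  |((∑ y ∈ univ.filter (fun y : (KK r → U ⊕ I → ZMod 2) × (KK r → U ⊕ I → ZMod 2) =>
      Sx g e b t r y.1 ∧ Sx g e b t r y.2 ∧ Vy t r Y y.1 y.2), sn (th g e b t r 0 y.1 y.2) : ℤ) : ℝ)| ≤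
    2 ^ (2 * Fintype.card (KK r) * Fintype.card U) *
      (∏ p ∈ univ.filter (fun p : I => g.aI p), ((Y (t p)).card : ℝ)) *
      (1 - (1 / 2 : ℝ) ^ Fintype.card (KK r)) ^ n

/-- The moments (LP-FT2, helper283). -/
def S_FT2 : Prop := ∀ (N M : Type) [Fintype N] [Fintype M] (e : M → N → ZMod 2) (r : M → ℕ),
  (∀ j, e j ≠ 0) → ∃ C : ℕ, ∀ δ : ℝ, 0 < δ → ∃ R : ℕ,
  ∀ (U I : Type) [Fintype U] [Fintype I] (g : Gr U I) (b : M → U → Prop) (t : I → N → ZMod 2),
  Ty2 g e b C R t →
  |(∑ α : I → I → ZMod 2, ∏ j, ij (r j) (2 ^ g.co α (FF e b t j))) /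
      (Fintype.card (I → I → ZMod 2) : ℝ) - ∏ j, (2 : ℝ) ^ (r j * (r j - 1) / 2)| ≤ δ

/-- the law for typical tuples (helper283) -/
def S_LT2 : Prop := ∀ (N M : Type) [Fintype N] [Fintype M] (e : M → N → ZMod 2),
  (∀ j, e j ≠ 0) → ∀ δ : ℝ, 0 < δ → ∃ C R : ℕ,
  ∀ (U I : Type) [Fintype U] [Fintype I] (g : Gr U I) (b : M → U → Prop) (t : I → N → ZMod 2),
  Ty2 g e b C R t → ∀ r : M → ℕ,
  |((univ.filter fun α : I → I → ZMod 2 => ∀ j, g.co α (FF e b t j) = r j).card : ℝ) /
      (Fintype.card (I → I → ZMod 2) : ℝ) - ∏ j, al (r j)| ≤ δ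

/-- the separation of the bases `m` of forms with the same exponent -/
def Spp (g : Gr U I) (e : M → N → ZMod 2) (m : M → U → ZMod 2) (A R : ℕ) : Prop :=
  ∀ j l, j ≠ l → e j = e l → A * Fintype.card U + R ≤
    (univ.filter fun p => g.aI p ∧ ∑ u, (m j u + m l u) * g.lb p u ≠ 0).card

/-- JOB LP-TYP2. PROOF. As `S_TYP` (`Q162/LP/TYP.lean`) for `Ty`; for `sep` let `j ≠ l` with `e j = e l`. For the members
`b = bb e m τ` the indicator of `b j u` is `m j u + ∑ i, e j i * τ u i`, so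
`lj g b p j + lj g b p l = ∑ u, (m j u + m l u) * lb p u`. There are at least `A #U + R'` active `p` for which this is not zero, and for
each of them `∑ i, e j i * t p i = 1` has the probability `1/2` (`e j ≠ 0`), independently; the number `X` of those with
`∑ i, e j i * t p i = 1` satisfies `E 2^-X ≤ (3/4) ^ (A #U + R')`, so `P(X < C #U + R) ≤ 2 ^ (C #U + R) (3/4) ^ (A #U + R')`. -/
def S_TYP2 : Prop := ∀ (N M : Type) [Fintype N] [Fintype M] (e : M → N → ZMod 2), (∀ j, e j ≠ 0) →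
  ∀ (C R : ℕ) (δ : ℝ), 0 < δ → ∃ A R' : ℕ, ∀ (U I : Type) [Fintype U] [Fintype I] (g : Gr U I)
  (m : M → U → ZMod 2) (τ : U → N → ZMod 2), Rgg g A R' → Spp g e m A R' →
  ((univ.filter fun t : I → N → ZMod 2 => ¬ Ty2 g e (bb e m τ) C R t).card : ℝ) ≤
    δ * (Fintype.card (I → N → ZMod 2) : ℝ)

/-- JOB LP-SEC2. As `S_SEC` (`Q98/LP/SEC.lean`), with `Ty2`. The doubled system has the forms `(e j, 0)`, `(0, e j)` in the
variables `N ⊕ N` and the masks `m j`, `m j`; `(e j, 0) = (0, e l)` is impossible, so `Spp` for the doubled system follows from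
`Spp g e m A R`; `bb` of the doubled system at the small patterns `(τ, τ')` is `bb e m τ`, `bb e m τ'`. -/
def S_SEC2 : Prop := S_LT2 → S_TYP2 → ∀ (N M : Type) [Fintype N] [Fintype M] (e : M → N → ZMod 2),
  (∀ j, e j ≠ 0) → ∀ (D₀ : ℕ) (δ : ℝ), 0 < δ → ∃ A R : ℕ,
  ∀ (U I : Type) [Fintype U] [Fintype I] (g : Gr U I) (m : M → U → ZMod 2)
    (T : Finset ((U → N → ZMod 2) × (I → N → ZMod 2))), Rgg g A R → Spp g e m A R → T.Nonempty →
  (∀ τ : U → N → ZMod 2, (∃ t, (τ, t) ∈ T) →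
    Fintype.card (I → N → ZMod 2) ≤ D₀ * (univ.filter fun t => (τ, t) ∈ T).card) →
  ∀ r : M → ℕ, (∑ α : I → I → ZMod 2, (shr g e m T r α - ∏ j, al (r j)) ^ 2) /
    (Fintype.card (I → I → ZMod 2) : ℝ) ≤ δ

end

/-! ### the natural order -/

open Q283.GM (Fam Ok SS RR HM)
open Q155.NL (Rg BX)
open Pool.Agent.Y703.CQ (nr)

/-- the regular labels which separate the sets of `𝒲` -/
def Rg2 (Φ : Fam) (A R : ℕ) (𝒲 : Finset (Finset ℕ)) (W S₀ S₁ : Finset ℕ) : Prop :=
  Rg Φ A R W S₀ S₁ ∧ ∀ w ∈ 𝒲, A * (S₀ ∪ W).card + R ≤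
    (S₁.filter fun p => Φ.A p ∧ ∑ u ∈ w, nr p u ≠ 0).card

/-- JOB LP-ASY2. The asymptotics with the separation. PROOF. As `Q155.NL.S_ASY` (`Q34/NL/Asy.lean`, theorem `asy`; copy it with
`N = Rg2 Φ A R 𝒲 W`, also in `out_sub`), with one more small term for every `w ∈ 𝒲`: the sets `S` with
`((la (zz X) S).filter fun p => Φ.A p ∧ ∑ u ∈ w, nr p u ≠ 0).card < A * (sm (zz X) S).card + (A * W.card + R)` are few by
`Pool.Agent.Q210.NL.sml_fewA` (with `HM` from the hypothesis), finitely many `w` (`sml_add`, induction, or `sml_sum`).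
Take `Pool.Agent.Q34.NL.key` for `S_KEY` and `Pool.Agent.Q210.NL.bad` for `S_BAD`. -/
def S_ASY2 : Prop := ∀ (Φ : Fam) (δ : ℝ), Ok Φ δ → ∀ (T : Finset ℕ → Prop)
  (W : Finset ℕ) (𝒲 : Finset (Finset ℕ)), (∀ u ∈ W, u.Prime) →
  (∀ w ∈ 𝒲, HM fun p => Φ.A p ∧ ∑ u ∈ w, nr p u ≠ 0) →
  (∀ ε : ℝ, 0 < ε → ∃ A R : ℕ, BX Φ (Rg2 Φ A R 𝒲 W) T W ε) →
  Tendsto (fun X : ℕ => (((SS Φ X).filter T).card : ℝ) / ((SS Φ X).card : ℝ)) atTop (nhds 1)

end Q283.LP
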