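import Pool.Agent.Q283.LP.FT
import Pool.Agent.Q283.LP.Stm3

/-!
# Project LP, second version: the moments
-/

set_option autoImplicit false
set_option linter.unusedSectionVars false
set_option linter.unusedVariables false

open scoped Classical

namespace Q283.LP

open Finset Module
open Pool.Agent.Y697.PQ (ij)
open Q283.GS (al)

section
variable {U I N M : Type} [Fintype U] [Fintype I] [Fintype N] [Fintype M]

/-- the condition of independence for a family -/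
def IdY {N M : Type} [Fintype M] (r : M → ℕ) (Z : (N → ZMod 2) → Finset (WW (KK r))) : Prop :=
  ∀ (j : M) (c : KK r → ZMod 2), (∀ t, ∀ z ∈ Z t,
    ∑ k ∈ univ.filter (fun k : KK r => k.1 = j), c k * z.1 k = 0) → ∀ k : KK r, k.1 = j → c k = 0

theorem sum_blk (r : M → ℕ) (j : M) (F : KK r → ZMod 2) :
    ∑ k ∈ univ.filter (fun k : KK r => k.1 = j), F k = ∑ i, F ⟨j, i⟩ := by
  symm
  refine Finset.sum_bij (fun i _ => (⟨j, i⟩ : KK r)) ?_ ?_ ?_ ?_
  · intro i _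
    exact mem_filter.2 ⟨mem_univ _, rfl⟩
  · intro i _ i' _ h
    simpa using h
  · rintro ⟨j', i'⟩ h
    have h4 : j' = j := (mem_filter.1 h).2
    subst h4
    exact ⟨i', mem_univ _, rfl⟩
  · intro i _
    rfl

/-- independence depends on the family of values only -/
theorem idp_iff (t : I → N → ZMod 2) (r : M → ℕ) (x c : KK r → U ⊕ I → ZMod 2) :
    Idp r x ↔ IdY r (Zf t r x c) := by
  constructor
  · intro hI j a ha k hk
    have h2 := hI j (fun i => a ⟨j, i⟩) fun p => by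
      have h3 := ha (t p) (fun k => x k (.inr p), fun k => c k (.inr p))
        (mem_image.2 ⟨p, mem_filter.2 ⟨mem_univ _, rfl⟩, rfl⟩)
      rw [sum_blk] at h3
      exact h3
    obtain ⟨j', i'⟩ := k
    have h4 : j' = j := hk
    subst h4
    exact congrFun h2 i'
  · intro hY j a ha
    have h1 := hY j (fun k => if h : k.1 = j then a (h ▸ k.2) else 0) (by
      intro s z hz
      obtain ⟨p, hp, rfl⟩ := mem_image.1 hz
      rw [sum_blk]
      rw [← ha p]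
      refine sum_congr rfl fun i _ => ?_
      rw [dif_pos rfl])
    funext i
    have h2 := h1 ⟨j, i⟩ rfl
    rw [dif_pos rfl] at h2
    exact h2

/-- the pairs with values in an admissible family satisfy the condition of pairs -/
theorem pc_Vy {e : M → N → ZMod 2} {t : I → N → ZMod 2} {r : M → ℕ}
    {Y : (N → ZMod 2) → Finset (WW (KK r))} (hY : Fa e (fun k : KK r => k.1) Y)
    {x c : KK r → U ⊕ I → ZMod 2} (h : Vy t r Y x c) : Pc e t r x c := by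
  intro p q
  have h1 := hY.pair (t p) (t q) _ (h p) _ (h q)
  unfold Qf at h1
  refine Eq.trans (Finset.sum_congr (Finset.ext fun k => ?_) fun k _ => rfl) h1
  exact Pool.Agent.Q203.LP.inter_any _ _ _

theorem vy_Zf (t : I → N → ZMod 2) (r : M → ℕ) (x c : KK r → U ⊕ I → ZMod 2) :
    Vy t r (Zf t r x c) x c := fun p => mem_image.2 ⟨p, mem_filter.2 ⟨mem_univ _, rfl⟩, rfl⟩

theorem Zf_sub {t : I → N → ZMod 2} {r : M → ℕ} {Y : (N → ZMod 2) → Finset (WW (KK r))}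
    {x c : KK r → U ⊕ I → ZMod 2} (h : Vy t r Y x c) (s : N → ZMod 2) : Zf t r x c s ⊆ Y s := by
  intro z hz
  obtain ⟨p, hp, rfl⟩ := mem_image.1 hz
  have h1 := h p
  rw [(mem_filter.1 hp).2] at h1
  exact h1

/-- **The families which are not respected by the labels.** -/
theorem bad_Y (hSTR2 : S_STR2) {g : Gr U I} {e : M → N → ZMod 2} {b : M → U → Prop}
    {t : I → N → ZMod 2} {r : M → ℕ} (he : ∀ j, e j ≠ 0) {n : ℕ}
    (hsep : ∀ j l, j ≠ l → e j = e l →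
      Fintype.card ((N → ZMod 2) × (M → ZMod 2)) * n ≤
        (univ.filter fun p => g.aI p ∧ ∑ i, e j i * t p i = 1 ∧ lj g b p j ≠ lj g b p l).card)
    {x c : KK r → U ⊕ I → ZMod 2} (hFa : Fa e (fun k : KK r => k.1) (Zf t r x c)) (hI : Idp r x)
    (hF : Fl e t r x c) (hno : ¬ ∃ S, Alt (fun k : KK r => k.1) S ∧ As r S x c) :
    n ≤ (univ.filter fun p : I => g.aI p ∧ ∃ z ∈ Zf t r x c (t p), ∃ w ∈ Zf t r x c (t p),
      ∑ k ∈ Jt e (fun k : KK r => k.1) (t p), lj g b p k.1 * (z.1 k * w.2 k + w.1 k * z.2 k) ≠ 0).card := by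
  obtain ⟨𝒟, h𝒟⟩ : ∃ 𝒟 : Set ((N → ZMod 2) × (M → ZMod 2)), 𝒟 = {y | n ≤
    (univ.filter fun p => g.aI p ∧ t p = y.1 ∧ lj g b p = y.2).card} := ⟨_, rfl⟩
  by_contra hcon
  apply hno
  have h1 : ∀ y ∈ 𝒟, ∀ z ∈ Zf t r x c y.1, ∀ w ∈ Zf t r x c y.1,
      ∑ k ∈ Jt e (fun k : KK r => k.1) y.1, y.2 k.1 * (z.1 k * w.2 k + w.1 k * z.2 k) = 0 := by
    intro y hy z hz w hw
    by_contra hne
    rw [h𝒟] at hy
    apply hcon
    refine le_trans hy (card_le_card fun p hp => ?_)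
    obtain ⟨-, h2, h3, h4⟩ := mem_filter.1 hp
    refine mem_filter.2 ⟨mem_univ _, h2, z, by rw [h3]; exact hz, w, by rw [h3]; exact hw, ?_⟩
    rw [h3, h4]
    exact hne
  obtain ⟨S, hS, h2, -⟩ := hSTR2 N M (KK r) e (fun k => k.1) (Zf t r x c) 𝒟 he hFa hF
    ((idp_iff t r x c).1 hI) (by
      intro j l hjl hel
      obtain ⟨Q, hQ⟩ : ∃ Q : Finset ((N → ZMod 2) × (M → ZMod 2)), Q = univ.filter fun y =>
        ∑ i, e j i * y.1 i = 1 ∧ y.2 j ≠ y.2 l := ⟨_, rfl⟩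
      have hQne : Q.Nonempty := by
        obtain ⟨s, hs⟩ := ex_one (he j)
        refine ⟨(s, fun k => if k = j then 1 else 0), ?_⟩
        rw [hQ, mem_filter]
        refine ⟨mem_univ _, hs, ?_⟩
        show (if j = j then (1 : ZMod 2) else 0) ≠ if l = j then 1 else 0
        rw [if_pos rfl, if_neg (Ne.symm hjl)]
        exact one_ne_zero
      have h3 : Q.card * n ≤ (univ.filter fun p => g.aI p ∧ ∑ i, e j i * t p i = 1 ∧
          lj g b p j ≠ lj g b p l).card :=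
        (Nat.mul_le_mul_right n (card_le_univ Q)).trans (hsep j l hjl hel)
      obtain ⟨y, hy, h4⟩ := exists_le_card_fiber_of_mul_le_card_of_maps_to
        (s := univ.filter fun p => g.aI p ∧ ∑ i, e j i * t p i = 1 ∧
          lj g b p j ≠ lj g b p l) (t := Q) (f := fun p => (t p, lj g b p)) (n := n) (by
          intro p hp
          rw [hQ, mem_filter]
          exact ⟨mem_univ _, (mem_filter.1 hp).2.2⟩) hQne h3
      rw [hQ, mem_filter] at hy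
      refine ⟨y, ?_, hy.2⟩
      rw [h𝒟]
      refine le_trans h4 (card_le_card fun p hp => ?_)
      obtain ⟨h5, h6⟩ := mem_filter.1 hp
      exact mem_filter.2 ⟨mem_univ _, (mem_filter.1 h5).2.1, congrArg Prod.fst h6,
        congrArg Prod.snd h6⟩) h1
  exact ⟨S, hS, fun k p => h2 (t p) _ (mem_image.2 ⟨p, mem_filter.2 ⟨mem_univ _, rfl⟩, rfl⟩) k⟩

/-- the number of the types -/
noncomputable def nty (N : Type) {M : Type} [Fintype N] [Fintype M] (r : M → ℕ) : ℕ :=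
  Fintype.card ((N → ZMod 2) → Finset (WW (KK r)))

/-- **The main sum.** -/
theorem main_Z2 (hISO : S_ISO) (hCLO : S_CLO) (hSTR2 : S_STR2) (hGS : S_GS) (hSUM : S_SUM)
    {g : Gr U I} {e : M → N → ZMod 2} {b : M → U → Prop}
    {t : I → N → ZMod 2} {r : M → ℕ} (he : ∀ j, e j ≠ 0)
    (hp : ∀ s : N → ZMod 2, ∃ p, ¬ g.aI p ∧ t p = s)
    (hreg : ∀ (j : M) (w : Finset U), w.Nonempty → (∀ u ∈ w, g.aU u) →
      ∃ p, g.aI p ∧ ∑ i, e j i * t p i = 1 ∧ ∑ u ∈ w, g.lb p u ≠ 0) {n : ℕ}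
    (hsep : ∀ j l, j ≠ l → e j = e l →
      Fintype.card ((N → ZMod 2) × (M → ZMod 2)) * n ≤
        (univ.filter fun p => g.aI p ∧ ∑ i, e j i * t p i = 1 ∧ lj g b p j ≠ lj g b p l).card)
    {G : ℝ} (hG : 2 ^ (2 * Fintype.card (KK r) * Fintype.card U) * 2 ^ Ns g e b t r *
      (1 - (1 / 2 : ℝ) ^ Fintype.card (KK r)) ^ n ≤ G) :
    |((∑ y ∈ univ.filter (fun y : (KK r → U ⊕ I → ZMod 2) × (KK r → U ⊕ I → ZMod 2) =>
        Sx g e b t r y.1 ∧ Sx g e b t r y.2 ∧ Pc e t r y.1 y.2 ∧ Idp r y.1),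
        sn (th g e b t r 0 y.1 y.2) : ℤ) : ℝ) -
      ((univ.filter fun S : KK r → KK r → ZMod 2 => Alt (fun k : KK r => k.1) S).card : ℝ) *
        2 ^ Ns g e b t r| ≤
    (1 + (univ.filter fun S : KK r → KK r → ZMod 2 => Alt (fun k : KK r => k.1) S).card + nty N r : ℝ) *
      (univ.filter fun y : (KK r → U ⊕ I → ZMod 2) × (KK r → U ⊕ I → ZMod 2) => Sx g e b t r y.1 ∧
        Sx g e b t r y.2 ∧ Pc e t r y.1 y.2 ∧ ¬ Fl e t r y.1 y.2).card + nty N r * G := by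
  obtain ⟨A, hA⟩ : ∃ A, A = univ.filter fun S : KK r → KK r → ZMod 2 =>
    Alt (fun k : KK r => k.1) S := ⟨_, rfl⟩
  obtain ⟨F, hF⟩ : ∃ F, F = univ.filter fun y : (KK r → U ⊕ I → ZMod 2) × (KK r → U ⊕ I → ZMod 2) =>
    Sx g e b t r y.1 ∧ Sx g e b t r y.2 ∧ Pc e t r y.1 y.2 ∧ ¬ Fl e t r y.1 y.2 := ⟨_, rfl⟩
  obtain ⟨σ, hσ⟩ : ∃ σ : (KK r → U ⊕ I → ZMod 2) × (KK r → U ⊕ I → ZMod 2) → ℤ,
    σ = fun y => sn (th g e b t r 0 y.1 y.2) := ⟨_, rfl⟩
  have hσ1 : ∀ y, |σ y| ≤ 1 := by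
    intro y
    rw [hσ]
    exact abs_sn _
  obtain ⟨Q, hQ⟩ : ∃ Q, Q = univ.filter (fun y : (KK r → U ⊕ I → ZMod 2) × (KK r → U ⊕ I → ZMod 2) =>
        Sx g e b t r y.1 ∧ Sx g e b t r y.2 ∧ Pc e t r y.1 y.2 ∧ Idp r y.1) := ⟨_, rfl⟩
  obtain ⟨B, hB⟩ : ∃ B : (KK r → KK r → ZMod 2) →
      Finset ((KK r → U ⊕ I → ZMod 2) × (KK r → U ⊕ I → ZMod 2)), B = fun S =>
      univ.filter (fun y : (KK r → U ⊕ I → ZMod 2) × (KK r → U ⊕ I → ZMod 2) => Sx g e b t r y.1 ∧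
        Sx g e b t r y.2 ∧ As r S y.1 y.2) := ⟨_, rfl⟩
  obtain ⟨V, hV⟩ : ∃ V : ((N → ZMod 2) → Finset (WW (KK r))) →
      Finset ((KK r → U ⊕ I → ZMod 2) × (KK r → U ⊕ I → ZMod 2)), V = fun Y =>
      univ.filter (fun y : (KK r → U ⊕ I → ZMod 2) × (KK r → U ⊕ I → ZMod 2) => Sx g e b t r y.1 ∧
        Sx g e b t r y.2 ∧ Vy t r Y y.1 y.2) := ⟨_, rfl⟩
  have hmemA : ∀ S, S ∈ A ↔ Alt (fun k : KK r => k.1) S := fun S => by
    rw [hA, mem_filter]
    exact and_iff_right (mem_univ _)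
  have hmemF : ∀ y, y ∈ F ↔ Sx g e b t r y.1 ∧ Sx g e b t r y.2 ∧ Pc e t r y.1 y.2 ∧
      ¬ Fl e t r y.1 y.2 := fun y => by
    rw [hF, mem_filter]
    exact and_iff_right (mem_univ _)
  have hmemQ : ∀ y, y ∈ Q ↔ Sx g e b t r y.1 ∧ Sx g e b t r y.2 ∧ Pc e t r y.1 y.2 ∧
      Idp r y.1 := fun y => by
    rw [hQ, mem_filter]
    exact and_iff_right (mem_univ _)
  have hmemB : ∀ S y, y ∈ B S ↔ Sx g e b t r y.1 ∧ Sx g e b t r y.2 ∧ As r S y.1 y.2 := fun S y => by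
    rw [hB, mem_filter]
    exact and_iff_right (mem_univ _)
  have hmemV : ∀ Y y, y ∈ V Y ↔ Sx g e b t r y.1 ∧ Sx g e b t r y.2 ∧ Vy t r Y y.1 y.2 := fun Y y => by
    rw [hV, mem_filter]
    exact and_iff_right (mem_univ _)
  -- the split part and the rest
  obtain ⟨H, hH⟩ : ∃ H : (KK r → U ⊕ I → ZMod 2) × (KK r → U ⊕ I → ZMod 2) → Prop, H = fun y =>
    ∃ S, Alt (fun k : KK r => k.1) S ∧ As r S y.1 y.2 := ⟨_, rfl⟩
  have h1 : Q.filter (fun y => Fl e t r y.1 y.2 ∧ H y) =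
      A.biUnion fun S => (B S).filter fun y => Fl e t r y.1 y.2 := by
    ext y
    rw [mem_filter, mem_biUnion, hmemQ, hH]
    constructor
    · rintro ⟨⟨a1, a2, a3, a4⟩, a5, S, hS, hS'⟩
      exact ⟨S, (hmemA S).2 hS, mem_filter.2 ⟨(hmemB S y).2 ⟨a1, a2, hS'⟩, a5⟩⟩
    · rintro ⟨S, hS, h⟩
      rw [mem_filter, hmemB] at h
      obtain ⟨⟨a1, a2, a3⟩, a5⟩ := h
      exact ⟨⟨a1, a2, pc_As ((hmemA S).1 hS) a1 a3, idp_As he a1 a3 a5⟩, a5, S, (hmemA S).1 hS, a3⟩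
  have h2 : ∑ y ∈ Q.filter (fun y => Fl e t r y.1 y.2 ∧ H y), σ y =
      ∑ S ∈ A, ∑ y ∈ (B S).filter (fun y => Fl e t r y.1 y.2), σ y := by
    rw [h1]
    refine sum_biUnion ?_
    intro S hS S' hS' hne
    rw [Function.onFun, Finset.disjoint_left]
    intro y hy hy'
    rw [mem_filter, hmemB] at hy hy'
    exact hne (S_unique he hy.1.1 hy.1.2.2 hy'.1.2.2 hy.2)
  have h3 : ∀ S ∈ A, ∑ y ∈ B S, σ y = 2 ^ Ns g e b t r := by
    intro S hS
    rw [hB, hσ]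
    exact hSUM U I N M g e b t r S ((hmemA S).1 hS) hreg
  have hle : ∀ E : Finset ((KK r → U ⊕ I → ZMod 2) × (KK r → U ⊕ I → ZMod 2)), E ⊆ F →
      |∑ y ∈ E, σ y| ≤ (F.card : ℤ) := by
    intro E hE
    refine (abs_sum_le_sum_abs _ _).trans ((sum_le_sum fun y _ => hσ1 y).trans ?_)
    rw [sum_const, nsmul_eq_mul, mul_one]
    exact Nat.cast_le.2 (card_le_card hE)
  have hnf : ∀ S ∈ A, |∑ y ∈ (B S).filter (fun y => ¬ Fl e t r y.1 y.2), σ y| ≤ F.card := by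
    intro S hS
    refine hle _ fun y hy => ?_
    rw [mem_filter, hmemB] at hy
    exact (hmemF y).2 ⟨hy.1.1, hy.1.2.1, pc_As ((hmemA S).1 hS) hy.1.1 hy.1.2.2, hy.2⟩
  have h4 : |∑ y ∈ Q.filter (fun y => ¬ Fl e t r y.1 y.2), σ y| ≤ F.card := by
    refine hle _ fun y hy => ?_
    rw [mem_filter, hmemQ] at hy
    exact (hmemF y).2 ⟨hy.1.1, hy.1.2.1, hy.1.2.2.1, hy.2⟩
  -- the rest, by types
  obtain ⟨Q2, hQ2⟩ : ∃ Q2, Q2 = Q.filter fun y => Fl e t r y.1 y.2 ∧ ¬ H y := ⟨_, rfl⟩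
  obtain ⟨τ, hτ⟩ : ∃ τ : (KK r → U ⊕ I → ZMod 2) × (KK r → U ⊕ I → ZMod 2) →
      (N → ZMod 2) → Finset (WW (KK r)), τ = fun y => Zf t r y.1 y.2 := ⟨_, rfl⟩
  have h5 : ∀ Y ∈ Q2.image τ, |((∑ y ∈ Q2.filter (fun y => τ y = Y), σ y : ℤ) : ℝ)| ≤ G + F.card := by
    intro Y hY
    obtain ⟨y₀, hy₀, hYy⟩ := mem_image.1 hY
    rw [hQ2, mem_filter, hmemQ] at hy₀
    obtain ⟨⟨a1, a2, a3, a4⟩, a5, a6⟩ := hy₀
    rw [hτ] at hYy
    have hFa : Fa e (fun k : KK r => k.1) Y := by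
      rw [← hYy]
      exact Pool.Agent.Q203.LP.fa_Zf g e b t r hp y₀.1 y₀.2 a1 a2 a3
    have hfull : ∀ s, (Y s).card = 2 ^ (Jt e (fun k : KK r => k.1) s).card := by
      rw [← hYy]
      exact a5
    have hcl := hCLO N M (KK r) e (fun k => k.1) Y hFa hfull
    have hn := bad_Y hSTR2 (g := g) (b := b) (x := y₀.1) (c := y₀.2) he hsep (by
      beta_reduce at hYy
      rw [hYy]
      exact hFa) a4 a5 (by
      rw [hH] at a6
      exact a6)
    beta_reduce at hYy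
    rw [hYy] at hn
    have hgs := hGS U I N M g e b t r Y n hFa hfull hcl hn
    -- the product
    have hprod : (∏ p ∈ univ.filter (fun p : I => g.aI p), ((Y (t p)).card : ℝ)) ≤
        2 ^ Ns g e b t r := by
      have h6 : (∏ p ∈ univ.filter (fun p : I => g.aI p), ((Y (t p)).card : ℝ)) =
          2 ^ (∑ p ∈ univ.filter (fun p : I => g.aI p), (Jt e (fun k : KK r => k.1) (t p)).card) := by
        rw [← prod_pow_eq_pow_sum]
        refine prod_congr rfl fun p _ => ?_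
        rw [hfull]
        push_cast
        rfl
      rw [h6]
      exact pow_le_pow_right₀ (by norm_num) (Pool.Agent.Q203.LP.sum_Jt_le g e b t r)
    have hq : (0 : ℝ) ≤ 1 - (1 / 2 : ℝ) ^ Fintype.card (KK r) := by
      have : (1 / 2 : ℝ) ^ Fintype.card (KK r) ≤ 1 := pow_le_one₀ (by norm_num) (by norm_num)
      linarith
    have hgs2 : |((∑ y ∈ V Y, σ y : ℤ) : ℝ)| ≤ G := by
      rw [hV, hσ]
      refine hgs.trans (le_trans ?_ hG)
      refine mul_le_mul_of_nonneg_right ?_ (pow_nonneg hq n)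
      exact mul_le_mul_of_nonneg_left hprod (by positivity)
    have h7 : Q2.filter (fun y => τ y = Y) = (V Y).filter fun y => τ y = Y := by
      ext y
      rw [mem_filter, mem_filter, hQ2, mem_filter, hmemQ, hmemV, hτ]
      constructor
      · rintro ⟨⟨⟨c1, c2, c3, c4⟩, c5, c6⟩, c7⟩
        refine ⟨⟨c1, c2, ?_⟩, c7⟩
        rw [← c7]
        exact vy_Zf t r y.1 y.2
      · rintro ⟨⟨c1, c2, c3⟩, c7⟩
        beta_reduce at c7
        have c5 : Fl e t r y.1 y.2 := fun s => by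
          rw [c7]
          exact hfull s
        refine ⟨⟨⟨c1, c2, pc_Vy hFa c3, ?_⟩, c5, ?_⟩, c7⟩
        · rw [idp_iff t r y.1 y.2, c7, ← hYy, ← idp_iff t r y₀.1 y₀.2]
          exact a4
        · rw [hH] at a6 ⊢
          rintro ⟨S, hS, hS'⟩
          apply a6
          refine ⟨S, hS, fun k p => ?_⟩
          have h8 : ((fun k => y₀.1 k (.inr p), fun k => y₀.2 k (.inr p)) : WW (KK r)) ∈
              Zf t r y.1 y.2 (t p) := by
            rw [c7, ← hYy]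
            exact vy_Zf t r y₀.1 y₀.2 p
          obtain ⟨q, hq', h9⟩ := mem_image.1 h8
          have h10 : ∀ k, y.1 k (.inr q) = y₀.1 k (.inr p) := fun k =>
            congrFun (congrArg Prod.fst h9) k
          have h11 : ∀ k, y.2 k (.inr q) = y₀.2 k (.inr p) := fun k =>
            congrFun (congrArg Prod.snd h9) k
          rw [← h11, hS' k q]
          exact sum_congr rfl fun l _ => by rw [h10]
    rw [h7]
    have h8 := sum_filter_add_sum_filter_not (V Y) (fun y => τ y = Y) σ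
    have h9 : |∑ y ∈ (V Y).filter (fun y => ¬ τ y = Y), σ y| ≤ (F.card : ℤ) := by
      refine hle _ fun y hy => ?_
      rw [mem_filter, hmemV] at hy
      obtain ⟨⟨c1, c2, c3⟩, c4⟩ := hy
      refine (hmemF y).2 ⟨c1, c2, pc_Vy hFa c3, fun c5 => c4 ?_⟩
      rw [hτ]
      funext s
      refine eq_of_subset_of_card_le (Zf_sub c3 s) ?_
      rw [hfull s, c5 s]
    have h10 : |((∑ y ∈ (V Y).filter (fun y => ¬ τ y = Y), σ y : ℤ) : ℝ)| ≤ F.card := by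
      exact_mod_cast h9
    have h11 : ((∑ y ∈ (V Y).filter (fun y => τ y = Y), σ y : ℤ) : ℝ) =
        ((∑ y ∈ V Y, σ y : ℤ) : ℝ) -
          ((∑ y ∈ (V Y).filter (fun y => ¬ τ y = Y), σ y : ℤ) : ℝ) := by
      rw [← h8]
      push_cast
      ring
    rw [h11]
    exact (abs_sub _ _).trans (add_le_add hgs2 h10)
  have h6 : |((∑ y ∈ Q2, σ y : ℤ) : ℝ)| ≤ nty N r * (G + F.card) := by
    have h7 : ∑ y ∈ Q2, σ y = ∑ Y ∈ Q2.image τ, ∑ y ∈ Q2.filter (fun y => τ y = Y), σ y :=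
      (sum_fiberwise_of_maps_to (fun y hy => mem_image_of_mem τ hy) σ).symm
    rw [h7]
    push_cast
    refine (abs_sum_le_sum_abs _ _).trans ?_
    have h8 : ∀ Y ∈ Q2.image τ, |∑ y ∈ Q2.filter (fun y => τ y = Y), ((σ y : ℤ) : ℝ)| ≤
        G + F.card := by
      intro Y hY
      have := h5 Y hY
      push_cast at this
      exact this
    refine (sum_le_sum h8).trans ?_
    rw [sum_const, nsmul_eq_mul]
    have h9 : (0 : ℝ) ≤ G := by
      refine le_trans ?_ hG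
      have hq : (0 : ℝ) ≤ 1 - (1 / 2 : ℝ) ^ Fintype.card (KK r) := by
        have : (1 / 2 : ℝ) ^ Fintype.card (KK r) ≤ 1 := pow_le_one₀ (by norm_num) (by norm_num)
        linarith
      positivity
    refine mul_le_mul_of_nonneg_right ?_ (by positivity)
    exact_mod_cast card_le_univ _
  -- everything
  have h7 : ∑ y ∈ Q, σ y - (A.card : ℤ) * 2 ^ Ns g e b t r =
      ∑ y ∈ Q.filter (fun y => ¬ Fl e t r y.1 y.2), σ y + ∑ y ∈ Q2, σ y -
        ∑ S ∈ A, ∑ y ∈ (B S).filter (fun y => ¬ Fl e t r y.1 y.2), σ y := by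
    have h8 : ∑ y ∈ Q.filter (fun y => Fl e t r y.1 y.2), σ y =
        ∑ y ∈ Q.filter (fun y => Fl e t r y.1 y.2 ∧ H y), σ y + ∑ y ∈ Q2, σ y := by
      rw [← sum_filter_add_sum_filter_not (Q.filter fun y => Fl e t r y.1 y.2) H, filter_filter,
        filter_filter, hQ2]
    rw [← sum_filter_add_sum_filter_not Q (fun y => Fl e t r y.1 y.2), h8, h2]
    have h6 : (A.card : ℤ) * 2 ^ Ns g e b t r = ∑ S ∈ A,
        (∑ y ∈ (B S).filter (fun y => Fl e t r y.1 y.2), σ y +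
          ∑ y ∈ (B S).filter (fun y => ¬ Fl e t r y.1 y.2), σ y) := by
      rw [← nsmul_eq_mul, ← sum_const]
      refine sum_congr rfl fun S hS => ?_
      rw [← h3 S hS, ← sum_filter_add_sum_filter_not (B S) (fun y => Fl e t r y.1 y.2)]
    rw [h6, sum_add_distrib]
    ring
  have h9 : |∑ S ∈ A, ∑ y ∈ (B S).filter (fun y => ¬ Fl e t r y.1 y.2), σ y| ≤ (A.card : ℤ) * F.card := by
    refine (abs_sum_le_sum_abs _ _).trans ((sum_le_sum hnf).trans ?_)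
    rw [sum_const, nsmul_eq_mul]
  have h10 : ((∑ y ∈ Q, σ y : ℤ) : ℝ) - (A.card : ℝ) * 2 ^ Ns g e b t r =
      ((∑ y ∈ Q.filter (fun y => ¬ Fl e t r y.1 y.2), σ y : ℤ) : ℝ) + ((∑ y ∈ Q2, σ y : ℤ) : ℝ) -
        ((∑ S ∈ A, ∑ y ∈ (B S).filter (fun y => ¬ Fl e t r y.1 y.2), σ y : ℤ) : ℝ) := by
    exact_mod_cast h7
  have h4' : |((∑ y ∈ Q.filter (fun y => ¬ Fl e t r y.1 y.2), σ y : ℤ) : ℝ)| ≤ F.card := by
    exact_mod_cast h4
  have h9' : |((∑ S ∈ A, ∑ y ∈ (B S).filter (fun y => ¬ Fl e t r y.1 y.2), σ y : ℤ) : ℝ)| ≤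
      A.card * F.card := by
    exact_mod_cast h9
  rw [← hA, ← hF, ← hQ]
  have h11 : |((∑ y ∈ Q, σ y : ℤ) : ℝ) - (A.card : ℝ) * 2 ^ Ns g e b t r| ≤
      (1 + A.card + nty N r : ℝ) * F.card + nty N r * G := by
    rw [h10]
    refine (abs_sub _ _).trans ?_
    refine (add_le_add ((abs_add_le _ _).trans (add_le_add h4' h6)) h9').trans (le_of_eq ?_)
    ring
  rw [hσ] at h11
  exact h11

end

/-- **The moments.** -/
theorem t_FT2 (hISO : S_ISO) (hCLO : S_CLO) (hSTR2 : S_STR2) (hGS : S_GS) (hNT : S_NT)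
    (hFOU : S_FOU) (hALP : S_ALP) (hCNF : S_CNF2) (hSUM : S_SUM) (hALT : S_ALT) : S_FT2 := by
  intro N M _ _ e r he
  obtain ⟨C, hC⟩ := hCNF N M e r he
  obtain ⟨k, hk⟩ : ∃ k, k = Fintype.card (KK r) := ⟨_, rfl⟩
  obtain ⟨q, hq⟩ : ∃ q : ℝ, q = 1 - (1 / 2 : ℝ) ^ k := ⟨_, rfl⟩
  have hq0 : 0 ≤ q := by
    have : (1 / 2 : ℝ) ^ k ≤ 1 := pow_le_one₀ (by norm_num) (by norm_num)
    rw [hq]
    linarith
  have hq1 : q < 1 := by
    have : (0 : ℝ) < (1 / 2 : ℝ) ^ k := by positivity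
    rw [hq]
    linarith
  obtain ⟨C₁, hC₁⟩ := exists_pow_lt_of_lt_one (show (0 : ℝ) < (1 / 2 : ℝ) ^ (2 * k) by positivity) hq1
  obtain ⟨E, hE⟩ : ∃ E, E = Fintype.card ((N → ZMod 2) × (M → ZMod 2)) := ⟨_, rfl⟩
  refine ⟨C + E * C₁, fun δ hδ => ?_⟩
  obtain ⟨a, ha⟩ : ∃ a : ℕ, a = (univ.filter fun S : KK r → KK r → ZMod 2 =>
    Alt (fun k : KK r => k.1) S).card := ⟨_, rfl⟩
  have ha' : (a : ℝ) = ∏ j, (2 : ℝ) ^ (r j * (r j - 1) / 2) := by
    rw [ha, hALT M r]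
    push_cast
    rfl
  obtain ⟨δ', hδ'⟩ : ∃ δ' : ℝ, δ' = δ / (1 + a + 2 * nty N r) := ⟨_, rfl⟩
  have hδ0 : 0 < δ' := by
    rw [hδ']
    positivity
  obtain ⟨R, hR⟩ := hC δ' hδ0
  obtain ⟨R₁, hR₁⟩ := exists_pow_lt_of_lt_one hδ0 hq1
  refine ⟨R + E * R₁, fun U I _ _ g b t hT => ?_⟩
  have hTy : Ty g e C R t := by
    refine ⟨hT.ty.pas, fun s => le_trans ?_ (hT.ty.act s), hT.ty.reg⟩
    exact Nat.add_le_add (Nat.mul_le_mul_right _ (Nat.le_add_right _ _)) (Nat.le_add_right _ _)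
  obtain ⟨n, hn⟩ : ∃ n, n = C₁ * Fintype.card U + R₁ := ⟨_, rfl⟩
  have hsep : ∀ j l, j ≠ l → e j = e l →
      Fintype.card ((N → ZMod 2) × (M → ZMod 2)) * n ≤
        (univ.filter fun p => g.aI p ∧ ∑ i, e j i * t p i = 1 ∧ lj g b p j ≠ lj g b p l).card := by
    intro j l hjl hel
    refine le_trans ?_ (hT.sep j l hjl hel)
    rw [← hE, hn]
    have : E * (C₁ * Fintype.card U + R₁) + (C * Fintype.card U + R) =
        (C + E * C₁) * Fintype.card U + (R + E * R₁) := by ring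
    omega
  have hG : 2 ^ (2 * Fintype.card (KK r) * Fintype.card U) * 2 ^ Ns g e b t r *
      (1 - (1 / 2 : ℝ) ^ Fintype.card (KK r)) ^ n ≤ δ' * 2 ^ Ns g e b t r := by
    rw [← hk, ← hq, hn, pow_add, pow_mul q]
    have h1 : (2 : ℝ) ^ (2 * k * Fintype.card U) * (q ^ C₁) ^ Fintype.card U ≤ 1 := by
      rw [pow_mul, ← mul_pow]
      refine pow_le_one₀ (by positivity) ?_
      have h2 : (2 : ℝ) ^ (2 * k) * (1 / 2 : ℝ) ^ (2 * k) = 1 := by
        rw [← mul_pow]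
        norm_num
      rw [← h2]
      exact mul_le_mul_of_nonneg_left hC₁.le (by positivity)
    have h3 : 2 ^ (2 * k * Fintype.card U) * 2 ^ Ns g e b t r * ((q ^ C₁) ^ Fintype.card U * q ^ R₁) =
        (2 ^ (2 * k * Fintype.card U) * (q ^ C₁) ^ Fintype.card U) * (q ^ R₁ * 2 ^ Ns g e b t r) := by
      ring
    rw [h3]
    refine (mul_le_of_le_one_left (by positivity) h1).trans ?_
    exact mul_le_mul_of_nonneg_right hR₁.le (by positivity)
  have h1 := hR U I g b t hTy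
  have h2 := main_Z2 (g := g) (b := b) (t := t) (r := r) hISO hCLO hSTR2 hGS hSUM he hTy.pas hTy.reg
    hsep hG
  have h3 := sum_NT hFOU hALP g e b t r
  obtain ⟨Z, hZ⟩ : ∃ Z, Z = ∑ y ∈ univ.filter (fun y : (KK r → U ⊕ I → ZMod 2) ×
      (KK r → U ⊕ I → ZMod 2) =>
        Sx g e b t r y.1 ∧ Sx g e b t r y.2 ∧ Pc e t r y.1 y.2 ∧ Idp r y.1),
        sn (th g e b t r 0 y.1 y.2) := ⟨_, rfl⟩
  rw [← hZ, ← ha] at h2
  rw [← hZ] at h3
  obtain ⟨m, hm⟩ : ∃ m, m = Ns g e b t r := ⟨_, rfl⟩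
  rw [← hm] at h1 h2 h3
  have hpos : (0 : ℝ) < 2 ^ m := by positivity
  have hc : (0 : ℝ) < (Fintype.card (I → I → ZMod 2) : ℝ) := by exact_mod_cast Fintype.card_pos
  have h4 : (∑ α : I → I → ZMod 2, ∏ j, ij (r j) (2 ^ g.co α (FF e b t j))) =
      ∑ α : I → I → ZMod 2, (NT g e b t r α : ℝ) :=
    sum_congr rfl fun α _ => (hNT U I N M g e b t r α hTy.reg).symm
  have h5 : (∑ α : I → I → ZMod 2, (NT g e b t r α : ℝ)) * 2 ^ m =
      (Fintype.card (I → I → ZMod 2) : ℝ) * (Z : ℝ) := by exact_mod_cast h3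
  have h6 : (∑ α : I → I → ZMod 2, (NT g e b t r α : ℝ)) / (Fintype.card (I → I → ZMod 2) : ℝ) =
      (Z : ℝ) / 2 ^ m := by
    rw [div_eq_div_iff hc.ne' hpos.ne', h5, mul_comm]
  rw [h4, h6, ← ha']
  have h7 : (Z : ℝ) / 2 ^ m - a = ((Z : ℝ) - a * 2 ^ m) / 2 ^ m := by
    field_simp
  rw [h7, abs_div, abs_of_pos hpos, div_le_iff₀ hpos]
  refine h2.trans ?_
  have h8 : (1 + a + nty N r : ℝ) *
      ((univ.filter fun y : (KK r → U ⊕ I → ZMod 2) × (KK r → U ⊕ I → ZMod 2) => Sx g e b t r y.1 ∧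
        Sx g e b t r y.2 ∧ Pc e t r y.1 y.2 ∧ ¬ Fl e t r y.1 y.2).card : ℝ) ≤
      (1 + a + nty N r : ℝ) * (δ' * 2 ^ m) := mul_le_mul_of_nonneg_left h1 (by positivity)
  refine (add_le_add h8 le_rfl).trans (le_of_eq ?_)
  rw [hδ']
  field_simp
  ring

theorem Ty2.mono {U I N M : Type} [Fintype U] [Fintype I] [Fintype N] {g : Gr U I}
    {e : M → N → ZMod 2} {b : M → U → Prop} {C C' R R' : ℕ} {t : I → N → ZMod 2}
    (h : Ty2 g e b C' R' t) (hC : C ≤ C') (hR : R ≤ R') : Ty2 g e b C R t :=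
  ⟨⟨h.ty.pas, fun s => (Nat.add_le_add (Nat.mul_le_mul_right _ hC) hR).trans (h.ty.act s), h.ty.reg⟩,
    fun j l h1 h2 => (Nat.add_le_add (Nat.mul_le_mul_right _ hC) hR).trans (h.sep j l h1 h2)⟩

theorem t_LT2 (hFT : S_FT2) (hLAW : S_LAW) : S_LT2 := by
  intro N M _ _ e he δ hδ
  obtain ⟨A, δ', hδ', hA⟩ := hLAW M δ hδ
  have h1 : ∀ a : M → ℕ, _ := fun a => hFT N M e a he
  choose C hC using h1
  have h2 : ∀ a : M → ℕ, _ := fun a => hC a δ' hδ'
  choose R hR using h2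
  obtain ⟨P, hP⟩ : ∃ P, P = Fintype.piFinset fun _ : M => range (A + 1) := ⟨_, rfl⟩
  refine ⟨∑ a ∈ P, C a, ∑ a ∈ P, R a, fun U I _ _ g b t hT r => ?_⟩
  refine hA (I → I → ZMod 2) (fun α j => g.co α (FF e b t j)) (fun a ha => ?_) r
  have haP : a ∈ P := by
    rw [hP, Fintype.mem_piFinset]
    intro j
    rw [mem_range]
    have := ha j
    omega
  exact hR a U I g b t (hT.mono (single_le_sum (f := C) (fun _ _ => Nat.zero_le _) haP)
    (single_le_sum (f := R) (fun _ _ => Nat.zero_le _) haP))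

end Q283.LP
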