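import Pool.Agent.Q283.LP.FT2
import Pool.Agent.Q283.LP.L5
import Pool.Agent.Q187.LP.ISO
import Pool.Agent.Q187.LP.NT
import Pool.Agent.Q187.LP.FOU
import Pool.Agent.Q187.LP.ALP
import Pool.Agent.Q187.LP.ALT
import Pool.Agent.Q187.LP.CNF2
import Pool.Agent.Q187.LP.STR2
import Pool.Agent.Q187.LP.GS
import Pool.Agent.Q187.LP.TYP2
import Pool.Agent.Q187.LP.SEC2
import Pool.Agent.Q187.LP.ASY2
import Pool.Agent.Q203.LP.SUM

/-!
# Project LP (helper283): the moments, from the finished parts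
-/

set_option autoImplicit false
set_option linter.unusedVariables false

namespace Q283.LP

/-- the moments -/
theorem ft2 : S_FT2 :=
  t_FT2 Q187.LP.t_ISO (Q187.LP.STR2.t_CLO Q187.LP.t_ISO)
    (Q187.LP.STR2.t_STR2 Q187.LP.t_ISO Q187.LP.t_DEC) Q187.LP.GS.t_GS Q187.LP.t_NT Q187.LP.t_FOU
    Q187.LP.t_ALP (Q187.LP.CNF2.t_CNF2 Q187.LP.t_ISO) Pool.Agent.Q203.LP.t_SUM Q187.LP.t_ALT

/-- the second moment for families of divisors -/
theorem secd (hLAW : S_LAW) : SECd :=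
  Q187.LP.SEC2.t_SEC2 (t_LT2 ft2 hLAW) Q187.LP.TYP2.t_TYP2

end Q283.LP
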