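import Pool.Agent.Q283.LP.Stm
import Pool.Agent.Q155.NL.Main

/-!
# Project LP: the kernels of the family and the systems `Gr`
-/

set_option autoImplicit false

open scoped Classical

namespace Q283.LP

open Finset Module
open Q283.GM (Fam Kr rk mem_Kr nr_symm)
open Pool.Agent.Y703.CQ (nr prs)
open Q155.NL (Tu lb xt xt_add φp φp_surj)

theorem fcc {α : Type} {s : Finset α} {p q : α → Prop} {i1 : DecidablePred p} {i2 : DecidablePred q}
    (h : ∀ x ∈ s, p x ↔ q x) : (s.filter p).card = (s.filter q).card := by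
  congr 1
  ext x
  simp only [mem_filter]
  exact and_congr_right fun hx => h x hx

section
variable {U I : Type} [Fintype U] [Fintype I]

/-- the kernel of the system is the kernel of the family -/
theorem co_eq (g : Gr U I) (α : I → I → ZMod 2) (F : U ⊕ I → Prop) (Φ : Fam) (f : ℕ → ZMod 2)
    (S : Finset ℕ) (v : U ⊕ I → ℕ) (hv : Function.Injective v) (hF : ∀ w, F w ↔ v w ∈ S)
    (hS : ∀ p ∈ S, ∃ w, v w = p) (hA : ∀ w, g.act w ↔ Φ.A (v w))
    (hs : ∀ a b, F b → F a → g.act a → g.sg α a b = nr (v a) (v b))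
    (hf : ∀ a, g.act a → g.f a = f (v a)) : g.co α F = rk Φ f S := by
  have hsum : ∀ h : ℕ → ZMod 2, ∑ w ∈ univ.filter F, h (v w) = ∑ q ∈ S, h q := by
    intro h
    refine Finset.sum_bij (fun w _ => v w) (fun w hw => (hF w).1 (mem_filter.1 hw).2)
      (fun a _ b _ h => hv h) (fun p hp => ?_) fun _ _ => rfl
    obtain ⟨w, rfl⟩ := hS p hp
    exact ⟨w, mem_filter.2 ⟨mem_univ _, (hF w).2 hp⟩, rfl⟩
  have hrow : ∀ (x : ℕ → ZMod 2) (a : U ⊕ I), F a → g.act a →
      g.row α F (fun w => x (v w)) a = ∑ q ∈ S, nr (v a) q * (x q + x (v a)) + f (v a) * x (v a) := by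
    intro x a ha hact
    unfold Gr.row
    rw [hf a hact, ← hsum fun q => nr (v a) q * (x q + x (v a))]
    congr 1
    refine Finset.sum_congr rfl fun w hw => ?_
    rw [hs a w (mem_filter.1 hw).2 ha hact]
  have hcomp : ∀ (x : ℕ → ZMod 2), x ∈ Kr Φ f S → (fun w => x (v w)) ∈ g.Ke α F := by
    intro x hx
    obtain ⟨h1, h2⟩ := mem_Kr.1 hx
    refine mem_Ke.2 ⟨fun w hw => h1 _ fun h => hw ⟨(hF w).2 h.1, (hA w).2 h.2⟩, fun w hw ha => ?_⟩
    rw [hrow x w hw ha]
    exact h2 _ ((hF w).1 hw) ((hA w).1 ha)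
  -- the extension
  have hext : ∀ y : U ⊕ I → ZMod 2, ∃ x : ℕ → ZMod 2, (∀ w, x (v w) = y w) ∧
      ∀ p, (∀ w, v w ≠ p) → x p = 0 := by
    intro y
    refine ⟨fun p => if h : ∃ w, v w = p then y h.choose else 0, fun w => ?_, fun p hp => ?_⟩
    · have h : ∃ w', v w' = v w := ⟨w, rfl⟩
      simp only
      rw [dif_pos h]
      exact congrArg y (hv h.choose_spec)
    · simp only
      rw [dif_neg]
      rintro ⟨w, hw⟩
      exact hp w hw
  let L : Kr Φ f S →ₗ[ZMod 2] g.Ke α F :=
    { toFun := fun x => ⟨fun w => x.1 (v w), hcomp x.1 x.2⟩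
      map_add' := fun x y => rfl
      map_smul' := fun c x => rfl }
  have hbij : Function.Bijective L := by
    constructor
    · intro x y hxy
      refine Subtype.ext (funext fun p => ?_)
      by_cases hp : p ∈ S
      · obtain ⟨w, rfl⟩ := hS p hp
        exact congrFun (congrArg Subtype.val hxy) w
      · rw [(mem_Kr.1 x.2).1 p fun h => hp h.1, (mem_Kr.1 y.2).1 p fun h => hp h.1]
    · intro y
      obtain ⟨x, hx, hx0⟩ := hext y.1
      obtain ⟨h1, h2⟩ := mem_Ke.1 y.2
      have he : (fun w => x (v w)) = y.1 := funext hx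
      refine ⟨⟨x, mem_Kr.2 ⟨fun p hp => ?_, fun p hp ha => ?_⟩⟩, Subtype.ext he⟩
      · by_cases h : ∃ w, v w = p
        · obtain ⟨w, rfl⟩ := h
          rw [hx]
          exact h1 w fun h' => hp ⟨(hF w).1 h'.1, (hA w).1 h'.2⟩
        · exact hx0 p fun w hw => h ⟨w, hw⟩
      · obtain ⟨w, rfl⟩ := hS p hp
        rw [← hrow x w ((hF w).2 hp) ((hA w).2 ha), he]
        exact h2 w ((hF w).2 hp) ((hA w).2 ha)
  unfold Gr.co rk
  exact (LinearEquiv.ofBijective L hbij).finrank_eq.symm

/-- the corank depends on the symbols of the active indices only -/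
theorem co_congr (g : Gr U I) {α α' : I → I → ZMod 2} (F : U ⊕ I → Prop)
    (h : ∀ i, g.aI i → ∀ l, α i l + α l i = α' i l + α' l i) : g.co α F = g.co α' F := by
  have e : g.Ke α F = g.Ke α' F := by
    ext x
    rw [mem_Ke, mem_Ke]
    refine and_congr_right fun _ => forall_congr' fun v => forall_congr' fun _ =>
      forall_congr' fun ha => ?_
    have e2 : g.row α F x v = g.row α' F x v := by
      unfold Gr.row
      congr 1
      refine Finset.sum_congr rfl fun w _ => ?_
      congr 1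
      rcases v with u | i <;> rcases w with u' | l
      · rfl
      · rfl
      · rfl
      · exact h i ha l
    rw [e2]
  unfold Gr.co
  rw [e]

end

end Q283.LP
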