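import Pool.Agent.Q283.LP.L1
import Pool.Agent.Q283.LP.Stm2

/-!
# Project LP: the tuples of subsets and the property
-/

set_option autoImplicit false
set_option linter.unusedSectionVars false
set_option linter.unusedVariables false

open scoped Classical

namespace Q283.LP

open Finset Module
open Q283.GM (Fam Kr rk mem_Kr nr_symm)
open Pool.Agent.Y703.CQ (nr prs)
open Q155.NL (Tu lb xt xt_add φp φp_surj)
open Q283.GS (al)

/-- the indicator -/
noncomputable def ind (S : Finset ℕ) (p : ℕ) : ZMod 2 := if p ∈ S then 1 else 0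

theorem ind_mem {S : Finset ℕ} {p : ℕ} (h : p ∈ S) : ind S p = 1 := if_pos h

theorem ind_not {S : Finset ℕ} {p : ℕ} (h : p ∉ S) : ind S p = 0 := if_neg h

theorem ind_one {S : Finset ℕ} {p : ℕ} : ind S p = 1 ↔ p ∈ S := by
  unfold ind
  split_ifs with h
  · exact ⟨fun _ => h, fun _ => rfl⟩
  · exact ⟨fun h' => absurd h' (by decide), fun h' => absurd h' h⟩

section
variable {N M : Type} [Fintype N] [Fintype M]

/-- the set of primes of the form `j`, with base `Nn j`, at the tuple `d` -/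
noncomputable def Fs (e : M → N → ZMod 2) (Nn : M → Finset ℕ) (d : N → Finset ℕ) (j : M) :
    Finset ℕ := (Nn j ∪ univ.biUnion d).filter fun p => ind (Nn j) p + ∑ i, e j i * ind (d i) p = 1

omit [Fintype M] in
theorem mem_Fs {e : M → N → ZMod 2} {Nn : M → Finset ℕ} {d : N → Finset ℕ} {j : M} {p : ℕ} :
    p ∈ Fs e Nn d j ↔ ind (Nn j) p + ∑ i, e j i * ind (d i) p = 1 := by
  unfold Fs
  rw [mem_filter]
  refine ⟨fun h => h.2, fun h => ⟨?_, h⟩⟩
  by_contra hc
  rw [mem_union, not_or, mem_biUnion] at hc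
  obtain ⟨h1, h2⟩ := hc
  rw [ind_not h1, zero_add, Finset.sum_eq_zero] at h
  · exact absurd h (by decide)
  · intro i _
    rw [ind_not fun h' => h2 ⟨i, mem_univ _, h'⟩, mul_zero]

/-- the tuples of subsets of `S` with even parities -/
noncomputable def Tp (N : Type) [Fintype N] (par : ℕ → ZMod 2) (S : Finset ℕ) :
    Finset (N → Finset ℕ) :=
  Fintype.piFinset fun _ => S.powerset.filter fun d => ∑ p ∈ d, par p = 0

theorem mem_Tp {par : ℕ → ZMod 2} {S : Finset ℕ} {d : N → Finset ℕ} :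
    d ∈ Tp N par S ↔ ∀ i, d i ⊆ S ∧ ∑ p ∈ d i, par p = 0 := by
  unfold Tp
  rw [Fintype.mem_piFinset]
  refine forall_congr' fun i => ?_
  rw [mem_filter, mem_powerset]

theorem Tp_ne (par : ℕ → ZMod 2) (S : Finset ℕ) : (Tp N par S).Nonempty :=
  ⟨fun _ => ∅, mem_Tp.2 fun _ => ⟨empty_subset _, sum_empty⟩⟩

/-- the law for the tuples of subsets of `S` -/
def TT (Φ : Fam) (f : ℕ → ZMod 2) (e : M → N → ZMod 2) (Nn : M → Finset ℕ) (par : ℕ → ZMod 2)
    (ε : ℝ) (S : Finset ℕ) : Prop :=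
  ∀ R : Set (M → ℕ), |(((Tp N par S).filter fun d => (fun j => rk Φ f (Fs e Nn d j)) ∈ R).card : ℝ) /
    ((Tp N par S).card : ℝ) - ∑' r : R, ∏ j, al (r.1 j)| ≤ ε

section loc
variable {ι : Type} [Fintype ι] (Φ : Fam) (f : ℕ → ZMod 2) (J1 : Finset ι) (V : Finset ℕ) (q : ι → ℕ)

/-- the system of the labels -/
noncomputable def gr : Gr ↥V ι where
  aU u := Φ.A u
  aI i := i ∈ J1
  ν u v := nr u v
  lb i u := nr (q i) u
  fU u := f u
  fI i := f (q i)
  sym u v hu hv := nr_symm (Φ.hA _ hu).1 (Φ.hA _ hu).2 (Φ.hA _ hv).1 (Fam.ne_two (Or.inl hv))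

/-- the tuples -/
noncomputable def TA (N : Type) [Fintype N] (par : ℕ → ZMod 2) (S₀ V : Finset ℕ) (q : ι → ℕ) :
    Finset ((↥V → N → ZMod 2) × (ι → N → ZMod 2)) :=
  univ.filter fun τ => (∀ u : ↥V, (u : ℕ) ∉ S₀ → τ.1 u = 0) ∧
    ∀ i, ∑ u : ↥V, par u * τ.1 u i + ∑ l, par (q l) * τ.2 l i = 0

theorem mem_TA {par : ℕ → ZMod 2} {S₀ V : Finset ℕ} {q : ι → ℕ}
    {τ : (↥V → N → ZMod 2) × (ι → N → ZMod 2)} : τ ∈ TA N par S₀ V q ↔
    (∀ u : ↥V, (u : ℕ) ∉ S₀ → τ.1 u = 0) ∧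
      ∀ i, ∑ u : ↥V, par u * τ.1 u i + ∑ l, par (q l) * τ.2 l i = 0 := by
  unfold TA
  rw [mem_filter]
  exact and_iff_right (mem_univ _)

theorem TA_ne (par : ℕ → ZMod 2) (S₀ V : Finset ℕ) (q : ι → ℕ) : (TA N par S₀ V q).Nonempty := by
  refine ⟨0, mem_TA.2 ⟨fun _ _ => rfl, fun i => ?_⟩⟩
  simp

/-- the masks -/
noncomputable def mk (Nn : M → Finset ℕ) (V : Finset ℕ) : M → ↥V → ZMod 2 := fun j u => ind (Nn j) u

end loc

end

section
variable {N M : Type} [Fintype N] [Fintype M] {ι : Type} [Fintype ι] {Φ : Fam} {f : ℕ → ZMod 2}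
  {J1 : Finset ι} {S₀ W : Finset ℕ} {p q : ι → ℕ}

/-- the subset attached to a tuple -/
noncomputable def dd (S₀ V : Finset ℕ) (p : ι → ℕ) (τ : (↥V → N → ZMod 2) × (ι → N → ZMod 2)) (i : N) :
    Finset ℕ := (univ.filter fun u : ↥V => τ.1 u i = 1).image Subtype.val ∪
      (univ.filter fun l : ι => τ.2 l i = 1).image p

/-- the values of the indicators -/
theorem ind_dd_u {V : Finset ℕ} (hd : ∀ l, p l ∉ V) (τ : (↥V → N → ZMod 2) × (ι → N → ZMod 2))
    (i : N) (u : ↥V) : ind (dd S₀ V p τ i) u = τ.1 u i := by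
  have h0 : ∀ z : ZMod 2, z ≠ 1 → z = 0 := by decide
  by_cases h : τ.1 u i = 1
  · rw [h, ind_one]
    exact mem_union_left _ (mem_image_of_mem _ (mem_filter.2 ⟨mem_univ _, h⟩))
  · rw [h0 _ h, ind_not]
    intro h'
    rcases mem_union.1 h' with h1 | h1
    · obtain ⟨u', hu', he⟩ := mem_image.1 h1
      rw [Subtype.val_injective he] at hu'
      exact h (mem_filter.1 hu').2
    · obtain ⟨l, -, he⟩ := mem_image.1 h1
      exact hd l (he ▸ u.2)

theorem ind_dd_l {V : Finset ℕ} (hp : Function.Injective p) (hd : ∀ l, p l ∉ V)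
    (τ : (↥V → N → ZMod 2) × (ι → N → ZMod 2)) (i : N) (l : ι) :
    ind (dd S₀ V p τ i) (p l) = τ.2 l i := by
  have h0 : ∀ z : ZMod 2, z ≠ 1 → z = 0 := by decide
  by_cases h : τ.2 l i = 1
  · rw [h, ind_one]
    exact mem_union_right _ (mem_image_of_mem _ (mem_filter.2 ⟨mem_univ _, h⟩))
  · rw [h0 _ h, ind_not]
    intro h'
    rcases mem_union.1 h' with h1 | h1
    · obtain ⟨u', hu', he⟩ := mem_image.1 h1
      exact hd l (he ▸ u'.2)
    · obtain ⟨l', hl', he⟩ := mem_image.1 h1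
      rw [hp he] at hl'
      exact h (mem_filter.1 hl').2

theorem dd_sub {V : Finset ℕ} {τ : (↥V → N → ZMod 2) × (ι → N → ZMod 2)}
    (h0 : ∀ u : ↥V, (u : ℕ) ∉ S₀ → τ.1 u = 0) (i : N) :
    dd S₀ V p τ i ⊆ S₀ ∪ univ.image p := by
  intro x hx
  rcases mem_union.1 hx with h1 | h1
  · obtain ⟨u, hu, rfl⟩ := mem_image.1 h1
    refine mem_union_left _ ?_
    by_contra hc
    have h2 := (mem_filter.1 hu).2
    rw [h0 u hc] at h2
    exact absurd h2 (zero_ne_one (α := ZMod 2))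
  · obtain ⟨l, -, rfl⟩ := mem_image.1 h1
    exact mem_union_right _ (mem_image_of_mem _ (mem_univ _))

theorem sum_dd {V : Finset ℕ} (hp : Function.Injective p) (hd : ∀ l, p l ∉ V)
    (τ : (↥V → N → ZMod 2) × (ι → N → ZMod 2)) (i : N) (par : ℕ → ZMod 2) :
    ∑ x ∈ dd S₀ V p τ i, par x = ∑ u : ↥V, par u * τ.1 u i + ∑ l, par (p l) * τ.2 l i := by
  have h0 : ∀ z : ZMod 2, z ≠ 1 → z = 0 := by decide
  unfold dd
  rw [Finset.sum_union, Finset.sum_image fun a _ b _ h => Subtype.val_injective h,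
    Finset.sum_image fun a _ b _ h => hp h, Finset.sum_filter, Finset.sum_filter]
  · congr 1
    · refine Finset.sum_congr rfl fun u _ => ?_
      split_ifs with h
      · rw [h, mul_one]
      · rw [h0 _ h, mul_zero]
    · refine Finset.sum_congr rfl fun u _ => ?_
      split_ifs with h
      · rw [h, mul_one]
      · rw [h0 _ h, mul_zero]
  · rw [Finset.disjoint_left]
    intro x h1 h2
    obtain ⟨u, -, rfl⟩ := mem_image.1 h1
    obtain ⟨l, -, he⟩ := mem_image.1 h2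
    exact hd l (he ▸ u.2)

/-- **The shares.** -/
theorem card_TA {V : Finset ℕ} (hV : S₀ ⊆ V) (hp : Function.Injective p) (hd : ∀ l, p l ∉ V)
    (par : ℕ → ZMod 2) (hpar : ∀ l, par (q l) = par (p l)) (P : (N → Finset ℕ) → Prop)
    (Q : (↥V → N → ZMod 2) × (ι → N → ZMod 2) → Prop)
    (h : ∀ τ ∈ TA N par S₀ V q, Q τ ↔ P (dd S₀ V p τ)) :
    ((TA N par S₀ V q).filter Q).card = ((Tp N par (S₀ ∪ univ.image p)).filter P).card := by
  refine Finset.card_bij (fun τ _ => dd S₀ V p τ) ?_ ?_ ?_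
  · intro τ hτ
    obtain ⟨h1, h2⟩ := mem_filter.1 hτ
    refine mem_filter.2 ⟨mem_Tp.2 fun i => ⟨dd_sub (mem_TA.1 h1).1 i, ?_⟩, (h τ h1).1 h2⟩
    rw [sum_dd hp hd, ← (mem_TA.1 h1).2 i]
    congr 1
    exact Finset.sum_congr rfl fun l _ => by rw [hpar]
  · intro τ _ τ' _ he
    refine Prod.ext (funext fun u => funext fun i => ?_) (funext fun l => funext fun i => ?_)
    · rw [← ind_dd_u (S₀ := S₀) hd τ i u, ← ind_dd_u (S₀ := S₀) hd τ' i u, he]
    · rw [← ind_dd_l (S₀ := S₀) hp hd τ i l, ← ind_dd_l (S₀ := S₀) hp hd τ' i l, he]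
  · intro d hd'
    obtain ⟨h1, h2⟩ := mem_filter.1 hd'
    rw [mem_Tp] at h1
    obtain ⟨τ, hτ⟩ : ∃ τ : (↥V → N → ZMod 2) × (ι → N → ZMod 2),
      τ = (fun (u : ↥V) i => ind (d i) u, fun l i => ind (d i) (p l)) := ⟨_, rfl⟩
    have hdd : dd S₀ V p τ = d := by
      funext i
      ext x
      have h3 : x ∈ dd S₀ V p τ i → x ∈ S₀ ∪ univ.image p := fun hx => dd_sub (by
        intro u hu
        rw [hτ]
        funext i'
        refine ind_not fun h' => ?_
        rcases mem_union.1 ((h1 i').1 h') with h4 | h4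
        · exact hu h4
        · obtain ⟨l, -, he⟩ := mem_image.1 h4
          exact hd l (he ▸ u.2)) i hx
      have h4 : x ∈ d i → x ∈ S₀ ∪ univ.image p := fun hx => (h1 i).1 hx
      by_cases hx : x ∈ S₀ ∪ univ.image p
      · rcases mem_union.1 hx with h5 | h5
        · have h6 := ind_dd_u (S₀ := S₀) hd τ i ⟨x, hV h5⟩
          rw [← ind_one, ← ind_one]
          have h7 : τ.1 ⟨x, hV h5⟩ i = ind (d i) x := by rw [hτ]
          rw [h7] at h6
          rw [h6]
        · obtain ⟨l, -, rfl⟩ := mem_image.1 h5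
          have h6 := ind_dd_l (S₀ := S₀) hp hd τ i l
          rw [← ind_one, ← ind_one]
          have h7 : τ.2 l i = ind (d i) (p l) := by rw [hτ]
          rw [h7] at h6
          rw [h6]
      · exact ⟨fun h => absurd (h3 h) hx, fun h => absurd (h4 h) hx⟩
    have hmem : τ ∈ TA N par S₀ V q := by
      refine mem_TA.2 ⟨fun u hu => ?_, fun i => ?_⟩
      · rw [hτ]
        funext i'
        refine ind_not fun h' => ?_
        rcases mem_union.1 ((h1 i').1 h') with h4 | h4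
        · exact hu h4
        · obtain ⟨l, -, he⟩ := mem_image.1 h4
          exact hd l (he ▸ u.2)
      · have h3 := sum_dd (S₀ := S₀) hp hd τ i par
        rw [hdd, (h1 i).2] at h3
        rw [h3]
        congr 1
        exact Finset.sum_congr rfl fun l _ => by rw [hpar]
    exact ⟨τ, mem_filter.2 ⟨hmem, (h τ hmem).2 (by rw [hdd]; exact h2)⟩, hdd⟩

end

end Q283.LP
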