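import Pool.Agent.Q283.GM.LA0
import Pool.Agent.Q283.GM.Eul

/-!
# Project LP (helper283): linear patterns of divisors and symmetric systems over the field with two
elements. Definitions and statements of the parts of the finite theorem.

`U` are the small and `I` the large indices (primes), some of them active. `N` are the variables
(an index `p` carries the vector `t p : N → ZMod 2`: the pattern of the tuple of subsets), `M` the linear forms
`e j : N → ZMod 2`. The set of the form `j` consists of the large `p` with `∑ i, e j i * t p i = 1` and of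
some small indices. The symbols between the large indices are `α p q + α q p`, `α` a uniformly
distributed random table. The theorem: the coranks of the forms are independent in the limit.
-/

set_option autoImplicit false
set_option linter.unusedVariables false

open scoped Classical

namespace Q283.LP

open Finset Module
open Pool.Agent.Y697.PQ (ij)
open Q283.GS (al)

/-! ### vectors with two components -/

/-- pairs of vectors with coordinates in `K` -/
abbrev WW (K : Type) := (K → ZMod 2) × (K → ZMod 2)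

/-- supported on `J` -/
def Sup {K : Type} (J : Finset K) (z : WW K) : Prop := ∀ k, k ∉ J → z.1 k = 0 ∧ z.2 k = 0

/-- the alternating form restricted to `J` -/
def Bf {K : Type} (J : Finset K) (z w : WW K) : ZMod 2 := ∑ k ∈ J, (z.1 k * w.2 k + w.1 k * z.2 k)

/-- the quadratic form restricted to `J` -/
def Qf {K : Type} (J : Finset K) (z : WW K) : ZMod 2 := ∑ k ∈ J, z.1 k * z.2 k

/-- the restriction to `J` -/
noncomputable def res {K : Type} (J : Finset K) (z : WW K) : WW K :=
  (fun k => if k ∈ J then z.1 k else 0, fun k => if k ∈ J then z.2 k else 0)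

/-- JOB LP-ISO. An isotropic subspace of vectors supported on `J` has dimension at most `#J`.
PROOF. Add to `L` the vectors `(a, 0)` with `a` supported outside `J`: the sum is direct, isotropic for `Bf univ`
and has dimension `finrank L + (#K - #J)`. `Bf univ` is nondegenerate and alternating on a space of
dimension `2 #K`; an isotropic subspace `L'` is contained in its orthogonal, of dimension
`2 #K - finrank L'` (`LinearMap.BilinForm.finrank_orthogonal`), hence `finrank L' ≤ #K`. -/
def S_ISO : Prop := ∀ (K : Type) [Fintype K] (J : Finset K) (L : Submodule (ZMod 2) (WW K)),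
  (∀ z ∈ L, Sup J z) → (∀ z ∈ L, ∀ w ∈ L, Bf J z w = 0) → finrank (ZMod 2) L ≤ J.card

/-- JOB LP-DEC (the same job as LP-ISO). Two maximal isotropic subspaces, for `J` and for `J'`, which are orthogonal
for the form restricted to `J ∩ J'`: both are stable under the restriction to `J ∩ J'`, and the
restrictions of the vectors of `L` are in `L'`.
PROOF. (MAX) If `w` is supported on `J` and `Bf J w z = 0` for all `z ∈ L` then `w ∈ L`, otherwise
`L + ⟨w⟩` is isotropic of dimension `#J + 1` (the form is alternating). Let `D = J ∩ J'`, `R = res D L`,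
`R' = res D L'`. As `Bf D` vanishes on `R × R'` and is nondegenerate on the vectors supported on `D`,
`dim R + dim R' ≤ 2 #D`. The kernel of `res D` on `L` consists of vectors supported on `J \ D` and is isotropic, so
its dimension is at most `#(J \ D)` (LP-ISO) and `dim R ≥ #J - #(J \ D) = #D`; in the same way `dim R' ≥ #D`.
So all these are equalities, and `L'' = L ∩ {supported on J \ D}` is maximal isotropic for `J \ D`. For `z ∈ L`
the vector `w = z - res D z` is supported on `J \ D` and orthogonal to `L''` (`Bf J z l - Bf J (res D z) l = 0`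
for `l ∈ L''`), so `w ∈ L''` by (MAX) for `J \ D` and `res D z ∈ L`. Hence `R ≤ L` is isotropic of
dimension `#D`, maximal for `D`. Each `r' ∈ R'` is orthogonal to `R`, so `r' ∈ R` by (MAX) for `D`:
`R' ≤ R`, and `R ≤ R'` by symmetry; `R' ≤ L'` as before. -/
def S_DEC : Prop := ∀ (K : Type) [Fintype K] (J J' : Finset K) (L L' : Submodule (ZMod 2) (WW K)),
  (∀ z ∈ L, Sup J z) → (∀ z ∈ L', Sup J' z) → (∀ z ∈ L, ∀ w ∈ L, Bf J z w = 0) →
  (∀ z ∈ L', ∀ w ∈ L', Bf J' z w = 0) → (∀ z ∈ L, ∀ w ∈ L', Bf (J ∩ J') z w = 0) →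
  finrank (ZMod 2) L = J.card → finrank (ZMod 2) L' = J'.card →
  ∀ z ∈ L, res (J ∩ J') z ∈ L ∧ res (J ∩ J') z ∈ L'

/-! ### the families -/

/-- the forms which contain the pattern `t`, for a family of coordinates `k : K` of the forms `κ k` -/
noncomputable def Jt {N M K : Type} [Fintype N] [Fintype K] (e : M → N → ZMod 2) (κ : K → M)
    (t : N → ZMod 2) : Finset K := univ.filter fun k => ∑ i, e (κ k) i * t i = 1

/-- the admissible families: `Z t` are the vectors which occur at the indices with pattern `t` -/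
structure Fa {N M K : Type} [Fintype N] [Fintype K] (e : M → N → ZMod 2) (κ : K → M)
    (Z : (N → ZMod 2) → Finset (WW K)) : Prop where
  sup : ∀ t, ∀ z ∈ Z t, Sup (Jt e κ t) z
  zero : ∀ t, (0 : WW K) ∈ Z t
  pair : ∀ t t', ∀ z ∈ Z t, ∀ w ∈ Z t', Qf (Jt e κ t ∩ Jt e κ t') (z + w) = 0

/-- the coefficients: alternating, within the forms -/
def Alt {M K : Type} (κ : K → M) (S : K → K → ZMod 2) : Prop :=
  (∀ k l, S k l = S l k) ∧ (∀ k, S k k = 0) ∧ ∀ k l, κ k ≠ κ l → S k l = 0

/-- JOB LP-STR. The structure of the admissible families.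
PROOF. As `0 ∈ Z t`, the condition `pair` (with `t = t'`) gives `Qf = 0` and `Bf = 0` on `Z t`, hence the span
`L t` of `Z t` is isotropic and supported on `Jt t`; by LP-ISO `#Z t ≤ 2 ^ finrank (L t) ≤ 2 ^ #Jt t`. If equality
holds everywhere, `Z t` is the subspace `L t`, of dimension `#Jt t`, and `Qf (Jt t) = 0` on it. For `t, t'` the condition `pair`
(with `w = 0` and with `z = 0`) gives `Bf (Jt t ∩ Jt t') z w = 0` for `z ∈ L t`, `w ∈ L t'`. By LP-DEC `L t` is stable
under the restrictions to `Jt t ∩ Jt t'` for all `t'`, and these restrictions of `L t` are in `L t'`. Let `j` be a form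
with `e_j · t = 1`. The intersection of the `Jt t'` over all `t'` with `e_j · t' = 1` is the block `{k : κ k = j}`, as for
`j' ≠ j` there is `t'` with `e_j · t' = 1` and `e_{j'} · t' = 0` (`e` injective, `e_j ≠ 0`). So for `z ∈ L t` the restriction
of `z` to the block of `j` is in `L t`, and in `L t'` for every `t'` with `e_j · t' = 1` (take `t'` as the last restriction).
Now let `(0, c) ∈ L t`, and `c'` the restriction of `c` to the block of `j`, so that `(0, c') ∈ L t`; for `t'` with
`e_j · t' = 1` and `w ∈ Z t'` we get `∑_{κ k = j} c k * w.1 k = Bf (Jt t ∩ Jt t') (0, c') w = 0`; for `t'` with `e_j · t' = 0` the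
sum is `0` because of the support. By the hypothesis of independence `c' = 0`. So `c = 0`: the projection of `L t` to the
first component is injective, hence (dimensions) bijective onto the vectors supported on `Jt t`, and `L t` is the graph of a
linear map `S_t`, which respects the blocks, and the block `j` of it is the same for all `t` with `e_j · t = 1` (by the above
`(x', S_t x') ∈ L t'`). Define `S k l` (for `κ k = κ l = j`) as the `k`-th coordinate of `S_t` of the `l`-th unit vector
for any `t` with `e_j · t = 1`. It is alternating because `Qf (Jt t) (x, S_t x) = 0` for all `x`. -/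
def S_STR : Prop := ∀ (N M K : Type) [Fintype N] [Fintype M] [Fintype K] (e : M → N → ZMod 2)
  (κ : K → M) (Z : (N → ZMod 2) → Finset (WW K)), Function.Injective e → (∀ j, e j ≠ 0) → Fa e κ Z →
  (∀ t, (Z t).card ≤ 2 ^ (Jt e κ t).card) ∧
  ((∀ t, (Z t).card = 2 ^ (Jt e κ t).card) →
    (∀ (j : M) (c : K → ZMod 2), (∀ t, ∀ z ∈ Z t, ∑ k ∈ univ.filter (fun k => κ k = j), c k * z.1 k = 0) →
      ∀ k, κ k = j → c k = 0) →
    ∃ S : K → K → ZMod 2, Alt κ S ∧ (∀ t, ∀ z ∈ Z t, ∀ k, z.2 k = ∑ l, S k l * z.1 l) ∧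
      ∀ t, ∀ x : K → ZMod 2, (∀ k, k ∉ Jt e κ t → x k = 0) → ∃ z ∈ Z t, z.1 = x)

/-! ### the systems -/

/-- the symbols between the small indices `U` and the large indices `I` -/
structure Gr (U I : Type) where
  /-- active small indices -/
  aU : U → Prop
  /-- active large indices -/
  aI : I → Prop
  /-- symbols between small indices -/
  ν : U → U → ZMod 2
  /-- labels: symbols between large and small indices -/
  lb : I → U → ZMod 2
  /-- diagonal -/
  fU : U → ZMod 2
  /-- diagonal -/
  fI : I → ZMod 2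
  sym : ∀ u v, aU u → aU v → ν u v = ν v u

section sys
variable {U I : Type}

/-- the active indices -/
def Gr.act (g : Gr U I) : U ⊕ I → Prop
  | .inl u => g.aU u
  | .inr p => g.aI p

/-- the diagonal -/
def Gr.f (g : Gr U I) : U ⊕ I → ZMod 2
  | .inl u => g.fU u
  | .inr p => g.fI p

/-- the symbols for the table `α` -/
def Gr.sg (g : Gr U I) (α : I → I → ZMod 2) : U ⊕ I → U ⊕ I → ZMod 2
  | .inl u, .inl v => g.ν u v
  | .inl u, .inr p => g.lb p u
  | .inr p, .inl u => g.lb p u
  | .inr p, .inr q => α p q + α q p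

variable [Fintype U] [Fintype I]

/-- the value of the equation of the index `v` -/
noncomputable def Gr.row (g : Gr U I) (α : I → I → ZMod 2) (F : U ⊕ I → Prop)
    (x : U ⊕ I → ZMod 2) (v : U ⊕ I) : ZMod 2 :=
  ∑ w ∈ univ.filter F, g.sg α v w * (x w + x v) + g.f v * x v

/-- the kernel of the set `F` -/
noncomputable def Gr.Ke (g : Gr U I) (α : I → I → ZMod 2) (F : U ⊕ I → Prop) :
    Submodule (ZMod 2) (U ⊕ I → ZMod 2) where
  carrier := {x | (∀ v, ¬ (F v ∧ g.act v) → x v = 0) ∧ ∀ v, F v → g.act v → g.row α F x v = 0}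
  add_mem' := by
    rintro x y ⟨h1, h2⟩ ⟨h3, h4⟩
    refine ⟨fun v hv => ?_, fun v hv ha => ?_⟩
    · rw [Pi.add_apply, h1 v hv, h3 v hv, add_zero]
    · have e : g.row α F (x + y) v = g.row α F x v + g.row α F y v := by
        unfold Gr.row
        have e4 : ∑ w ∈ univ.filter F, g.sg α v w * ((x + y) w + (x + y) v) =
            ∑ w ∈ univ.filter F, g.sg α v w * (x w + x v) +
              ∑ w ∈ univ.filter F, g.sg α v w * (y w + y v) := by
          rw [← sum_add_distrib]
          refine sum_congr rfl fun q _ => ?_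
          simp only [Pi.add_apply]
          ring
        rw [e4]
        simp only [Pi.add_apply]
        ring
      rw [e, h2 v hv ha, h4 v hv ha, add_zero]
  zero_mem' := by
    refine ⟨fun v _ => rfl, fun v _ _ => ?_⟩
    simp only [Gr.row, Pi.zero_apply, add_zero, mul_zero, sum_const_zero]
  smul_mem' := by
    rintro c x ⟨h1, h2⟩
    refine ⟨fun v hv => ?_, fun v hv ha => ?_⟩
    · rw [Pi.smul_apply, h1 v hv, smul_zero]
    · have e : g.row α F (c • x) v = c * g.row α F x v := by
        unfold Gr.row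
        rw [mul_add, mul_sum]
        simp only [Pi.smul_apply, smul_eq_mul]
        congr 1
        · exact sum_congr rfl fun q _ => by ring
        · ring
      rw [e, h2 v hv ha, mul_zero]

theorem mem_Ke {g : Gr U I} {α : I → I → ZMod 2} {F : U ⊕ I → Prop} {x : U ⊕ I → ZMod 2} :
    x ∈ g.Ke α F ↔ (∀ v, ¬ (F v ∧ g.act v) → x v = 0) ∧ ∀ v, F v → g.act v → g.row α F x v = 0 :=
  Iff.rfl

/-- the corank -/
noncomputable def Gr.co (g : Gr U I) (α : I → I → ZMod 2) (F : U ⊕ I → Prop) : ℕ :=
  finrank (ZMod 2) (g.Ke α F)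

variable {N M : Type} [Fintype N]

/-- the set of a form: `b` are the small members -/
def FF (e : M → N → ZMod 2) (b : M → U → Prop) (t : I → N → ZMod 2) (j : M) : U ⊕ I → Prop
  | .inl u => b j u
  | .inr p => ∑ i, e j i * t p i = 1

/-- the typical tuples `t` -/
structure Ty (g : Gr U I) (e : M → N → ZMod 2) (C R : ℕ) (t : I → N → ZMod 2) : Prop where
  pas : ∀ s : N → ZMod 2, ∃ p, ¬ g.aI p ∧ t p = s
  act : ∀ s : N → ZMod 2, C * Fintype.card U + R ≤ (univ.filter fun p => g.aI p ∧ t p = s).card
  reg : ∀ (j : M) (w : Finset U), w.Nonempty → (∀ u ∈ w, g.aU u) →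
    ∃ p, g.aI p ∧ ∑ i, e j i * t p i = 1 ∧ ∑ u ∈ w, g.lb p u ≠ 0

end sys

/-! ### tuples of kernel vectors -/

section tup
variable {U I N M : Type} [Fintype U] [Fintype I] [Fintype N] [Fintype M]

/-- the coordinates: `r j` vectors for the form `j` -/
abbrev KK (r : M → ℕ) := Σ j : M, Fin (r j)

/-- supported on the active members of the forms -/
def Sx (g : Gr U I) (e : M → N → ZMod 2) (b : M → U → Prop) (t : I → N → ZMod 2) (r : M → ℕ)
    (x : KK r → U ⊕ I → ZMod 2) : Prop :=
  ∀ k v, ¬ (FF e b t k.1 v ∧ g.act v) → x k v = 0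

/-- the vectors of each form are linearly independent on the large indices -/
def Idp (r : M → ℕ) (x : KK r → U ⊕ I → ZMod 2) : Prop :=
  ∀ (j : M) (c : Fin (r j) → ZMod 2), (∀ p : I, ∑ i, c i * x ⟨j, i⟩ (.inr p) = 0) → c = 0

/-- the number of the tuples of kernel vectors which are independent on the large indices -/
noncomputable def NT (g : Gr U I) (e : M → N → ZMod 2) (b : M → U → Prop) (t : I → N → ZMod 2)
    (r : M → ℕ) (α : I → I → ZMod 2) : ℕ :=
  (univ.filter fun x : KK r → U ⊕ I → ZMod 2 =>
    (∀ k, x k ∈ g.Ke α (FF e b t k.1)) ∧ Idp r x).card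

/-- the number of the pairs (coordinate, active member) -/
noncomputable def Ns (g : Gr U I) (e : M → N → ZMod 2) (b : M → U → Prop) (t : I → N → ZMod 2)
    (r : M → ℕ) : ℕ :=
  (univ.filter fun kv : KK r × (U ⊕ I) => FF e b t kv.1.1 kv.2 ∧ g.act kv.2).card

/-- the exponent -/
noncomputable def th (g : Gr U I) (e : M → N → ZMod 2) (b : M → U → Prop) (t : I → N → ZMod 2)
    (r : M → ℕ) (α : I → I → ZMod 2) (x c : KK r → U ⊕ I → ZMod 2) : ZMod 2 :=
  ∑ k, ∑ v, c k v * g.row α (FF e b t k.1) (x k) v

/-- the sign -/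
def sn (a : ZMod 2) : ℤ := if a = 0 then 1 else -1

/-- JOB LP-NT. PROOF. By `reg` a vector of `Ke α (FF e b t j)` which vanishes on the large indices is zero: the equation
of an active large member `p` reads `∑ u, lb p u * x u = 0` (sum over the members; `x` is supported on the active ones), so
`w = {u : x u ≠ 0}` is empty. Hence a tuple of vectors of the kernel of the form `j` is linearly independent on the large
indices if and only if it is linearly independent. The number of the linearly independent `m`-tuples in a space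
of dimension `d` over the field with two elements is `∏_{i < m} (2^d - 2^i)` (`card_linearIndependent`; both
sides vanish for `d < m`). -/
def S_NT : Prop := ∀ (U I N M : Type) [Fintype U] [Fintype I] [Fintype N] [Fintype M] (g : Gr U I)
  (e : M → N → ZMod 2) (b : M → U → Prop) (t : I → N → ZMod 2) (r : M → ℕ) (α : I → I → ZMod 2),
  (∀ (j : M) (w : Finset U), w.Nonempty → (∀ u ∈ w, g.aU u) →
    ∃ p, g.aI p ∧ ∑ i, e j i * t p i = 1 ∧ ∑ u ∈ w, g.lb p u ≠ 0) →
  (NT g e b t r α : ℝ) = ∏ j, ij (r j) (2 ^ g.co α (FF e b t j))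

/-- JOB LP-FOU. PROOF. Orthogonality: for fixed `α` and `x` supported on the active members, the sum over `c` (supported on
the active members) of `sn (th ...)` is `2 ^ Ns` if `x k ∈ Ke α (FF e b t k.1)` for all `k`, and `0` otherwise
(the number of these `c` is `2 ^ Ns`). -/
def S_FOU : Prop := ∀ (U I N M : Type) [Fintype U] [Fintype I] [Fintype N] [Fintype M] (g : Gr U I)
  (e : M → N → ZMod 2) (b : M → U → Prop) (t : I → N → ZMod 2) (r : M → ℕ) (α : I → I → ZMod 2),
  (NT g e b t r α : ℤ) * 2 ^ Ns g e b t r =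
    ∑ x ∈ univ.filter (fun x => Sx g e b t r x ∧ Idp r x), ∑ c ∈ univ.filter (Sx g e b t r),
      sn (th g e b t r α x c)

/-- the condition of a pair of large indices -/
def Pc (e : M → N → ZMod 2) (t : I → N → ZMod 2) (r : M → ℕ) (x c : KK r → U ⊕ I → ZMod 2) : Prop :=
  ∀ p q : I, ∑ k ∈ Jt e (fun k : KK r => k.1) (t p) ∩ Jt e (fun k : KK r => k.1) (t q),
    (x k (.inr p) + x k (.inr q)) * (c k (.inr p) + c k (.inr q)) = 0

/-- JOB LP-ALP. PROOF. `th` is an affine function of `α`: its linear part is
`∑ p q, coef p q * (α p q + α q p)` with `coef p q = ∑ k, c k p * (x k q + x k p)` over the `k` for which `p` and `q` are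
members (here `c k p = 0` unless `p` is an active member), and the coefficient of `α p q` is `coef p q + coef q p`, the
sum in `Pc` (`x` and `c` vanish at the passive indices). If `Pc` holds, `th` does not depend on `α`, otherwise
the sum of `sn (th ...)` over `α` is zero. -/
def S_ALP : Prop := ∀ (U I N M : Type) [Fintype U] [Fintype I] [Fintype N] [Fintype M] (g : Gr U I)
  (e : M → N → ZMod 2) (b : M → U → Prop) (t : I → N → ZMod 2) (r : M → ℕ)
  (x c : KK r → U ⊕ I → ZMod 2), Sx g e b t r x → Sx g e b t r c →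
  (Pc e t r x c → ∀ α, th g e b t r α x c = th g e b t r 0 x c) ∧
  (¬ Pc e t r x c → ∑ α : I → I → ZMod 2, sn (th g e b t r α x c) = 0)

/-- the vectors which occur at the large indices with pattern `s` -/
noncomputable def Zf (t : I → N → ZMod 2) (r : M → ℕ) (x c : KK r → U ⊕ I → ZMod 2) (s : N → ZMod 2) :
    Finset (WW (KK r)) :=
  (univ.filter fun p : I => t p = s).image fun p => (fun k => x k (.inr p), fun k => c k (.inr p))

/-- full -/
def Fl (e : M → N → ZMod 2) (t : I → N → ZMod 2) (r : M → ℕ) (x c : KK r → U ⊕ I → ZMod 2) : Prop :=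
  ∀ s, (Zf t r x c s).card = 2 ^ (Jt e (fun k : KK r => k.1) s).card

/-- JOB LP-CNF. Few pairs are not full.
PROOF. By `pas` and `Pc` the sets `Zf s` form an admissible family (`Fa`: the vector at a passive index is `0`), so
`#Zf s ≤ 2 ^ #Jt s` by LP-STR. For a given family `Y : (N → ZMod 2) → Finset (WW K)` the number of the `(x, c)` with
`Zf = Y` is at most `2 ^ (2 #K #U) * ∏_{p active large} #Y (t p)`. If the family is not full, one `#Y s` is at most
`2 ^ #Jt s - 1 ≤ 2 ^ #Jt s * (1 - 2^-#K)`, and there are at least `C #U + R` active `p` with `t p = s`; so the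
product is at most `2 ^ (∑_{p active} #Jt (t p)) * (1 - 2^-#K) ^ (C #U + R)`, and `∑_{p active} #Jt (t p) ≤ Ns`. The number of the
families is at most `(2 ^ (4 ^ #K)) ^ (2 ^ #N)`. Choose `C` with `2 ^ (2 #K) * (1 - 2^-#K) ^ C ≤ 1` and then `R`. -/
def S_CNF : Prop := ∀ (N M : Type) [Fintype N] [Fintype M] (e : M → N → ZMod 2) (r : M → ℕ),
  Function.Injective e → (∀ j, e j ≠ 0) → ∃ C : ℕ, ∀ δ : ℝ, 0 < δ → ∃ R : ℕ,
  ∀ (U I : Type) [Fintype U] [Fintype I] (g : Gr U I) (b : M → U → Prop) (t : I → N → ZMod 2),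
  Ty g e C R t →
  ((univ.filter fun y : (KK r → U ⊕ I → ZMod 2) × (KK r → U ⊕ I → ZMod 2) => Sx g e b t r y.1 ∧
    Sx g e b t r y.2 ∧ Pc e t r y.1 y.2 ∧ ¬ Fl e t r y.1 y.2).card : ℝ) ≤ δ * 2 ^ Ns g e b t r

/-- the pairs attached to the coefficients `S` -/
def As (r : M → ℕ) (S : KK r → KK r → ZMod 2) (x c : KK r → U ⊕ I → ZMod 2) : Prop :=
  ∀ k (p : I), c k (.inr p) = ∑ l, S k l * x l (.inr p)

/-- JOB LP-SUM. The main term.
PROOF. Write `c k v = ∑ l, S k l * x l v + c' k v`; `c'` is supported on the small active members (for `u` small the sum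
over `l` is supported on the members, as `S` respects the forms), and `(x, c) ↦ (x, c')` is a bijection from the pairs in
question to the pairs `(x, c')` with `x` supported on the active members and `c'` on the small active members. The
contribution of `∑ l, S k l * x l v` to `th` vanishes: it is
`∑_{k, l} S k l * ∑ v, x l v * row (x k) v`, and `∑ v, x l v * row (x k) v` is symmetric in `k, l` for `k.1 = l.1` (the
matrix of the system is symmetric on the active members: `row x v` for active `v` is
`∑_{w active member} sg v w * x w + (∑_{w member} sg v w) * x v + f v * x v`), while `S` is alternating. So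
`th = ∑ k, ∑ u small, c' k u * row (x k) u`, a linear function of `x` for fixed `c'`, nonzero if `c' ≠ 0`: if
`w = {u : c' k u = 1}` is nonempty, `reg` gives an active large member `p` with `∑ u ∈ w, lb p u = 1`, and this is the
coefficient of `x k p`. So the sum over `x` of the signs vanishes if `c' ≠ 0`, and for `c' = 0` it is the number
`2 ^ Ns` of the `x`. -/
def S_SUM : Prop := ∀ (U I N M : Type) [Fintype U] [Fintype I] [Fintype N] [Fintype M] (g : Gr U I)
  (e : M → N → ZMod 2) (b : M → U → Prop) (t : I → N → ZMod 2) (r : M → ℕ)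
  (S : KK r → KK r → ZMod 2), Alt (fun k : KK r => k.1) S →
  (∀ (j : M) (w : Finset U), w.Nonempty → (∀ u ∈ w, g.aU u) →
    ∃ p, g.aI p ∧ ∑ i, e j i * t p i = 1 ∧ ∑ u ∈ w, g.lb p u ≠ 0) →
  ∑ y ∈ univ.filter (fun y : (KK r → U ⊕ I → ZMod 2) × (KK r → U ⊕ I → ZMod 2) => Sx g e b t r y.1 ∧
    Sx g e b t r y.2 ∧ As r S y.1 y.2), sn (th g e b t r 0 y.1 y.2) = 2 ^ Ns g e b t r

/-- JOB LP-ALT. The number of the coefficients: alternating matrices block by block. PROOF. An alternating matrix of
size `m` is given by its entries above the diagonal, `m (m - 1) / 2` in number. -/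
def S_ALT : Prop := ∀ (M : Type) [Fintype M] (r : M → ℕ),
  (univ.filter fun S : KK r → KK r → ZMod 2 => Alt (fun k : KK r => k.1) S).card =
    ∏ j, 2 ^ (r j * (r j - 1) / 2)

/-- The moments (LP-FT, helper283, from the parts above). -/
def S_FT : Prop := ∀ (N M : Type) [Fintype N] [Fintype M] (e : M → N → ZMod 2) (r : M → ℕ),
  Function.Injective e → (∀ j, e j ≠ 0) → ∃ C : ℕ, ∀ δ : ℝ, 0 < δ → ∃ R : ℕ,
  ∀ (U I : Type) [Fintype U] [Fintype I] (g : Gr U I) (b : M → U → Prop) (t : I → N → ZMod 2),
  Ty g e C R t →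
  |(∑ α : I → I → ZMod 2, ∏ j, ij (r j) (2 ^ g.co α (FF e b t j))) /
      (Fintype.card (I → I → ZMod 2) : ℝ) - ∏ j, (2 : ℝ) ^ (r j * (r j - 1) / 2)| ≤ δ

end tup

/-! ### from the moments to the law -/

/-- JOB LP-LAW. The law of independent coranks is determined by the moments.
PROOF. Upper bound: `1(c = r) ≤ qq r I (2 ^ c)` for even `I` (`Q283.GM.qq_even`), so the indicator of `rk = r` is at most
`∏ j, qq (r j) I (2 ^ rk j)`, a combination of the products of the `ij (r j + i_j)`, `i_j ≤ I`, and its mean tends to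
`∏ j, (cf (r j) * ∑ i ∈ range (I + 1), (-1) ^ i * ff i)` (the computation is in `Q283.GM.sum_qq`), which tends to
`∏ j, al (r j)` for `I → ∞` (`gi_tendsto`; `al r = c2 * cf r`, and `gi = c2`, see below). Lower bound: the mean of
`2 ^ rk j` is at most `3` (`ij 1 x = x - 1`), so `rk j ≥ B` has probability at most `3 / 2 ^ B`, and
`P(rk = r) ≥ 1 - ∑ j, 3 / 2 ^ B - ∑_{r' ≠ r, r' < B} P(rk = r')` with the upper bounds for the `r'`, and
`∑_{r' < B} ∏ j, al (r' j) ≤ 1` (`Q283.GS.hasSum_al`). For `r` with some `r j ≥ B` both sides are small.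
(`gi = c2`: `Q283.FS.al_ij` gives `∑_b al b * ij j (2 ^ b) = 2 ^ (j (j - 1) / 2)`, and the sandwich
`Q283.GM.qq_even`, `Q283.GM.qq_odd` for the law `al` itself and `r = 0` gives `al 0 = gi`; `al 0 = c2`.) -/
def S_LAW : Prop := ∀ (M : Type) [Fintype M] (ε : ℝ), 0 < ε → ∃ (A : ℕ) (δ : ℝ), 0 < δ ∧
  ∀ (Ω : Type) [Fintype Ω] [Nonempty Ω] (rk : Ω → M → ℕ),
  (∀ a : M → ℕ, (∀ j, a j ≤ A) → |(∑ ω, ∏ j, ij (a j) (2 ^ rk ω j)) / (Fintype.card Ω : ℝ) -
    ∏ j, (2 : ℝ) ^ (a j * (a j - 1) / 2)| ≤ δ) →
  ∀ r : M → ℕ, |((univ.filter fun ω => ∀ j, rk ω j = r j).card : ℝ) / (Fintype.card Ω : ℝ) -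
    ∏ j, al (r j)| ≤ ε

/-! ### typical tuples, and the second moment -/

/-- the regular labels -/
structure Rgg {U I : Type} [Fintype U] [Fintype I] (g : Gr U I) (A R : ℕ) : Prop where
  nd : ∀ w : Finset U, w.Nonempty → (∀ u ∈ w, g.aU u) →
    A * Fintype.card U + R ≤ (univ.filter fun p => g.aI p ∧ ∑ u ∈ w, g.lb p u ≠ 0).card
  act : A * Fintype.card U + R ≤ (univ.filter fun p => g.aI p).card
  pas : A * Fintype.card U + R ≤ (univ.filter fun p => ¬ g.aI p).card

/-- JOB LP-TYP. For regular labels most tuples are typical.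
PROOF. The values `t p` are independent and uniform in `N → ZMod 2`. (pas) A pattern `s` is missed by all passive `p` with
probability `(1 - 2^-#N) ^ #passive`. (act) If `X` is the number of the active `p` with `t p = s`, the mean of `2^-X` is
`(1 - 2^-(#N + 1)) ^ #active`, hence `P(X < C #U + R) ≤ 2 ^ (C #U + R) * (1 - 2^-(#N + 1)) ^ (A #U + R')`; choose `A` with
`2 ^ C * (1 - 2^-(#N + 1)) ^ A ≤ 1` and then `R'`. (reg) For given `j` and `w` the probability that `∑ i, e j i * t p i = 0`
for all the at least `A #U + R'` active `p` with `∑ u ∈ w, lb p u ≠ 0` is at most `2^-(A #U + R')` (`e j ≠ 0`), and there are at most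
`#M * 2 ^ #U` pairs `(j, w)`. -/
def S_TYP : Prop := ∀ (N M : Type) [Fintype N] [Fintype M] (e : M → N → ZMod 2), (∀ j, e j ≠ 0) →
  ∀ (C R : ℕ) (δ : ℝ), 0 < δ → ∃ A R' : ℕ, ∀ (U I : Type) [Fintype U] [Fintype I] (g : Gr U I),
  Rgg g A R' → ((univ.filter fun t : I → N → ZMod 2 => ¬ Ty g e C R t).card : ℝ) ≤
    δ * (Fintype.card (I → N → ZMod 2) : ℝ)

/-- the small members of the forms: `m` the masks, `τ` the patterns of the small indices -/
def bb {U N M : Type} [Fintype N] (e : M → N → ZMod 2) (m : M → U → ZMod 2) (τ : U → N → ZMod 2) :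
    M → U → Prop := fun j u => m j u + ∑ i, e j i * τ u i = 1

/-- the share of the tuples of `T` with coranks `r` -/
noncomputable def shr {U I N M : Type} [Fintype U] [Fintype I] [Fintype N] [Fintype M] (g : Gr U I)
    (e : M → N → ZMod 2) (m : M → U → ZMod 2) (T : Finset ((U → N → ZMod 2) × (I → N → ZMod 2)))
    (r : M → ℕ) (α : I → I → ZMod 2) : ℝ :=
  ((T.filter fun τ => ∀ j, g.co α (FF e (bb e m τ.1) τ.2 j) = r j).card : ℝ) / T.card

/-- the law for typical tuples (helper283, from LP-FT and LP-LAW) -/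
def S_LT : Prop := ∀ (N M : Type) [Fintype N] [Fintype M] (e : M → N → ZMod 2),
  Function.Injective e → (∀ j, e j ≠ 0) → ∀ δ : ℝ, 0 < δ → ∃ C R : ℕ,
  ∀ (U I : Type) [Fintype U] [Fintype I] (g : Gr U I) (b : M → U → Prop) (t : I → N → ZMod 2),
  Ty g e C R t → ∀ r : M → ℕ,
  |((univ.filter fun α : I → I → ZMod 2 => ∀ j, g.co α (FF e b t j) = r j).card : ℝ) /
      (Fintype.card (I → I → ZMod 2) : ℝ) - ∏ j, al (r j)| ≤ δ

/-- JOB LP-SEC. The second moment of the share.
PROOF. Expand: the mean over `α` of `(share - ∏ al)^2` is the mean over the pairs `(τ, τ') ∈ T × T` of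
`P(both have coranks r) - ∏ al * (P(τ) + P(τ')) + (∏ al)^2`. Apply the law for typical tuples to the forms
`(e j, 0)`, `(0, e j)` in the variables `N ⊕ N` (index set `M ⊕ M`), and to the forms `e j`, with `δ / 8`: if the tuple
`(t, t')` is typical for the doubled system and `t`, `t'` are typical, the expression is at most `δ / 2` in absolute value
(the law for the pair with the values `(r, r)` is `(∏ al)^2`). It is at most `4` always. By LP-TYP the tuples `(t, t')`,
`t`, `t'` which are not typical are at most a proportion `δ'` of all `(t, t')`; by the hypothesis on `T` the proportion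
of the corresponding elements of `T × T` is at most `3 D₀ ^ 2 δ'`. (For fixed `τ.1, τ'.1` the pairs are at least a proportion
`1 / D₀ ^ 2` of all `(t, t')`, or there are none.) Take the maxima of the constants; `Rgg` and `Ty` are monotone in
the constants. -/
def S_SEC : Prop := S_LT → S_TYP → ∀ (N M : Type) [Fintype N] [Fintype M] (e : M → N → ZMod 2),
  Function.Injective e → (∀ j, e j ≠ 0) → ∀ (D₀ : ℕ) (δ : ℝ), 0 < δ → ∃ A R : ℕ,
  ∀ (U I : Type) [Fintype U] [Fintype I] (g : Gr U I) (m : M → U → ZMod 2)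
    (T : Finset ((U → N → ZMod 2) × (I → N → ZMod 2))), Rgg g A R → T.Nonempty →
  (∀ τ : U → N → ZMod 2, (∃ t, (τ, t) ∈ T) →
    Fintype.card (I → N → ZMod 2) ≤ D₀ * (univ.filter fun t => (τ, t) ∈ T).card) →
  ∀ r : M → ℕ, (∑ α : I → I → ZMod 2, (shr g e m T r α - ∏ j, al (r j)) ^ 2) /
    (Fintype.card (I → I → ZMod 2) : ℝ) ≤ δ

end Q283.LP
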