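import Pool.Agent.Q110.NL.Box
import Pool.Agent.Q283.LP.F1

/-!
# Project LP, third version: two functions on the diagonal. The box
-/

set_option autoImplicit false
set_option linter.unusedSectionVars false
set_option linter.unusedVariables false

open scoped Classical

namespace Q283.LP

open Finset
open Q283.GM (Fam)
open Pool.Agent.Y703.CQ (nr prs HB)
open Pool.Agent.Y657.CQ (HB_sub)
open Q155.NL (Tu BX)

/-- the label of a prime `x` with respect to the set `S` -/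
noncomputable def lb2 (f g : ℕ → ZMod 2) (S : Finset ℕ) (x : ℕ) :
    (S → ZMod 2) × (S → ZMod 2) × ZMod 2 × ZMod 2 := (fun u => nr u x, fun u => nr x u, f x, g x)

/-- the regularity depends on the labels only -/
def LabV (Φ : Fam) (f g : ℕ → ZMod 2) (N : Finset ℕ → Finset ℕ → Prop) (W : Finset ℕ) : Prop :=
  ∀ (ι : Type) [Fintype ι] (J1 : Finset ι) (S₀ : Finset ℕ) (p q : ι → ℕ), (∀ u ∈ S₀, Φ.P u) →
    Tu Φ J1 (S₀ ∪ W) p → Tu Φ J1 (S₀ ∪ W) q →
    (∀ i, lb2 f g (S₀ ∪ W) (p i) = lb2 f g (S₀ ∪ W) (q i)) →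
    N S₀ (univ.image p) → N S₀ (univ.image q)

/-- for given regular labels all but the proportion `ε` of the tables of symbols of the large primes have
the property -/
def LocV (Φ : Fam) (f g : ℕ → ZMod 2) (N : Finset ℕ → Finset ℕ → Prop) (T : Finset ℕ → Prop)
    (W : Finset ℕ) (ε : ℝ) : Prop :=
  ∀ (ι : Type) [Fintype ι] [LinearOrder ι] (J1 : Finset ι) (S₀ : Finset ℕ) (q : ι → ℕ),
    (∀ u ∈ S₀, Φ.P u) → Tu Φ J1 (S₀ ∪ W) q → N S₀ (univ.image q) →
    ∃ Q : (prs J1 → ZMod 2) → Prop,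
      ((univ.filter fun α => ¬ Q α).card : ℝ) ≤ ε * 2 ^ (prs J1).card ∧
      ∀ p : ι → ℕ, Tu Φ J1 (S₀ ∪ W) p → (∀ i, lb2 f g (S₀ ∪ W) (p i) = lb2 f g (S₀ ∪ W) (q i)) →
        Q (fun e => nr (p e.1.1) (p e.1.2)) → T (S₀ ∪ univ.image p)

/-- one label -/
theorem oneV {Φ : Fam} {f g : ℕ → ZMod 2} {N : Finset ℕ → Finset ℕ → Prop}
    {T : Finset ℕ → Prop} {W : Finset ℕ} {ε : ℝ} (hLab : LabV Φ f g N W)
    (hLoc : LocV Φ f g N T W ε) {ι : Type} [Fintype ι] [LinearOrder ι] {J1 : Finset ι}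
    {C : ι → Finset ℕ} {X : ι → ℕ} {κ : ℝ} {S₀ : Finset ℕ} (hκ : 0 ≤ κ)
    (hCX : ∀ i, (C i).card ≤ X i) (hHB : HB J1 C X κ) (hS₀ : ∀ u ∈ S₀, Φ.P u)
    (hTu : ∀ p ∈ Fintype.piFinset C, Tu Φ J1 (S₀ ∪ W) p)
    (β : ι → (↥(S₀ ∪ W) → ZMod 2) × (↥(S₀ ∪ W) → ZMod 2) × ZMod 2 × ZMod 2) :
    (1 - ε) * (((Fintype.piFinset C).filter fun p => (fun i => lb2 f g (S₀ ∪ W) (p i)) = β ∧
        N S₀ (univ.image p)).card : ℝ) ≤
      (((Fintype.piFinset C).filter fun p => (fun i => lb2 f g (S₀ ∪ W) (p i)) = β ∧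
        N S₀ (univ.image p) ∧ T (S₀ ∪ univ.image p)).card : ℝ) +
      2 ^ (prs J1).card * (κ * ∏ j, (X j : ℝ)) := by
  have hR0 : 0 ≤ (2 : ℝ) ^ (prs J1).card * (κ * ∏ j, (X j : ℝ)) :=
    mul_nonneg (by positivity) (mul_nonneg hκ (Finset.prod_nonneg fun j _ => by positivity))
  by_cases hemp : ((Fintype.piFinset C).filter fun p => (fun i => lb2 f g (S₀ ∪ W) (p i)) = β ∧
      N S₀ (univ.image p)) = ∅
  · rw [hemp, Finset.card_empty, Nat.cast_zero, mul_zero]
    positivity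
  obtain ⟨q, hq⟩ := Finset.nonempty_iff_ne_empty.2 hemp
  rw [Finset.mem_filter] at hq
  obtain ⟨hq, hqβ, hqN⟩ := hq
  obtain ⟨Q, hQ1, hQ2⟩ := hLoc ι J1 S₀ q hS₀ (hTu q hq) hqN
  set C' : ι → Finset ℕ := fun i => (C i).filter fun x => lb2 f g (S₀ ∪ W) x = β i with hC'
  have hpi : (Fintype.piFinset C).filter (fun p => (fun i => lb2 f g (S₀ ∪ W) (p i)) = β ∧
      N S₀ (univ.image p)) = Fintype.piFinset C' := by
    ext p
    simp only [Finset.mem_filter, Fintype.mem_piFinset, hC']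
    constructor
    · rintro ⟨h2, h3, -⟩ i
      exact ⟨h2 i, congrFun h3 i⟩
    · intro h2
      refine ⟨fun i => (h2 i).1, funext fun i => (h2 i).2, ?_⟩
      refine hLab ι J1 S₀ q p hS₀ (hTu q hq)
        (hTu p (Fintype.mem_piFinset.2 fun i => (h2 i).1)) (fun i => ?_) hqN
      rw [(h2 i).2]
      exact congrFun hqβ i
  have h3 := Pool.Agent.Y356.CQ.t_EQ ι J1 C' X κ hκ
    (fun i => (Finset.card_le_card (Finset.filter_subset _ _)).trans (hCX i))
    (HB_sub hHB fun i x => lb2 f g (S₀ ∪ W) x = β i) Q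
  have h4 : ((Fintype.piFinset C').filter fun p => Q fun e => nr (p e.1.1) (p e.1.2)).card ≤
      ((Fintype.piFinset C).filter fun p => (fun i => lb2 f g (S₀ ∪ W) (p i)) = β ∧
        N S₀ (univ.image p) ∧ T (S₀ ∪ univ.image p)).card := by
    refine Finset.card_le_card fun p hp => ?_
    rw [Finset.mem_filter, ← hpi, Finset.mem_filter] at hp
    obtain ⟨⟨h5, h6, h7⟩, h8⟩ := hp
    rw [Finset.mem_filter]
    exact ⟨h5, h6, h7, hQ2 p (hTu p h5) (fun i => congrFun (h6.trans hqβ.symm) i) h8⟩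
  have h4' : ((((Fintype.piFinset C').filter fun p => Q fun e => nr (p e.1.1) (p e.1.2)).card : ℕ)
      : ℝ) ≤ (((Fintype.piFinset C).filter fun p => (fun i => lb2 f g (S₀ ∪ W) (p i)) = β ∧
        N S₀ (univ.image p) ∧ T (S₀ ∪ univ.image p)).card : ℝ) := by
    exact_mod_cast h4
  have h5 : (((Fintype.piFinset C').card : ℕ) : ℝ) = ∏ j, ((C' j).card : ℝ) := by
    rw [Fintype.card_piFinset]
    push_cast
    rfl
  have h6 : (1 - ε) ≤ ((univ.filter Q).card : ℝ) / 2 ^ (prs J1).card := by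
    have h7 : (univ.filter Q).card + (univ.filter fun α => ¬ Q α).card =
        (univ : Finset (prs J1 → ZMod 2)).card := Finset.card_filter_add_card_filter_not _
    rw [Finset.card_univ, Fintype.card_fun, ZMod.card, Fintype.card_coe] at h7
    have h8 : ((univ.filter Q).card : ℝ) + ((univ.filter fun α => ¬ Q α).card : ℝ) =
        2 ^ (prs J1).card := by exact_mod_cast h7
    rw [le_div_iff₀ (by positivity)]
    linarith
  rw [hpi, h5]
  have hP0 : 0 ≤ ∏ j, ((C' j).card : ℝ) := Finset.prod_nonneg fun j _ => by positivity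
  have h9 := mul_le_mul_of_nonneg_right h6 hP0
  have h10 := (abs_le.1 h3).1
  linarith

/-- **From the tables of symbols to the count in a box**, with two functions. -/
theorem boxV {Φ : Fam} {f g : ℕ → ZMod 2} {N : Finset ℕ → Finset ℕ → Prop}
    {T : Finset ℕ → Prop} {W W' : Finset ℕ} {ε : ℝ} (hε : 0 ≤ ε) (hLab : LabV Φ f g N W')
    (hLoc : LocV Φ f g N T W' ε) (hsub : W' ⊆ W) (h2 : 2 ∈ W) (h2' : 2 ∉ W') : BX Φ N T W ε := by
  intro ι _ _ J1 C X κ S₀ hκ hCX hHB hS₀ hC hdis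
  have hVV : S₀ ∪ W' ⊆ S₀ ∪ W := union_subset_union_right hsub
  have hTu : ∀ p ∈ Fintype.piFinset C, Tu Φ J1 (S₀ ∪ W') p := by
    intro p hp
    rw [Fintype.mem_piFinset] at hp
    refine ⟨?_, fun i => ⟨(hC i _ (hp i)).1, fun h => (hC i _ (hp i)).2.1 (hVV h), (hC i _ (hp i)).2.2⟩⟩
    intro i j hij
    by_contra hne
    have h1 := Finset.disjoint_left.1 (hdis i j hne) (hp i)
    rw [hij] at h1
    exact h1 (hp j)
  have hfib : ∀ (P : (ι → ℕ) → Prop) [DecidablePred P],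
      (((Fintype.piFinset C).filter fun p => P p).card : ℝ) =
      ∑ β : ι → (↥(S₀ ∪ W') → ZMod 2) × (↥(S₀ ∪ W') → ZMod 2) × ZMod 2 × ZMod 2,
        (((Fintype.piFinset C).filter fun p =>
          (fun i => lb2 f g (S₀ ∪ W') (p i)) = β ∧ P p).card : ℝ) := by
    intro P _
    rw [Finset.card_eq_sum_card_fiberwise (f := fun (p : ι → ℕ) (i : ι) => lb2 f g (S₀ ∪ W') (p i))
      (t := univ) (by
        intro p hp
        exact Finset.mem_coe.2 (Finset.mem_univ _))]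
    push_cast
    refine Finset.sum_congr rfl fun β hβ => ?_
    rw [Finset.filter_filter]
    congr 2
    ext p
    simp only [Finset.mem_filter]
    tauto
  have h1 := hfib fun p => N S₀ (univ.image p)
  have h2n := hfib fun p => N S₀ (univ.image p) ∧ T (S₀ ∪ univ.image p)
  have h3 := Finset.sum_le_sum fun β (_ : β ∈ (univ : Finset (ι →
    (↥(S₀ ∪ W') → ZMod 2) × (↥(S₀ ∪ W') → ZMod 2) × ZMod 2 × ZMod 2))) =>
      oneV hLab hLoc hκ hCX hHB hS₀ hTu β
  rw [← Finset.mul_sum, Finset.sum_add_distrib, ← h1, ← h2n, Finset.sum_const, nsmul_eq_mul,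
    Finset.card_univ, Fintype.card_fun, Fintype.card_prod, Fintype.card_prod, Fintype.card_prod,
    Fintype.card_fun, ZMod.card, Fintype.card_coe] at h3
  have hcard : (S₀ ∪ W').card + 1 ≤ (S₀ ∪ W).card := by
    have h5 : 2 ∉ S₀ ∪ W' := by
      rw [mem_union, not_or]
      exact ⟨fun h => Fam.ne_two (hS₀ 2 h) rfl, h2'⟩
    rw [← card_insert_of_notMem h5]
    exact card_le_card (insert_subset (mem_union_right _ h2) hVV)
  have h4 : (((2 ^ (S₀ ∪ W').card * (2 ^ (S₀ ∪ W').card * (2 * 2))) ^ Fintype.card ι : ℕ) : ℝ) *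
      (2 ^ (prs J1).card * (κ * ∏ j, (X j : ℝ))) ≤
      2 ^ ((2 * (S₀ ∪ W).card + 1) * Fintype.card ι + (prs J1).card) *
        (κ * ∏ j, (X j : ℝ)) := by
    have h6 : (0 : ℝ) ≤ κ * ∏ j, (X j : ℝ) :=
      mul_nonneg hκ (Finset.prod_nonneg fun j _ => by positivity)
    have h7 : ∀ a : ℕ, 2 ^ a * (2 ^ a * (2 * 2)) = 2 ^ (2 * a + 2) := by
      intro a
      ring
    rw [h7, ← mul_assoc]
    refine mul_le_mul_of_nonneg_right ?_ h6
    push_cast
    rw [← pow_mul, ← pow_add]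
    refine pow_le_pow_right₀ (by norm_num) (Nat.add_le_add_right (Nat.mul_le_mul_right _ ?_) _)
    omega
  linarith

end Q283.LP
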