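import Pool.Agent.Q283.LP.V1
import Pool.Agent.Q283.LP.V2

/-!
# Project LP (helper283), third version: two functions on the diagonal. The local statement

The second function is encoded by one additional passive small index `none` with the symbols `g`.
-/

set_option autoImplicit false
set_option linter.unusedSectionVars false
set_option linter.unusedVariables false

open scoped Classical

namespace Q283.LP

open Finset Module Filter
open Q283.GM (Fam Kr rk mem_Kr nr_symm Ok SS HM)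
open Pool.Agent.Y703.CQ (nr prs)
open Q155.NL (Tu lb xt xt_add φp φp_surj Rg RN Loc LabN Cl Alm cnt cs mem_cs cnt_SS alm_mono alm_of_tendsto)
open Q283.GS (al)
open Pool.Agent.Q1.PT (avg avg_hom)

section opt
variable {U I : Type} [Fintype U] [Fintype I]

/-- an additional passive small index changes the diagonal -/
theorem co_opt (g' : Gr (Option U) I) (g : Gr U I) (c : ZMod 2) (F' : Option U ⊕ I → Prop)
    (F : U ⊕ I → Prop) (α : I → I → ZMod 2) (h1 : ¬ g'.aU none)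
    (h2 : ∀ u, g'.aU (some u) ↔ g.aU u) (h3 : ∀ i, g'.aI i ↔ g.aI i)
    (hF1 : ∀ u, F' (.inl (some u)) ↔ F (.inl u)) (hF2 : ∀ i, F' (.inr i) ↔ F (.inr i))
    (hc : c = if F' (.inl none) then 1 else 0)
    (hν : ∀ u v, g'.ν (some u) (some v) = g.ν u v) (hl : ∀ i u, g'.lb i (some u) = g.lb i u)
    (hfu : ∀ u, g.fU u = g'.fU (some u) + c * g'.ν (some u) none)
    (hfi : ∀ i, g.fI i = g'.fI i + c * g'.lb i none) : g'.co α F' = g.co α F := by
  obtain ⟨sm, hsm⟩ : ∃ sm : U ⊕ I → Option U ⊕ I, sm = Sum.map some id := ⟨_, rfl⟩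
  have hsl : ∀ u, sm (.inl u) = .inl (some u) := fun u => by rw [hsm]; rfl
  have hsr : ∀ i, sm (.inr i) = .inr i := fun i => by rw [hsm]; rfl
  have hFs : ∀ v, F' (sm v) ↔ F v := by
    rintro (u | i)
    · rw [hsl]; exact hF1 u
    · rw [hsr]; exact hF2 i
  have hAs : ∀ v, g'.act (sm v) ↔ g.act v := by
    rintro (u | i)
    · rw [hsl]; exact h2 u
    · rw [hsr]; exact h3 i
  have hcase : ∀ v : Option U ⊕ I, v = .inl none ∨ ∃ w, v = sm w := by
    rintro ((_ | u) | i)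
    · exact Or.inl rfl
    · exact Or.inr ⟨.inl u, (hsl u).symm⟩
    · exact Or.inr ⟨.inr i, (hsr i).symm⟩
  have hn : ∀ v, sm v ≠ .inl none := by
    rintro (u | i)
    · rw [hsl]
      exact fun h => by simp at h
    · rw [hsr]
      exact fun h => by simp at h
  -- the rows
  have hrow : ∀ (x : Option U ⊕ I → ZMod 2) (v : U ⊕ I), x (.inl none) = 0 →
      g'.row α F' x (sm v) = g.row α F (fun w => x (sm w)) v := by
    intro x v hx
    unfold Gr.row
    have e1 : ∑ w ∈ univ.filter F', g'.sg α (sm v) w * (x w + x (sm v)) =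
        c * g'.sg α (sm v) (.inl none) * x (sm v) +
        ∑ w ∈ univ.filter F, g'.sg α (sm v) (sm w) * (x (sm w) + x (sm v)) := by
      rw [Finset.sum_filter, Finset.sum_filter, Fintype.sum_sum_type, Fintype.sum_option,
        Fintype.sum_sum_type, add_assoc]
      congr 1
      · rw [hx, zero_add, hc]
        split_ifs with h
        · rw [one_mul]
        · rw [zero_mul, zero_mul]
      · congr 1
        · refine Finset.sum_congr rfl fun u _ => ?_
          have h := hF1 u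
          rw [hsl]
          by_cases h' : F (.inl u)
          · rw [if_pos h', if_pos (h.2 h')]
          · rw [if_neg h', if_neg fun h'' => h' (h.1 h'')]
        · refine Finset.sum_congr rfl fun i _ => ?_
          have h := hF2 i
          rw [hsr]
          by_cases h' : F (.inr i)
          · rw [if_pos h', if_pos (h.2 h')]
          · rw [if_neg h', if_neg fun h'' => h' (h.1 h'')]
    have e2 : ∀ w, g'.sg α (sm v) (sm w) = g.sg α v w := by
      intro w
      rcases v with u | i <;> rcases w with u' | i'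
      · rw [hsl, hsl]; exact hν u u'
      · rw [hsl, hsr]; exact hl i' u
      · rw [hsl, hsr]; exact hl i u'
      · rw [hsr, hsr]; rfl
    have e3 : g.f v = g'.f (sm v) + c * g'.sg α (sm v) (.inl none) := by
      rcases v with u | i
      · rw [hsl]; exact hfu u
      · rw [hsr]; exact hfi i
    rw [e1, e3]
    simp only [e2]
    ring
  have hne : ∀ x ∈ g'.Ke α F', x (.inl none) = 0 := fun x hx =>
    (mem_Ke.1 hx).1 _ fun h => h1 h.2
  let L : g'.Ke α F' →ₗ[ZMod 2] g.Ke α F :=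
    { toFun := fun x => ⟨fun w => x.1 (sm w), mem_Ke.2 ⟨fun v hv => (mem_Ke.1 x.2).1 _ fun h =>
        hv ⟨(hFs v).1 h.1, (hAs v).1 h.2⟩, fun v hv ha => by
          rw [← hrow x.1 v (hne x.1 x.2)]
          exact (mem_Ke.1 x.2).2 _ ((hFs v).2 hv) ((hAs v).2 ha)⟩⟩
      map_add' := fun x y => rfl
      map_smul' := fun c x => rfl }
  have hbij : Function.Bijective L := by
    constructor
    · intro x y hxy
      refine Subtype.ext (funext fun v => ?_)
      rcases hcase v with rfl | ⟨w, rfl⟩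
      · rw [hne x.1 x.2, hne y.1 y.2]
      · exact congrFun (congrArg Subtype.val hxy) w
    · intro y
      obtain ⟨x, hx, hx0⟩ : ∃ x : Option U ⊕ I → ZMod 2, (∀ w, x (sm w) = y.1 w) ∧
          x (.inl none) = 0 := by
        refine ⟨fun v => Sum.elim (fun o : Option U => o.elim 0 fun u => y.1 (.inl u))
          (fun i => y.1 (.inr i)) v, ?_, rfl⟩
        rintro (u | i)
        · rw [hsl]; rfl
        · rw [hsr]; rfl
      obtain ⟨k1, k2⟩ := mem_Ke.1 y.2
      have he : (fun w => x (sm w)) = y.1 := funext hx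
      refine ⟨⟨x, mem_Ke.2 ⟨fun v hv => ?_, fun v hv ha => ?_⟩⟩, Subtype.ext he⟩
      · rcases hcase v with rfl | ⟨w, rfl⟩
        · exact hx0
        · rw [hx]
          exact k1 w fun h => hv ⟨(hFs w).2 h.1, (hAs w).2 h.2⟩
      · rcases hcase v with rfl | ⟨w, rfl⟩
        · exact absurd ha h1
        · rw [hrow x w hx0, he]
          exact k2 w ((hFs w).1 hv) ((hAs w).1 ha)
  unfold Gr.co
  exact (LinearEquiv.ofBijective L hbij).finrank_eq

end opt

section
variable {N M : Type} [Fintype N] [Fintype M] {ι : Type} [Fintype ι] {Φ : Fam} {f g : ℕ → ZMod 2}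
  {J1 : Finset ι} {S₀ W : Finset ℕ} {p q : ι → ℕ}

/-- the diagonal of the forms with coefficient `c` -/
def fh (f g : ℕ → ZMod 2) (c : ZMod 2) (p : ℕ) : ZMod 2 := f p + c * g p

/-- the law for the tuples of subsets of `S` -/
def TT3 (Φ : Fam) (f g : ℕ → ZMod 2) (e : M → N → ZMod 2) (h : M → ZMod 2) (Nn : M → Finset ℕ)
    (par : ℕ → ZMod 2) (ε : ℝ) (S : Finset ℕ) : Prop :=
  ∀ R : Set (M → ℕ), |(((Tp N par S).filter fun d => (fun j => rk Φ (fh f g (h j)) (Fs e Nn d j)) ∈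
    R).card : ℝ) / ((Tp N par S).card : ℝ) - ∑' r : R, ∏ j, al (r.1 j)| ≤ ε

/-- the system with the additional index -/
noncomputable def gr3 (Φ : Fam) (f g : ℕ → ZMod 2) (J1 : Finset ι) (V : Finset ℕ) (q : ι → ℕ) :
    Gr (Option ↥V) ι where
  aU o := o.elim False fun u => Φ.A u
  aI i := i ∈ J1
  ν o o' := o.elim 0 fun u => o'.elim (g u) fun v => nr u v
  lb i o := o.elim (g (q i)) fun u => nr (q i) u
  fU o := o.elim 0 fun u => f u
  fI i := f (q i)
  sym o o' ho ho' := by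
    rcases o with _ | u <;> rcases o' with _ | v
    · exact absurd ho id
    · exact absurd ho id
    · exact absurd ho' id
    · have hu : Φ.A (u : ℕ) := ho
      have hv : Φ.A (v : ℕ) := ho'
      exact nr_symm (Φ.hA _ hu).1 (Φ.hA _ hu).2 (Φ.hA _ hv).1 (Fam.ne_two (Or.inl hv))

/-- the masks -/
noncomputable def mk3 (h : M → ZMod 2) (Nn : M → Finset ℕ) (V : Finset ℕ) : M → Option ↥V → ZMod 2 :=
  fun j o => o.elim (h j) fun u => ind (Nn j) u

/-- the extension of the patterns -/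
def ex {V : Finset ℕ} (τ : ↥V → N → ZMod 2) : Option ↥V → N → ZMod 2 := fun o => o.elim 0 τ

/-- the extension of the tuples -/
def ex2 {V : Finset ℕ} (τ : (↥V → N → ZMod 2) × (ι → N → ZMod 2)) :
    (Option ↥V → N → ZMod 2) × (ι → N → ZMod 2) := (ex τ.1, τ.2)

theorem ex_inj {V : Finset ℕ} : Function.Injective (ex : (↥V → N → ZMod 2) → _) := by
  intro a b hab
  funext u
  exact congrFun hab (some u)

theorem ex2_inj {V : Finset ℕ} :
    Function.Injective (ex2 : (↥V → N → ZMod 2) × (ι → N → ZMod 2) → _) := by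
  intro a b hab
  exact Prod.ext (ex_inj (congrArg Prod.fst hab)) (congrArg (fun z => z.2) hab)

/-- the tuples -/
noncomputable def TA3 (N : Type) [Fintype N] (par : ℕ → ZMod 2) (S₀ V : Finset ℕ) (q : ι → ℕ) :
    Finset ((Option ↥V → N → ZMod 2) × (ι → N → ZMod 2)) := (TA N par S₀ V q).image ex2

theorem card_TA3 (par : ℕ → ZMod 2) (V : Finset ℕ) :
    (TA3 N par S₀ V q).card = (TA N par S₀ V q).card := card_image_of_injective _ ex2_inj

theorem filter_TA3 (par : ℕ → ZMod 2) (V : Finset ℕ)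
    (Q : (Option ↥V → N → ZMod 2) × (ι → N → ZMod 2) → Prop) :
    ((TA3 N par S₀ V q).filter Q).card = ((TA N par S₀ V q).filter fun τ => Q (ex2 τ)).card := by
  unfold TA3
  rw [Finset.filter_image, card_image_of_injective _ ex2_inj]

theorem TA3_ne (par : ℕ → ZMod 2) (V : Finset ℕ) : (TA3 N par S₀ V q).Nonempty :=
  (TA_ne par S₀ V q).image _

theorem TA3_fib (par : ℕ → ZMod 2) (V : Finset ℕ) (τ : Option ↥V → N → ZMod 2)
    (h : ∃ t, (τ, t) ∈ TA3 N par S₀ V q) :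
    Fintype.card (ι → N → ZMod 2) ≤ 2 ^ Fintype.card N *
      (univ.filter fun t : ι → N → ZMod 2 => (τ, t) ∈ TA3 N par S₀ V q).card := by
  obtain ⟨t, ht⟩ := h
  obtain ⟨σ, hσ, he⟩ := mem_image.1 ht
  have h1 : ex σ.1 = τ := congrArg Prod.fst he
  have h2 : ∀ t', (τ, t') ∈ TA3 N par S₀ V q ↔ (σ.1, t') ∈ TA N par S₀ V q := by
    intro t'
    constructor
    · intro h
      obtain ⟨σ', hσ', he'⟩ := mem_image.1 h
      have h3 : σ' = (σ.1, t') := ex2_inj (by
        rw [he']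
        show (τ, t') = (ex σ.1, t')
        rw [h1])
      rw [← h3]
      exact hσ'
    · intro h
      refine mem_image.2 ⟨_, h, ?_⟩
      show (ex σ.1, t') = _
      rw [h1]
  have h4 := TA_fib (q := q) (S₀ := S₀) par V σ.1 ⟨σ.2, hσ⟩
  refine h4.trans (le_of_eq ?_)
  congr 1
  exact fcc fun t' _ => (h2 t').symm

theorem lb2_nr (hl : ∀ i, lb2 f g (S₀ ∪ W) (p i) = lb2 f g (S₀ ∪ W) (q i)) (i : ι)
    (u : ↥(S₀ ∪ W)) : nr (p i) u = nr (q i) u := congrFun (congrArg (fun z => z.2.1) (hl i)) u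

theorem lb2_f (hl : ∀ i, lb2 f g (S₀ ∪ W) (p i) = lb2 f g (S₀ ∪ W) (q i)) (i : ι) :
    f (p i) = f (q i) := congrArg (fun z => z.2.2.1) (hl i)

theorem lb2_g (hl : ∀ i, lb2 f g (S₀ ∪ W) (p i) = lb2 f g (S₀ ∪ W) (q i)) (i : ι) :
    g (p i) = g (q i) := congrArg (fun z => z.2.2.2) (hl i)

theorem lb2_fh (hl : ∀ i, lb2 f g (S₀ ∪ W) (p i) = lb2 f g (S₀ ∪ W) (q i)) (c : ZMod 2) (i : ι) :
    lb (fh f g c) (S₀ ∪ W) (p i) = lb (fh f g c) (S₀ ∪ W) (q i) := by
  have h1 := congrArg (fun z => z.1) (hl i)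
  have h2 := congrArg (fun z => z.2.1) (hl i)
  refine Prod.ext h1 (Prod.ext h2 ?_)
  show fh f g c (p i) = fh f g c (q i)
  unfold fh
  rw [lb2_f hl i, lb2_g hl i]

/-- **The coranks.** -/
theorem rk_dd3 (hp : Tu Φ J1 (S₀ ∪ W) p)
    (hl : ∀ i, lb2 f g (S₀ ∪ W) (p i) = lb2 f g (S₀ ∪ W) (q i)) {X : ι → ι → ZMod 2}
    (hX : ∀ i ∈ J1, ∀ l, X i l + X l i = nr (p i) (p l)) (e : M → N → ZMod 2) (h : M → ZMod 2)
    {Nn : M → Finset ℕ}
    (hN : ∀ j, Nn j ⊆ W) (τ : (↥(S₀ ∪ W) → N → ZMod 2) × (ι → N → ZMod 2))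
    (h0 : ∀ u : ↥(S₀ ∪ W), (u : ℕ) ∉ S₀ → τ.1 u = 0) (j : M) :
    rk Φ (fh f g (h j)) (Fs e Nn (dd S₀ (S₀ ∪ W) p τ) j) =
      (gr3 Φ f g J1 (S₀ ∪ W) q).co X (FF e (bb e (mk3 h Nn (S₀ ∪ W)) (ex2 τ).1) (ex2 τ).2 j) := by
  rw [rk_dd hp (lb2_fh hl (h j)) hX e hN τ h0 j]
  symm
  have hz : ∀ z : ZMod 2, z = if z = 1 then 1 else 0 := by decide
  have hb0 : bb e (mk3 h Nn (S₀ ∪ W)) (ex τ.1) j none ↔ h j = 1 := by
    show h j + ∑ i, e j i * (0 : N → ZMod 2) i = 1 ↔ _
    have : ∑ i, e j i * (0 : N → ZMod 2) i = 0 := sum_eq_zero fun i _ => by simp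
    rw [this, add_zero]
  refine co_opt _ _ (h j) _ _ X ?_ ?_ ?_ ?_ ?_ ?_ ?_ ?_ ?_ ?_
  · exact id
  · exact fun u => Iff.rfl
  · exact fun i => Iff.rfl
  · exact fun u => Iff.rfl
  · exact fun i => Iff.rfl
  · refine (hz (h j)).trans ?_
    refine if_congr ?_ rfl rfl
    exact hb0.symm
  · exact fun u v => rfl
  · exact fun i u => rfl
  · exact fun u => rfl
  · exact fun i => rfl

/-- the conditions of the separation -/
def w3 (Φ : Fam) (g : ℕ → ZMod 2) (h : M → ZMod 2) (Nn : M → Finset ℕ) (j l : M) (p : ℕ) : Prop :=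
  Φ.A p ∧ (h j + h l) * g p + ∑ u ∈ symmDiff (Nn j) (Nn l), nr p u ≠ 0

/-- the pairs of forms with the same exponent -/
def Kp (e : M → N → ZMod 2) : Type := {y : M × M // y.1 ≠ y.2 ∧ e y.1 = e y.2}

noncomputable instance (e : M → N → ZMod 2) : Fintype (Kp e) := by
  unfold Kp
  infer_instance

/-- the conditions -/
def wk (Φ : Fam) (g : ℕ → ZMod 2) (e : M → N → ZMod 2) (h : M → ZMod 2) (Nn : M → Finset ℕ)
    (k : Kp e) (p : ℕ) : Prop := w3 Φ g h Nn k.1.1 k.1.2 p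

/-- the regularity -/
theorem rgg3 {W' : Finset ℕ} (hsub : W ⊆ W') (hc : (S₀ ∪ W).card + 1 ≤ (S₀ ∪ W').card)
    (ht : Tu Φ J1 (S₀ ∪ W) q) {A R : ℕ} (h : Rg Φ A R W' S₀ (univ.image q)) :
    Rgg (gr3 Φ f g J1 (S₀ ∪ W) q) A R := by
  obtain ⟨h1, h2, h3⟩ := h
  have hA : ∀ i, Φ.A (q i) ↔ i ∈ J1 := fun i => (ht.2 i).2.2.symm
  have hc' : Fintype.card (Option ↥(S₀ ∪ W)) ≤ (S₀ ∪ W').card := by
    rw [Fintype.card_option, Fintype.card_coe]
    exact hc
  have hm : A * Fintype.card (Option ↥(S₀ ∪ W)) + R ≤ A * (S₀ ∪ W').card + R :=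
    Nat.add_le_add_right (Nat.mul_le_mul_left _ hc') _
  refine ⟨fun w hw hwA => ?_, ?_, ?_⟩
  · have hnone : none ∉ w := fun h => hwA none h
    obtain ⟨w', hw'⟩ : ∃ w' : Finset ↥(S₀ ∪ W), w' = univ.filter fun u => some u ∈ w := ⟨_, rfl⟩
    have hmem : ∀ u, u ∈ w' ↔ some u ∈ w := fun u => by
      rw [hw', mem_filter]
      exact and_iff_right (mem_univ _)
    have hne : w'.Nonempty := by
      obtain ⟨o, ho⟩ := hw
      rcases o with _ | u
      · exact absurd ho hnone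
      · exact ⟨u, (hmem u).2 ho⟩
    have hsum : ∀ φ : Option ↥(S₀ ∪ W) → ZMod 2, ∑ o ∈ w, φ o = ∑ u ∈ w', φ (some u) := by
      intro φ
      symm
      refine Finset.sum_bij (fun u _ => some u) (fun u hu => (hmem u).1 hu)
        (fun a _ b _ h => Option.some_injective _ h) (fun o ho => ?_) fun _ _ => rfl
      rcases o with _ | u
      · exact absurd ho hnone
      · exact ⟨u, (hmem u).2 ho, rfl⟩
    have h4 := h1 (w'.image Subtype.val) (fun x hx => by
      obtain ⟨u, -, rfl⟩ := mem_image.1 hx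
      exact union_subset_union_right hsub u.2) (hne.image _) (fun x hx => by
      obtain ⟨u, hu, rfl⟩ := mem_image.1 hx
      exact hwA (some u) ((hmem u).1 hu))
    rw [Q155.NL.card_lab ht.1] at h4
    refine hm.trans (h4.trans (le_of_eq (fcc fun i _ => ?_)))
    rw [Finset.sum_image fun a _ b _ h => Subtype.val_injective h, hA i,
      hsum fun o => (gr3 Φ f g J1 (S₀ ∪ W) q).lb i o]
    exact Iff.rfl
  · rw [Q155.NL.card_lab ht.1] at h2
    exact hm.trans (h2.trans (le_of_eq (fcc fun i _ => hA i)))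
  · rw [Q155.NL.card_lab ht.1] at h3
    exact hm.trans (h3.trans (le_of_eq (fcc fun i _ => by
      rw [hA i]
      exact Iff.rfl)))

/-- the separation -/
theorem spp3 {W' : Finset ℕ} (hc : (S₀ ∪ W).card + 1 ≤ (S₀ ∪ W').card)
    (ht : Tu Φ J1 (S₀ ∪ W) q) {e : M → N → ZMod 2} {h : M → ZMod 2} {Nn : M → Finset ℕ}
    (hN : ∀ j, Nn j ⊆ W) {A R : ℕ} (hR : Rg3 Φ A R (wk Φ g e h Nn) W' S₀ (univ.image q)) :
    Spp (gr3 Φ f g J1 (S₀ ∪ W) q) e (mk3 h Nn (S₀ ∪ W)) A R := by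
  intro j l hjl hel
  have h1 : _ ≤ ((univ.image q).filter fun p => w3 Φ g h Nn j l p).card :=
    hR.2 (⟨(j, l), hjl, hel⟩ : Kp e)
  have hA : ∀ i, Φ.A (q i) ↔ i ∈ J1 := fun i => (ht.2 i).2.2.symm
  have hc' : Fintype.card (Option ↥(S₀ ∪ W)) ≤ (S₀ ∪ W').card := by
    rw [Fintype.card_option, Fintype.card_coe]
    exact hc
  have hm : A * Fintype.card (Option ↥(S₀ ∪ W)) + R ≤ A * (S₀ ∪ W').card + R :=
    Nat.add_le_add_right (Nat.mul_le_mul_left _ hc') _
  rw [Q155.NL.card_lab ht.1] at h1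
  refine hm.trans (h1.trans (le_of_eq (fcc fun i _ => ?_)))
  have h2 : ∑ u : ↥(S₀ ∪ W), (ind (Nn j) u + ind (Nn l) u) * nr (q i) u =
      ∑ u ∈ symmDiff (Nn j) (Nn l), nr (q i) u := by
    have h3 : ∑ u : ↥(S₀ ∪ W), (ind (Nn j) u + ind (Nn l) u) * nr (q i) u =
        ∑ u ∈ S₀ ∪ W, ind (symmDiff (Nn j) (Nn l)) u * nr (q i) u := by
      rw [← Finset.sum_coe_sort (S₀ ∪ W)]
      refine sum_congr rfl fun u _ => ?_
      rw [ind_add]
    rw [h3]
    have h4 : symmDiff (Nn j) (Nn l) ⊆ S₀ ∪ W := by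
      intro u hu
      rcases mem_symmDiff.1 hu with h | h
      · exact mem_union_right _ (hN j h.1)
      · exact mem_union_right _ (hN l h.1)
    rw [← sum_subset h4 fun u _ hu => by rw [ind_not hu, zero_mul]]
    exact sum_congr rfl fun u hu => by rw [ind_mem hu, one_mul]
  have h6 : ∑ o, (mk3 h Nn (S₀ ∪ W) j o + mk3 h Nn (S₀ ∪ W) l o) *
      (gr3 Φ f g J1 (S₀ ∪ W) q).lb i o =
      (h j + h l) * g (q i) + ∑ u ∈ symmDiff (Nn j) (Nn l), nr (q i) u := by
    rw [Fintype.sum_option, ← h2]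
    rfl
  have h5 : (gr3 Φ f g J1 (S₀ ∪ W) q).aI i ↔ Φ.A (q i) := (hA i).symm
  unfold w3
  rw [h5, h6]

/-- the regularity depends on the labels only -/
theorem labV3 (Φ : Fam) (f g : ℕ → ZMod 2) (A R : ℕ) (e : M → N → ZMod 2) (h : M → ZMod 2)
    {Nn : M → Finset ℕ} (hN : ∀ j, Nn j ⊆ W) :
    LabV Φ f g (Rg3 Φ A R (wk Φ g e h Nn) (insert 2 W)) W := by
  intro ι _ J1 S₀ p q hS hp hq hl hR
  have hA : ∀ i, Φ.A (q i) ↔ Φ.A (p i) := fun i => ((hq.2 i).2.2).symm.trans (hp.2 i).2.2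
  obtain ⟨⟨h1, h2, h3⟩, h4⟩ := hR
  have hnr : ∀ i, ∀ u ∈ S₀ ∪ W, nr (p i) u = nr (q i) u := fun i u hu => lb2_nr hl i ⟨u, hu⟩
  refine ⟨⟨fun w hw hne hwA => ?_, ?_, ?_⟩, fun k => ?_⟩
  · have h5 := h1 w hw hne hwA
    rw [Q155.NL.card_lab hp.1] at h5
    rw [Q155.NL.card_lab hq.1]
    refine h5.trans (le_of_eq (fcc fun i _ => ?_))
    have h6 : ∑ u ∈ w, nr (p i) u = ∑ u ∈ w, nr (q i) u := by
      refine sum_congr rfl fun u hu => hnr i u ?_
      rcases mem_union.1 (hw hu) with h7 | h7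
      · exact mem_union_left _ h7
      · rcases mem_insert.1 h7 with h8 | h8
        · exact absurd h8 (Fam.ne_two (Or.inl (hwA u hu)))
        · exact mem_union_right _ h8
    rw [hA i, h6]
  · rw [Q155.NL.card_lab hp.1] at h2
    rw [Q155.NL.card_lab hq.1]
    exact h2.trans (le_of_eq (fcc fun i _ => (hA i).symm))
  · rw [Q155.NL.card_lab hp.1] at h3
    rw [Q155.NL.card_lab hq.1]
    exact h3.trans (le_of_eq (fcc fun i _ => by rw [hA i]))
  · have h5 := h4 k
    rw [Q155.NL.card_lab hp.1] at h5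
    rw [Q155.NL.card_lab hq.1]
    refine h5.trans (le_of_eq (fcc fun i _ => ?_))
    unfold wk w3
    have h6 : ∑ u ∈ symmDiff (Nn k.1.1) (Nn k.1.2), nr (p i) u =
        ∑ u ∈ symmDiff (Nn k.1.1) (Nn k.1.2), nr (q i) u := by
      refine sum_congr rfl fun u hu => hnr i u (mem_union_right _ ?_)
      rcases mem_symmDiff.1 hu with h | h
      · exact hN _ h.1
      · exact hN _ h.1
    rw [hA i, h6, lb2_g hl i]

end

end Q283.LP
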