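import Pool.Agent.Q283.LP.V3

/-!
# Project LP (helper283), third version: the local statement and almost all members of the class
-/

set_option autoImplicit false
set_option linter.unusedSectionVars false
set_option linter.unusedVariables false

open scoped Classical

namespace Q283.LP

open Finset Module Filter
open Q283.GM (Fam Kr rk mem_Kr nr_symm Ok SS HM)
open Pool.Agent.Y703.CQ (nr prs)
open Q155.NL (Tu lb xt xt_add φp φp_surj Rg RN Loc LabN Cl Alm cnt cs mem_cs cnt_SS alm_mono alm_of_tendsto)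
open Q283.GS (al)
open Pool.Agent.Q1.PT (avg avg_hom)

section
variable {N M : Type} [Fintype N] [Fintype M]

/-- **The local statement.** -/
theorem locL3 (hSEC : SECd) (hTV : S_TV)
    (Φ : Fam) (f g₀ : ℕ → ZMod 2) {e : M → N → ZMod 2} {h : M → ZMod 2}
    (he0 : ∀ j, e j ≠ 0) {Nn : M → Finset ℕ} {W : Finset ℕ} (hN : ∀ j, Nn j ⊆ W)
    (h2 : 2 ∉ W) {par : ℕ → ZMod 2}
    (hpar : ∀ p q, (Φ.A p ↔ Φ.A q) → f p = f q → g₀ p = g₀ q → Φ.P p → Φ.P q → par p = par q)
    {ε ε' : ℝ} (hε : 0 < ε) (hε' : 0 < ε') :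
    ∃ A R : ℕ, LocV Φ f g₀ (Rg3 Φ A R (wk Φ g₀ e h Nn) (insert 2 W)) (TT3 Φ f g₀ e h Nn par ε) W ε' := by
  obtain ⟨B, ε₁, hε₁, hB⟩ := hTV M ε hε
  obtain ⟨δ, hδ⟩ : ∃ δ : ℝ, δ = ε' * ε₁ ^ 2 / ((B + 1 : ℕ) : ℝ) ^ Fintype.card M := ⟨_, rfl⟩
  have hBp : (0 : ℝ) < ((B + 1 : ℕ) : ℝ) ^ Fintype.card M := by positivity
  have hδ0 : 0 < δ := by
    rw [hδ]
    positivity
  obtain ⟨A, R, hAR⟩ := hSEC N M e he0 (2 ^ Fintype.card N) δ hδ0
  refine ⟨A, R, ?_⟩
  intro ι _ _ J1 S₀ q hS ht hRg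
  have hcV : (S₀ ∪ W).card + 1 ≤ (S₀ ∪ insert 2 W).card := by
    have h5 : 2 ∉ S₀ ∪ W := by
      rw [mem_union, not_or]
      exact ⟨fun h => Fam.ne_two (hS 2 h) rfl, h2⟩
    rw [← card_insert_of_notMem h5]
    exact card_le_card (insert_subset (mem_union_right _ (mem_insert_self _ _))
      (union_subset_union_right (subset_insert _ _)))
  obtain ⟨g, hg⟩ : ∃ g, g = gr3 Φ f g₀ J1 (S₀ ∪ W) q := ⟨_, rfl⟩
  obtain ⟨T, hT⟩ : ∃ T, T = TA3 N par S₀ (S₀ ∪ W) q := ⟨_, rfl⟩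
  have hTne : T.Nonempty := by
    rw [hT]
    exact TA3_ne par (S₀ ∪ W)
  have hsec := hAR _ _ g (mk3 h Nn (S₀ ∪ W)) T (by rw [hg]; exact rgg3 (subset_insert _ _) hcV ht hRg.1)
    (by rw [hg]; exact spp3 hcV ht hN hRg) hTne (by
    intro τ hτ
    rw [hT] at hτ ⊢
    exact TA3_fib par (S₀ ∪ W) τ hτ)
  have hTp : (0 : ℝ) < (T.card : ℝ) := by exact_mod_cast Finset.card_pos.2 hTne
  -- the property of the tables
  obtain ⟨Q, hQ⟩ : ∃ Q : (ι → ι → ZMod 2) → Prop, Q = fun X => ∀ Rs : Set (M → ℕ),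
      |((T.filter fun τ => (fun j => g.co X (FF e (bb e (mk3 h Nn (S₀ ∪ W)) τ.1) τ.2 j)) ∈ Rs).card : ℝ) /
        (T.card : ℝ) - ∑' r : Rs, ∏ j, al (r.1 j)| ≤ ε := ⟨_, rfl⟩
  refine ⟨fun α => Q (xt α), ?_, ?_⟩
  · -- the tables without the property
    have h1 : ∀ α : prs J1 → ZMod 2, ¬ Q (xt α) → ∃ r ∈ Fintype.piFinset fun _ : M => range (B + 1),
        ε₁ ^ 2 ≤ (shr g e (mk3 h Nn (S₀ ∪ W)) T r (xt α) - ∏ j, al (r j)) ^ 2 := by
      intro α hα
      by_contra hc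
      push Not at hc
      apply hα
      rw [hQ]
      have : Nonempty ↥T := hTne.to_subtype
      have h2 := hB ↥T (fun τ j => g.co (xt α) (FF e (bb e (mk3 h Nn (S₀ ∪ W)) τ.1.1) τ.1.2 j)) (by
        intro r hr
        have h3 := hc r (Fintype.mem_piFinset.2 fun j => mem_range.2 (by have := hr j; omega))
        have h4 := abs_lt_of_sq_lt_sq h3 hε₁.le
        unfold shr at h4
        have h5 : (univ.filter fun τ : ↥T => ∀ j,
            g.co (xt α) (FF e (bb e (mk3 h Nn (S₀ ∪ W)) τ.1.1) τ.1.2 j) = r j).card =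
            (T.filter fun τ => ∀ j,
            g.co (xt α) (FF e (bb e (mk3 h Nn (S₀ ∪ W)) τ.1) τ.2 j) = r j).card := by
          refine Finset.card_bij (fun τ _ => τ.1) (fun τ hτ => ?_) (fun a _ b _ h => Subtype.ext h)
            fun τ hτ => ?_
          · exact mem_filter.2 ⟨τ.2, (mem_filter.1 hτ).2⟩
          · obtain ⟨k1, k2⟩ := mem_filter.1 hτ
            exact ⟨⟨τ, k1⟩, mem_filter.2 ⟨mem_univ _, k2⟩, rfl⟩
        rw [h5, Fintype.card_coe]
        exact h4.le)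
      intro Rs
      have h3 := h2 Rs
      have h5 : (univ.filter fun τ : ↥T => (fun j =>
          g.co (xt α) (FF e (bb e (mk3 h Nn (S₀ ∪ W)) τ.1.1) τ.1.2 j)) ∈ Rs).card =
          (T.filter fun τ => (fun j =>
          g.co (xt α) (FF e (bb e (mk3 h Nn (S₀ ∪ W)) τ.1) τ.2 j)) ∈ Rs).card := by
        refine Finset.card_bij (fun τ _ => τ.1) (fun τ hτ => ?_) (fun a _ b _ h => Subtype.ext h)
          fun τ hτ => ?_
        · exact mem_filter.2 ⟨τ.2, (mem_filter.1 hτ).2⟩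
        · obtain ⟨k1, k2⟩ := mem_filter.1 hτ
          exact ⟨⟨τ, k1⟩, mem_filter.2 ⟨mem_univ _, k2⟩, rfl⟩
      rw [h5, Fintype.card_coe] at h3
      exact h3
    have h2 : (univ.filter fun α : prs J1 → ZMod 2 => ¬ Q (xt α)) ⊆
        (Fintype.piFinset fun _ : M => range (B + 1)).biUnion fun r =>
          univ.filter fun α : prs J1 → ZMod 2 =>
            ε₁ ^ 2 ≤ (shr g e (mk3 h Nn (S₀ ∪ W)) T r (xt α) - ∏ j, al (r j)) ^ 2 := by
      intro α hα
      obtain ⟨r, hr, h3⟩ := h1 α (mem_filter.1 hα).2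
      exact mem_biUnion.2 ⟨r, hr, mem_filter.2 ⟨mem_univ _, h3⟩⟩
    have h3 : ∀ r : M → ℕ, ((univ.filter fun α : prs J1 → ZMod 2 =>
        ε₁ ^ 2 ≤ (shr g e (mk3 h Nn (S₀ ∪ W)) T r (xt α) - ∏ j, al (r j)) ^ 2).card : ℝ) ≤
        δ / ε₁ ^ 2 * 2 ^ (prs J1).card := by
      intro r
      have h4 := Q155.NL.markov (Ω := prs J1 → ZMod 2)
        (h := fun α => (shr g e (mk3 h Nn (S₀ ∪ W)) T r (xt α) - ∏ j, al (r j)) ^ 2)
        (fun α => sq_nonneg _) (t := ε₁ ^ 2) (by positivity)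
      rw [avg_tb (J1 := J1) (fun X => (shr g e (mk3 h Nn (S₀ ∪ W)) T r X - ∏ j, al (r j)) ^ 2)
        (fun X X' hX => by
          have h5 : shr g e (mk3 h Nn (S₀ ∪ W)) T r X = shr g e (mk3 h Nn (S₀ ∪ W)) T r X' := by
            unfold shr
            congr 2
            refine fcc fun τ _ => forall_congr' fun j => ?_
            rw [co_congr g (α := X) (α' := X') _ (by rw [hg]; exact hX)]
          beta_reduce
          rw [h5])] at h4
      have h5 : Fintype.card (prs J1 → ZMod 2) = 2 ^ (prs J1).card := by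
        rw [Fintype.card_fun, ZMod.card, Fintype.card_coe]
      rw [h5] at h4
      push_cast at h4
      refine le_trans ?_ (h4.trans ?_)
      · exact le_of_eq (by norm_cast)
      · refine mul_le_mul_of_nonneg_right ?_ (by positivity)
        refine div_le_div_of_nonneg_right ?_ (by positivity)
        have h6 := hsec r
        exact (le_of_eq (Q155.NL.avg_inst _ _ _)).trans h6
    calc ((univ.filter fun α : prs J1 → ZMod 2 => ¬ Q (xt α)).card : ℝ)
        ≤ (((Fintype.piFinset fun _ : M => range (B + 1)).biUnion fun r =>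
          univ.filter fun α : prs J1 → ZMod 2 =>
            ε₁ ^ 2 ≤ (shr g e (mk3 h Nn (S₀ ∪ W)) T r (xt α) - ∏ j, al (r j)) ^ 2).card : ℝ) := by
          exact_mod_cast Finset.card_le_card h2
      _ ≤ ∑ r ∈ Fintype.piFinset fun _ : M => range (B + 1), ((univ.filter fun α : prs J1 → ZMod 2 =>
            ε₁ ^ 2 ≤ (shr g e (mk3 h Nn (S₀ ∪ W)) T r (xt α) - ∏ j, al (r j)) ^ 2).card : ℝ) := by
          exact_mod_cast Finset.card_biUnion_le
      _ ≤ ∑ r ∈ Fintype.piFinset fun _ : M => range (B + 1), δ / ε₁ ^ 2 * 2 ^ (prs J1).card :=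
          Finset.sum_le_sum fun r _ => h3 r
      _ = ε' * 2 ^ (prs J1).card := by
          have h6 : (Fintype.piFinset fun _ : M => range (B + 1)).card = (B + 1) ^ Fintype.card M := by
            rw [Fintype.card_piFinset]
            simp
          rw [Finset.sum_const, h6, nsmul_eq_mul, hδ]
          push_cast at hBp ⊢
          field_simp
  · -- the property of the primes
    intro p hp hl hQp
    rw [hQ] at hQp
    intro Rs
    have h1 := hQp Rs
    rw [hT, filter_TA3, card_TA3] at h1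
    have hd : ∀ l, p l ∉ S₀ ∪ W := fun l => (hp.2 l).2.1
    have hpq : ∀ l, par (q l) = par (p l) := fun l =>
      hpar _ _ ((ht.2 l).2.2.symm.trans (hp.2 l).2.2) (lb2_f hl l).symm (lb2_g hl l).symm (ht.2 l).1 (hp.2 l).1
    have hX : ∀ i ∈ J1, ∀ l, xt (fun e : prs J1 => nr (p e.1.1) (p e.1.2)) i l +
        xt (fun e : prs J1 => nr (p e.1.1) (p e.1.2)) l i = nr (p i) (p l) := by
      intro i hi l
      refine xt_add (fun i l => nr (p i) (p l)) (fun i hi l hl' => ?_) (fun i => ?_) hi l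
      · have hA := ((hp.2 i).2.2).1 hi
        have hB' := ((hp.2 l).2.2).1 hl'
        exact nr_symm (Φ.hA _ hA).1 (Φ.hA _ hA).2 (Φ.hA _ hB').1 (Fam.ne_two (Or.inl hB'))
      · exact Pool.Agent.Y657.CQ.nr_self _
    have h2 := card_TA (N := N) (S₀ := S₀) (V := S₀ ∪ W) (q := q) subset_union_left hp.1 hd par hpq
      (fun d => (fun j => rk Φ (fh f g₀ (h j)) (Fs e Nn d j)) ∈ Rs)
      (fun τ => (fun j => g.co (xt fun e : prs J1 => nr (p e.1.1) (p e.1.2))
        (FF e (bb e (mk3 h Nn (S₀ ∪ W)) (ex2 τ).1) (ex2 τ).2 j)) ∈ Rs) (by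
        intro τ hτ
        have h3 : (fun j => rk Φ (fh f g₀ (h j)) (Fs e Nn (dd S₀ (S₀ ∪ W) p τ) j)) = fun j =>
            g.co (xt fun e : prs J1 => nr (p e.1.1) (p e.1.2))
              (FF e (bb e (mk3 h Nn (S₀ ∪ W)) (ex2 τ).1) (ex2 τ).2 j) := by
          funext j
          rw [hg]
          exact rk_dd3 hp hl hX e h hN τ (mem_TA.1 hτ).1 j
        rw [h3])
    have h3 := card_TA (N := N) (S₀ := S₀) (V := S₀ ∪ W) (q := q) subset_union_left hp.1 hd par hpq
      (fun _ => True) (fun _ => True) (fun _ _ => Iff.rfl)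
    have e1 : ∀ {α : Type} (s : Finset α) (i : DecidablePred fun _ : α => True),
        (@Finset.filter _ (fun _ => True) i s).card = s.card := fun s i =>
      congrArg Finset.card (@Finset.filter_true_of_mem _ _ i _ fun _ _ => trivial)
    rw [e1, e1] at h3
    rw [h3] at h1
    have h4 : ((TA N par S₀ (S₀ ∪ W) q).filter fun τ => (fun j =>
        g.co (xt fun e : prs J1 => nr (p e.1.1) (p e.1.2))
          (FF e (bb e (mk3 h Nn (S₀ ∪ W)) (ex2 τ).1) (ex2 τ).2 j)) ∈ Rs).card =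
        ((Tp N par (S₀ ∪ univ.image p)).filter fun d =>
          (fun j => rk Φ (fh f g₀ (h j)) (Fs e Nn d j)) ∈ Rs).card := by
      refine Eq.trans ?_ h2
      exact fcc fun _ _ => Iff.rfl
    refine le_trans (le_of_eq ?_) h1
    congr 3
    refine congrArg Nat.cast ?_
    refine Eq.trans ?_ (h4.symm.trans ?_)
    · exact fcc fun _ _ => Iff.rfl
    · exact fcc fun _ _ => Iff.rfl

/-- **Almost all members of the class.** -/
theorem alm_TT3 (hSEC : SECd) (hTV : S_TV) (Φ : Fam) {δ : ℝ} (hΦ : Ok Φ δ)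
    (f g : ℕ → ZMod 2) {e : M → N → ZMod 2} {h : M → ZMod 2} (he0 : ∀ j, e j ≠ 0)
    {Nn : M → Finset ℕ} (hN : ∀ j, ∀ p ∈ Nn j, p.Prime ∧ p ≠ 2)
    (hHM : ∀ j l, j ≠ l → e j = e l → HM (w3 Φ g h Nn j l))
    {par : ℕ → ZMod 2}
    (hpar : ∀ p q, (Φ.A p ↔ Φ.A q) → f p = f q → g p = g q → Φ.P p → Φ.P q → par p = par q)
    {ε : ℝ} (hε : 0 < ε) : Alm (Cl Φ) fun D => TT3 Φ f g e h Nn par ε D.primeFactors := by
  obtain ⟨W, hW⟩ : ∃ W : Finset ℕ, W = univ.biUnion Nn := ⟨_, rfl⟩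
  have hWp : ∀ u ∈ W, u.Prime ∧ u ≠ 2 := by
    intro u hu
    rw [hW, mem_biUnion] at hu
    obtain ⟨j, -, hj⟩ := hu
    exact hN j u hj
  have h2W : 2 ∉ W := fun h => (hWp 2 h).2 rfl
  have hNW : ∀ j, Nn j ⊆ W := fun j => by
    rw [hW]
    exact subset_biUnion_of_mem Nn (mem_univ j)
  have h1 : Tendsto (fun X : ℕ => (((SS Φ X).filter (TT3 Φ f g e h Nn par ε)).card : ℝ) /
      ((SS Φ X).card : ℝ)) atTop (nhds 1) := by
    refine asy3 hΦ (W := insert 2 W) (w := wk Φ g e h Nn) (fun u hu => ?_)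
      (fun k p hp => Or.inl hp.1) (fun k => hHM _ _ k.2.1 k.2.2) ?_
    · rcases mem_insert.1 hu with h | h
      · rw [h]
        exact Nat.prime_two
      · exact (hWp u h).1
    · intro ε' hε'
      obtain ⟨A, R, h⟩ := locL3 hSEC hTV Φ f g (h := h) he0 hNW h2W hpar hε hε'
      exact ⟨A, R, boxV hε'.le (labV3 Φ f g A R e _ hNW) h (subset_insert _ _)
        (mem_insert_self _ _) h2W⟩
  have h2 : ∀ X : ℕ, cnt (Cl Φ) X = (SS Φ X).card := by
    intro X
    have h3 := cnt_SS Φ X fun _ => True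
    have h4 : ∀ i : DecidablePred (fun _ : Finset ℕ => True),
        (@Finset.filter _ (fun _ => True) i (SS Φ X)).card = (SS Φ X).card := fun i =>
      congrArg Finset.card (@Finset.filter_true_of_mem _ _ i _ fun _ _ => trivial)
    rw [h4] at h3
    rw [← h3]
    unfold cnt
    congr 1
    ext D
    rw [mem_cs, mem_cs]
    tauto
  refine alm_of_tendsto ?_
  refine h1.congr fun X => ?_
  rw [← cnt_SS, h2]

end

end Q283.LP
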