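import Pool.Agent.Q283.LP.V4
import Pool.Agent.Q283.LP.Fin
import Pool.Agent.Q283.J2.Field

/-!
# Project LP (helper283), third version: one set of integers for all families of forms, for two diagonals;
the classes for the curves `X_0(14)` and `X_0(49)`
-/

set_option autoImplicit false
set_option linter.unusedSectionVars false
set_option linter.unusedVariables false

open scoped Classical

namespace Q283.LP

open Finset Module Filter
open Q283.GM (Fam rk RC HM Ok mem_Kr Kr)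
open Pool.Agent.Y703.CQ (nr prs Sp cu Sol Gd)
open Q155.NL (Cl Alm cnt cs mem_cs alm_mono exists_dense alm_and)
open Q283.GS (al)
open Q283.J2 (CK fk In5 Cls RZ)
open Pool.Agent.Y687.JQ (fD CL CL_iff)
open Q283.XF (nf)

/-- the bases which are allowed for the two diagonals, with the analytic separation -/
structure Bas (Φ : Fam) (g : ℕ → ZMod 2) (Bs : ZMod 2 → Finset ℕ → Prop) : Prop where
  pr : ∀ c B, Bs c B → ∀ p ∈ B, p.Prime ∧ p ≠ 2
  sep : ∀ c c' B B', Bs c B → Bs c' B' → (c = c' → B ≠ B') →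
    HM fun p => Φ.A p ∧ (c + c') * g p + ∑ u ∈ symmDiff B B', nr p u ≠ 0

/-- the forms of a family are different -/
def Dst3 {M n : ℕ} (Nn : Fin M → Finset ℕ) (e : Fin M → Fin n → ZMod 2) (h : Fin M → ZMod 2) : Prop :=
  ∀ j l, j ≠ l → e j = e l → h j = h l → Nn j ≠ Nn l

/-- **One set for all families.** -/
theorem mainV (ρ : RC) (f g par : ℕ → ZMod 2)
    (hpar : ∀ p q, (ρ.Φ.A p ↔ ρ.Φ.A q) → f p = f q → g p = g q → ρ.Φ.P p → ρ.Φ.P q → par p = par q)
    (Bs : ZMod 2 → Finset ℕ → Prop) (hBs : Bas ρ.Φ g Bs) :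
    ∃ S : ℕ → Prop, Alm (fun _ => True) S ∧ Alm (Cl ρ.Φ) S ∧
    ∀ (M n : ℕ) (Nn : Fin M → Finset ℕ) (e : Fin M → Fin n → ZMod 2) (h : Fin M → ZMod 2),
      (∀ j, Bs (h j) (Nn j)) → (∀ j, e j ≠ 0) → Dst3 Nn e h →
      ∀ ε : ℝ, 0 < ε → ∀ᶠ D in atTop, S D → TT3 ρ.Φ f g e h Nn par ε (prt ρ.Φ D).primeFactors := by
  -- the countable index type
  obtain ⟨G, hG⟩ := exists_surjective_nat
    (Σ (M : ℕ) (n : ℕ), (Fin M → Finset ℕ) × (Fin M → Fin n → ZMod 2) × (Fin M → ZMod 2) × ℕ)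
  obtain ⟨T, hT⟩ : ∃ T : ℕ → ℕ → Prop, T = fun i D =>
    ((∀ j, Bs ((G i).2.2.2.2.1 j) ((G i).2.2.1 j)) → (∀ j, (G i).2.2.2.1 j ≠ 0) →
      Dst3 (G i).2.2.1 (G i).2.2.2.1 (G i).2.2.2.2.1 →
      TT3 ρ.Φ f g (G i).2.2.2.1 (G i).2.2.2.2.1 (G i).2.2.1 par (1 / (((G i).2.2.2.2.2 : ℕ) + 1 : ℝ))
        (prt ρ.Φ D).primeFactors) := ⟨_, rfl⟩
  have h1 : ∀ i, Alm (Cl ρ.Φ) (T i) ∧ Alm (fun _ => True) (T i) := by
    intro i
    by_cases h : (∀ j, Bs ((G i).2.2.2.2.1 j) ((G i).2.2.1 j)) ∧ (∀ j, (G i).2.2.2.1 j ≠ 0) ∧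
      Dst3 (G i).2.2.1 (G i).2.2.2.1 (G i).2.2.2.2.1
    · obtain ⟨a1, a2, a3⟩ := h
      have h2 := alm_TT3 secdF Pool.Agent.Q222.LP.t_TV ρ.Φ ρ.ok f g (e := (G i).2.2.2.1)
        (h := (G i).2.2.2.2.1) a2 (Nn := (G i).2.2.1)
        (fun j p hp => hBs.pr _ _ (a1 j) p hp) (fun j l hjl hel => by
          exact hBs.sep _ _ _ _ (a1 j) (a1 l) fun hh => a3 j l hjl hel hh)
        hpar (ε := 1 / (((G i).2.2.2.2.2 : ℕ) + 1 : ℝ)) (by positivity)
      have h3 := Pool.Agent.Q222.LP.t_TR ρ _ h2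
      refine ⟨alm_mono h2 fun D hD h => ?_, alm_mono h3 fun D _ h => ?_⟩
      · rw [hT]
        intro _ _ _
        rw [prt_Cl _ hD]
        exact h
      · rw [hT]
        intro _ _ _
        exact h
    · have h2 : ∀ D, T i D := by
        intro D
        rw [hT]
        intro b1 b2 b3
        exact absurd ⟨b1, b2, b3⟩ h
      exact ⟨alm_mono (Q155.NL.alm_true _) fun D _ _ => h2 D,
        alm_mono (Q155.NL.alm_true _) fun D _ _ => h2 D⟩
  obtain ⟨S₁, hS₁, h11⟩ := exists_dense fun i => (h1 i).2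
  obtain ⟨S₂, hS₂, h12⟩ := exists_dense fun i => (h1 i).1
  refine ⟨fun D => S₁ D ∨ S₂ D, alm_mono hS₁ fun D _ h => Or.inl h,
    alm_mono hS₂ fun D _ h => Or.inr h, fun M n Nn e h hN he hd ε hε => ?_⟩
  obtain ⟨k, hk⟩ := exists_nat_one_div_lt hε
  obtain ⟨i, hi⟩ := hG ⟨M, n, Nn, e, h, k⟩
  filter_upwards [h11 i, h12 i] with D hD1 hD2 hSD
  have h3 : T i D := by
    rcases hSD with h | h
    · exact hD1 h
    · exact hD2 h
  rw [hT] at h3
  rw [hi] at h3
  intro R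
  exact (h3 hN he hd R).trans hk.le

/-! ### the two curves -/

/-- the residue classes -/
def r56 : RC where
  m := 56
  𝒜 := (range 56).filter fun a => a % 8 = 1 ∧ (a % 7 = 1 ∨ a % 7 = 2 ∨ a % 7 = 4)
  ℬ := (range 56).filter fun b => b % 8 = 5 ∧ (b % 7 = 3 ∨ b % 7 = 5 ∨ b % 7 = 6)
  h4 := by decide
  pos := by norm_num
  hA := by decide
  h1 := by decide
  hB := by decide
  hBn := by decide
  dis := by decide

theorem r56_A (p : ℕ) : r56.Φ.A p ↔ Sp p := by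
  show p.Prime ∧ p % 56 ∈ (range 56).filter
    (fun a => a % 8 = 1 ∧ (a % 7 = 1 ∨ a % 7 = 2 ∨ a % 7 = 4)) ↔ _
  rw [mem_filter, mem_range]
  unfold Sp
  have h1 : p % 56 % 8 = p % 8 := Nat.mod_mod_of_dvd p (by norm_num)
  have h2 : p % 56 % 7 = p % 7 := Nat.mod_mod_of_dvd p (by norm_num)
  rw [h1, h2]
  have h3 : p % 56 < 56 := Nat.mod_lt _ (by norm_num)
  tauto

theorem r56_B (p : ℕ) : r56.Φ.B p ↔ In5 p := by
  show p.Prime ∧ p % 56 ∈ (range 56).filter
    (fun a => a % 8 = 5 ∧ (a % 7 = 3 ∨ a % 7 = 5 ∨ a % 7 = 6)) ↔ _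
  rw [mem_filter, mem_range]
  unfold In5
  have h1 : p % 56 % 8 = p % 8 := Nat.mod_mod_of_dvd p (by norm_num)
  have h2 : p % 56 % 7 = p % 7 := Nat.mod_mod_of_dvd p (by norm_num)
  rw [h1, h2]
  have h3 : p % 56 < 56 := Nat.mod_lt _ (by norm_num)
  tauto

/-- the parity -/
def par5 (p : ℕ) : ZMod 2 := if p % 8 = 5 then 1 else 0

theorem hpar5 (f g : ℕ → ZMod 2) : ∀ p q, (r56.Φ.A p ↔ r56.Φ.A q) → f p = f q → g p = g q →
    r56.Φ.P p → r56.Φ.P q → par5 p = par5 q := by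
  intro p q h1 _ _ h3 h4
  unfold par5
  by_cases hp : r56.Φ.A p
  · have h5 := ((r56_A p).1 hp).2.1
    have h6 := ((r56_A q).1 (h1.1 hp)).2.1
    rw [if_neg (by omega), if_neg (by omega)]
  · have hq : ¬ r56.Φ.A q := fun h => hp (h1.2 h)
    have h5 := ((r56_B p).1 (h3.resolve_left hp)).2.1
    have h6 := ((r56_B q).1 (h4.resolve_left hq)).2.1
    rw [if_pos h5, if_pos h6]

/-- the kind of the curve, from the coefficient -/
def kd (c : ZMod 2) : Bool := decide (c = 1)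

/-- the coefficient of a curve -/
def ck (b : Bool) : ZMod 2 := if b then 1 else 0

theorem kd_ck (b : Bool) : kd (ck b) = b := by cases b <;> decide

theorem ck_kd (c : ZMod 2) : ck (kd c) = c := by revert c; decide

/-- the difference of the diagonals -/
noncomputable def gd (p : ℕ) : ZMod 2 := fD p + nf p

theorem fh_fk (c : ZMod 2) : fh fD gd c = fk (kd c) := by
  have h0 : ∀ z : ZMod 2, z = 0 ∨ z = 1 := by decide
  funext p
  unfold fh gd
  rcases h0 c with rfl | rfl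
  · rw [zero_mul, add_zero]
    rfl
  · rw [one_mul, ← add_assoc, CharTwo.add_self_eq_zero, zero_add]
    rfl

/-- from the conditions of project J2 -/
theorem hm_conv {w : ℕ → ZMod 2} (h : Q283.J2.HM w) : HM fun p => r56.Φ.A p ∧ w p ≠ 0 := by
  obtain ⟨C, hC⟩ := h
  have key : ∀ (s : Finset ℕ) (P Q : ℕ → Prop) (i1 : DecidablePred P) (i2 : DecidablePred Q),
      (∀ p, P p ↔ Q p) → @Finset.filter _ P i1 s = @Finset.filter _ Q i2 s := by
    intro s P Q i1 i2 h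
    ext p
    rw [mem_filter, mem_filter, h]
  refine ⟨1 / 17, C, by norm_num, fun y hy => (hC y hy).trans (le_of_eq ?_)⟩
  refine sum_congr (key _ _ _ _ _ fun p => ?_) fun _ _ => rfl
  show _ ↔ p.Prime ∧ r56.Φ.A p ∧ w p ≠ 0
  rw [r56_A]
  exact ⟨fun h => ⟨h.1.1, h⟩, fun h => h.2⟩

/-- the bases for the two curves -/
theorem basK : Bas r56.Φ gd fun c B => CK (kd c) B where
  pr c B h p hp := ⟨(h.ne27 p hp).1, (h.ne27 p hp).2.1⟩
  sep c c' B B' h h' hne := by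
    have he : ∀ r ∈ symmDiff B B', r.Prime ∧ r ≠ 2 ∧ r ≠ 7 := by
      intro r hr
      rcases Finset.mem_symmDiff.1 hr with h1 | h1
      · exact h.ne27 r h1.1
      · exact h'.ne27 r h1.1
    by_cases hc : c = c'
    · have h1 : (symmDiff B B').Nonempty := by
        rw [nonempty_iff_ne_empty]
        intro h2
        exact hne hc (symmDiff_eq_bot.1 h2)
      have h2 := hm_conv (Q283.J2.hm_same h1 he)
      rw [hc]
      refine (congrArg HM ?_).mp h2
      funext p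
      rw [CharTwo.add_self_eq_zero, zero_mul, zero_add]
    · have h0 : ∀ a b : ZMod 2, a ≠ b → a + b = 1 := by decide
      have h2 := hm_conv (Q283.J2.hm_mixed he)
      rw [h0 c c' hc]
      refine (congrArg HM ?_).mp h2
      funext p
      unfold gd
      have h3 : ∑ r ∈ symmDiff B B', nr p r + fD p + nf p =
          1 * (fD p + nf p) + ∑ u ∈ symmDiff B B', nr p u := by ring
      rw [h3]

end Q283.LP
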