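import Pool.Agent.Q283.LP.V5
import Pool.Agent.Q283.LP.X5

/-!
# Project LP (helper283), third version: the divisors of integers, for the two curves
-/

set_option autoImplicit false
set_option linter.unusedSectionVars false
set_option linter.unusedVariables false

open scoped Classical

namespace Q283.LP

open Finset Module Filter
open Q283.GM (Fam rk RC HM Ok mem_Kr Kr)
open Pool.Agent.Y703.CQ (nr prs Sp cu Sol Gd)
open Q155.NL (Cl Alm cnt cs mem_cs alm_mono exists_dense alm_and)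
open Q283.GS (al)
open Q283.NJ (wt)
open Q283.J2 (CK fk In5 Cls RZ rz_DD rz_sq CK_of_Cl DD_true)
open Pool.Agent.Y687 (DD)
open Pool.Agent.Y687.JQ (fD CL CL_iff DD_mul DD_ne)
open Q283.XF (nf)

/-! ### the criterion -/

theorem fin_Kr (Φ : Fam) (f : ℕ → ZMod 2) (S : Finset ℕ) : Module.Finite (ZMod 2) (Kr Φ f S) :=
  Pool.Agent.Q222.LP.fin_Kr Φ f S

/-- both say that the system has only the trivial solution -/
theorem gd_rk {Φ : Fam} {f : ℕ → ZMod 2} {S : Finset ℕ} (hS : ∀ p ∈ S, (Φ.A p ↔ p % 8 = 1)) :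
    Gd f S ↔ rk Φ f S = 0 := by
  rw [Pool.Agent.Q222.LP.rk_zero]
  constructor
  · intro h x hx
    obtain ⟨h1, h2⟩ := mem_Kr.1 hx
    have h3 : ∀ q ∈ S, cu x q = x q := by
      intro q hq
      unfold cu
      split_ifs with h8
      · rfl
      · exact (h1 q fun h' => h8 ((hS q hq).1 h'.2)).symm
    have h4 : Sol f S x := by
      intro p hp h8
      have h5 := h2 p hp ((hS p hp).2 h8)
      rw [← h5]
      congr 1
      exact sum_congr rfl fun q hq => by rw [h3 q hq]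
    funext p
    by_cases hp : p ∈ S ∧ Φ.A p
    · exact h x h4 p hp.1 ((hS p hp.1).1 hp.2)
    · exact h1 p hp
  · intro h x hx p hp h8
    have h1 : (fun q => if q ∈ S then cu x q else 0) ∈ Kr Φ f S := by
      rw [mem_Kr]
      constructor
      · intro q hq
        split_ifs with hqS
        · unfold cu
          rw [if_neg fun h8' => hq ⟨hqS, (hS q hqS).2 h8'⟩]
        · rfl
      · intro q hq hA
        have h8' := (hS q hq).1 hA
        have h5 := hx q hq h8'
        have h7 : cu x q = x q := by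
          unfold cu
          rw [if_pos h8']
        rw [if_pos hq, h7, ← h5]
        congr 1
        exact sum_congr rfl fun r hr => by rw [if_pos hr]
    have h2 := congrFun (h _ h1) p
    beta_reduce at h2
    rw [if_pos hp] at h2
    unfold cu at h2
    rw [if_pos h8] at h2
    exact h2

theorem CK_act {b : Bool} {S : Finset ℕ} (h : CK b S) : ∀ p ∈ S, (r56.Φ.A p ↔ p % 8 = 1) := by
  intro p hp
  rw [r56_A]
  refine ⟨fun h => h.2.1, fun h8 => ?_⟩
  cases b
  · rcases (CL_iff.1 h).1 p hp with h1 | h1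
    · exact h1
    · have := h1.2.2.1
      omega
  · rcases h p hp with h1 | h1
    · exact h1
    · have := h1.2.1
      omega

/-- **The criterion.** -/
theorem rz_rk {b : Bool} {S : Finset ℕ} (h : CK b S) : RZ b (DD S) ↔ rk r56.Φ (fk b) S = 0 := by
  rw [rz_DD h, gd_rk (CK_act h)]

/-! ### the class -/

theorem par5_sum (S : Finset ℕ) :
    ∑ p ∈ S, par5 p = 0 ↔ (S.filter fun p => p % 8 = 5).card % 2 = 0 := by
  have h : ∑ p ∈ S, par5 p = (((S.filter fun p => p % 8 = 5).card : ℕ) : ZMod 2) := by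
    unfold par5
    rw [Finset.sum_boole]
  rw [h, ZMod.natCast_eq_zero_iff]
  omega

theorem cls_iff {D : ℕ} : Cls D ↔ Squarefree D ∧ (∀ p ∈ D.primeFactors, r56.Φ.P p) ∧
    ∑ p ∈ D.primeFactors, par5 p = 0 := by
  rw [par5_sum]
  have hP : ∀ p, r56.Φ.P p ↔ Sp p ∨ In5 p := fun p => by
    unfold Fam.P
    rw [r56_A, r56_B]
  constructor
  · rintro ⟨h1, h2, h3, -⟩
    refine ⟨h1, fun p hp => ?_, h3⟩
    rw [hP]
    rcases h2 p hp with h4 | ⟨k1, k2, k3, k4⟩
    · exact Or.inl h4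
    · exact Or.inr ⟨k1, Finset.mem_singleton.1 k3, k4⟩
  · rintro ⟨h1, h2, h3⟩
    refine ⟨h1, fun p hp => ?_, h3, ?_⟩
    · rcases (hP p).1 (h2 p hp) with h4 | h4
      · exact Or.inl h4
      · refine Or.inr ⟨h4.1, ?_, Finset.mem_singleton.2 h4.2.1, h4.2.2⟩
        rintro rfl
        exact absurd h4.2.1 (by norm_num)
    · rw [Finset.filter_eq_empty_iff.2, Finset.card_empty]
      · exact Finset.mem_singleton_self 0
      · intro p hp h3'
        rcases (hP p).1 (h2 p hp) with h4 | h4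
        · have := h4.2.1; omega
        · have := h4.2.1; omega

/-- the members of the class which divide `D` -/
noncomputable def dv5 (D : ℕ) : Finset ℕ := D.divisors.filter Cls

theorem mem_dv5 {D : ℕ} (hD : D ≠ 0) {d : ℕ} : d ∈ dv5 D ↔ Cls d ∧ d ∣ D := by
  unfold dv5
  rw [mem_filter, Nat.mem_divisors]
  tauto

theorem one_cls : Cls 1 := cls_iff.2 ⟨squarefree_one, by simp, by simp⟩

theorem one_dv5 {D : ℕ} (hD : D ≠ 0) : 1 ∈ dv5 D := (mem_dv5 hD).2 ⟨one_cls, one_dvd D⟩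

variable {n M : ℕ}

/-- sums over tuples of divisors and tuples of sets -/
theorem sum_tup5 {D : ℕ} (hD : D ≠ 0) (F : (Fin n → Finset ℕ) → ℝ) :
    ∑ S ∈ Tp (Fin n) par5 (prt r56.Φ D).primeFactors, F S =
      ∑ d ∈ Fintype.piFinset fun _ : Fin n => dv5 D, F fun i => (d i).primeFactors := by
  symm
  refine sum_bij (fun d _ i => (d i).primeFactors) ?_ ?_ ?_ fun _ _ => rfl
  · intro d hd
    rw [Fintype.mem_piFinset] at hd
    refine mem_Tp.2 fun i => ?_
    obtain ⟨h1, h2⟩ := (mem_dv5 hD).1 (hd i)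
    obtain ⟨k1, k2, k3⟩ := cls_iff.1 h1
    refine ⟨fun p hp => ?_, k3⟩
    rw [prt_pf, mem_filter]
    exact ⟨Nat.primeFactors_mono h2 hD hp, k2 p hp⟩
  · intro d hd d' hd' he
    rw [Fintype.mem_piFinset] at hd hd'
    funext i
    rw [← Nat.prod_primeFactors_of_squarefree ((mem_dv5 hD).1 (hd i)).1.1,
      ← Nat.prod_primeFactors_of_squarefree ((mem_dv5 hD).1 (hd' i)).1.1]
    exact congrArg (fun S : Finset ℕ => ∏ p ∈ S, p) (congrFun he i)
  · intro S hS
    rw [mem_Tp] at hS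
    have h1 : ∀ i, ∀ p ∈ S i, p ∈ D.primeFactors ∧ r56.Φ.P p := by
      intro i p hp
      have h2 := (hS i).1 hp
      rw [prt_pf, mem_filter] at h2
      exact h2
    refine ⟨fun i => ∏ p ∈ S i, p, ?_, ?_⟩
    · rw [Fintype.mem_piFinset]
      intro i
      obtain ⟨h2, h4⟩ := prod_Cl fun p hp => (h1 i p hp).2
      refine (mem_dv5 hD).2 ⟨cls_iff.2 ⟨h2.1, h2.2, ?_⟩, ?_⟩
      · rw [h4]
        exact (hS i).2
      · have h3 : ∏ p ∈ S i, p ∣ ∏ p ∈ D.primeFactors, p :=
          Finset.prod_dvd_prod_of_subset _ _ _ fun p hp => (h1 i p hp).1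
        exact h3.trans (Nat.prod_primeFactors_dvd D)
    · funext i
      exact (prod_Cl fun p hp => (h1 i p hp).2).2

/-- the tuples of members of the class which divide `D` -/
noncomputable def I5 (n D : ℕ) : Finset (Fin n → ℕ) := Fintype.piFinset fun _ : Fin n => dv5 D

theorem mem_I5 {D : ℕ} {d : Fin n → ℕ} : d ∈ I5 n D ↔ ∀ i, d i ∈ dv5 D := Fintype.mem_piFinset

theorem I5_pos {D : ℕ} (hD : D ≠ 0) : (0 : ℝ) < ((I5 n D).card : ℝ) := by
  have h : (I5 n D).Nonempty := ⟨fun _ => 1, mem_I5.2 fun _ => one_dv5 hD⟩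
  exact_mod_cast Finset.card_pos.2 h

theorem card_tup5 {D : ℕ} (hD : D ≠ 0) (P : (Fin n → ℕ) → Prop) (Q : (Fin n → Finset ℕ) → Prop)
    (h : ∀ d ∈ I5 n D, (Q (fun i => (d i).primeFactors) ↔ P d)) :
    (((Tp (Fin n) par5 (prt r56.Φ D).primeFactors).filter Q).card : ℝ) = cE (I5 n D) P := by
  unfold cE
  rw [card_filter, card_filter, Nat.cast_sum, Nat.cast_sum]
  rw [sum_tup5 hD fun S => ((if Q S then 1 else 0 : ℕ) : ℝ)]
  refine sum_congr rfl fun d hd => ?_
  by_cases h1 : P d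
  · rw [if_pos h1, if_pos ((h d hd).2 h1)]
  · rw [if_neg h1, if_neg fun h2 => h1 ((h d hd).1 h2)]

theorem card_tup5' {D : ℕ} (hD : D ≠ 0) :
    ((Tp (Fin n) par5 (prt r56.Φ D).primeFactors).card : ℝ) = ((I5 n D).card : ℝ) := by
  have h := sum_tup5 (n := n) hD fun _ => 1
  rw [sum_const, sum_const, nsmul_eq_mul, nsmul_eq_mul, mul_one, mul_one] at h
  exact h

/-! ### the forms -/

theorem DD_cls {d : ℕ} (h : Cls d) : (d : ℤ) = DD d.primeFactors := h.eq

/-- the value of a form is a square times the discriminant of its set -/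
theorem form5 {b : Bool} {V : Finset ℕ} (hV : CK b V) {d : Fin n → ℕ} (hd : ∀ i, Cls (d i))
    (T : Finset (Fin n)) : ∃ S : Finset ℕ, CK b S ∧
      (∀ p, ind S p = ind V p + ∑ i ∈ T, ind (d i).primeFactors p) ∧
      ∃ k : ℤ, k ≠ 0 ∧ DD V * ∏ i ∈ T, (d i : ℤ) = DD S * k ^ 2 := by
  induction T using Finset.induction_on with
  | empty =>
    refine ⟨V, hV, fun p => by rw [sum_empty, add_zero], 1, one_ne_zero, ?_⟩
    rw [prod_empty]
    ring
  | @insert a T ha ih =>
    obtain ⟨S, hS, h1, k, hk, h2⟩ := ih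
    have hda : CK b (d a).primeFactors := CK_of_Cl (hd a).2 b
    refine ⟨symmDiff (d a).primeFactors S, hda.symmDiff hS, fun p => ?_,
      DD ((d a).primeFactors ∩ S) * k, ?_, ?_⟩
    · rw [← ind_add, h1, sum_insert ha]
      ring
    · exact mul_ne_zero (DD_ne fun p hp => (hda.prime p (mem_inter.1 hp).1).ne_zero) hk
    · rw [prod_insert ha, DD_cls (hd a)]
      have h4 := DD_mul (d a).primeFactors S
      linear_combination (k ^ 2) * h4 + DD (d a).primeFactors * h2

/-- the corank of a form -/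
theorem rz_form {b : Fin M → Bool} {V : Fin M → Finset ℕ} (hV : ∀ j, CK (b j) (V j))
    (T : Fin M → Finset (Fin n)) {d : Fin n → ℕ} (hd : ∀ i, Cls (d i)) (j : Fin M) :
    RZ (b j) (DD (V j) * ∏ i ∈ T j, (d i : ℤ)) ↔
      rk r56.Φ (fk (b j)) (Fs (fun j => eT (T j)) V (fun i => (d i).primeFactors) j) = 0 := by
  obtain ⟨S, hS, h1, k, hk, h2⟩ := form5 (hV j) hd (T j)
  have h3 : Fs (fun j => eT (T j)) V (fun i => (d i).primeFactors) j = S := by
    ext p
    rw [mem_Fs, ← ind_one, h1]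
    have h4 : ∑ i, eT (T j) i * ind (d i).primeFactors p = ∑ i ∈ T j, ind (d i).primeFactors p := by
      unfold eT
      rw [← Finset.sum_subset (Finset.subset_univ (T j))]
      · exact sum_congr rfl fun i hi => by rw [if_pos hi, one_mul]
      · intro i _ hi
        rw [if_neg hi, zero_mul]
    rw [h4]
  rw [h2, rz_sq _ hS.ne hk, rz_rk hS, h3]

/-- the law for all the families -/
def Law5 (S : ℕ → Prop) : Prop :=
  ∀ (M n : ℕ) (b : Fin M → Bool) (V : Fin M → Finset ℕ) (T : Fin M → Finset (Fin n)),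
    (∀ j, CK (b j) (V j)) → (∀ j, (T j).Nonempty) →
    (∀ j l, j ≠ l → ¬ (b j = b l ∧ V j = V l ∧ T j = T l)) → ∀ ε : ℝ, 0 < ε →
    ∀ᶠ D in atTop, S D → ∀ Q : Finset (Fin M),
      |cE (I5 n D) (fun d => ∀ j, (RZ (b j) (DD (V j) * ∏ i ∈ T j, (d i : ℤ)) ↔ j ∈ Q)) -
        wt (al 0) Q * (I5 n D).card| ≤ ε * (I5 n D).card

/-- **All the families of forms and both curves.** -/
theorem law_of {S : ℕ → Prop} (hS3 : ∀ (M n : ℕ) (Nn : Fin M → Finset ℕ) (e : Fin M → Fin n → ZMod 2)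
      (h : Fin M → ZMod 2), (∀ j, CK (kd (h j)) (Nn j)) → (∀ j, e j ≠ 0) → Dst3 Nn e h →
      ∀ ε : ℝ, 0 < ε → ∀ᶠ D in atTop, S D → TT3 r56.Φ fD gd e h Nn par5 ε (prt r56.Φ D).primeFactors) :
    Law5 S := by
  intro M n b V T hV hT hd ε hε
  have h1 := hS3 M n V (fun j => eT (T j)) (fun j => ck (b j)) (fun j => by
    rw [kd_ck]
    exact hV j) (fun j => eT_ne (hT j)) (by
      intro j l hjl hel hh hVV
      refine hd j l hjl ⟨?_, hVV, eT_inj hel⟩
      have h4 : kd (ck (b j)) = kd (ck (b l)) := congrArg kd hh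
      rwa [kd_ck, kd_ck] at h4) ε hε
  filter_upwards [h1, eventually_ne_atTop 0] with D hD hD0 hSD Q
  have h2 := hD hSD {r | ∀ k, (r k = 0 ↔ k ∈ Q)}
  rw [meas_al] at h2
  have hpos := I5_pos (n := n) hD0
  have h3 := card_tup5 (n := n) hD0
    (fun d => ∀ j, (RZ (b j) (DD (V j) * ∏ i ∈ T j, (d i : ℤ)) ↔ j ∈ Q))
    (fun d => (fun j => rk r56.Φ (fh fD gd (ck (b j))) (Fs (fun j => eT (T j)) V d j)) ∈
        {r : Fin M → ℕ | ∀ k, (r k = 0 ↔ k ∈ Q)}) (by
    intro d hdI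
    have hcl : ∀ i, Cls (d i) := fun i => ((mem_dv5 hD0).1 (mem_I5.1 hdI i)).1
    refine forall_congr' fun j => ?_
    rw [rz_form hV T hcl j]
    beta_reduce
    rw [fh_fk, kd_ck])
  have h4 := card_tup5' (n := n) hD0
  rw [h4] at h2
  have h5 : ∀ x : ℝ, x / ((I5 n D).card : ℝ) - wt (al 0) Q =
      (x - wt (al 0) Q * (I5 n D).card) / ((I5 n D).card : ℝ) := by
    intro x
    field_simp
  rw [h5, abs_div, abs_of_pos hpos, div_le_iff₀ hpos] at h2
  refine le_trans (le_of_eq ?_) h2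
  congr 2
  rw [← h3]

end Q283.LP
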