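import Pool.Agent.Q283.LP.V6

/-!
# Project LP (helper283), third version: products of twists of two curves, over fields inside the divisors
-/

set_option autoImplicit false
set_option linter.unusedSectionVars false
set_option linter.unusedVariables false

open scoped Classical

namespace Q283.LP

open Finset Module Filter
open Q283.GM (Fam rk RC HM Ok mem_Kr Kr)
open Q155.NL (Cl Alm)
open Q283.GS (al)
open Q283.NJ (wt)
open Q283.J2 (CK fk In5 Cls RZ rz_DD rz_sq CK_of_Cl DD_true)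
open Pool.Agent.Y687 (DD)

/-- the patterns, for any finite index type -/
theorem law5_ty {S : ℕ → Prop} (h : Law5 S) (J : Type) [Fintype J] {n : ℕ} (b : J → Bool)
    (V : J → Finset ℕ) (T : J → Finset (Fin n)) (hV : ∀ j, CK (b j) (V j)) (hT : ∀ j, (T j).Nonempty)
    (hd : ∀ j l, j ≠ l → ¬ (b j = b l ∧ V j = V l ∧ T j = T l)) {ε : ℝ} (hε : 0 < ε) :
    ∀ᶠ D in atTop, S D → ∀ Q : Finset J,
      |cE (I5 n D) (fun d => ∀ j, (RZ (b j) (DD (V j) * ∏ i ∈ T j, (d i : ℤ)) ↔ j ∈ Q)) -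
        al 0 ^ Q.card * (1 - al 0) ^ (Fintype.card J - Q.card) * (I5 n D).card| ≤
          ε * (I5 n D).card := by
  obtain ⟨g⟩ : Nonempty (J ≃ Fin (Fintype.card J)) := ⟨Fintype.equivFin J⟩
  have h1 := h (Fintype.card J) n (fun i => b (g.symm i)) (fun i => V (g.symm i))
    (fun i => T (g.symm i)) (fun _ => hV _)
    (fun _ => hT _) (fun i l hil => hd _ _ fun h' => hil (g.symm.injective h')) ε hε
  filter_upwards [h1] with D hD hS Q
  have h2 := hD hS (Q.map g.toEmbedding)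
  unfold wt at h2
  rw [card_map] at h2
  refine le_trans (le_of_eq ?_) h2
  congr 2
  refine cE_congr fun d _ => ?_
  constructor
  · intro h3 k
    rw [mem_map_equiv]
    exact h3 (g.symm k)
  · intro h3 j
    have h4 := h3 (g j)
    rw [mem_map_equiv] at h4
    simp only [Equiv.symm_apply_apply] at h4
    exact h4

theorem cE_nonneg {E : Type} (I : Finset E) (P : E → Prop) : 0 ≤ cE I P := Nat.cast_nonneg _

theorem cE_mono {E : Type} {I : Finset E} {P Q : E → Prop} (h : ∀ d ∈ I, P d → Q d) :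
    cE I P ≤ cE I Q := by
  unfold cE
  rw [Nat.cast_le]
  refine card_le_card fun d hd => ?_
  obtain ⟨h1, h2⟩ := Finset.mem_filter.1 hd
  exact Finset.mem_filter.2 ⟨h1, h d h1 h2⟩

theorem cE_or {E : Type} {I : Finset E} (P Q : E → Prop) :
    cE I (fun d => P d ∨ Q d) ≤ cE I P + cE I Q := by
  obtain ⟨R, hR⟩ : ∃ R : E → Prop, R = fun d => P d ∨ Q d := ⟨_, rfl⟩
  rw [← hR]
  unfold cE
  rw [← Nat.cast_add, Nat.cast_le]
  refine (card_le_card fun d hd => ?_).trans (card_union_le _ _)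
  obtain ⟨h1, h2⟩ := Finset.mem_filter.1 hd
  rw [hR] at h2
  rw [mem_union, mem_filter, mem_filter]
  exact h2.imp (fun h => ⟨h1, h⟩) fun h => ⟨h1, h⟩

theorem cE_not {E : Type} {I : Finset E} (P : E → Prop) :
    cE I P + cE I (fun d => ¬ P d) = I.card := by
  unfold cE
  rw [← Nat.cast_add, Nat.cast_inj, ← Finset.card_filter_add_card_filter_not (s := I) P]
  congr 1
  exact fcc fun _ _ => Iff.rfl

/-- members of the class -/
theorem exists_seq5 : ∃ a : ℕ → Finset ℕ, Function.Injective a ∧ ∀ i, CK true (a i) := by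
  obtain ⟨a, ha, hC⟩ := exists_seq r56
  refine ⟨fun i => (a i).primeFactors, fun i j hij => ha ?_, fun i p hp => ?_⟩
  · rw [← Nat.prod_primeFactors_of_squarefree (hC i).1, ← Nat.prod_primeFactors_of_squarefree (hC j).1]
    exact congrArg (fun S : Finset ℕ => ∏ p ∈ S, p) hij
  · rcases (hC i).2 p hp with h | h
    · exact Or.inl ((r56_A p).1 h)
    · exact Or.inr ((r56_B p).1 h)

/-- the squares are rare -/
theorem sq_rare5 {S : ℕ → Prop} (h : Law5 S) {n : ℕ} {T : Finset (Fin n)} (hT : T.Nonempty) {ε : ℝ}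
    (hε : 0 < ε) : ∀ᶠ D in atTop, S D →
      cE (I5 n D) (fun d => IsSquare (∏ i ∈ T, (d i : ℤ))) ≤ ε * (I5 n D).card := by
  obtain ⟨a, ha, haC⟩ := exists_seq5
  obtain ⟨m, hm⟩ := exists_pow_lt_of_lt_one (show 0 < ε / 2 by positivity) (show (0.6 : ℝ) < 1 by norm_num)
  obtain ⟨A, hA⟩ : ∃ A : Finset (Fin m), A = univ.filter fun j : Fin m => RZ true (DD (a j)) := ⟨_, rfl⟩
  have h1 := law5_ty h (Fin m) (fun _ => true) (fun j => a j) (fun _ => T) (fun j => haC j) (fun _ => hT)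
    (fun j l hjl h' => hjl (Fin.ext (ha h'.2.1))) (show 0 < ε / 2 by positivity)
  obtain ⟨k1, k2⟩ := al0_lt
  filter_upwards [h1, eventually_ne_atTop 0] with D hD hD0 hS
  have hpos := I5_pos (n := n) hD0
  have h2 := (abs_le.1 (hD hS A)).2
  have h3 : al 0 ^ A.card * (1 - al 0) ^ (Fintype.card (Fin m) - A.card) ≤ 0.6 ^ m := by
    have hA1 : A.card ≤ m := by
      have := A.card_le_univ
      rwa [Fintype.card_fin] at this
    rw [Fintype.card_fin]
    calc al 0 ^ A.card * (1 - al 0) ^ (m - A.card) ≤ 0.6 ^ A.card * 0.6 ^ (m - A.card) := by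
          refine mul_le_mul ?_ ?_ (pow_nonneg (by linarith) _) (by positivity)
          · exact pow_le_pow_left₀ (by linarith) (by linarith) _
          · exact pow_le_pow_left₀ (by linarith) (by linarith) _
      _ = 0.6 ^ m := by
          rw [← pow_add]
          congr 1
          omega
  have h4 : cE (I5 n D) (fun d => IsSquare (∏ i ∈ T, (d i : ℤ))) ≤ cE (I5 n D) (fun d =>
      ∀ j : Fin m, (RZ true (DD (a j) * ∏ i ∈ T, (d i : ℤ)) ↔ j ∈ A)) := by
    refine cE_mono fun d hd hsq j => ?_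
    obtain ⟨k, hk⟩ := hsq
    have hd0 : ∏ i ∈ T, (d i : ℤ) ≠ 0 := Finset.prod_ne_zero_iff.2 fun i _ => by
      have := ((mem_dv5 hD0).1 (mem_I5.1 hd i)).1.1.ne_zero
      exact_mod_cast this
    have hk0 : k ≠ 0 := by
      rintro rfl
      exact hd0 (by rw [hk, mul_zero])
    rw [hk, ← pow_two, rz_sq true (haC j).ne hk0, hA, mem_filter]
    exact ⟨fun h => ⟨mem_univ _, h⟩, fun h => h.2⟩
  have h5 := mul_le_mul_of_nonneg_right h3 hpos.le
  have h6 : (0.6 : ℝ) ^ m * (I5 n D).card ≤ ε / 2 * (I5 n D).card :=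
    mul_le_mul_of_nonneg_right hm.le hpos.le
  linarith

/-- no product of the members of the tuple is a square -/
def Id5 {n : ℕ} (d : Fin n → ℕ) : Prop :=
  ∀ T : Finset (Fin n), T.Nonempty → ¬ IsSquare (∏ l ∈ T, (d l : ℤ))

/-- **Almost all the tuples are independent.** -/
theorem dep_rare {S : ℕ → Prop} (h : Law5 S) (n : ℕ) {ε : ℝ} (hε : 0 < ε) :
    ∀ᶠ D in atTop, S D → cE (I5 n D) (fun d => ¬ Id5 d) ≤ ε * (I5 n D).card := by
  have h1 : ∀ T : Finset (Fin n), ∀ᶠ D in atTop, S D → T.Nonempty →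
      cE (I5 n D) (fun d => IsSquare (∏ l ∈ T, (d l : ℤ))) ≤ ε / 2 ^ n * (I5 n D).card := by
    intro T
    by_cases hT : T.Nonempty
    · filter_upwards [sq_rare5 h hT (show 0 < ε / 2 ^ n by positivity)] with D hD hS _
      exact hD hS
    · exact Eventually.of_forall fun D _ h' => absurd h' hT
  filter_upwards [eventually_all.2 h1] with D hD hS
  obtain ⟨I, hI⟩ : ∃ I, I = I5 n D := ⟨_, rfl⟩
  rw [← hI] at hD ⊢
  have h2 : I.filter (fun d => ¬ Id5 d) ⊆
      (univ.filter fun T : Finset (Fin n) => T.Nonempty).biUnion fun T =>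
      I.filter fun d => IsSquare (∏ l ∈ T, (d l : ℤ)) := by
    intro d hd
    obtain ⟨h3, h4⟩ := mem_filter.1 hd
    unfold Id5 at h4
    push Not at h4
    obtain ⟨T, hT, hsq⟩ := h4
    exact mem_biUnion.2 ⟨T, mem_filter.2 ⟨mem_univ _, hT⟩, mem_filter.2 ⟨h3, hsq⟩⟩
  calc cE I (fun d => ¬ Id5 d) ≤ (((univ.filter fun T : Finset (Fin n) => T.Nonempty).biUnion
        fun T => I.filter fun d => IsSquare (∏ l ∈ T, (d l : ℤ))).card : ℝ) := by
        refine le_trans (le_of_eq ?_) (Nat.cast_le.2 (card_le_card h2))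
        unfold cE
        exact congrArg Nat.cast (fcc fun _ _ => Iff.rfl)
    _ ≤ ∑ T ∈ univ.filter fun T : Finset (Fin n) => T.Nonempty,
        ((I.filter fun d => IsSquare (∏ l ∈ T, (d l : ℤ))).card : ℝ) := by
        exact_mod_cast card_biUnion_le
    _ ≤ ∑ T ∈ univ.filter (fun T : Finset (Fin n) => T.Nonempty), ε / 2 ^ n * (I.card : ℝ) := by
        refine sum_le_sum fun T hT => ?_
        have h4 := hD T hS (mem_filter.1 hT).2
        refine le_trans (le_of_eq ?_) h4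
        unfold cE
        exact congrArg Nat.cast (fcc fun _ _ => Iff.rfl)
    _ ≤ ∑ T : Finset (Fin n), ε / 2 ^ n * (I.card : ℝ) :=
        sum_le_sum_of_subset_of_nonneg (filter_subset _ _) fun _ _ _ => by positivity
    _ = ε * I.card := by
        rw [sum_const, card_univ, Fintype.card_finset, Fintype.card_fin, nsmul_eq_mul]
        push_cast
        field_simp

/-- **From the intersections to the patterns**, different probabilities. -/
theorem exclP {E : Type} (I : Finset E) {M : ℕ} (P : Fin M → E → Prop) {p : Fin M → ℝ} {δ : ℝ}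
    (h : ∀ B : Finset (Fin M), |cE I (fun e => ∀ j ∈ B, P j e) -
      (∏ j ∈ B, p j) * I.card| ≤ δ * I.card) (A : Finset (Fin M)) :
    |cE I (fun e => ∀ j, (P j e ↔ j ∈ A)) -
      ((∏ j ∈ A, p j) * ∏ j ∈ Aᶜ, (1 - p j)) * I.card| ≤ 2 ^ M * (δ * I.card) := by
  have hδ : 0 ≤ δ * I.card := (abs_nonneg _).trans (h ∅)
  obtain ⟨x, hx⟩ : ∃ x : Fin M → E → ℝ, x = fun j e => if P j e then 1 else 0 := ⟨_, rfl⟩
  have hprod : ∀ (B : Finset (Fin M)) (e : E), ∏ j ∈ B, x j e = if ∀ j ∈ B, P j e then 1 else 0 := by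
    intro B e
    by_cases hB : ∀ j ∈ B, P j e
    · rw [if_pos hB]
      refine prod_eq_one fun j hj => ?_
      rw [hx]
      exact if_pos (hB j hj)
    · rw [if_neg hB]
      push Not at hB
      obtain ⟨j, hj, hPj⟩ := hB
      refine prod_eq_zero hj ?_
      rw [hx]
      exact if_neg hPj
  have hcard : ∀ B : Finset (Fin M), cE I (fun e => ∀ j ∈ B, P j e) =
      ∑ e ∈ I, ∏ j ∈ B, x j e := by
    intro B
    unfold cE
    rw [card_filter]
    push_cast
    refine sum_congr rfl fun e _ => ?_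
    rw [hprod]
  have hex : cE I (fun e => ∀ j, (P j e ↔ j ∈ A)) =
      ∑ e ∈ I, (∏ j ∈ A, x j e) * ∏ j ∈ Aᶜ, (-x j e + 1) := by
    unfold cE
    rw [card_filter]
    push_cast
    refine sum_congr rfl fun e _ => ?_
    by_cases hA : ∀ j, (P j e ↔ j ∈ A)
    · rw [if_pos hA, prod_eq_one fun j hj => ?_, prod_eq_one fun j hj => ?_, one_mul]
      · rw [hx]
        have h1 : ¬ P j e := fun h' => (mem_compl.1 hj) ((hA j).1 h')
        show -(if P j e then (1 : ℝ) else 0) + 1 = 1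
        rw [if_neg h1]
        norm_num
      · rw [hx]
        exact if_pos ((hA j).2 hj)
    · rw [if_neg hA]
      push Not at hA
      obtain ⟨j, hj⟩ := hA
      symm
      rw [mul_eq_zero]
      rcases hj with ⟨h1, h2⟩ | ⟨h1, h2⟩
      · right
        refine prod_eq_zero (mem_compl.2 h2) ?_
        rw [hx]
        show -(if P j e then (1 : ℝ) else 0) + 1 = 0
        rw [if_pos h1]
        norm_num
      · left
        refine prod_eq_zero h2 ?_
        rw [hx]
        exact if_neg h1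
  have hdisj : ∀ t ∈ (Aᶜ).powerset, Disjoint A t := fun t ht =>
    disjoint_left.2 fun j hj hjt => (mem_compl.1 (mem_powerset.1 ht hjt)) hj
  have h1 : cE I (fun e => ∀ j, (P j e ↔ j ∈ A)) =
      ∑ t ∈ (Aᶜ).powerset, (-1 : ℝ) ^ t.card * cE I (fun e => ∀ j ∈ A ∪ t, P j e) := by
    rw [hex]
    have h2 : ∀ e ∈ I, (∏ j ∈ A, x j e) * ∏ j ∈ Aᶜ, (-x j e + 1) =
        ∑ t ∈ (Aᶜ).powerset, (-1 : ℝ) ^ t.card * ∏ j ∈ A ∪ t, x j e := by
      intro e _
      rw [prod_add, mul_sum]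
      refine sum_congr rfl fun t ht => ?_
      rw [prod_const_one, mul_one, prod_neg, prod_union (hdisj t ht)]
      ring
    rw [sum_congr rfl h2, sum_comm]
    refine sum_congr rfl fun t _ => ?_
    rw [hcard, mul_sum]
  have h2 : ((∏ j ∈ A, p j) * ∏ j ∈ Aᶜ, (1 - p j)) * (I.card : ℝ) =
      ∑ t ∈ (Aᶜ).powerset, (-1 : ℝ) ^ t.card * ((∏ j ∈ A ∪ t, p j) * I.card) := by
    have h3 : ∏ j ∈ Aᶜ, (1 - p j) = ∏ j ∈ Aᶜ, (-p j + 1) := prod_congr rfl fun j _ => by ring
    rw [h3, prod_add, mul_sum, sum_mul]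
    refine sum_congr rfl fun t ht => ?_
    rw [prod_const_one, mul_one, prod_neg, prod_union (hdisj t ht)]
    ring
  rw [h1, h2, ← sum_sub_distrib]
  refine (abs_sum_le_sum_abs _ _).trans ?_
  have h3 : ∀ t ∈ (Aᶜ).powerset, |(-1 : ℝ) ^ t.card * cE I (fun e => ∀ j ∈ A ∪ t, P j e) -
      (-1 : ℝ) ^ t.card * ((∏ j ∈ A ∪ t, p j) * I.card)| ≤ δ * I.card := by
    intro t _
    rw [← mul_sub, abs_mul, abs_pow, abs_neg, abs_one, one_pow, one_mul]
    exact h (A ∪ t)
  refine (sum_le_sum h3).trans ?_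
  rw [sum_const, nsmul_eq_mul, card_powerset]
  push_cast
  refine mul_le_mul_of_nonneg_right ?_ hδ
  refine pow_le_pow_right₀ (by norm_num) ?_
  rw [card_compl, Fintype.card_fin]
  exact Nat.sub_le _ _

/-! ### abelian varieties over the fields -/

/-- the set of the form of the twist by `d 0` and the character of `T` -/
def sT {n : ℕ} (T : Finset (Fin n)) : Finset (Fin (n + 1)) := insert 0 (T.map (Fin.succEmb n))

theorem sT_ne {n : ℕ} (T : Finset (Fin n)) : (sT T).Nonempty := ⟨0, mem_insert_self _ _⟩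

theorem zero_notMem_map {n : ℕ} (T : Finset (Fin n)) : (0 : Fin (n + 1)) ∉ T.map (Fin.succEmb n) := by
  intro h
  obtain ⟨l, -, hl⟩ := mem_map.1 h
  exact Fin.succ_ne_zero l hl

theorem sT_inj {n : ℕ} : Function.Injective (sT : Finset (Fin n) → _) := by
  intro T T' h
  unfold sT at h
  have h1 := congrArg (fun s => s.erase 0) h
  beta_reduce at h1
  rw [erase_insert (zero_notMem_map T), erase_insert (zero_notMem_map T')] at h1
  exact map_injective _ h1

theorem prod_sT {n : ℕ} (T : Finset (Fin n)) (d : Fin (n + 1) → ℕ) :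
    ∏ i ∈ sT T, (d i : ℤ) = (d 0 : ℤ) * ∏ l ∈ T, (d l.succ : ℤ) := by
  unfold sT
  rw [prod_insert (zero_notMem_map T), prod_map]
  rfl

/-- all the twists of the abelian variety `k` by the products over the sets of `𝒳` are good -/
def GX {M r n : ℕ} (b : Fin M → Bool) (V : Fin M → Finset ℕ) (v : Fin M → Fin r)
    (𝒳 : Finset (Finset (Fin n))) (k : Fin r) (d : Fin n → ℕ) : Prop :=
  ∀ i, v i = k → ∀ T ∈ 𝒳, RZ (b i) (DD (V i) * ∏ l ∈ T, (d l : ℤ))

/-- the dimension of the abelian variety `k` -/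
noncomputable def dimA {M r : ℕ} (v : Fin M → Fin r) (k : Fin r) : ℕ := (univ.filter fun i => v i = k).card

/-- the intersections -/
theorem inter5 {S : ℕ → Prop} (h : Law5 S) {M r n : ℕ} (b : Fin M → Bool) (V : Fin M → Finset ℕ)
    (v : Fin M → Fin r) (𝒳 : Finset (Finset (Fin n))) (h𝒳 : ∀ T ∈ 𝒳, T.Nonempty)
    (hV : ∀ j, CK (b j) (V j)) (hd : ∀ j l, j ≠ l → ¬ (b j = b l ∧ V j = V l))
    (B : Finset (Fin r)) {ε : ℝ} (hε : 0 < ε) :
    ∀ᶠ D in atTop, S D → |cE (I5 n D) (fun d => ∀ k ∈ B, GX b V v 𝒳 k d) -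
      (∏ k ∈ B, al 0 ^ (dimA v k * 𝒳.card)) * (I5 n D).card| ≤ ε * (I5 n D).card := by
  have h1 := law5_ty h ({i : Fin M // v i ∈ B} × ↥𝒳) (n := n) (fun j => b j.1.1)
    (fun j => V j.1.1) (fun j => j.2.1) (fun j => hV _) (fun j => h𝒳 _ j.2.2) (by
      intro j l hjl h'
      have h2 : j.1.1 = l.1.1 := by
        by_contra hne
        exact hd _ _ hne ⟨h'.1, h'.2.1⟩
      exact hjl (Prod.ext (Subtype.ext h2) (Subtype.ext h'.2.2))) hε
  have hcard : Fintype.card ({i : Fin M // v i ∈ B} × ↥𝒳) = ∑ k ∈ B, dimA v k * 𝒳.card := by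
    rw [Fintype.card_prod, Fintype.card_coe, ← sum_mul, Fintype.card_subtype]
    congr 1
    rw [card_eq_sum_card_fiberwise (f := v) (t := B) (s := univ.filter fun i => v i ∈ B)
      fun i hi => mem_coe.2 (mem_filter.1 (mem_coe.1 hi)).2]
    refine sum_congr rfl fun k hk => ?_
    unfold dimA
    congr 1
    ext i
    rw [mem_filter, mem_filter, mem_filter]
    constructor
    · rintro ⟨-, h2⟩
      exact ⟨mem_univ _, h2⟩
    · rintro ⟨-, h2⟩
      exact ⟨⟨mem_univ _, h2 ▸ hk⟩, h2⟩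
  filter_upwards [h1] with D hD hS
  have h2 := hD hS univ
  rw [card_univ, Nat.sub_self, pow_zero, mul_one, hcard] at h2
  rw [prod_pow_eq_pow_sum]
  refine le_trans (le_of_eq ?_) h2
  congr 2
  refine cE_congr fun d _ => ?_
  constructor
  · intro h3 j
    exact ⟨fun _ => mem_univ _, fun _ => h3 _ j.1.2 j.1.1 rfl j.2.1 j.2.2⟩
  · intro h3 k hk i hi T hT
    exact (h3 (⟨i, hi ▸ hk⟩, ⟨T, hT⟩)).2 (mem_univ _)

end Q283.LP
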