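import Pool.Agent.Q283.LP.V7

/-!
# Project LP (helper283), third version: patterns of abelian varieties; polynomial phases
-/

set_option autoImplicit false
set_option linter.unusedSectionVars false
set_option linter.unusedVariables false

open scoped Classical

namespace Q283.LP

open Finset Module Filter
open Q283.GM (Fam rk RC HM Ok mem_Kr Kr)
open Q155.NL (Cl Alm)
open Q283.GS (al)
open Q283.NJ (wt)
open Q283.J2 (CK fk In5 Cls RZ rz_DD rz_sq CK_of_Cl DD_true)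
open Pool.Agent.Y687 (DD)
open Pool.Agent.Y687.JQ (fD CL CL_iff DD_mul DD_ne)

/-- the weight of the patterns, `m` the number of the characters -/
noncomputable def wA {M r : ℕ} (v : Fin M → Fin r) (m : ℕ) (Q : Finset (Fin r)) : ℝ :=
  (∏ k ∈ Q, al 0 ^ (dimA v k * m)) * ∏ k ∈ Qᶜ, (1 - al 0 ^ (dimA v k * m))

/-- **The patterns of the abelian varieties.** -/
theorem patA {S : ℕ → Prop} (h : Law5 S) {M r n : ℕ} (b : Fin M → Bool) (V : Fin M → Finset ℕ)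
    (v : Fin M → Fin r) (𝒳 : Finset (Finset (Fin n))) (h𝒳 : ∀ T ∈ 𝒳, T.Nonempty)
    (hV : ∀ j, CK (b j) (V j)) (hd : ∀ j l, j ≠ l → ¬ (b j = b l ∧ V j = V l))
    {ε : ℝ} (hε : 0 < ε) :
    ∀ᶠ D in atTop, S D → ∀ Q : Finset (Fin r),
      |cE (I5 n D) (fun d => Id5 d ∧ ∀ k, (GX b V v 𝒳 k d ↔ k ∈ Q)) -
        wA v 𝒳.card Q * (I5 n D).card| ≤ ε * (I5 n D).card := by
  obtain ⟨δ, hδ⟩ : ∃ δ : ℝ, δ = ε / 2 / 2 ^ r := ⟨_, rfl⟩
  have hδ0 : 0 < δ := by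
    rw [hδ]
    positivity
  have h1 : ∀ B : Finset (Fin r), ∀ᶠ D in atTop, S D → |cE (I5 n D) (fun d => ∀ k ∈ B, GX b V v 𝒳 k d) -
      (∏ k ∈ B, al 0 ^ (dimA v k * 𝒳.card)) * (I5 n D).card| ≤ δ * (I5 n D).card := fun B =>
    inter5 h b V v 𝒳 h𝒳 hV hd B hδ0
  filter_upwards [eventually_all.2 h1, dep_rare h n (show 0 < ε / 2 by positivity)] with D hD hdep hS Q
  have h2 := exclP (I5 n D) (fun k d => GX b V v 𝒳 k d) (fun B => hD B hS) Q
  have h3 : (2 : ℝ) ^ r * (δ * (I5 n D).card) = ε / 2 * (I5 n D).card := by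
    rw [hδ]
    field_simp
  rw [h3] at h2
  have h4 := hdep hS
  have h5 : cE (I5 n D) (fun d => Id5 d ∧ ∀ k, (GX b V v 𝒳 k d ↔ k ∈ Q)) ≤
      cE (I5 n D) (fun d => ∀ k, (GX b V v 𝒳 k d ↔ k ∈ Q)) := cE_mono fun d _ hd => hd.2
  have h6 : cE (I5 n D) (fun d => ∀ k, (GX b V v 𝒳 k d ↔ k ∈ Q)) ≤
      cE (I5 n D) (fun d => Id5 d ∧ ∀ k, (GX b V v 𝒳 k d ↔ k ∈ Q)) +
        cE (I5 n D) (fun d => ¬ Id5 d) := by
    refine le_trans (cE_mono fun d _ hd => ?_) (cE_or _ _)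
    by_cases h7 : Id5 d
    · exact Or.inl ⟨h7, hd⟩
    · exact Or.inr h7
  have h7 : wA v 𝒳.card Q = (∏ k ∈ Q, al 0 ^ (dimA v k * 𝒳.card)) *
    ∏ k ∈ Qᶜ, (1 - al 0 ^ (dimA v k * 𝒳.card)) := rfl
  rw [← h7] at h2
  rw [abs_le] at h2 ⊢
  constructor <;> linarith

/-- the number of the good abelian varieties -/
noncomputable def nGA {M r n : ℕ} (b : Fin M → Bool) (V : Fin M → Finset ℕ) (v : Fin M → Fin r)
    (𝒳 : Finset (Finset (Fin n))) (d : Fin n → ℕ) : ℕ := nJ (Fin r) fun k => GX b V v 𝒳 k d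

/-- **The law of large numbers.** -/
theorem llnA {S : ℕ → Prop} (h : Law5 S) {M r n : ℕ} (g : ℕ) (b : Fin M → Bool) (V : Fin M → Finset ℕ)
    (v : Fin M → Fin r) (𝒳 : Finset (Finset (Fin n))) (h𝒳 : ∀ T ∈ 𝒳, T.Nonempty)
    (hV : ∀ j, CK (b j) (V j)) (hd : ∀ j l, j ≠ l → ¬ (b j = b l ∧ V j = V l))
    (hr : 0 < r) (hg : ∀ k, dimA v k = g) {ε : ℝ} (hε : 0 < ε) :
    ∀ᶠ D in atTop, S D → ∀ η : ℝ, 0 < η →
      cE (I5 n D) (fun d => η ≤ |(nGA b V v 𝒳 d : ℝ) / r - al 0 ^ (g * 𝒳.card)|) ≤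
        (2 * Real.exp (-(η ^ 2 * r / 4)) + ε) * (I5 n D).card := by
  obtain ⟨δ, hδ⟩ : ∃ δ : ℝ, δ = ε / 2 ^ r / 2 ^ r := ⟨_, rfl⟩
  have hδ0 : 0 < δ := by
    rw [hδ]
    positivity
  obtain ⟨k1, k2⟩ := al0_lt
  have h1 : ∀ B : Finset (Fin r), ∀ᶠ D in atTop, S D → |cE (I5 n D) (fun d => ∀ k ∈ B, GX b V v 𝒳 k d) -
      (∏ k ∈ B, al 0 ^ (dimA v k * 𝒳.card)) * (I5 n D).card| ≤ δ * (I5 n D).card := fun B =>
    inter5 h b V v 𝒳 h𝒳 hV hd B hδ0
  filter_upwards [eventually_all.2 h1, eventually_ne_atTop 0] with D hD hD0 hS η hη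
  have hpos := I5_pos (n := n) hD0
  have h2 : ∀ Q : Finset (Fin r), |cE (I5 n D) (fun d => ∀ k, (GX b V v 𝒳 k d ↔ k ∈ Q)) -
      (al 0 ^ (g * 𝒳.card)) ^ Q.card * (1 - al 0 ^ (g * 𝒳.card)) ^ (Fintype.card (Fin r) - Q.card) *
        (I5 n D).card| ≤ ε / 2 ^ r * (I5 n D).card := by
    intro Q
    have h3 := exclP (I5 n D) (fun k d => GX b V v 𝒳 k d) (fun B => hD B hS) Q
    have h4 : (2 : ℝ) ^ r * (δ * (I5 n D).card) = ε / 2 ^ r * (I5 n D).card := by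
      rw [hδ]
      field_simp
    rw [h4, prod_congr rfl fun k _ => by rw [hg k], prod_const, prod_congr rfl fun k _ => by rw [hg k],
      prod_const, card_compl] at h3
    exact h3
  have h3 := lln_gen hpos (Fin r) (fun k d => GX b V v 𝒳 k d) (p := al 0 ^ (g * 𝒳.card))
    (δ := ε / 2 ^ r)
    (pow_nonneg (by linarith) _) (pow_le_one₀ (by linarith) (by linarith)) h2
    (by rw [Fintype.card_fin]; exact hr) hη
  rw [Fintype.card_fin] at h3
  have h4 : (2 : ℝ) ^ r * (ε / 2 ^ r) = ε := by field_simp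
  rw [h4] at h3
  exact h3

/-! ### polynomial phases -/

/-- the index of the forms -/
noncomputable def eqM (M k : ℕ) : Fin (Fintype.card (Fin M × Finset (Fin k))) ≃
    Fin M × Finset (Fin k) := (Fintype.equivFin (Fin M × Finset (Fin k))).symm

section pseudo
variable {Φ : Fam} {f g par : ℕ → ZMod 2} {P : Finset ℕ}

theorem pat_TT3 {M n : ℕ} {e : Fin M → Fin n → ZMod 2} {h : Fin M → ZMod 2} {Nn : Fin M → Finset ℕ}
    {ε : ℝ} (hT : TT3 Φ f g e h Nn par ε P) (A : Finset (Fin M)) :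
    |(((Tp (Fin n) par P).filter fun d => ∀ j, (rk Φ (fh f g (h j)) (Fs e Nn d j) = 0 ↔ j ∈ A)).card : ℝ) /
      ((Tp (Fin n) par P).card : ℝ) - wt (al 0) A| ≤ ε := by
  have h1 := hT {r | ∀ k, (r k = 0 ↔ k ∈ A)}
  rw [meas_al] at h1
  refine le_trans (le_of_eq ?_) h1
  congr 3
  exact congrArg Nat.cast (fcc fun _ _ => Iff.rfl)

theorem Fs_eM {M k : ℕ} (Nb : Fin M → Finset ℕ) (x : Vp par P) (h : Fin k → Vp par P)
    (j : Fin (Fintype.card (Fin M × Finset (Fin k)))) :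
    Fs (fun j => eG k (eqM M k j).2) (fun j => Nb (eqM M k j).1)
      (fun i => sup ((Fin.cons x h : Fin (k + 1) → Vp par P) i).1) j =
      sN (Nb (eqM M k j).1) (sup (x + ∑ i ∈ (eqM M k j).2, h i).1) := by
  have h1 := Fs_eG (par := par) (P := P) (Nb (eqM M k j).1) (eqF k) x h ((eqF k).symm (eqM M k j).2)
  rw [Equiv.apply_symm_apply] at h1
  rw [← h1]
  ext p
  rw [mem_Fs, mem_Fs, Equiv.apply_symm_apply]

/-- **No correlation with polynomial phases**, for the product of several functions. -/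
theorem pseudo_set3 {M k : ℕ} (hM : 0 < M) {Nb : Fin M → Finset ℕ} {c : Fin M → ZMod 2} {ε : ℝ}
    (h : TT3 Φ f g (fun j => eG k (eqM M k j).2) (fun j => c (eqM M k j).1)
      (fun j => Nb (eqM M k j).1) par ε P) (φ : Finset ℕ → ℝ)
    (hφ : ∀ (x : Vp par P) (y : Fin k → Vp par P),
      ∏ ω : Finset (Fin k), φ (sup (x + ∑ i ∈ ω, y i).1) = 1) :
    ((∑ d ∈ Tp (Fin 1) par P, (∏ j, ((if rk Φ (fh f g (c j)) (sN (Nb j) (d 0)) = 0 then 1 else 0) - al 0)) *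
      φ (d 0)) / ((Tp (Fin 1) par P).card : ℝ)) ^ (2 ^ k) ≤ 2 ^ (M * 2 ^ k) * ε := by
  obtain ⟨G, hG⟩ : ∃ G : Vp par P → ℝ, G = fun x =>
    ∏ j, ((if rk Φ (fh f g (c j)) (sN (Nb j) (sup x.1)) = 0 then 1 else 0) - al 0) := ⟨_, rfl⟩
  have h1 := Pool.Agent.Q222.LP.t_GCS (Vp par P) k G (fun x => φ (sup x.1)) hφ
  have hcard : Fintype.card (Fin M × Finset (Fin k)) = M * 2 ^ k := by
    rw [Fintype.card_prod, Fintype.card_fin, Fintype.card_finset, Fintype.card_fin]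
  have hM0 : 0 < Fintype.card (Fin M × Finset (Fin k)) := by
    rw [hcard]
    positivity
  have h2 := mean_prod hM0 (Tp (Fin (k + 1)) par P) (Tp_ne par P)
    (fun j d => rk Φ (fh f g (c (eqM M k j).1)) (Fs (fun j => eG k (eqM M k j).2)
      (fun j => Nb (eqM M k j).1) d j) = 0) (κ := al 0) (ε := ε)
    (al_ge 0) al_le_one (fun A => by
      refine le_trans (le_of_eq ?_) (pat_TT3 h A)
      congr 3
      exact congrArg Nat.cast (fcc fun _ _ => Iff.rfl))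
  -- the two sides
  have e1 : (∑ d ∈ Tp (Fin 1) par P, (∏ j, ((if rk Φ (fh f g (c j)) (sN (Nb j) (d 0)) = 0 then 1 else 0) -
      al 0)) * φ (d 0)) / ((Tp (Fin 1) par P).card : ℝ) =
      (∑ x, G x * φ (sup x.1)) / (Fintype.card (Vp par P) : ℝ) := by
    rw [card_Tp, sum_Tp]
    congr 1
    · rw [hG]
      refine Fintype.sum_equiv (Equiv.funUnique (Fin 1) (Vp par P)) _ _ fun x => ?_
      rfl
    · norm_cast
      exact Fintype.card_congr (Equiv.funUnique (Fin 1) (Vp par P))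
  have e2 : (∑ d ∈ Tp (Fin (k + 1)) par P, ∏ j,
      ((if rk Φ (fh f g (c (eqM M k j).1)) (Fs (fun j => eG k (eqM M k j).2)
      (fun j => Nb (eqM M k j).1) d j) = 0 then 1 else 0) - al 0)) /
        ((Tp (Fin (k + 1)) par P).card : ℝ) =
      (∑ x, ∑ y : Fin k → Vp par P, ∏ ω : Finset (Fin k), G (x + ∑ i ∈ ω, y i)) /
        ((Fintype.card (Vp par P) : ℝ) * (Fintype.card (Fin k → Vp par P) : ℝ)) := by
    rw [card_Tp, sum_Tp, sum_cons]
    congr 1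
    · refine sum_congr rfl fun x _ => sum_congr rfl fun y _ => ?_
      rw [hG]
      obtain ⟨X, hX⟩ : ∃ X : Fin M → Finset (Fin k) → ℝ, X = fun j ω =>
        ((if rk Φ (fh f g (c j)) (sN (Nb j) (sup (x + ∑ i ∈ ω, y i).1)) = 0 then (1 : ℝ) else 0) -
          al 0) := ⟨_, rfl⟩
      have h5 : ∏ ω : Finset (Fin k), ∏ j, X j ω = ∏ j', X (eqM M k j').1 (eqM M k j').2 := by
        rw [Finset.prod_comm, ← Fintype.prod_prod_type' X]
        exact (Equiv.prod_comp (eqM M k) fun z => X z.1 z.2).symm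
      rw [hX] at h5
      refine Eq.trans ?_ h5.symm
      refine prod_congr rfl fun j _ => ?_
      rw [Fs_eM Nb x y j]
    · rw [Fintype.card_fun, Fintype.card_fun, Fintype.card_fin, Fintype.card_fin, pow_succ]
      push_cast
      ring
  have h3 : |(∑ d ∈ Tp (Fin (k + 1)) par P, ∏ j,
      ((if rk Φ (fh f g (c (eqM M k j).1)) (Fs (fun j => eG k (eqM M k j).2)
      (fun j => Nb (eqM M k j).1) d j) = 0 then (1 : ℝ) else 0) - al 0)) /
        ((Tp (Fin (k + 1)) par P).card : ℝ)| ≤ 2 ^ Fintype.card (Fin M × Finset (Fin k)) * ε := by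
    convert h2
  rw [e1]
  rw [e2, hcard] at h3
  exact h1.trans ((le_abs_self _).trans h3)

end pseudo

/-- **No correlation with polynomial phases**, for the integers. -/
theorem pseudo_5 {D M k : ℕ} (hD : D ≠ 0) (hM : 0 < M) {b : Fin M → Bool} {V : Fin M → Finset ℕ}
    (hV : ∀ j, CK (b j) (V j)) {ε : ℝ}
    (h : TT3 r56.Φ fD gd (fun j => eG k (eqM M k j).2) (fun j => ck (b (eqM M k j).1))
      (fun j => V (eqM M k j).1) par5 ε (prt r56.Φ D).primeFactors) (φ : ℕ → ℝ)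
    (hφ : ∀ x ∈ dv5 D, ∀ y : Fin k → ℕ, (∀ i, y i ∈ dv5 D) →
      ∏ ω : Finset (Fin k), φ (sqn (x * ∏ i ∈ ω, y i)) = 1) :
    ((∑ d ∈ dv5 D, (∏ j, ((if RZ (b j) (DD (V j) * d) then 1 else 0) - al 0)) * φ d) /
      ((dv5 D).card : ℝ)) ^ (2 ^ k) ≤ 2 ^ (M * 2 ^ k) * ε := by
  have hsup : ∀ z : Vp par5 (prt r56.Φ D).primeFactors, (∏ p ∈ sup z.1, p) ∈ dv5 D ∧
      (∏ p ∈ sup z.1, p).primeFactors = sup z.1 := by
    intro z
    have h1 : ∀ p ∈ sup z.1, p ∈ D.primeFactors ∧ r56.Φ.P p := by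
      intro p hp
      have h2 := sup_sub z.1 hp
      rw [prt_pf, mem_filter] at h2
      exact h2
    obtain ⟨h2, h3⟩ := prod_Cl fun p hp => (h1 p hp).2
    refine ⟨(mem_dv5 hD).2 ⟨cls_iff.2 ⟨h2.1, h2.2, ?_⟩, ?_⟩, h3⟩
    · rw [h3, sum_sup]
      exact z.2
    · exact (Finset.prod_dvd_prod_of_subset _ _ _ fun p hp => (h1 p hp).1).trans
        (Nat.prod_primeFactors_dvd D)
  have h1 := pseudo_set3 (c := fun j => ck (b j)) (Nb := V) hM h (fun S => φ (∏ p ∈ S, p)) (by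
    intro x y
    rw [← hφ _ (hsup x).1 (fun i => ∏ p ∈ sup (y i).1, p) fun i => (hsup (y i)).1]
    refine prod_congr rfl fun ω _ => ?_
    congr 1
    rw [← Nat.prod_primeFactors_of_squarefree (sqn_sqf _)]
    refine prod_congr ?_ fun _ _ => rfl
    ext p
    have h2 := odd_set ω (a := ∏ p ∈ sup x.1, p) (y := fun i => ∏ p ∈ sup (y i).1, p) (fun _ => 1)
      ((mem_dv5 hD).1 (hsup x).1).1.1 (fun i _ => ((mem_dv5 hD).1 (hsup (y i)).1).1.1) p
    simp only [pow_one, Nat.cast_one, one_mul] at h2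
    rw [h2, (hsup x).2, ← ind_one]
    have h5 : ∑ i ∈ ω, ind (∏ p ∈ sup (y i).1, p).primeFactors p = ∑ i ∈ ω, ind (sup (y i).1) p :=
      sum_congr rfl fun i _ => by rw [(hsup (y i)).2]
    rw [h5]
    by_cases hp : p ∈ (prt r56.Φ D).primeFactors
    · have h6 : ∀ z : Vp par5 (prt r56.Φ D).primeFactors, ind (sup z.1) p = z.1 ⟨p, hp⟩ :=
        fun z => ind_sup z.1 ⟨p, hp⟩
      have h7 : (x + ∑ i ∈ ω, y i).1 ⟨p, hp⟩ = x.1 ⟨p, hp⟩ + ∑ i ∈ ω, (y i).1 ⟨p, hp⟩ := by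
        rw [Submodule.coe_add, Submodule.coe_sum, Pi.add_apply, Finset.sum_apply]
      rw [h6, h6, h7, sum_congr rfl fun i _ => h6 (y i)]
    · have h6 : ∀ z : Vp par5 (prt r56.Φ D).primeFactors, ind (sup z.1) p = 0 := fun z =>
        ind_not fun h => hp (sup_sub z.1 h)
      rw [h6, h6, sum_eq_zero fun i _ => h6 (y i), add_zero])
  have h2 : ∀ F : ℕ → ℝ, ∑ d ∈ Fintype.piFinset fun _ : Fin 1 => dv5 D, F (d 0) =
      ∑ d ∈ dv5 D, F d := by
    intro F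
    refine sum_bij (fun d _ => d 0) (fun d hd => (Fintype.mem_piFinset.1 hd) 0) ?_ ?_ fun _ _ => rfl
    · intro d _ d' _ he
      funext i
      rw [Subsingleton.elim i 0]
      exact he
    · intro d hd
      exact ⟨fun _ => d, Fintype.mem_piFinset.2 fun _ => hd, rfl⟩
  have h3 : ((Tp (Fin 1) par5 (prt r56.Φ D).primeFactors).card : ℝ) = ((dv5 D).card : ℝ) := by
    have h4 := sum_tup5 (n := 1) hD fun _ => 1
    have h5 := h2 fun _ => 1
    rw [h5, sum_const, sum_const, nsmul_eq_mul, nsmul_eq_mul, mul_one, mul_one] at h4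
    exact h4
  have h4 : ∑ S ∈ Tp (Fin 1) par5 (prt r56.Φ D).primeFactors,
      (∏ j, ((if rk r56.Φ (fh fD gd (ck (b j))) (sN (V j) (S 0)) = 0 then 1 else 0) - al 0)) *
        φ (∏ p ∈ S 0, p) =
      ∑ d ∈ dv5 D, (∏ j, ((if RZ (b j) (DD (V j) * d) then 1 else 0) - al 0)) * φ d := by
    rw [sum_tup5 hD fun S => (∏ j, ((if rk r56.Φ (fh fD gd (ck (b j))) (sN (V j) (S 0)) = 0 then 1 else 0) -
      al 0)) * φ (∏ p ∈ S 0, p), ← h2 fun d =>
        (∏ j, ((if RZ (b j) (DD (V j) * d) then 1 else 0) - al 0)) * φ d]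
    refine sum_congr rfl fun d hd => ?_
    have h5 := (mem_dv5 hD).1 (Fintype.mem_piFinset.1 hd 0)
    rw [Nat.prod_primeFactors_of_squarefree h5.1.1]
    congr 1
    refine prod_congr rfl fun j _ => ?_
    have h6 : RZ (b j) (DD (V j) * d 0) ↔
        rk r56.Φ (fh fD gd (ck (b j))) (sN (V j) (d 0).primeFactors) = 0 := by
      have h8 : CK (b j) (d 0).primeFactors := CK_of_Cl h5.1.2 (b j)
      rw [fh_fk, kd_ck, DD_cls h5.1, DD_mul, rz_sq _ ((hV j).symmDiff h8).ne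
        (DD_ne fun p hp => (h8.prime p (mem_inter.1 hp).2).ne_zero), rz_rk ((hV j).symmDiff h8)]
      rfl
    congr 1
    by_cases h7 : RZ (b j) (DD (V j) * d 0)
    · rw [if_pos h7, if_pos (h6.1 h7)]
    · rw [if_neg h7, if_neg fun h => h7 (h6.2 h)]
  rw [h3] at h1
  rw [h4] at h1
  exact h1

/-- no correlation with polynomial phases -/
def Pse5 (S : ℕ → Prop) : Prop :=
  ∀ (k M : ℕ) (b : Fin M → Bool) (V : Fin M → Finset ℕ), 0 < M → (∀ j, CK (b j) (V j)) →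
    (∀ j l, j ≠ l → ¬ (b j = b l ∧ V j = V l)) → ∀ ε : ℝ, 0 < ε → ∀ᶠ D in atTop, S D → ∀ φ : ℕ → ℝ,
      (∀ x ∈ dv5 D, ∀ y : Fin (k + 1) → ℕ, (∀ i, y i ∈ dv5 D) →
        ∏ ω : Finset (Fin (k + 1)), φ (sqn (x * ∏ i ∈ ω, y i)) = 1) →
      |(∑ d ∈ dv5 D, (∏ j, ((if RZ (b j) (DD (V j) * d) then 1 else 0) - al 0)) * φ d) /
        ((dv5 D).card : ℝ)| ≤ ε

/-- **One set of integers of density one**, with the phases. -/
theorem main5b : ∃ S : ℕ → Prop, Alm (fun _ => True) S ∧ Alm (Cl r56.Φ) S ∧ Law5 S ∧ Pse5 S := by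
  obtain ⟨S, hS1, hS2, hS3⟩ := mainV r56 fD gd par5 (hpar5 fD gd) _ basK
  refine ⟨S, hS1, hS2, law_of hS3, fun k M b V hM hV hd ε hε => ?_⟩
  obtain ⟨K, hK⟩ : ∃ K, K = 2 ^ (k + 1) := ⟨_, rfl⟩
  have h1 := hS3 _ _ (fun j => V (eqM M (k + 1) j).1) (fun j => eG (k + 1) (eqM M (k + 1) j).2)
    (fun j => ck (b (eqM M (k + 1) j).1)) (fun j => by
      rw [kd_ck]
      exact hV _) (fun j => eG_ne _) (by
      intro j l hjl hel hh hVV
      beta_reduce at hel hh hVV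
      have h4 : b (eqM M (k + 1) j).1 = b (eqM M (k + 1) l).1 := by
        have h5 := congrArg kd hh
        rwa [kd_ck, kd_ck] at h5
      have h6 : (eqM M (k + 1) j).1 = (eqM M (k + 1) l).1 := by
        by_contra hne
        exact hd _ _ hne ⟨h4, hVV⟩
      exact hjl ((eqM M (k + 1)).injective (Prod.ext h6 (eG_inj (k + 1) hel))))
      (ε ^ K / 2 ^ (M * K)) (by positivity)
  filter_upwards [h1, eventually_ne_atTop 0] with D hD hD0 hSD φ hφ
  have h2 := pseudo_5 hD0 hM hV (hD hSD) φ hφ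
  rw [← hK, mul_div_cancel₀ _ (by positivity : (2 : ℝ) ^ (M * K) ≠ 0)] at h2
  have hKe : Even K := by
    rw [hK, pow_succ]
    exact even_two.mul_left _
  have hK0 : K ≠ 0 := by
    rw [hK]
    positivity
  refine le_of_pow_le_pow_left₀ hK0 hε.le ?_
  rw [hKe.pow_abs]
  exact h2

end Q283.LP
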