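import Pool.Agent.Q283.LP.W7

/-!
# Selmer groups over multiquadratic extensions: quadratic characters
-/

set_option autoImplicit false
set_option linter.unusedSectionVars false
set_option linter.unusedVariables false

open scoped Classical

namespace Q283.LP

open Pool.Agent.Q274.BKC (GK OB Dec Ine val TrivOn AboveC IsSel Sel B1 B1s H1f)

section
variable {K : Type} [Field K] [CharZero K]

theorem root_pm {a : K} {y z : AlgebraicClosure K} (hy : y ^ 2 = algebraMap K (AlgebraicClosure K) a)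
    (hz : z ^ 2 = algebraMap K (AlgebraicClosure K) a) : z = y ∨ z = -y := by
  have h : (z - y) * (z + y) = 0 := by linear_combination hz - hy
  rcases mul_eq_zero.1 h with h | h
  · exact Or.inl (sub_eq_zero.1 h)
  · exact Or.inr (eq_neg_of_add_eq_zero_left h)

/-- the quadratic characters exist -/
theorem exists_qd {a : K} (ha : a ≠ 0) : ∃ ψ : GK K →* ℤ_[2]ˣ, IsQd a ψ := by
  obtain ⟨y, hy⟩ := exists_root a
  have hy0 : y ≠ 0 := by
    rintro rfl
    rw [zero_pow two_ne_zero] at hy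
    exact ha ((map_eq_zero _).1 hy.symm)
  have hyy : y ≠ -y := by
    intro h
    have h5 : (2 : AlgebraicClosure K) * y = 0 := by linear_combination h
    exact hy0 ((mul_eq_zero.1 h5).resolve_left two_ne_zero)
  have hc : ∀ σ : GK K, σ y = y ∨ σ y = -y := by
    intro σ
    refine root_pm hy ?_
    rw [← map_pow, hy, σ.commutes]
  obtain ⟨f, hf⟩ : ∃ f : GK K → ℤ_[2]ˣ, f = fun σ => if σ y = y then 1 else -1 := ⟨_, rfl⟩
  have hf1 : ∀ {σ : GK K}, σ y = y → f σ = 1 := by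
    intro σ h
    rw [hf]
    exact if_pos h
  have hf2 : ∀ {σ : GK K}, σ y = -y → f σ = -1 := by
    intro σ h
    rw [hf]
    exact if_neg fun h' => hyy (h'.symm.trans h)
  refine ⟨⟨⟨f, hf1 rfl⟩, fun σ τ => ?_⟩, fun z hz σ => ?_⟩
  · show f (σ * τ) = f σ * f τ
    have h0 : (σ * τ) y = σ (τ y) := rfl
    rcases hc σ with h1 | h1 <;> rcases hc τ with h2 | h2
    · rw [hf1 h1, hf1 h2, hf1 (by rw [h0, h2, h1]), one_mul]
    · rw [hf1 h1, hf2 h2, hf2 (by rw [h0, h2, map_neg, h1]), one_mul]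
    · rw [hf2 h1, hf1 h2, hf2 (by rw [h0, h2, h1]), mul_one]
    · rw [hf2 h1, hf2 h2, hf1 (by rw [h0, h2, map_neg, h1, neg_neg]), neg_mul_neg, one_mul]
  · show (σ z = z ∧ f σ = 1) ∨ (σ z = -z ∧ f σ = -1)
    rcases root_pm hy hz with rfl | rfl
    · rcases hc σ with h1 | h1
      · exact Or.inl ⟨h1, hf1 h1⟩
      · exact Or.inr ⟨h1, hf2 h1⟩
    · rcases hc σ with h1 | h1
      · exact Or.inl ⟨by rw [map_neg, h1], hf1 h1⟩
      · exact Or.inr ⟨by rw [map_neg, h1], hf2 h1⟩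

/-- the quadratic characters are continuous -/
theorem cont_qd {a : K} (ha : a ≠ 0) {ψ : GK K →* ℤ_[2]ˣ} (h : IsQd a ψ) : Continuous ψ := by
  refine continuous_of_continuousAt_one ψ ?_
  have h1 : ψ =ᶠ[nhds 1] fun _ => 1 := by
    have h2 : ((LF fun _ : Fin 1 => a).fixingSubgroup : Set (GK K)) ∈ nhds (1 : GK K) :=
      (fix_open fun _ : Fin 1 => a).mem_nhds (Subgroup.one_mem _)
    filter_upwards [h2] with σ hσ
    exact (mem_fix (d := fun _ : Fin 1 => a) (fun _ => ha) (ψ := fun _ => ψ) (fun _ => h) σ).1 hσ 0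
  exact (continuousAt_const (y := (1 : ℤ_[2]ˣ))).congr h1.symm

theorem cont_prodT {n : ℕ} {ψ : Fin n → (GK K →* ℤ_[2]ˣ)} (h : ∀ l, Continuous (ψ l))
    (T : Finset (Fin n)) : Continuous (∏ l ∈ T, ψ l : GK K →* ℤ_[2]ˣ) := by
  induction T using Finset.induction_on with
  | empty =>
    rw [Finset.prod_empty]
    exact continuous_const
  | @insert a T ha ih =>
    rw [Finset.prod_insert ha]
    exact (h a).mul ih

theorem cont_mul {χ ψ : GK K →* ℤ_[2]ˣ} (h1 : Continuous χ) (h2 : Continuous ψ) :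
    Continuous (χ * ψ : GK K →* ℤ_[2]ˣ) := h1.mul h2

/-- from the surjectivity -/
theorem surj_expl {s : K} {χ : GK K →* ℤ_[2]ˣ} {H : Subgroup (GK K)}
    (h : Function.Surjective (rsH (H := H) s (χ := χ) (χ' := χ) fun _ _ => rfl)) {c : H → ℚ_[2]}
    (hc : SelOn s χ H c) : ∃ C : GK K → ℚ_[2], IsSel s χ C ∧
      ∃ y : ℚ_[2], ∀ σ : H, c σ = C σ + (val χ σ - 1) * y := by
  obtain ⟨x, hx⟩ := h (Submodule.Quotient.mk ⟨c, hc⟩)
  obtain ⟨C, rfl⟩ := Submodule.Quotient.mk_surjective _ x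
  have h1 : (rsH (H := H) s (χ := χ) (χ' := χ) fun _ _ => rfl) (Submodule.Quotient.mk C) =
      (Submodule.Quotient.mk (rsL s (χ := χ) (χ' := χ) (fun _ _ => rfl) C) : H1fO s χ H) := rfl
  rw [h1, Submodule.Quotient.eq] at hx
  obtain ⟨y, hy⟩ := mem_B1O.1 (Submodule.mem_comap.1 hx)
  refine ⟨C.1, C.2, -y, fun σ => ?_⟩
  have h2 : C.1 σ - c σ = (val χ σ - 1) * y := hy σ
  linear_combination -h2

end

end Q283.LP
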