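import Pool.Agent.Q274.BKL.Cv
import Pool.Agent.Q274.BKC.H0
import Pool.Agent.Q283.LP.W9
import Pool.Agent.Q283.LP.W10

/-!
# The L-functions of all the members of the class are entire
-/

set_option autoImplicit false
set_option linter.unusedSectionVars false
set_option linter.unusedVariables false

open Filter
open scoped Topology PeriodPair

namespace Pool.Agent.Q283.BKE

open H667R3 Pool.Agent.TH936.CM Pool.Agent.TH936.PU Pool.Agent.TH936.CW
open Pool.Agent.W192.HK (sp nm)
open Pool.Agent.Y698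
open Pool.Agent.Y698.SG
open Pool.Agent.Q274 Pool.Agent.Q274.BKL

/-- the L-functions of all the twists in the class are entire -/
theorem entire_ep {D : ℕ} (hD : BKC.Cl 7 D) (i : ℕ) :
    ∃ F : ℂ → ℂ, Differentiable ℂ F ∧ (∀ s : ℂ, 1 / 2 < s.re →
      HasProd (fun p : Nat.Primes => (ef D i s p)⁻¹) (F s)) := by
  classical
  obtain ⟨F, g1, g2, g3⟩ := Pool.Agent.Q203.BKL.t_CEN Pool.Agent.Q111.BKL.P.t_PAR
    Pool.Agent.Q257.BKL.t_DIST (IP D) (BKC.SP 7 D) (IP_inq hD) (SP_spl hD) i
  refine ⟨fun s => F (s + i + 1), g1.comp (by fun_prop), fun s hs => ?_⟩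
  have h1 := g2 (s + i + 1) (by
    rw [Complex.add_re, Complex.add_re, Complex.natCast_re, Complex.one_re]
    push_cast
    linarith)
  have h2 := Ep.prod_pe i (f := fun n => ∏ r ∈ IP D ∪ BKC.SP 7 D, qch r (n : ℤ))
    (by simp [qch_one])
    (by
      intro m n
      rw [← Finset.prod_mul_distrib]
      refine Finset.prod_congr rfl fun q _ => ?_
      push_cast
      exact qch_mul _ _ _) h1
  convert h2 using 3 with p
  have e1 : ∏ r ∈ IP D ∪ BKC.SP 7 D, qch r ((p : ℕ) : ℤ) = ((jacobiSym (p : ℕ) D : ℤ) : ℂ) := by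
    have key : ∀ S : Finset ℕ, (∀ p ∈ S, p.Prime) → ∀ a : ℤ, jacobiSym a (∏ p ∈ S, p) =
        ∏ r ∈ S, jacobiSym a r := by
      intro S
      induction S using Finset.induction_on with
      | empty => intro _ a; simp
      | insert b S ha ih =>
        intro hS a
        have ha0 : NeZero b := ⟨(hS b (Finset.mem_insert_self _ _)).ne_zero⟩
        have hS0 : NeZero (∏ p ∈ S, p) := ⟨Finset.prod_ne_zero_iff.2 fun p hp =>
          (hS p (Finset.mem_insert_of_mem hp)).ne_zero⟩
        rw [Finset.prod_insert ha, Finset.prod_insert ha, jacobiSym.mul_right,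
          ih fun p hp => hS p (Finset.mem_insert_of_mem hp)]
    rw [IP_union]
    conv_rhs => rw [← Nat.prod_primeFactors_of_squarefree hD.sqf]
    rw [key _ fun p hp => Nat.prime_of_mem_primeFactors hp, Int.cast_prod]
    rfl
  rw [e1, lu_uu p.2]
  unfold ef Ep.ee
  split_ifs with h7
  · push_cast
    ring
  · push_cast
    ring

end Pool.Agent.Q283.BKE
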