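import Pool.Agent.Q274.BKC.Tw

/-!
# Selmer groups over multiquadratic extensions: the transfer
-/

set_option autoImplicit false
set_option linter.unusedSectionVars false
set_option linter.unusedVariables false

open scoped Classical

namespace Q283.LP

open Finset
open Pool.Agent.Q274.BKC (GK OB Dec Ine val TrivOn AboveC IsSel Sel B1 H1f)

/-! ### Cocycles -/

section
variable {G : Type} [Group G]

/-- a cocycle which is a coboundary on a subgroup of finite index is a coboundary -/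
theorem avg {η : G → ℚ_[2]} (hη1 : η 1 = 1) (hη : ∀ σ τ, η (σ * τ) = η σ * η τ) {I H : Subgroup G}
    (hfin : H.FiniteIndex) {C : G → ℚ_[2]} (hC : ∀ σ ∈ I, ∀ τ ∈ I, C (σ * τ) = C σ + η σ * C τ)
    (h : ∃ y : ℚ_[2], ∀ σ ∈ I, σ ∈ H → C σ = (η σ - 1) * y) :
    ∃ y : ℚ_[2], ∀ σ ∈ I, C σ = (η σ - 1) * y := by
  obtain ⟨y, hy⟩ := h
  obtain ⟨J, hJ⟩ : ∃ J : Subgroup I, J = H.subgroupOf I := ⟨_, rfl⟩
  have hJf : J.FiniteIndex := by
    rw [hJ]
    infer_instance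
  have hfi : Finite (I ⧸ J) := Subgroup.finite_quotient_of_finiteIndex
  obtain ⟨hF⟩ : Nonempty (Fintype (I ⧸ J)) := ⟨Fintype.ofFinite _⟩
  obtain ⟨C', hC'⟩ : ∃ C' : I → ℚ_[2], C' = fun σ : I => C (σ : G) - (η (σ : G) - 1) * y := ⟨_, rfl⟩
  have e1 : ∀ σ τ : I, C' (σ * τ) = C' σ + η σ * C' τ := by
    intro σ τ
    rw [hC']
    show C ((σ : G) * τ) - (η ((σ : G) * τ) - 1) * y = _
    rw [hC _ σ.2 _ τ.2, hη]
    ring
  have e2 : ∀ τ ∈ J, C' τ = 0 := by
    intro τ hτ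
    rw [hJ, Subgroup.mem_subgroupOf] at hτ
    rw [hC']
    show C τ - (η τ - 1) * y = 0
    rw [hy _ τ.2 hτ, sub_self]
  have e3 : ∀ (g : I) (q : I ⧸ J), C' (g * q.out) = C' (g • q).out := by
    intro g q
    have h1 : ((g • q).out : I)⁻¹ * (g * q.out) ∈ J := by
      rw [← QuotientGroup.eq, QuotientGroup.out_eq']
      conv_lhs => rw [← QuotientGroup.out_eq' q]
      rfl
    have h2 : g * q.out = (g • q).out * ((g • q).out⁻¹ * (g * q.out)) := by
      group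
    rw [h2, e1, e2 _ h1, mul_zero, add_zero]
  obtain ⟨S, hS⟩ : ∃ S : ℚ_[2], S = ∑ q : I ⧸ J, C' q.out := ⟨_, rfl⟩
  have hm : (Fintype.card (I ⧸ J) : ℚ_[2]) ≠ 0 := by
    rw [Nat.cast_ne_zero]
    exact Fintype.card_ne_zero
  have e4 : ∀ g : I, S = Fintype.card (I ⧸ J) * C' g + η g * S := by
    intro g
    have h1 : ∑ q : I ⧸ J, C' (g * q.out) = Fintype.card (I ⧸ J) * C' g + η g * S := by
      rw [hS, Finset.mul_sum, ← nsmul_eq_mul, ← Finset.card_univ, ← Finset.sum_const,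
        ← Finset.sum_add_distrib]
      exact Finset.sum_congr rfl fun q _ => e1 g q.out
    rw [← h1, Finset.sum_congr rfl fun q _ => e3 g q, hS]
    exact (Equiv.sum_comp (MulAction.toPerm g : Equiv.Perm (I ⧸ J)) fun q => C' q.out).symm
  refine ⟨y - S / Fintype.card (I ⧸ J), fun σ hσ => ?_⟩
  have h1 := e4 ⟨σ, hσ⟩
  have h2 : C' ⟨σ, hσ⟩ = C σ - (η σ - 1) * y := by rw [hC']
  have h3 : η ((⟨σ, hσ⟩ : I) : G) = η σ := rfl
  rw [h2, h3] at h1
  field_simp
  linear_combination -h1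

/-- the transfer of a function on the subgroup -/
noncomputable def trf {H : Subgroup G} [Fintype (G ⧸ H)] (η : G → ℚ_[2]) (c : G → ℚ_[2]) (g : G) : ℚ_[2] :=
  ∑ q : G ⧸ H, η (g • q).out * c ((g • q).out⁻¹ * g * q.out)

theorem out_mem {H : Subgroup G} (g : G) (q : G ⧸ H) : (g • q).out⁻¹ * g * q.out ∈ H := by
  rw [mul_assoc, ← QuotientGroup.eq, QuotientGroup.out_eq']
  conv_lhs => rw [← QuotientGroup.out_eq' q]
  rfl

variable {H : Subgroup G} [Fintype (G ⧸ H)]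

/-- the transfer is a cocycle -/
theorem trf_coc {η χ : G → ℚ_[2]} (h1 : ∀ σ, χ σ * χ σ⁻¹ = 1) (hχ : ∀ σ τ, χ (σ * τ) = χ σ * χ τ)
    (hη : ∀ σ τ, η (σ * τ) = η σ * η τ) (hH : ∀ h ∈ H, η h = χ h) (h1' : ∀ σ, η σ * η σ⁻¹ = 1)
    {c : G → ℚ_[2]} (hc : ∀ σ ∈ H, ∀ τ ∈ H, c (σ * τ) = c σ + χ σ * c τ) (g g' : G) :
    trf (H := H) η c (g * g') = trf (H := H) η c g + η g * trf (H := H) η c g' := by
  have e1 : ∀ q : G ⧸ H, η (((g * g') • q).out) * c (((g * g') • q).out⁻¹ * (g * g') * q.out) =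
      η (g • (g' • q)).out * c ((g • (g' • q)).out⁻¹ * g * (g' • q).out) +
      η g * (η (g' • q).out * c ((g' • q).out⁻¹ * g' * q.out)) := by
    intro q
    rw [mul_smul]
    have e2 : (g • (g' • q)).out⁻¹ * (g * g') * q.out =
        ((g • (g' • q)).out⁻¹ * g * (g' • q).out) * ((g' • q).out⁻¹ * g' * q.out) := by
      group
    rw [e2, hc _ (out_mem g (g' • q)) _ (out_mem g' q), ← hH _ (out_mem g (g' • q)), hη, hη]
    have e3 := h1' (g • (g' • q)).out
    linear_combination (η g * η (g' • q).out * c ((g' • q).out⁻¹ * g' * q.out)) * e3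
  unfold trf
  rw [Finset.sum_congr rfl fun q _ => e1 q, Finset.sum_add_distrib, ← Finset.mul_sum]
  congr 1
  exact Equiv.sum_comp (MulAction.toPerm g' : Equiv.Perm (G ⧸ H)) fun q =>
    η (g • q).out * c ((g • q).out⁻¹ * g * q.out)

/-- the transfer on the subgroup -/
theorem trf_res [hn : H.Normal] {η : G → ℚ_[2]} {c : G → ℚ_[2]} {h : G} (hh : h ∈ H) :
    trf (H := H) η c h = ∑ q : G ⧸ H, η q.out * c (q.out⁻¹ * h * q.out) := by
  unfold trf
  refine Finset.sum_congr rfl fun q _ => ?_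
  have e : h • q = q := by
    conv_rhs => rw [← QuotientGroup.out_eq' q]
    conv_lhs => rw [← QuotientGroup.out_eq' q]
    show ((h * q.out : G) : G ⧸ H) = ((q.out : G) : G ⧸ H)
    rw [QuotientGroup.eq]
    have := hn.conj_mem h⁻¹ (H.inv_mem hh) q.out⁻¹
    rw [inv_inv] at this
    have e2 : (h * q.out)⁻¹ * q.out = q.out⁻¹ * h⁻¹ * q.out := by group
    rw [e2]
    exact this
  rw [e]

end

end Q283.LP
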