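import Pool.Agent.Q283.LP.W4

/-!
# Selmer groups over multiquadratic extensions: the local conditions
-/

set_option autoImplicit false
set_option linter.unusedSectionVars false
set_option linter.unusedVariables false

open scoped Classical

namespace Q283.LP

open Pool.Agent.Q274.BKC (GK OB Dec Ine val TrivOn AboveC IsSel Sel B1 H1f)

section
variable {K : Type} [Field K]

/-- the inertia group, as a subgroup -/
def IneS (Q : Ideal (OB K)) : Subgroup (GK K) where
  carrier := Ine Q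
  mul_mem' := by
    intro a b ha hb x
    have h : (a * b) • x - x = (a • (b • x) - b • x) + (b • x - x) := by
      rw [mul_smul]
      ring
    rw [h]
    exact Q.add_mem (ha _) (hb _)
  one_mem' := by
    intro x
    rw [one_smul, sub_self]
    exact Q.zero_mem
  inv_mem' := by
    intro a ha x
    have h := ha (a⁻¹ • x)
    rw [smul_inv_smul] at h
    have h2 : a⁻¹ • x - x = -(x - a⁻¹ • x) := by ring
    rw [h2]
    exact Q.neg_mem h

/-- the decomposition group, as a subgroup -/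
def DecS (Q : Ideal (OB K)) : Subgroup (GK K) where
  carrier := Dec Q
  mul_mem' := by
    intro a b ha hb x
    rw [mul_smul]
    exact (ha _).trans (hb _)
  one_mem' := by
    intro x
    rw [one_smul]
  inv_mem' := by
    intro a ha x
    have h := ha (a⁻¹ • x)
    rw [smul_inv_smul] at h
    exact h.symm

/-- the conjugate ideal -/
noncomputable def cj (r : GK K) (Q : Ideal (OB K)) : Ideal (OB K) :=
  Q.comap (MulSemiringAction.toRingHom (GK K) (OB K) r)

theorem mem_cj {r : GK K} {Q : Ideal (OB K)} {x : OB K} : x ∈ cj r Q ↔ r • x ∈ Q := Iff.rfl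

theorem cj_max {r : GK K} {Q : Ideal (OB K)} (hQ : Q.IsMaximal) : (cj r Q).IsMaximal := by
  unfold cj
  have := hQ
  refine Ideal.comap_isMaximal_of_surjective _ fun y => ⟨r⁻¹ • y, ?_⟩
  show r • (r⁻¹ • y) = y
  exact smul_inv_smul r y

theorem smul_two (r : GK K) : r • (2 : OB K) = 2 := by
  have h := map_ofNat (MulSemiringAction.toRingHom (GK K) (OB K) r) 2
  exact h

theorem two_cj {r : GK K} {Q : Ideal (OB K)} : (2 : OB K) ∈ cj r Q ↔ (2 : OB K) ∈ Q := by
  rw [mem_cj, smul_two]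

theorem ine_cj {r σ : GK K} {Q : Ideal (OB K)} (h : σ ∈ Ine Q) : r⁻¹ * σ * r ∈ Ine (cj r Q) := by
  intro x
  rw [mem_cj, smul_sub, mul_smul, mul_smul, smul_inv_smul]
  exact h (r • x)

theorem dec_cj {r σ : GK K} {Q : Ideal (OB K)} (h : σ ∈ Dec Q) : r⁻¹ * σ * r ∈ Dec (cj r Q) := by
  intro x
  rw [mem_cj, mem_cj, mul_smul, mul_smul, smul_inv_smul]
  exact h (r • x)

theorem coe_smul_OB (r : GK K) (x : OB K) : ((r • x : OB K) : AlgebraicClosure K) =
    r (x : AlgebraicClosure K) := rfl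

theorem above_cj [CharZero K] {s : K} {r : GK K} {Q : Ideal (OB K)} (h : AboveC s Q) :
    AboveC s (cj r Q) := by
  obtain ⟨h1, z, hz, h2⟩ := h
  refine ⟨two_cj.2 h1, z, ?_, h2⟩
  rw [mem_cj]
  have h3 : r • z = z := by
    apply Subtype.ext
    have h4 : (2 : AlgebraicClosure K) * ((r • z : OB K) : AlgebraicClosure K) =
        2 * (z : AlgebraicClosure K) := by
      rw [coe_smul_OB]
      have h5 := congrArg r h2
      rw [map_mul, map_sub, map_one, r.commutes, map_ofNat] at h5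
      rw [h5, h2]
    have h6 : (2 : AlgebraicClosure K) ≠ 0 := two_ne_zero
    exact mul_left_cancel₀ h6 h4
  rw [h3]
  exact hz

/-! ### Selmer cocycles on a subgroup -/

/-- the Selmer condition over the fixed field of `H` -/
structure SelOn (s : K) (χ : GK K →* ℤ_[2]ˣ) (H : Subgroup (GK K)) (c : H → ℚ_[2]) : Prop where
  cont : Continuous c
  coc : ∀ σ τ : H, c (σ * τ) = c σ + val χ σ * c τ
  ine : ∀ Q : Ideal (OB K), Q.IsMaximal → (2 : OB K) ∉ Q →
    ∃ y : ℚ_[2], ∀ σ : H, (σ : GK K) ∈ Ine Q → c σ = (val χ σ - 1) * y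
  dec : ∀ Q : Ideal (OB K), Q.IsMaximal → AboveC s Q →
    ∃ y : ℚ_[2], ∀ σ : H, (σ : GK K) ∈ Dec Q → c σ = (val χ σ - 1) * y

theorem val_one (χ : GK K →* ℤ_[2]ˣ) : val χ 1 = 1 := by
  unfold val
  rw [map_one, Units.val_one, PadicInt.coe_one]

theorem val_mul (χ : GK K →* ℤ_[2]ˣ) (σ τ : GK K) : val χ (σ * τ) = val χ σ * val χ τ := by
  unfold val
  rw [map_mul, Units.val_mul, PadicInt.coe_mul]

theorem val_mul' (χ ψ : GK K →* ℤ_[2]ˣ) (σ : GK K) : val (χ * ψ) σ = val χ σ * val ψ σ := by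
  unfold val
  rw [MonoidHom.mul_apply, Units.val_mul, PadicInt.coe_mul]

theorem val_inv (χ : GK K →* ℤ_[2]ˣ) (σ : GK K) : val χ σ * val χ σ⁻¹ = 1 := by
  rw [← val_mul, mul_inv_cancel, val_one]

theorem val_conj (χ : GK K →* ℤ_[2]ˣ) (r σ : GK K) : val χ (r⁻¹ * σ * r) = val χ σ := by
  rw [val_mul, val_mul]
  linear_combination (val χ σ) * val_inv χ r

theorem val_ne (χ : GK K →* ℤ_[2]ˣ) (σ : GK K) : val χ σ ≠ 0 := fun h => by
  have h1 := val_inv χ σ
  rw [h, zero_mul] at h1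
  exact zero_ne_one h1

/-- the extension by zero -/
noncomputable def ext0 {H : Subgroup (GK K)} (c : H → ℚ_[2]) (g : GK K) : ℚ_[2] :=
  if h : g ∈ H then c ⟨g, h⟩ else 0

theorem ext0_mem {H : Subgroup (GK K)} (c : H → ℚ_[2]) {g : GK K} (h : g ∈ H) : ext0 c g = c ⟨g, h⟩ := by
  unfold ext0
  rw [dif_pos h]

theorem ext0_cont {H : Subgroup (GK K)} (hH : IsOpen (H : Set (GK K))) {c : H → ℚ_[2]}
    (hc : Continuous c) : Continuous (ext0 c) := by
  rw [continuous_iff_continuousAt]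
  intro g
  by_cases hg : g ∈ H
  · have h1 : ContinuousOn (ext0 c) (H : Set (GK K)) := by
      rw [continuousOn_iff_continuous_domRestrict]
      refine hc.congr fun x => ?_
      exact (ext0_mem c x.2).symm
    exact h1.continuousAt (hH.mem_nhds hg)
  · have h1 : (ext0 c) =ᶠ[nhds g] fun _ => 0 := by
      have h2 : ((H : Set (GK K))ᶜ) ∈ nhds g :=
        (Subgroup.isClosed_of_isOpen H hH).isOpen_compl.mem_nhds hg
      filter_upwards [h2] with x hx
      unfold ext0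
      exact dif_neg hx
    exact (continuousAt_const (y := (0 : ℚ_[2]))).congr h1.symm

variable {H : Subgroup (GK K)} [Fintype (GK K ⧸ H)]

theorem trf_sum {η : GK K → ℚ_[2]} {c : H → ℚ_[2]} (g : GK K) :
    trf (H := H) η (ext0 c) g =
      ∑ q : GK K ⧸ H, ∑ q' : GK K ⧸ H, η q'.out * ext0 c (q'.out⁻¹ * g * q.out) := by
  unfold trf
  refine Finset.sum_congr rfl fun q _ => ?_
  symm
  refine Finset.sum_eq_single (g • q) ?_ fun h => absurd (Finset.mem_univ _) h
  intro q' _ hq'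
  have h1 : q'.out⁻¹ * g * q.out ∉ H := by
    intro h
    apply hq'
    rw [mul_assoc, ← QuotientGroup.eq, QuotientGroup.out_eq'] at h
    rw [h]
    conv_rhs => rw [← QuotientGroup.out_eq' q]
    rfl
  have h2 : ext0 c (q'.out⁻¹ * g * q.out) = 0 := by
    unfold ext0
    exact dif_neg h1
  rw [h2, mul_zero]

theorem trf_cont (hH : IsOpen (H : Set (GK K))) {η : GK K → ℚ_[2]} {c : H → ℚ_[2]}
    (hc : Continuous c) : Continuous (trf (H := H) η (ext0 c)) := by
  have h1 : trf (H := H) η (ext0 c) = fun g =>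
      ∑ q : GK K ⧸ H, ∑ q' : GK K ⧸ H, η q'.out * ext0 c (q'.out⁻¹ * g * q.out) :=
    funext fun g => trf_sum g
  rw [h1]
  refine continuous_finsetSum _ fun q _ => continuous_finsetSum _ fun q' _ => ?_
  refine continuous_const.mul ((ext0_cont hH hc).comp ?_)
  exact (continuous_const.mul continuous_id).mul continuous_const

/-- **The transfer of a Selmer cocycle is a Selmer cocycle.** -/
theorem trf_sel [CharZero K] [hn : H.Normal] (hH : IsOpen (H : Set (GK K))) {s : K}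
    {χ ψ : GK K →* ℤ_[2]ˣ} (hψ : ∀ σ ∈ H, ψ σ = 1) {c : H → ℚ_[2]} (hc : SelOn s χ H c) :
    IsSel s (χ * ψ) (trf (H := H) (val (χ * ψ)) (ext0 c)) := by
  have hη : ∀ h ∈ H, val (χ * ψ) h = val χ h := by
    intro h hh
    unfold val
    rw [MonoidHom.mul_apply, hψ h hh, mul_one]
  have hcoc : ∀ σ ∈ H, ∀ τ ∈ H, ext0 c (σ * τ) = ext0 c σ + val χ σ * ext0 c τ := by
    intro σ hσ τ hτ
    rw [ext0_mem c hσ, ext0_mem c hτ, ext0_mem c (H.mul_mem hσ hτ)]
    exact hc.coc ⟨σ, hσ⟩ ⟨τ, hτ⟩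
  have hfin : H.FiniteIndex := by
    have : Finite (GK K ⧸ H) := Finite.of_fintype _
    exact Subgroup.finiteIndex_of_finite_quotient
  have htr := trf_coc (H := H) (η := val (χ * ψ)) (χ := val χ) (val_inv χ) (val_mul χ) (val_mul (χ * ψ)) hη
    (val_inv (χ * ψ)) hcoc
  -- the local conditions
  have key : ∀ (I : Subgroup (GK K)) (I' : GK K → Set (GK K)),
      (∀ r σ : GK K, σ ∈ I → r⁻¹ * σ * r ∈ I' r) →
      (∀ r : GK K, ∃ y : ℚ_[2], ∀ σ : H, (σ : GK K) ∈ I' r → c σ = (val χ σ - 1) * y) →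
      ∃ y : ℚ_[2], ∀ σ ∈ I, trf (H := H) (val (χ * ψ)) (ext0 c) σ = (val (χ * ψ) σ - 1) * y := by
    intro I I' h1 h2
    refine avg (I := I) (H := H) (val_one _) (val_mul _) hfin (fun σ _ τ _ => htr σ τ) ?_
    choose y hy using h2
    refine ⟨∑ q : GK K ⧸ H, val (χ * ψ) q.out * y q.out, fun σ hσ hσH => ?_⟩
    rw [trf_res hσH, hη σ hσH, Finset.mul_sum]
    refine Finset.sum_congr rfl fun q _ => ?_
    have h3 : q.out⁻¹ * σ * q.out ∈ H := by
      have := hn.conj_mem σ hσH q.out⁻¹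
      rwa [inv_inv] at this
    rw [ext0_mem c h3, hy q.out ⟨_, h3⟩ (h1 q.out σ hσ)]
    show val (χ * ψ) q.out * ((val χ (q.out⁻¹ * σ * q.out) - 1) * y q.out) = _
    rw [val_conj]
    ring
  refine ⟨trf_cont hH hc.cont, htr, fun Q hQ h2 => ?_, fun Q hQ h2 => ?_⟩
  · exact key (IneS Q) (fun r => Ine (cj r Q)) (fun r σ h => ine_cj h)
      fun r => hc.ine (cj r Q) (cj_max hQ) fun h => h2 (two_cj.1 h)
  · exact key (DecS Q) (fun r => Dec (cj r Q)) (fun r σ h => dec_cj h)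
      fun r => hc.dec (cj r Q) (cj_max hQ) (above_cj h2)

/-- the restriction of a Selmer cocycle is a Selmer cocycle -/
theorem sel_res {s : K} {χ : GK K →* ℤ_[2]ˣ} {C : GK K → ℚ_[2]} (hC : IsSel s χ C)
    (H : Subgroup (GK K)) : SelOn s χ H fun σ => C σ := by
  refine ⟨hC.cont.comp continuous_subtype_val, fun σ τ => hC.coc _ _, fun Q hQ h2 => ?_,
    fun Q hQ h2 => ?_⟩
  · obtain ⟨y, hy⟩ := hC.ine Q hQ h2
    exact ⟨y, fun σ hσ => hy _ hσ⟩
  · obtain ⟨y, hy⟩ := hC.dec Q hQ h2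
    exact ⟨y, fun σ hσ => hy _ hσ⟩

/-- **The decomposition of a Selmer cocycle over the extension.** -/
theorem decomp [CharZero K] [hn : H.Normal] (hH : IsOpen (H : Set (GK K))) {s : K}
    {χ : GK K →* ℤ_[2]ˣ} {J : Type} [Fintype J] {ψ : J → (GK K →* ℤ_[2]ˣ)}
    (hψ : ∀ j, ∀ σ ∈ H, ψ j σ = 1) (hsum : ∀ σ, σ ∉ H → ∑ j, val (ψ j) σ = 0) (hJ : Nonempty J)
    {c : H → ℚ_[2]} (hc : SelOn s χ H c) :
    ∃ C : J → GK K → ℚ_[2], (∀ j, IsSel s (χ * ψ j) (C j)) ∧
      ∃ y : ℚ_[2], ∀ σ : H, c σ = ∑ j, C j σ + (val χ σ - 1) * y := by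
  obtain ⟨m, hm⟩ : ∃ m : ℚ_[2], m = Fintype.card J := ⟨_, rfl⟩
  have hm0 : m ≠ 0 := by
    rw [hm, Nat.cast_ne_zero]
    exact Fintype.card_ne_zero
  have h1 : ∀ j, IsSel s (χ * ψ j) (fun g => m⁻¹ * trf (H := H) (val (χ * ψ j)) (ext0 c) g) := by
    intro j
    exact (Sel s (χ * ψ j)).smul_mem m⁻¹ (trf_sel hH (hψ j) hc)
  obtain ⟨u, hu⟩ : ∃ u : GK K, u = (QuotientGroup.mk (s := H) 1 : GK K ⧸ H).out := ⟨_, rfl⟩
  have huH : u ∈ H := by
    have h2 : ((u : GK K) : GK K ⧸ H) = ((1 : GK K) : GK K ⧸ H) := by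
      rw [hu]
      exact QuotientGroup.out_eq' _
    rw [QuotientGroup.eq, mul_one] at h2
    have := H.inv_mem h2
    rwa [inv_inv] at this
  refine ⟨fun j g => m⁻¹ * trf (H := H) (val (χ * ψ j)) (ext0 c) g, h1, -(ext0 c u), fun σ => ?_⟩
  have h2 : ∀ j, trf (H := H) (val (χ * ψ j)) (ext0 c) (σ : GK K) =
      ∑ q : GK K ⧸ H, val (ψ j) q.out * (val χ q.out * ext0 c (q.out⁻¹ * σ * q.out)) := by
    intro j
    rw [trf_res σ.2]
    refine Finset.sum_congr rfl fun q _ => ?_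
    rw [val_mul']
    ring
  have h3 : ∑ j, trf (H := H) (val (χ * ψ j)) (ext0 c) (σ : GK K) =
      m * (val χ u * ext0 c (u⁻¹ * σ * u)) := by
    rw [Finset.sum_congr rfl fun j _ => h2 j, Finset.sum_comm]
    have h4 : ∀ q : GK K ⧸ H, ∑ j, val (ψ j) q.out * (val χ q.out * ext0 c (q.out⁻¹ * σ * q.out)) =
        (∑ j, val (ψ j) q.out) * (val χ q.out * ext0 c (q.out⁻¹ * σ * q.out)) := fun q =>
      (Finset.sum_mul _ _ _).symm
    rw [Finset.sum_congr rfl fun q _ => h4 q,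
      Finset.sum_eq_single (QuotientGroup.mk (s := H) 1 : GK K ⧸ H)]
    · rw [← hu]
      have h5 : ∑ j, val (ψ j) u = m := by
        have h6 : ∀ j, val (ψ j) u = 1 := by
          intro j
          unfold val
          rw [hψ j u huH, Units.val_one, PadicInt.coe_one]
        rw [Finset.sum_congr rfl fun j _ => h6 j, Finset.sum_const, Finset.card_univ, hm,
          nsmul_eq_mul, mul_one]
      rw [h5]
    · intro q _ hq
      have h5 : q.out ∉ H := by
        intro h6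
        apply hq
        conv_lhs => rw [← QuotientGroup.out_eq' q]
        show ((q.out : GK K) : GK K ⧸ H) = ((1 : GK K) : GK K ⧸ H)
        rw [QuotientGroup.eq, mul_one]
        exact H.inv_mem h6
      rw [hsum _ h5, zero_mul]
    · exact fun h => absurd (Finset.mem_univ _) h
  have h5 : ext0 c (u⁻¹ * σ * u) = ext0 c u⁻¹ + val χ u⁻¹ * (ext0 c σ + val χ σ * ext0 c u) := by
    rw [mul_assoc, ext0_mem c (H.mul_mem (H.inv_mem huH) (H.mul_mem σ.2 huH)),
      ext0_mem c (H.inv_mem huH), ext0_mem c σ.2, ext0_mem c huH]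
    have h6 := hc.coc ⟨u⁻¹, H.inv_mem huH⟩ (σ * ⟨u, huH⟩)
    have h7 := hc.coc σ ⟨u, huH⟩
    rw [h7] at h6
    exact h6
  have h6 : ext0 c u⁻¹ = -(val χ u⁻¹ * ext0 c u) := by
    have h7 := hc.coc ⟨u⁻¹, H.inv_mem huH⟩ ⟨u, huH⟩
    have h8 : (⟨u⁻¹, H.inv_mem huH⟩ * ⟨u, huH⟩ : H) = 1 := by
      apply Subtype.ext
      exact inv_mul_cancel u
    have h9 : c 1 = 0 := by
      have h10 := hc.coc 1 1
      rw [mul_one] at h10
      have h11 : val χ ((1 : H) : GK K) = 1 := val_one χ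
      rw [h11, one_mul] at h10
      linear_combination -h10
    rw [h8, h9] at h7
    rw [ext0_mem c (H.inv_mem huH), ext0_mem c huH]
    linear_combination -h7
  have h7 : ext0 c (σ : GK K) = c σ := ext0_mem c σ.2
  have h8 := val_inv χ u
  show c σ = ∑ j, m⁻¹ * trf (H := H) (val (χ * ψ j)) (ext0 c) (σ : GK K) + (val χ σ - 1) * -(ext0 c u)
  rw [← Finset.mul_sum, h3, h5, h6, h7, ← mul_assoc, inv_mul_cancel₀ hm0, one_mul]
  linear_combination (-c σ - (val χ σ - 1) * ext0 c u) * h8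

end

end Q283.LP
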