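import Pool.Agent.Q283.LP.W5

/-!
# Selmer groups over multiquadratic extensions: dimensions
-/

set_option autoImplicit false
set_option linter.unusedSectionVars false
set_option linter.unusedVariables false

open scoped Classical

namespace Q283.LP

open Pool.Agent.Q274.BKC (GK OB Dec Ine val TrivOn AboveC IsSel Sel B1 B1s H1f)

section
variable {K : Type} [Field K]

/-- the Selmer cocycles over the fixed field of `H` -/
def SelO (s : K) (χ : GK K →* ℤ_[2]ˣ) (H : Subgroup (GK K)) : Submodule ℚ_[2] (H → ℚ_[2]) where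
  carrier := {c | SelOn s χ H c}
  add_mem' := by
    rintro a b ha hb
    refine ⟨ha.cont.add hb.cont, fun σ τ => ?_, fun Q h1 h2 => ?_, fun Q h1 h2 => ?_⟩
    · simp only [Pi.add_apply, ha.coc, hb.coc]; ring
    · obtain ⟨y, hy⟩ := ha.ine Q h1 h2
      obtain ⟨z, hz⟩ := hb.ine Q h1 h2
      exact ⟨y + z, fun σ hσ => by rw [Pi.add_apply, hy σ hσ, hz σ hσ]; ring⟩
    · obtain ⟨y, hy⟩ := ha.dec Q h1 h2
      obtain ⟨z, hz⟩ := hb.dec Q h1 h2
      exact ⟨y + z, fun σ hσ => by rw [Pi.add_apply, hy σ hσ, hz σ hσ]; ring⟩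
  zero_mem' := by
    refine ⟨continuous_const, fun σ τ => by simp, fun Q _ _ => ⟨0, fun σ _ => by simp⟩,
      fun Q _ _ => ⟨0, fun σ _ => by simp⟩⟩
  smul_mem' := by
    rintro k a ha
    refine ⟨ha.cont.const_smul k, fun σ τ => ?_, fun Q h1 h2 => ?_, fun Q h1 h2 => ?_⟩
    · simp only [Pi.smul_apply, ha.coc, smul_eq_mul]; ring
    · obtain ⟨y, hy⟩ := ha.ine Q h1 h2
      exact ⟨k * y, fun σ hσ => by rw [Pi.smul_apply, hy σ hσ, smul_eq_mul]; ring⟩
    · obtain ⟨y, hy⟩ := ha.dec Q h1 h2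
      exact ⟨k * y, fun σ hσ => by rw [Pi.smul_apply, hy σ hσ, smul_eq_mul]; ring⟩

/-- the coboundaries -/
noncomputable def B1O (χ : GK K →* ℤ_[2]ˣ) (H : Subgroup (GK K)) : Submodule ℚ_[2] (H → ℚ_[2]) :=
  Submodule.span ℚ_[2] {fun σ : H => val χ (σ : GK K) - 1}

theorem mem_B1O {χ : GK K →* ℤ_[2]ˣ} {H : Subgroup (GK K)} {c : H → ℚ_[2]} :
    c ∈ B1O χ H ↔ ∃ y : ℚ_[2], ∀ σ : H, c σ = (val χ σ - 1) * y := by
  unfold B1O
  rw [Submodule.mem_span_singleton]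
  constructor
  · rintro ⟨y, rfl⟩
    exact ⟨y, fun σ => by rw [Pi.smul_apply, smul_eq_mul, mul_comm]⟩
  · rintro ⟨y, hy⟩
    exact ⟨y, funext fun σ => by rw [Pi.smul_apply, smul_eq_mul, mul_comm, hy]⟩

theorem mem_B1 {χ : GK K →* ℤ_[2]ˣ} {c : GK K → ℚ_[2]} :
    c ∈ B1 χ ↔ ∃ y : ℚ_[2], ∀ σ, c σ = (val χ σ - 1) * y := by
  unfold B1
  rw [Submodule.mem_span_singleton]
  constructor
  · rintro ⟨y, rfl⟩
    exact ⟨y, fun σ => by rw [Pi.smul_apply, smul_eq_mul, mul_comm]⟩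
  · rintro ⟨y, hy⟩
    exact ⟨y, funext fun σ => by rw [Pi.smul_apply, smul_eq_mul, mul_comm, hy]⟩

/-- the Selmer group over the fixed field of `H` -/
abbrev H1fO (s : K) (χ : GK K →* ℤ_[2]ˣ) (H : Subgroup (GK K)) : Type :=
  SelO s χ H ⧸ (B1O χ H).comap (SelO s χ H).subtype

/-- the restriction of the Selmer cocycles, for a character which agrees on `H` -/
noncomputable def rsL (s : K) {χ χ' : GK K →* ℤ_[2]ˣ} {H : Subgroup (GK K)}
    (h : ∀ σ ∈ H, val χ' σ = val χ σ) : Sel s χ' →ₗ[ℚ_[2]] SelO s χ H where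
  toFun C := ⟨fun σ => C.1 σ, by
    have h1 := sel_res C.2 H
    refine ⟨h1.cont, fun σ τ => ?_, fun Q hQ h2 => ?_, fun Q hQ h2 => ?_⟩
    · have := h1.coc σ τ
      rwa [h _ σ.2] at this
    · obtain ⟨y, hy⟩ := h1.ine Q hQ h2
      exact ⟨y, fun σ hσ => by rw [← h _ σ.2]; exact hy σ hσ⟩
    · obtain ⟨y, hy⟩ := h1.dec Q hQ h2
      exact ⟨y, fun σ hσ => by rw [← h _ σ.2]; exact hy σ hσ⟩⟩
  map_add' _ _ := rfl
  map_smul' _ _ := rfl

/-- the restriction of the Selmer groups -/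
noncomputable def rsH (s : K) {χ χ' : GK K →* ℤ_[2]ˣ} {H : Subgroup (GK K)}
    (h : ∀ σ ∈ H, val χ' σ = val χ σ) : H1f s χ' →ₗ[ℚ_[2]] H1fO s χ H :=
  Submodule.mapQ _ _ (rsL s h) (by
    intro C hC
    rw [Submodule.mem_comap, Submodule.mem_comap]
    obtain ⟨y, hy⟩ := mem_B1.1 (Submodule.mem_comap.1 hC)
    refine mem_B1O.2 ⟨y, fun σ => ?_⟩
    rw [← h _ σ.2]
    exact hy σ)

/-- the restriction is injective -/
theorem rsH_inj (s : K) {χ χ' : GK K →* ℤ_[2]ˣ} {H : Subgroup (GK K)} (hfin : H.FiniteIndex)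
    (h : ∀ σ ∈ H, val χ' σ = val χ σ) : Function.Injective (rsH s h) := by
  rw [← LinearMap.ker_eq_bot, Submodule.eq_bot_iff]
  intro x hx
  obtain ⟨C, rfl⟩ := Submodule.Quotient.mk_surjective _ x
  rw [LinearMap.mem_ker] at hx
  have h1 : rsL s h C ∈ (B1O χ H).comap (SelO s χ H).subtype :=
    (Submodule.Quotient.mk_eq_zero _).1 hx
  obtain ⟨y, hy⟩ := mem_B1O.1 (Submodule.mem_comap.1 h1)
  rw [Submodule.Quotient.mk_eq_zero]
  refine Submodule.mem_comap.2 (mem_B1.2 ?_)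
  obtain ⟨z, hz⟩ := avg (I := ⊤) (H := H) (val_one χ') (val_mul χ') hfin (C := C.1)
    (fun σ _ τ _ => C.2.coc σ τ) ⟨y, fun σ _ hσ => by
      rw [h σ hσ]
      exact hy ⟨σ, hσ⟩⟩
  exact ⟨z, fun σ => hz σ (Subgroup.mem_top _)⟩

section
variable {H : Subgroup (GK K)} [Fintype (GK K ⧸ H)] [CharZero K] [hn : H.Normal]

/-- **The dimension over the extension.** -/
theorem rank_over (hH : IsOpen (H : Set (GK K))) {s : K}
    {χ : GK K →* ℤ_[2]ˣ} {J : Type} [Fintype J] {ψ : J → (GK K →* ℤ_[2]ˣ)}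
    (hψ : ∀ j, ∀ σ ∈ H, ψ j σ = 1) (hsum : ∀ σ, σ ∉ H → ∑ j, val (ψ j) σ = 0) (hJ : Nonempty J) :
    Module.rank ℚ_[2] (H1fO s χ H) ≤ Cardinal.sum fun j => Module.rank ℚ_[2] (H1f s (χ * ψ j)) := by
  have hη : ∀ j, ∀ σ ∈ H, val (χ * ψ j) σ = val χ σ := by
    intro j σ hσ
    unfold val
    rw [MonoidHom.mul_apply, hψ j σ hσ, mul_one]
  obtain ⟨F, hF⟩ : ∃ F : ((j : J) → H1f s (χ * ψ j)) →ₗ[ℚ_[2]] H1fO s χ H,
    F = ∑ j, (rsH s (hη j)) ∘ₗ
      (LinearMap.proj j : ((j : J) → H1f s (χ * ψ j)) →ₗ[ℚ_[2]] H1f s (χ * ψ j)) := ⟨_, rfl⟩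
  have hsurj : Function.Surjective F := by
    intro x
    obtain ⟨c, rfl⟩ := Submodule.Quotient.mk_surjective _ x
    obtain ⟨C, hC, y, hy⟩ := decomp hH hψ hsum hJ c.2
    refine ⟨fun j => Submodule.Quotient.mk ⟨C j, hC j⟩, ?_⟩
    rw [hF, LinearMap.sum_apply]
    have h1 : ∀ j, ((rsH s (hη j)) ∘ₗ
        (LinearMap.proj j : ((j : J) → H1f s (χ * ψ j)) →ₗ[ℚ_[2]] H1f s (χ * ψ j)))
        (fun j => (Submodule.Quotient.mk (⟨C j, hC j⟩ : Sel s (χ * ψ j)) : H1f s (χ * ψ j))) =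
        (Submodule.Quotient.mk (rsL s (hη j) ⟨C j, hC j⟩) : H1fO s χ H) := fun j => rfl
    rw [Finset.sum_congr rfl fun j _ => h1 j]
    have h2 : ∑ j, (Submodule.Quotient.mk (rsL s (hη j) ⟨C j, hC j⟩) : H1fO s χ H) =
        Submodule.Quotient.mk (∑ j, rsL s (hη j) ⟨C j, hC j⟩) := by
      have := map_sum (Submodule.mkQ ((B1O χ H).comap (SelO s χ H).subtype))
        (fun j => rsL s (hη j) ⟨C j, hC j⟩) Finset.univ
      exact this.symm
    rw [h2, Submodule.Quotient.eq]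
    refine Submodule.mem_comap.2 (mem_B1O.2 ⟨-y, fun σ => ?_⟩)
    have h3 : ((∑ j, rsL s (hη j) ⟨C j, hC j⟩ : SelO s χ H) : H → ℚ_[2]) σ = ∑ j, C j σ := by
      rw [Submodule.coe_sum, Finset.sum_apply]
      rfl
    have h4 := hy σ
    show ((∑ j, rsL s (hη j) ⟨C j, hC j⟩ : SelO s χ H) : H → ℚ_[2]) σ - c.1 σ = _
    rw [h3, h4]
    ring
  refine (LinearMap.rank_le_of_surjective F hsurj).trans ?_
  have hfree : ∀ j, Module.Free ℚ_[2] (H1f s (χ * ψ j)) := fun j => Module.Free.of_divisionRing _ _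
  rw [rank_pi]

/-- **No new classes.** -/
theorem rsH_surj (hH : IsOpen (H : Set (GK K))) {s : K}
    {χ : GK K →* ℤ_[2]ˣ} {J : Type} [Fintype J] {ψ : J → (GK K →* ℤ_[2]ˣ)}
    (hψ : ∀ j, ∀ σ ∈ H, ψ j σ = 1) (hsum : ∀ σ, σ ∉ H → ∑ j, val (ψ j) σ = 0) (j₀ : J) (h₀ : ψ j₀ = 1)
    (hz : ∀ j, j ≠ j₀ → ∀ x : H1f s (χ * ψ j), x = 0) :
    Function.Surjective (rsH (H := H) s (χ := χ) (χ' := χ) fun _ _ => rfl) := by
  intro x
  obtain ⟨c, rfl⟩ := Submodule.Quotient.mk_surjective _ x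
  obtain ⟨C, hC, y, hy⟩ := decomp hH hψ hsum ⟨j₀⟩ c.2
  have hC0 : IsSel s χ (C j₀) := by
    have h := hC j₀
    have e : χ * ψ j₀ = χ := by
      rw [h₀]
      exact mul_one χ
    rwa [e] at h
  have h1 : ∀ j, ∃ z : ℚ_[2], j ≠ j₀ → ∀ σ : H, C j σ = (val χ σ - 1) * z := by
    intro j
    by_cases hj : j = j₀
    · exact ⟨0, fun h => absurd hj h⟩
    · have h2 := hz j hj (Submodule.Quotient.mk ⟨C j, hC j⟩)
      rw [Submodule.Quotient.mk_eq_zero] at h2
      obtain ⟨z, hz'⟩ := mem_B1.1 (Submodule.mem_comap.1 h2)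
      refine ⟨z, fun _ σ => ?_⟩
      have h3 : val (χ * ψ j) (σ : GK K) = val χ σ := by
        unfold val
        rw [MonoidHom.mul_apply, hψ j σ σ.2, mul_one]
      rw [← h3]
      exact hz' σ
  choose z hz' using h1
  refine ⟨Submodule.Quotient.mk ⟨C j₀, hC0⟩, ?_⟩
  have h2 : (rsH (H := H) s (χ := χ) (χ' := χ) fun _ _ => rfl) (Submodule.Quotient.mk ⟨C j₀, hC0⟩) =
      (Submodule.Quotient.mk (rsL s (χ := χ) (χ' := χ) (fun _ _ => rfl) ⟨C j₀, hC0⟩) : H1fO s χ H) := rfl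
  rw [h2, Submodule.Quotient.eq]
  refine Submodule.mem_comap.2 (mem_B1O.2 ⟨-(∑ j ∈ Finset.univ.erase j₀, z j) - y, fun σ => ?_⟩)
  show C j₀ σ - c.1 σ = _
  rw [hy σ, ← Finset.add_sum_erase Finset.univ (fun j => C j (σ : GK K)) (Finset.mem_univ j₀),
    Finset.sum_congr rfl fun j hj => hz' j (Finset.ne_of_mem_erase hj) σ, ← Finset.mul_sum]
  ring

/-- **The invariants over the extension.** -/
theorem inv_over {χ : GK K →* ℤ_[2]ˣ} {J : Type} [Fintype J] {ψ : J → (GK K →* ℤ_[2]ˣ)}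
    (hψ : ∀ j, ∀ σ ∈ H, ψ j σ = 1) (hsum : ∀ σ, σ ∉ H → ∑ j, val (ψ j) σ = 0) (hJ : Nonempty J)
    (hz : ∀ j, ∀ x : ℚ_[2], (∀ σ, val (χ * ψ j) σ * x = x) → x = 0)
    {x : ℚ_[2]} (hx : ∀ σ ∈ H, val χ σ * x = x) : x = 0 := by
  by_contra hx0
  have h1 : ∀ σ ∈ H, val χ σ = 1 := by
    intro σ hσ
    exact mul_right_cancel₀ hx0 ((hx σ hσ).trans (one_mul x).symm)
  have hη : ∀ j, ∀ σ ∈ H, val (χ * ψ j) σ = 1 := by
    intro j σ hσ
    unfold val
    rw [MonoidHom.mul_apply, hψ j σ hσ, mul_one]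
    exact h1 σ hσ
  have h2 : ∀ j, ∑ q : GK K ⧸ H, val (χ * ψ j) q.out = 0 := by
    intro j
    have h3 : ∀ g : GK K, val (χ * ψ j) g * ∑ q : GK K ⧸ H, val (χ * ψ j) q.out =
        ∑ q : GK K ⧸ H, val (χ * ψ j) q.out := by
      intro g
      have h4 : ∀ q : GK K ⧸ H, val (χ * ψ j) g * val (χ * ψ j) q.out = val (χ * ψ j) (g • q).out := by
        intro q
        have h5 := hη j _ (out_mem g q)
        rw [val_mul, val_mul] at h5
        have h6 := val_inv (χ * ψ j) (g • q).out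
        linear_combination (val (χ * ψ j) (g • q).out) * h5 -
          (val (χ * ψ j) g * val (χ * ψ j) q.out) * h6
      rw [Finset.mul_sum, Finset.sum_congr rfl fun q _ => h4 q]
      exact Equiv.sum_comp (MulAction.toPerm g : Equiv.Perm (GK K ⧸ H)) fun q => val (χ * ψ j) q.out
    exact hz j _ h3
  have h3 : ∑ j, ∑ q : GK K ⧸ H, val (χ * ψ j) q.out = 0 := by
    rw [Finset.sum_congr rfl fun j _ => h2 j, Finset.sum_const_zero]
  rw [Finset.sum_comm] at h3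
  have h4 : ∀ q : GK K ⧸ H, ∑ j, val (χ * ψ j) q.out = val χ q.out * ∑ j, val (ψ j) q.out := by
    intro q
    rw [Finset.mul_sum]
    exact Finset.sum_congr rfl fun j _ => val_mul' χ (ψ j) q.out
  rw [Finset.sum_congr rfl fun q _ => h4 q,
    Finset.sum_eq_single (QuotientGroup.mk (s := H) 1 : GK K ⧸ H)] at h3
  · have huH : (QuotientGroup.mk (s := H) 1 : GK K ⧸ H).out ∈ H := by
      have h5 : (((QuotientGroup.mk (s := H) 1 : GK K ⧸ H).out : GK K) : GK K ⧸ H) =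
          ((1 : GK K) : GK K ⧸ H) := QuotientGroup.out_eq' _
      rw [QuotientGroup.eq, mul_one] at h5
      have := H.inv_mem h5
      rwa [inv_inv] at this
    rw [h1 _ huH, one_mul] at h3
    have h6 : ∀ j, val (ψ j) (QuotientGroup.mk (s := H) 1 : GK K ⧸ H).out = 1 := by
      intro j
      unfold val
      rw [hψ j _ huH, Units.val_one, PadicInt.coe_one]
    rw [Finset.sum_congr rfl fun j _ => h6 j, Finset.sum_const, Finset.card_univ, nsmul_eq_mul,
      mul_one, Nat.cast_eq_zero] at h3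
    exact Fintype.card_ne_zero h3
  · intro q _ hq
    have h5 : q.out ∉ H := by
      intro h6
      apply hq
      conv_lhs => rw [← QuotientGroup.out_eq' q]
      show ((q.out : GK K) : GK K ⧸ H) = ((1 : GK K) : GK K ⧸ H)
      rw [QuotientGroup.eq, mul_one]
      exact H.inv_mem h6
    rw [hsum _ h5, mul_zero]
  · exact fun h => absurd (Finset.mem_univ _) h

end

/-! ### The multiquadratic extension -/

/-- `ψ` is the quadratic character of `a` -/
def IsQd (a : K) (ψ : GK K →* ℤ_[2]ˣ) : Prop :=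
  ∀ y : AlgebraicClosure K, y ^ 2 = algebraMap K (AlgebraicClosure K) a →
    ∀ σ : GK K, (σ y = y ∧ ψ σ = 1) ∨ (σ y = -y ∧ ψ σ = -1)

variable {n : ℕ}

/-- the multiquadratic extension -/
noncomputable def LF (d : Fin n → K) : IntermediateField K (AlgebraicClosure K) :=
  IntermediateField.adjoin K {y | ∃ i, y ^ 2 = algebraMap K (AlgebraicClosure K) (d i)}

theorem exists_root (a : K) : ∃ y : AlgebraicClosure K, y ^ 2 = algebraMap K (AlgebraicClosure K) a :=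
  IsAlgClosed.exists_pow_nat_eq _ (by norm_num)

theorem mem_fix [CharZero K] {d : Fin n → K} (hd : ∀ i, d i ≠ 0) {ψ : Fin n → (GK K →* ℤ_[2]ˣ)}
    (hψ : ∀ i, IsQd (d i) (ψ i)) (σ : GK K) :
    σ ∈ (LF d).fixingSubgroup ↔ ∀ i, ψ i σ = 1 := by
  rw [IntermediateField.mem_fixingSubgroup_iff]
  constructor
  · intro h i
    obtain ⟨y, hy⟩ := exists_root (d i)
    have h1 : σ y = y := h y (IntermediateField.subset_adjoin K _ ⟨i, hy⟩)
    rcases hψ i y hy σ with h2 | h2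
    · exact h2.2
    · exfalso
      have h3 : y = -y := h1.symm.trans h2.1
      have h4 : y = 0 := by
        have h5 : (2 : AlgebraicClosure K) * y = 0 := by linear_combination h3
        exact (mul_eq_zero.1 h5).resolve_left two_ne_zero
      rw [h4, zero_pow two_ne_zero] at hy
      exact hd i ((map_eq_zero _).1 hy.symm)
  · intro h x hx
    unfold LF at hx
    have h1 : IntermediateField.adjoin K {y | ∃ i, y ^ 2 = algebraMap K (AlgebraicClosure K) (d i)} ≤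
        IntermediateField.fixedField (Subgroup.zpowers σ) := by
      rw [IntermediateField.adjoin_le_iff]
      rintro y ⟨i, hy⟩
      have h2 : σ y = y := by
        rcases hψ i y hy σ with h2 | h2
        · exact h2.1
        · exfalso
          have h3 := h2.2
          rw [h i] at h3
          have h4 := congrArg (fun z : ℤ_[2]ˣ => (z : ℤ_[2])) h3
          rw [Units.val_one, Units.val_neg, Units.val_one] at h4
          have h5 : (2 : ℤ_[2]) = 0 := by linear_combination h4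
          exact two_ne_zero h5
      rintro ⟨τ, hτ⟩
      obtain ⟨m, rfl⟩ := Subgroup.mem_zpowers_iff.1 hτ
      show (σ ^ m) • y = y
      have h3 : σ ∈ MulAction.stabilizer (GK K) y := h2
      exact (MulAction.stabilizer (GK K) y).zpow_mem h3 m
    have h2 := h1 hx
    exact h2 ⟨σ, Subgroup.mem_zpowers σ⟩

end

end Q283.LP
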