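import Pool.Agent.Q283.LP.W6

/-!
# Selmer groups over multiquadratic extensions: the extension
-/

set_option autoImplicit false
set_option linter.unusedSectionVars false
set_option linter.unusedVariables false

open scoped Classical

namespace Q283.LP

open Pool.Agent.Q274.BKC (GK OB Dec Ine val TrivOn AboveC IsSel Sel B1 B1s H1f)

section
variable {K : Type} [Field K] [CharZero K] {n : ℕ}

theorem qd_pm {a : K} {ψ : GK K →* ℤ_[2]ˣ} (h : IsQd a ψ) (σ : GK K) : ψ σ = 1 ∨ ψ σ = -1 := by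
  obtain ⟨y, hy⟩ := exists_root a
  exact (h y hy σ).imp (fun h => h.2) fun h => h.2

theorem val_pm {a : K} {ψ : GK K →* ℤ_[2]ˣ} (h : IsQd a ψ) {σ : GK K} (hσ : ψ σ ≠ 1) :
    val ψ σ = -1 := by
  unfold val
  rw [(qd_pm h σ).resolve_left hσ, Units.val_neg, Units.val_one, PadicInt.coe_neg, PadicInt.coe_one]

/-- the products of the characters -/
theorem val_prodT (ψ : Fin n → (GK K →* ℤ_[2]ˣ)) (T : Finset (Fin n)) (σ : GK K) :
    val (∏ i ∈ T, ψ i) σ = ∏ i ∈ T, val (ψ i) σ := by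
  induction T using Finset.induction_on with
  | empty =>
    rw [Finset.prod_empty, Finset.prod_empty]
    unfold val
    rw [MonoidHom.one_apply, Units.val_one, PadicInt.coe_one]
  | @insert a T ha ih => rw [Finset.prod_insert ha, Finset.prod_insert ha, val_mul', ih]

theorem prodT_one {ψ : Fin n → (GK K →* ℤ_[2]ˣ)} {σ : GK K} (h : ∀ i, ψ i σ = 1) (T : Finset (Fin n)) :
    (∏ i ∈ T, ψ i) σ = 1 := by
  induction T using Finset.induction_on with
  | empty => rw [Finset.prod_empty, MonoidHom.one_apply]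
  | @insert a T ha ih => rw [Finset.prod_insert ha, MonoidHom.mul_apply, h a, ih, mul_one]

theorem sum_T {d : Fin n → K} {ψ : Fin n → (GK K →* ℤ_[2]ˣ)} (hψ : ∀ i, IsQd (d i) (ψ i)) {σ : GK K}
    (h : ¬ ∀ i, ψ i σ = 1) : ∑ T : Finset (Fin n), val (∏ i ∈ T, ψ i) σ = 0 := by
  have h1 : ∑ T : Finset (Fin n), val (∏ i ∈ T, ψ i) σ = ∏ i, (1 + val (ψ i) σ) := by
    rw [Finset.prod_one_add, Finset.powerset_univ]
    exact Finset.sum_congr rfl fun T _ => val_prodT ψ T σ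
  rw [h1]
  push Not at h
  obtain ⟨i, hi⟩ := h
  refine Finset.prod_eq_zero (Finset.mem_univ i) ?_
  rw [val_pm (hψ i) hi]
  ring

/-- the product of quadratic characters -/
theorem qd_mul {a b : K} {ψ φ : GK K →* ℤ_[2]ˣ} (ha : IsQd a ψ) (hb : IsQd b φ) (hb0 : b ≠ 0) :
    IsQd (a * b) (ψ * φ) := by
  intro y hy σ
  obtain ⟨z, hz⟩ := exists_root b
  have hz0 : z ≠ 0 := by
    rintro rfl
    rw [zero_pow two_ne_zero] at hz
    exact hb0 ((map_eq_zero _).1 hz.symm)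
  have hw : (y * z⁻¹) ^ 2 = algebraMap K (AlgebraicClosure K) a := by
    rw [mul_pow, inv_pow, hy, hz, map_mul]
    have : algebraMap K (AlgebraicClosure K) b ≠ 0 := fun h => hb0 ((map_eq_zero _).1 h)
    field_simp
  have h1 := ha _ hw σ
  have h2 := hb _ hz σ
  rw [map_mul, map_inv₀] at h1
  rw [MonoidHom.mul_apply]
  rcases h1 with ⟨a1, a2⟩ | ⟨a1, a2⟩ <;> rcases h2 with ⟨b1, b2⟩ | ⟨b1, b2⟩
  · left
    rw [b1] at a1
    exact ⟨mul_right_cancel₀ (inv_ne_zero hz0) a1, by rw [a2, b2, mul_one]⟩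
  · right
    rw [b1, inv_neg, mul_neg] at a1
    have h3 : σ y * z⁻¹ = -y * z⁻¹ := by linear_combination -a1
    exact ⟨mul_right_cancel₀ (inv_ne_zero hz0) h3, by rw [a2, b2, one_mul]⟩
  · right
    rw [b1] at a1
    have h3 : σ y * z⁻¹ = -y * z⁻¹ := by linear_combination a1
    exact ⟨mul_right_cancel₀ (inv_ne_zero hz0) h3, by rw [a2, b2, mul_one]⟩
  · left
    rw [b1, inv_neg, mul_neg] at a1
    have h3 : σ y * z⁻¹ = y * z⁻¹ := by linear_combination -a1
    exact ⟨mul_right_cancel₀ (inv_ne_zero hz0) h3, by rw [a2, b2, neg_mul_neg, one_mul]⟩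

theorem qd_one : IsQd (1 : K) 1 := by
  intro y hy σ
  left
  rw [map_one] at hy
  have h : (y - 1) * (y + 1) = 0 := by linear_combination hy
  refine ⟨?_, by rw [MonoidHom.one_apply]⟩
  rcases mul_eq_zero.1 h with h | h
  · rw [sub_eq_zero.1 h, map_one]
  · rw [eq_neg_of_add_eq_zero_left h, map_neg, map_one]

theorem qd_prod {d : Fin n → K} (hd : ∀ i, d i ≠ 0) {ψ : Fin n → (GK K →* ℤ_[2]ˣ)}
    (hψ : ∀ i, IsQd (d i) (ψ i)) (T : Finset (Fin n)) : IsQd (∏ i ∈ T, d i) (∏ i ∈ T, ψ i) := by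
  induction T using Finset.induction_on with
  | empty =>
    rw [Finset.prod_empty, Finset.prod_empty]
    exact qd_one
  | @insert a T ha ih =>
    rw [Finset.prod_insert ha, Finset.prod_insert ha]
    exact qd_mul (hψ a) ih (Finset.prod_ne_zero_iff.2 fun i _ => hd i)

theorem nfix {d : Fin n → K} (hd : ∀ i, d i ≠ 0) {ψ : Fin n → (GK K →* ℤ_[2]ˣ)}
    (hψ : ∀ i, IsQd (d i) (ψ i)) : ((LF d).fixingSubgroup).Normal := by
  refine ⟨fun σ hσ g => ?_⟩
  rw [mem_fix hd hψ] at hσ ⊢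
  intro i
  rw [map_mul, map_mul, map_inv, hσ i, mul_one, mul_inv_cancel]

theorem fix_fin {d : Fin n → K} (hd : ∀ i, d i ≠ 0) {ψ : Fin n → (GK K →* ℤ_[2]ˣ)}
    (hψ : ∀ i, IsQd (d i) (ψ i)) : ((LF d).fixingSubgroup).FiniteIndex := by
  have h1 : (LF d).fixingSubgroup = ⨅ i, (ψ i).ker := by
    ext σ
    rw [mem_fix hd hψ, Subgroup.mem_iInf]
    exact forall_congr' fun i => MonoidHom.mem_ker.symm
  rw [h1]
  have h2 : ∀ i, (ψ i).ker.FiniteIndex := by
    intro i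
    have h3 : Finite (ψ i).range := by
      have h4 : ((ψ i).range : Set ℤ_[2]ˣ) ⊆ {1, -1} := by
        rintro x ⟨σ, rfl⟩
        exact (qd_pm (hψ i) σ).imp (fun h => h) fun h => h
      exact (Set.Finite.subset (Set.toFinite _) h4).to_subtype
    exact Subgroup.finiteIndex_ker (ψ i)
  exact Subgroup.finiteIndex_iInf h2

theorem fix_open (d : Fin n → K) : IsOpen ((LF d).fixingSubgroup : Set (GK K)) := by
  have h1 : {y : AlgebraicClosure K | ∃ i, y ^ 2 = algebraMap K (AlgebraicClosure K) (d i)}.Finite := by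
    have h2 : {y : AlgebraicClosure K | ∃ i, y ^ 2 = algebraMap K (AlgebraicClosure K) (d i)} =
        ⋃ i, {y | y ^ 2 = algebraMap K (AlgebraicClosure K) (d i)} := by
      ext y
      rw [Set.mem_iUnion]
      rfl
    rw [h2]
    refine Set.finite_iUnion fun i => ?_
    obtain ⟨z, hz⟩ := exists_root (d i)
    refine (Set.toFinite {z, -z}).subset fun y hy => ?_
    have h3 : (y - z) * (y + z) = 0 := by
      have h4 : y ^ 2 = algebraMap K (AlgebraicClosure K) (d i) := hy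
      linear_combination h4 - hz
    rcases mul_eq_zero.1 h3 with h | h
    · exact Or.inl (sub_eq_zero.1 h)
    · exact Or.inr (eq_neg_of_add_eq_zero_left h)
  have h2 : FiniteDimensional K (LF d) := by
    unfold LF
    have : Finite {y : AlgebraicClosure K | ∃ i, y ^ 2 = algebraMap K (AlgebraicClosure K) (d i)} :=
      h1.to_subtype
    exact IntermediateField.finiteDimensional_adjoin fun x _ =>
      (AlgebraicClosure.isAlgebraic K).isAlgebraic x |>.isIntegral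
  exact IntermediateField.fixingSubgroup_isOpen (LF d)

/-- **The dimension over the multiquadratic extension.** -/
theorem rank_multi {d : Fin n → K} (hd : ∀ i, d i ≠ 0) {ψ : Fin n → (GK K →* ℤ_[2]ˣ)}
    (hψ : ∀ i, IsQd (d i) (ψ i)) {s : K} {χ : GK K →* ℤ_[2]ˣ} {b : Finset (Fin n) → ℕ}
    (hb : ∀ T, Module.rank ℚ_[2] (H1f s (χ * ∏ i ∈ T, ψ i)) ≤ ((b T : ℕ) : Cardinal)) :
    Module.rank ℚ_[2] (H1fO s χ (LF d).fixingSubgroup) ≤ ((∑ T, b T : ℕ) : Cardinal) := by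
  have hn := nfix hd hψ
  have hf := fix_fin hd hψ
  have hfq : Finite (GK K ⧸ (LF d).fixingSubgroup) := Subgroup.finite_quotient_of_finiteIndex
  obtain ⟨hF⟩ : Nonempty (Fintype (GK K ⧸ (LF d).fixingSubgroup)) := ⟨Fintype.ofFinite _⟩
  have h1 := rank_over (H := (LF d).fixingSubgroup) (fix_open d) (s := s) (χ := χ)
    (J := Finset (Fin n)) (ψ := fun T => ∏ i ∈ T, ψ i)
    (fun T σ hσ => prodT_one ((mem_fix hd hψ σ).1 hσ) T)
    (fun σ hσ => sum_T hψ fun h => hσ ((mem_fix hd hψ σ).2 h)) ⟨∅⟩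
  refine (h1.trans (Cardinal.sum_le_sum _ _ hb)).trans (le_of_eq ?_)
  have h2 : (Cardinal.sum fun T : Finset (Fin n) => ((b T : ℕ) : Cardinal)) =
      Cardinal.mk (Σ T : Finset (Fin n), Fin (b T)) := by
    rw [Cardinal.mk_sigma]
    congr 1
    funext T
    rw [Cardinal.mk_fintype, Fintype.card_fin]
  rw [h2, Cardinal.mk_fintype, Fintype.card_sigma]
  congr 1
  exact Finset.sum_congr rfl fun T _ => Fintype.card_fin _

/-- **The Selmer group does not grow.** -/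
theorem bij_multi {d : Fin n → K} (hd : ∀ i, d i ≠ 0) {ψ : Fin n → (GK K →* ℤ_[2]ˣ)}
    (hψ : ∀ i, IsQd (d i) (ψ i)) {s : K} {χ : GK K →* ℤ_[2]ˣ}
    (hz : ∀ T : Finset (Fin n), T.Nonempty → ∀ x : H1f s (χ * ∏ i ∈ T, ψ i), x = 0) :
    Function.Bijective (rsH (H := (LF d).fixingSubgroup) s (χ := χ) (χ' := χ) fun _ _ => rfl) := by
  have hn := nfix hd hψ
  have hf := fix_fin hd hψ
  have hfq : Finite (GK K ⧸ (LF d).fixingSubgroup) := Subgroup.finite_quotient_of_finiteIndex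
  obtain ⟨hF⟩ : Nonempty (Fintype (GK K ⧸ (LF d).fixingSubgroup)) := ⟨Fintype.ofFinite _⟩
  refine ⟨rsH_inj s hf _, rsH_surj (fix_open d) (J := Finset (Fin n)) (ψ := fun T => ∏ i ∈ T, ψ i)
    (fun T σ hσ => prodT_one ((mem_fix hd hψ σ).1 hσ) T)
    (fun σ hσ => sum_T hψ fun h => hσ ((mem_fix hd hψ σ).2 h)) ∅ Finset.prod_empty
    fun T hT => hz T (Finset.nonempty_of_ne_empty hT)⟩

/-- **The invariants.** -/
theorem inv_multi {d : Fin n → K} (hd : ∀ i, d i ≠ 0) {ψ : Fin n → (GK K →* ℤ_[2]ˣ)}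
    (hψ : ∀ i, IsQd (d i) (ψ i)) {χ : GK K →* ℤ_[2]ˣ}
    (hz : ∀ T : Finset (Fin n), ∀ x : ℚ_[2], (∀ σ, val (χ * ∏ i ∈ T, ψ i) σ * x = x) → x = 0)
    {x : ℚ_[2]} (hx : ∀ σ ∈ (LF d).fixingSubgroup, val χ σ * x = x) : x = 0 := by
  have hn := nfix hd hψ
  have hf := fix_fin hd hψ
  have hfq : Finite (GK K ⧸ (LF d).fixingSubgroup) := Subgroup.finite_quotient_of_finiteIndex
  obtain ⟨hF⟩ : Nonempty (Fintype (GK K ⧸ (LF d).fixingSubgroup)) := ⟨Fintype.ofFinite _⟩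
  exact inv_over (H := (LF d).fixingSubgroup) (J := Finset (Fin n)) (ψ := fun T => ∏ i ∈ T, ψ i)
    (fun T σ hσ => prodT_one ((mem_fix hd hψ σ).1 hσ) T)
    (fun σ hσ => sum_T hψ fun h => hσ ((mem_fix hd hψ σ).2 h)) ⟨∅⟩ hz hx

end

end Q283.LP
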