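import Pool.Agent.Q283.LP.W2
import Pool.Agent.Q283.LP.W3
import Pool.Agent.Q283.LP.W7

/-!
# Project LP (helper283), fourth version: the coranks inside the integers
-/

set_option autoImplicit false
set_option linter.unusedSectionVars false
set_option linter.unusedVariables false

open scoped Classical

namespace Q283.LP

open Finset Filter
open Pool.Agent.Q274.BKC (corank SP R n4)
open Q283.GM (RC Fam Kr rk mem_Kr HM hm_cls)
open Q155.NL (Cl Alm)
open Q283.GS (al)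

/-- the product modulo `8` -/
theorem prod_mod8 {S : Finset ℕ} (hS : ∀ p ∈ S, p % 4 = 1) :
    (∏ p ∈ S, p) % 8 = if ∑ p ∈ S, par5 p = 0 then 1 else 5 := by
  induction S using Finset.induction_on with
  | empty =>
    rw [prod_empty, sum_empty, if_pos rfl]
    rfl
  | @insert a S ha ih =>
    have h1 := ih fun p hp => hS p (mem_insert_of_mem hp)
    have h2 := hS a (mem_insert_self a S)
    rw [prod_insert ha, sum_insert ha, Nat.mul_mod, h1]
    have h3 : a % 8 = 1 ∨ a % 8 = 5 := by omega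
    have h4 : ∀ z : ZMod 2, z = 0 ∨ z = 1 := by decide
    unfold par5
    rcases h3 with h3 | h3 <;> rcases h4 (∑ p ∈ S, par5 p) with h5 | h5
    · unfold par5 at h5
      rw [h3, h5]
      decide
    · unfold par5 at h5
      rw [h3, h5]
      decide
    · unfold par5 at h5
      rw [h3, h5]
      decide
    · unfold par5 at h5
      rw [h3, h5]
      decide

/-- the members of the class -/
def W1 (d : ℕ) : Prop := Squarefree d ∧ G4 d

/-- the members `1` modulo `8` -/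
def W8 (d : ℕ) : Prop := W1 d ∧ d % 8 = 1

section
variable {q : ℕ} (hq : q.Prime) (h7 : q % 8 = 7)

theorem clP_iff (d : ℕ) : ClP (rhoP q hq h7).Φ par5 d ↔ W8 d := by
  unfold ClP W8
  rw [cl_iff4]
  refine and_congr_right fun h => ?_
  have h1 := prod_mod8 (S := d.primeFactors) fun p hp =>
    h.2 p (Nat.prime_of_mem_primeFactors hp) (Nat.dvd_of_mem_primeFactors hp)
  rw [Nat.prod_primeFactors_of_squarefree h.1] at h1
  by_cases h2 : ∑ p ∈ d.primeFactors, par5 p = 0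
  · rw [if_pos h2] at h1
    exact iff_of_true h2 h1
  · rw [if_neg h2] at h1
    exact iff_of_false h2 (by omega)

theorem W1_eq : Cl (rhoP q hq h7).Φ = W1 := funext fun D => propext (cl_iff4 hq h7 D)

end

theorem g4_sqn {n : ℕ} {N : ℕ} {d : Fin n → ℕ} (hN : W1 N) (hd : ∀ i, W1 (d i)) (T : Finset (Fin n)) :
    G4 (sqn (N * ∏ i ∈ T, d i)) := by
  intro p hp hpd
  have h0 : sqn (N * ∏ i ∈ T, d i) ≠ 0 := (sqn_sqf _).ne_zero
  have h1 : p ∈ (sqn (N * ∏ i ∈ T, d i)).primeFactors := Nat.mem_primeFactors.2 ⟨hp, hpd, h0⟩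
  rw [sqn_pf, mem_filter] at h1
  rcases hp.dvd_mul.1 (Nat.dvd_of_mem_primeFactors h1.1) with h | h
  · exact hN.2 p hp h
  · obtain ⟨i, -, hi⟩ := (hp.prime.dvd_finsetProd_iff _).1 h
    exact (hd i).2 p hp hi

theorem w1_sqn {n : ℕ} {N : ℕ} {d : Fin n → ℕ} (hN : W1 N) (hd : ∀ i, W1 (d i)) (T : Finset (Fin n)) :
    W1 (sqn (N * ∏ i ∈ T, d i)) := ⟨sqn_sqf _, g4_sqn hN hd T⟩

/-- modulo `8` -/
theorem sqn_mod8 {n : ℕ} {N : ℕ} {d : Fin n → ℕ} (hN : W1 N) (hd : ∀ i, W8 (d i)) (T : Finset (Fin n)) :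
    sqn (N * ∏ i ∈ T, d i) % 8 = N % 8 := by
  have h0 : N * ∏ i ∈ T, d i ≠ 0 := mul_ne_zero hN.1.ne_zero
    (Finset.prod_ne_zero_iff.2 fun i _ => (hd i).1.1.ne_zero)
  have h1 : (∏ i ∈ T, d i) % 8 = 1 := by
    clear h0
    induction T using Finset.induction_on with
    | empty =>
      rw [prod_empty]
      rfl
    | @insert a T ha ih => rw [prod_insert ha, Nat.mul_mod, (hd a).2, ih]
  have hodd : ∀ m : ℕ, G4 m → m ≠ 0 → m % 2 = 1 := by
    intro m hm hm0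
    by_contra h2
    have h3 : 2 ∣ m := Nat.dvd_of_mod_eq_zero (by omega)
    have := hm 2 Nat.prime_two h3
    omega
  have h2 : (N * ∏ i ∈ T, d i) % 8 = N % 8 := by rw [Nat.mul_mod, h1, mul_one, Nat.mod_mod]
  have h3 : N % 2 = 1 := hodd N hN.2 hN.1.ne_zero
  obtain ⟨c, hc, h⟩ : ∃ c : ℕ, c ≠ 0 ∧ N * ∏ i ∈ T, d i = sqn (N * ∏ i ∈ T, d i) * c ^ 2 := nat_sqf h0
  obtain ⟨a, ha⟩ : ∃ a, a = N * ∏ i ∈ T, d i := ⟨_, rfl⟩
  rw [← ha] at h h2 ⊢
  obtain ⟨b, hb⟩ : ∃ b, b = sqn a := ⟨_, rfl⟩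
  rw [← hb] at h ⊢
  rw [← h2, h]
  have h5 : c % 2 = 1 := by
    by_contra h6
    have h7 : c % 2 = 0 := by omega
    have h8 : (b * c ^ 2) % 2 = 0 := by
      rw [Nat.mul_mod, Nat.pow_mod, h7]
      rfl
    rw [← h] at h8
    omega
  have h6 : c ^ 2 % 8 = 1 := by
    have h7 : c % 8 = 1 ∨ c % 8 = 3 ∨ c % 8 = 5 ∨ c % 8 = 7 := by omega
    rw [Nat.pow_mod]
    rcases h7 with h | h | h | h <;> rw [h]
  rw [Nat.mul_mod, h6, mul_one, Nat.mod_mod]

/-- the tuples of divisors -/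
noncomputable def I8 (n D : ℕ) : Finset (Fin n → ℕ) :=
  Fintype.piFinset fun _ : Fin n => D.divisors.filter W8

theorem I8_eq {q : ℕ} (hq : q.Prime) (h7 : q % 8 = 7) (n D : ℕ) :
    IP (rhoP q hq h7).Φ par5 n D = I8 n D := by
  unfold IP I8 dvP
  refine congrArg (fun s : Finset ℕ => Fintype.piFinset fun _ : Fin n => s) ?_
  exact Finset.filter_congr fun d _ => clP_iff hq h7 d

theorem mem_I8 {n D : ℕ} (hD : D ≠ 0) {d : Fin n → ℕ} : d ∈ I8 n D ↔ ∀ i, W8 (d i) ∧ d i ∣ D := by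
  unfold I8
  rw [Fintype.mem_piFinset]
  refine forall_congr' fun i => ?_
  rw [mem_filter, Nat.mem_divisors]
  tauto

theorem I8_pos {n D : ℕ} (hD : D ≠ 0) : (0 : ℝ) < ((I8 n D).card : ℝ) := by
  have h : (I8 n D).Nonempty := ⟨fun _ => 1, (mem_I8 hD).2 fun _ =>
    ⟨⟨⟨squarefree_one, fun p hp h => absurd (Nat.dvd_one.1 h) hp.one_lt.ne'⟩, rfl⟩, one_dvd D⟩⟩
  exact_mod_cast Finset.card_pos.2 h

/-- the corank of a form -/
noncomputable def crk (q : ℕ) {n : ℕ} (N : ℕ) (T : Finset (Fin n)) (d : Fin n → ℕ) : ℕ :=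
  corank q (sqn (N * ∏ i ∈ T, d i))

/-- all the laws, for one `q` -/
structure Laws (q : ℕ) (S : ℕ → Prop) : Prop where
  law : ∀ (M n : ℕ) (N : Fin M → ℕ) (T : Fin M → Finset (Fin n)), (∀ j, W1 (N j)) →
    (∀ j, (T j).Nonempty) → (∀ j l, j ≠ l → ¬ (N j = N l ∧ T j = T l)) → ∀ ε : ℝ, 0 < ε →
    ∀ᶠ D in atTop, S D → ∀ R : Set (Fin M → ℕ),
      |cE (I8 n D) (fun d => (fun j => crk q (N j) (T j) d) ∈ R) - muR R * (I8 n D).card| ≤
        ε * (I8 n D).card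
  pat : ∀ (M n : ℕ) (N : Fin M → ℕ), (∀ j, W1 (N j)) → Function.Injective N → ∀ ε : ℝ, 0 < ε →
    ∀ᶠ D in atTop, S D → ∀ Q : Finset (Fin M),
      |cE (I8 n D) (fun d => IdN d ∧ ∀ j, ((∀ T : Finset (Fin n), T.Nonempty → crk q (N j) T d = 0) ↔
        j ∈ Q)) - (al 0 ^ (2 ^ n - 1)) ^ Q.card * (1 - al 0 ^ (2 ^ n - 1)) ^ (M - Q.card) *
          (I8 n D).card| ≤ ε * (I8 n D).card
  lln : ∀ (M n : ℕ) (N : Fin M → ℕ), (∀ j, W1 (N j)) → Function.Injective N → 0 < M → ∀ ε : ℝ,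
    0 < ε → ∀ᶠ D in atTop, S D → ∀ η : ℝ, 0 < η →
      cE (I8 n D) (fun d => η ≤ |(nJ (Fin M) (fun j => ∀ T : Finset (Fin n), T.Nonempty →
        crk q (N j) T d = 0) : ℝ) / M - al 0 ^ (2 ^ n - 1)|) ≤
        (2 * Real.exp (-(η ^ 2 * M / 4)) + ε) * (I8 n D).card
  dep : ∀ (n : ℕ) (ε : ℝ), 0 < ε → ∀ᶠ D in atTop, S D →
    cE (I8 n D) (fun d => ¬ IdN d) ≤ ε * (I8 n D).card

theorem laws_of {q : ℕ} (hq : q.Prime) (h7 : q % 8 = 7) {S : ℕ → Prop}
    (h : LawP (rhoP q hq h7).Φ (n4 q) par5 S) : Laws q S := by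
  have hrk : ∀ {n : ℕ} {N : ℕ} {d : Fin n → ℕ} (T : Finset (Fin n)), W1 N → (∀ i, W1 (d i)) →
      rk (rhoP q hq h7).Φ (n4 q) (sqn (N * ∏ i ∈ T, d i)).primeFactors = crk q N T d :=
    fun T hN hd => (corank_eq4 hq h7 (g4_sqn hN hd T)).symm
  have hcl : ∀ {n D : ℕ} {d : Fin n → ℕ}, D ≠ 0 → d ∈ I8 n D → ∀ i, W1 (d i) :=
    fun hD hd i => ((mem_I8 hD).1 hd i).1.1
  have hgp : ∀ {n D : ℕ} {N : ℕ} {d : Fin n → ℕ}, D ≠ 0 → W1 N → d ∈ I8 n D →
      (GP (rhoP q hq h7).Φ (n4 q) (neS n) N d ↔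
        ∀ T : Finset (Fin n), T.Nonempty → crk q N T d = 0) := by
    intro n D N d hD hN hd
    unfold GP gdf
    refine forall_congr' fun T => ?_
    rw [mem_neS]
    refine forall_congr' fun _ => ?_
    rw [hrk T hN (hcl hD hd)]
  refine ⟨?_, ?_, ?_, ?_⟩
  · intro M n N T hN hT hd ε hε
    filter_upwards [h M n N T (fun j => (cl_iff4 hq h7 _).2 (hN j)) hT hd ε hε,
      eventually_ne_atTop 0] with D hD hD0 hS R
    have h1 := hD hS R
    rw [I8_eq hq h7] at h1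
    refine le_trans (le_of_eq ?_) h1
    congr 2
    refine cE_congr fun d hdI => ?_
    have h2 : (fun j => crk q (N j) (T j) d) =
        fun j => rk (rhoP q hq h7).Φ (n4 q) (sqn (N j * ∏ i ∈ T j, d i)).primeFactors :=
      funext fun j => (hrk (T j) (hN j) (hcl hD0 hdI)).symm
    rw [h2]
  · intro M n N hN hinj ε hε
    filter_upwards [patP h N (neS n) (fun T hT => mem_neS.1 hT)
      (fun j => (cl_iff4 hq h7 _).2 (hN j)) hinj hε, eventually_ne_atTop 0] with D hD hD0 hS Q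
    have h1 := hD hS Q
    rw [I8_eq hq h7, card_neS] at h1
    refine le_trans (le_of_eq ?_) h1
    congr 2
    refine cE_congr fun d hdI => and_congr_right fun _ => forall_congr' fun j => ?_
    rw [hgp hD0 (hN j) hdI]
  · intro M n N hN hinj hM ε hε
    filter_upwards [llnP h N (neS n) (fun T hT => mem_neS.1 hT)
      (fun j => (cl_iff4 hq h7 _).2 (hN j)) hinj hM hε, eventually_ne_atTop 0] with D hD hD0 hS η hη
    have h1 := hD hS η hη
    rw [I8_eq hq h7, card_neS] at h1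
    refine le_trans (le_of_eq (cE_congr fun d hdI => ?_)) h1
    have h2 : nJ (Fin M) (fun j => GP (rhoP q hq h7).Φ (n4 q) (neS n) (N j) d) =
        nJ (Fin M) (fun j => ∀ T : Finset (Fin n), T.Nonempty → crk q (N j) T d = 0) := by
      unfold nJ
      exact fcc fun j _ => hgp hD0 (hN j) hdI
    rw [h2]
  · intro n ε hε
    have h0 := dep_rareP h n hε
    rw [show (fun D => S D → cE (IP (rhoP q hq h7).Φ par5 n D) (fun d => ¬ IdN d) ≤
      ε * (IP (rhoP q hq h7).Φ par5 n D).card) = fun D => S D → cE (I8 n D) (fun d => ¬ IdN d) ≤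
      ε * (I8 n D).card from funext fun D => by rw [I8_eq hq h7]] at h0
    exact h0

/-- **One set of integers for all the fields.** -/
theorem main8 : ∃ S : ℕ → Prop, Alm (fun _ => True) S ∧ Alm W1 S ∧
    ∀ q : ℕ, q.Prime → q % 8 = 7 → Laws q S := by
  have h : ∀ i : ℕ, ∃ S : ℕ → Prop, Alm (fun _ => True) S ∧ Alm W1 S ∧
      ∀ (hq : i.Prime) (h7 : i % 8 = 7), LawP (rhoP i hq h7).Φ (n4 i) par5 S := by
    intro i
    by_cases hi : i.Prime ∧ i % 8 = 7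
    · obtain ⟨S, h1, h2, h3, -⟩ := mainP (rhoP i hi.1 hi.2) (n4 i) par5 (sepP hi.1 hi.2)
      rw [W1_eq] at h2
      exact ⟨S, h1, h2, fun _ _ => h3⟩
    · exact ⟨fun _ => True, Q155.NL.alm_true _, Q155.NL.alm_true _, fun a b => absurd ⟨a, b⟩ hi⟩
  obtain ⟨S, h1, h2, h3⟩ := combine (C := W1) (fun i S => ∀ (hq : i.Prime) (h7 : i % 8 = 7),
    LawP (rhoP i hq h7).Φ (n4 i) par5 S) (fun i S S' hSS hS hq h7 => lawP_mono hSS (hS hq h7)) h
  exact ⟨S, h1, h2, fun q hq h7 => laws_of hq h7 (h3 q hq h7)⟩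

end Q283.LP
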