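import Pool.Agent.Q283.LP.F1

/-!
# Project LP: the curve `X_0(14)`: integers and sets of primes
-/

set_option autoImplicit false
set_option linter.unusedSectionVars false
set_option linter.unusedVariables false

open scoped Classical

namespace Q283.LP

open Finset Module Filter
open Q283.GM (Fam rk RC)
open Pool.Agent.Y687 (DD DD_natAbs)
open Pool.Agent.Y687.JQ (CL of_adm sqf_unique DD_mul DD_ne)
open Pool.Agent.Y687.MQ (AdmD)

/-- the squarefree part -/
def sqf (n : ℤ) : ℤ := n.sign * ∏ p ∈ n.natAbs.primeFactors.filter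
  (fun p => n.natAbs.factorization p % 2 = 1), (p : ℤ)

theorem nat_sqf {n : ℕ} (hn : n ≠ 0) : ∃ c : ℕ, c ≠ 0 ∧
    n = (∏ p ∈ n.primeFactors.filter (fun p => n.factorization p % 2 = 1), p) * c ^ 2 := by
  refine ⟨∏ p ∈ n.primeFactors, p ^ (n.factorization p / 2), ?_, ?_⟩
  · exact prod_ne_zero_iff.2 fun p hp => pow_ne_zero _ (Nat.prime_of_mem_primeFactors hp).ne_zero
  · rw [prod_filter, ← prod_pow, ← prod_mul_distrib]
    conv_lhs => rw [← Nat.prod_factorization_pow_eq_self hn]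
    unfold Finsupp.prod
    rw [Nat.support_factorization]
    refine prod_congr rfl fun p _ => ?_
    rw [← pow_mul]
    split_ifs with h
    · rw [← pow_succ']
      congr 1
      omega
    · rw [one_mul]
      congr 1
      omega

theorem sqf_natAbs (n : ℤ) (hn : n ≠ 0) : (sqf n).natAbs =
    ∏ p ∈ n.natAbs.primeFactors.filter (fun p => n.natAbs.factorization p % 2 = 1), p := by
  unfold sqf
  rw [Int.natAbs_mul, Int.natAbs_sign_of_ne_zero hn, one_mul, ← Nat.cast_prod, Int.natAbs_natCast]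

theorem sqf_spec {n : ℤ} (hn : n ≠ 0) : Squarefree (sqf n) ∧ ∃ b : ℤ, b ≠ 0 ∧ n = sqf n * b ^ 2 := by
  have hn' : n.natAbs ≠ 0 := Int.natAbs_ne_zero.2 hn
  constructor
  · rw [← Int.squarefree_natAbs, sqf_natAbs n hn]
    exact Finset.squarefree_prod_of_pairwise_isCoprime (fun x hx y hy hxy => by
      rw [Function.onFun, ← Nat.coprime_iff_isRelPrime]
      exact (Nat.coprime_primes (Nat.prime_of_mem_primeFactors (mem_filter.1 hx).1)
        (Nat.prime_of_mem_primeFactors (mem_filter.1 hy).1)).2 hxy)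
      fun x hx => (Nat.prime_of_mem_primeFactors (mem_filter.1 hx).1).squarefree
  · obtain ⟨c, hc, h⟩ := nat_sqf hn'
    refine ⟨c, by exact_mod_cast hc, ?_⟩
    unfold sqf
    have h2 : ((n.natAbs : ℕ) : ℤ) = (∏ p ∈ n.natAbs.primeFactors.filter
        (fun p => n.natAbs.factorization p % 2 = 1), (p : ℤ)) * (c : ℤ) ^ 2 := by
      conv_lhs => rw [h]
      push_cast
      rfl
    rw [mul_assoc, ← h2, Int.sign_mul_natAbs]

theorem sqf_eq {n D b : ℤ} (hD : Squarefree D) (hb : b ≠ 0) (h : n = D * b ^ 2) : sqf n = D := by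
  have hn : n ≠ 0 := by
    rw [h]
    exact mul_ne_zero hD.ne_zero (pow_ne_zero 2 hb)
  obtain ⟨h1, c, hc, h2⟩ := sqf_spec hn
  exact sqf_unique h1 hD hc hb (h2.symm.trans h)

/-- the primes of the base -/
def pf (N : ℤ) : Finset ℕ := N.natAbs.primeFactors

/-- the form -/
def frm {n : ℕ} (N : ℤ) (e : Fin n → ZMod 2) (d : Fin n → ℤ) : ℤ := N * ∏ i, d i ^ (e i).val

theorem CL_DD_pf {S : Finset ℕ} (h : CL S) : pf (DD S) = S := h.natAbs

theorem DD_pf {N : ℤ} (h : AdmD N) : CL (pf N) ∧ DD (pf N) = N := of_adm h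

/-- the product of a family of discriminants -/
theorem DD_form {n : ℕ} {A : Finset ℕ} (hA : CL A) (e : Fin n → ZMod 2) {d : Fin n → Finset ℕ}
    (hd : ∀ i, CL (d i)) (T : Finset (Fin n)) : ∃ S : Finset ℕ, CL S ∧
      (∀ p, ind S p = ind A p + ∑ i ∈ T, e i * ind (d i) p) ∧
      ∃ b : ℤ, b ≠ 0 ∧ DD A * ∏ i ∈ T, DD (d i) ^ (e i).val = DD S * b ^ 2 := by
  induction T using Finset.induction_on with
  | empty =>
    refine ⟨A, hA, fun p => by rw [sum_empty, add_zero], 1, one_ne_zero, ?_⟩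
    rw [prod_empty]
    ring
  | @insert a T ha ih =>
    obtain ⟨S, hS, h1, b, hb, h2⟩ := ih
    have h0 : ∀ z : ZMod 2, z = 0 ∨ z = 1 := by decide
    rcases h0 (e a) with h | h
    · refine ⟨S, hS, fun p => ?_, b, hb, ?_⟩
      · rw [sum_insert ha, h, zero_mul, zero_add, h1]
      · rw [prod_insert ha, h, ZMod.val_zero, pow_zero, one_mul, h2]
    · refine ⟨symmDiff (d a) S, (hd a).symmDiff hS, fun p => ?_, DD (d a ∩ S) * b, ?_, ?_⟩
      · rw [← ind_add, h1, sum_insert ha, h]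
        ring
      · exact mul_ne_zero (DD_ne fun p hp => ((hd a).prime p (mem_inter.1 hp).1).ne_zero) hb
      · have h3 : (1 : ZMod 2).val = 1 := rfl
        rw [prod_insert ha, h, h3, pow_one]
        have h4 := DD_mul (d a) S
        linear_combination (b ^ 2) * h4 + DD (d a) * h2

/-- **The squarefree part of a form.** -/
theorem sqf_form {n M : ℕ} {N : Fin M → ℤ} (hN : ∀ j, AdmD (N j)) (e : Fin M → Fin n → ZMod 2)
    {d : Fin n → Finset ℕ} (hd : ∀ i, CL (d i)) (j : Fin M) :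
    CL (Fs e (fun j => pf (N j)) d j) ∧
    sqf (frm (N j) (e j) fun i => DD (d i)) = DD (Fs e (fun j => pf (N j)) d j) := by
  obtain ⟨hC, hDD⟩ := DD_pf (hN j)
  obtain ⟨S, hS, h1, b, hb, h2⟩ := DD_form hC (e j) hd univ
  have h3 : Fs e (fun j => pf (N j)) d j = S := by
    ext p
    rw [mem_Fs, ← h1, ind_one]
  rw [h3]
  refine ⟨hS, ?_⟩
  unfold frm
  rw [hDD] at h2
  exact sqf_eq hS.sqf hb h2

/-- the members of the family which divide `D` -/
noncomputable def dvD (D : ℕ) : Finset ℤ := (Finset.Icc (-(D : ℤ)) D).filter fun d => AdmD d ∧ d ∣ (D : ℤ)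

theorem mem_dvD {D : ℕ} (hD : D ≠ 0) {d : ℤ} : d ∈ dvD D ↔ AdmD d ∧ d ∣ (D : ℤ) := by
  unfold dvD
  rw [mem_filter, mem_Icc]
  refine ⟨fun h => h.2, fun h => ⟨?_, h⟩⟩
  have h1 : d.natAbs ≤ D := Nat.le_of_dvd (Nat.pos_of_ne_zero hD) (Int.natCast_dvd_natCast.1 (by
    rw [Int.natAbs_dvd]
    exact h.2))
  omega

/-- the sets of primes of the members of the family which divide `D` -/
noncomputable def sD (D : ℕ) : Finset (Finset ℕ) :=
  (prt r14.Φ D).primeFactors.powerset.filter fun d => ∑ p ∈ d, par14 p = 0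

variable (hX : S_X14)
include hX

theorem mem_sD {D : ℕ} {S : Finset ℕ} : S ∈ sD D ↔ CL S ∧ S ⊆ D.primeFactors := by
  unfold sD
  rw [mem_filter, mem_powerset, prt_pf, hX.1]
  constructor
  · rintro ⟨h1, h2⟩
    exact ⟨⟨fun p hp => (mem_filter.1 (h1 hp)).2, h2⟩, fun p hp => (mem_filter.1 (h1 hp)).1⟩
  · rintro ⟨⟨h1, h2⟩, h3⟩
    exact ⟨fun p hp => mem_filter.2 ⟨h3 hp, h1 p hp⟩, h2⟩

theorem DD_mem {D : ℕ} (hD : D ≠ 0) {S : Finset ℕ} (h : CL S) : DD S ∈ dvD D ↔ S ∈ sD D := by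
  rw [mem_dvD hD, mem_sD hX]
  constructor
  · rintro ⟨-, h2⟩
    refine ⟨h, ?_⟩
    rw [← h.natAbs]
    have h3 : (DD S).natAbs ∣ D := Int.natCast_dvd_natCast.1 (by rw [Int.natAbs_dvd]; exact h2)
    exact Nat.primeFactors_mono h3 hD
  · rintro ⟨-, h2⟩
    refine ⟨h.adm, ?_⟩
    rw [← Int.natAbs_dvd, Int.natCast_dvd_natCast, DD_natAbs]
    refine (prod_dvd_prod_of_subset _ _ _ h2).trans ?_
    exact Nat.prod_primeFactors_dvd D

theorem pf_mem {D : ℕ} (hD : D ≠ 0) {d : ℤ} (h : d ∈ dvD D) : pf d ∈ sD D := by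
  have h1 := (mem_dvD hD).1 h
  obtain ⟨h2, h3⟩ := DD_pf h1.1
  rw [← DD_mem hX hD h2, h3]
  exact h

/-- the tuples of sets and the tuples of integers -/
theorem card_tup {D n : ℕ} (hD : D ≠ 0) (P : (Fin n → ℤ) → Prop) (Q : (Fin n → Finset ℕ) → Prop)
    (h : ∀ d : Fin n → Finset ℕ, (∀ i, d i ∈ sD D) → (Q d ↔ P fun i => DD (d i))) :
    ((Tp (Fin n) par14 (prt r14.Φ D).primeFactors).filter Q).card =
      ((Fintype.piFinset fun _ : Fin n => dvD D).filter P).card := by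
  have hmem : ∀ d : Fin n → Finset ℕ, d ∈ Tp (Fin n) par14 (prt r14.Φ D).primeFactors ↔
      ∀ i, d i ∈ sD D := by
    intro d
    rw [mem_Tp]
    refine forall_congr' fun i => ?_
    unfold sD
    rw [mem_filter, mem_powerset]
  refine card_bij (fun d _ i => DD (d i)) ?_ ?_ ?_
  · intro d hd
    obtain ⟨h1, h2⟩ := mem_filter.1 hd
    rw [hmem] at h1
    refine mem_filter.2 ⟨Fintype.mem_piFinset.2 fun i => ?_, (h d h1).1 h2⟩
    exact (DD_mem hX hD ((mem_sD hX).1 (h1 i)).1).2 (h1 i)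
  · intro d hd d' hd' he
    have h1 := (hmem d).1 (mem_filter.1 hd).1
    have h2 := (hmem d').1 (mem_filter.1 hd').1
    funext i
    rw [← CL_DD_pf ((mem_sD hX).1 (h1 i)).1, ← CL_DD_pf ((mem_sD hX).1 (h2 i)).1]
    exact congrArg pf (congrFun he i)
  · intro d hd
    obtain ⟨h1, h2⟩ := mem_filter.1 hd
    rw [Fintype.mem_piFinset] at h1
    have h3 : ∀ i, pf (d i) ∈ sD D := fun i => pf_mem hX hD (h1 i)
    have h4 : (fun i => DD (pf (d i))) = d := funext fun i =>
      (DD_pf ((mem_dvD hD).1 (h1 i)).1).2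
    refine ⟨fun i => pf (d i), mem_filter.2 ⟨(hmem _).2 h3, (h _ h3).2 ?_⟩, h4⟩
    rw [h4]
    exact h2

/-- the share of the tuples of members of the family dividing `D` -/
noncomputable def shD {n : ℕ} (D : ℕ) (P : (Fin n → ℤ) → Prop) : ℝ :=
  (((Fintype.piFinset fun _ : Fin n => dvD D).filter P).card : ℝ) /
    (Fintype.piFinset fun _ : Fin n => dvD D).card

omit hX in
theorem filt_true {α : Type} (s : Finset α) (i : DecidablePred fun _ : α => True) :
    (@Finset.filter _ (fun _ => True) i s).card = s.card :=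
  congrArg Finset.card (@Finset.filter_true_of_mem _ _ i _ fun _ _ => trivial)

/-- **The law for the integers.** -/
theorem law_int {M n D : ℕ} (hD : D ≠ 0) {N : Fin M → ℤ} (hN : ∀ j, AdmD (N j))
    {e : Fin M → Fin n → ZMod 2} {ε : ℝ}
    (h : TT r14.Φ f14 e (fun j => pf (N j)) par14 ε (prt r14.Φ D).primeFactors)
    (R : Set (Fin M → ℕ)) :
    |shD D (fun d => (fun j => rk r14.Φ f14 (pf (sqf (frm (N j) (e j) d)))) ∈ R) -
      ∑' r : R, ∏ j, Q283.GS.al (r.1 j)| ≤ ε := by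
  have h1 := h R
  have h2 : ∀ d : Fin n → Finset ℕ, (∀ i, d i ∈ sD D) →
      ((fun j => rk r14.Φ f14 (Fs e (fun j => pf (N j)) d j)) ∈ R ↔
        (fun j => rk r14.Φ f14 (pf (sqf (frm (N j) (e j) fun i => DD (d i))))) ∈ R) := by
    intro d hd
    have h3 : (fun j => rk r14.Φ f14 (Fs e (fun j => pf (N j)) d j)) =
        fun j => rk r14.Φ f14 (pf (sqf (frm (N j) (e j) fun i => DD (d i)))) := by
      funext j
      obtain ⟨h4, h5⟩ := sqf_form hN e (fun i => ((mem_sD hX).1 (hd i)).1) j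
      rw [h5, CL_DD_pf h4]
    rw [h3]
  have h3 := card_tup hX (n := n) hD
    (fun d => (fun j => rk r14.Φ f14 (pf (sqf (frm (N j) (e j) d)))) ∈ R)
    (fun d => (fun j => rk r14.Φ f14 (Fs e (fun j => pf (N j)) d j)) ∈ R) h2
  have h4 := card_tup hX (n := n) hD (fun _ => True) (fun _ => True) fun _ _ => Iff.rfl
  rw [filt_true, filt_true] at h4
  unfold shD
  rw [← h4]
  refine le_trans (le_of_eq ?_) h1
  congr 3
  refine congrArg Nat.cast ?_
  refine Eq.trans ?_ (h3.symm.trans ?_)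
  · exact fcc fun _ _ => Iff.rfl
  · exact fcc fun _ _ => Iff.rfl

end Q283.LP
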