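import Pool.Agent.Q283.LP.Fin

/-!
# Project LP: divisors of integers, for any classes of primes (without parities)
-/

set_option autoImplicit false
set_option linter.unusedSectionVars false
set_option linter.unusedVariables false

open scoped Classical

namespace Q283.LP

open Finset Module Filter
open Q283.GM (Fam rk RC)
open Q283.GS (al)
open Q283.NJ (wt)
open Q155.NL (Cl Alm)

/-- the squarefree part -/
def sqn (n : ℕ) : ℕ := ∏ p ∈ n.primeFactors.filter (fun p => n.factorization p % 2 = 1), p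

/-- the form -/
def frn {n : ℕ} (N : ℕ) (e : Fin n → ZMod 2) (d : Fin n → ℕ) : ℕ := N * ∏ i, d i ^ (e i).val

/-- the members of the class which divide `D` -/
noncomputable def dvN (Φ : Fam) (D : ℕ) : Finset ℕ := D.divisors.filter fun d => Cl Φ d

theorem sqn_pf (n : ℕ) : (sqn n).primeFactors =
    n.primeFactors.filter fun p => n.factorization p % 2 = 1 :=
  Nat.primeFactors_prod fun p hp => Nat.prime_of_mem_primeFactors (mem_filter.1 hp).1

theorem sqn_sqf (n : ℕ) : Squarefree (sqn n) :=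
  Finset.squarefree_prod_of_pairwise_isCoprime (fun x hx y hy hxy => by
    rw [Function.onFun, ← Nat.coprime_iff_isRelPrime]
    exact (Nat.coprime_primes (Nat.prime_of_mem_primeFactors (mem_filter.1 hx).1)
      (Nat.prime_of_mem_primeFactors (mem_filter.1 hy).1)).2 hxy)
    fun x hx => (Nat.prime_of_mem_primeFactors (mem_filter.1 hx).1).squarefree

theorem sqf_nat {a : ℕ} (ha : Squarefree a) (p : ℕ) :
    ((a.factorization p : ℕ) : ZMod 2) = ind a.primeFactors p := by
  by_cases hp : p ∈ a.primeFactors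
  · rw [ind_mem hp]
    have h1 : a.factorization p ≤ 1 := ha.natFactorization_le_one p
    have h2 : a.factorization p ≠ 0 := by
      rw [← Nat.support_factorization, Finsupp.mem_support_iff] at hp
      exact hp
    have h3 : a.factorization p = 1 := by omega
    rw [h3, Nat.cast_one]
  · rw [ind_not hp]
    rw [← Nat.support_factorization, Finsupp.notMem_support_iff] at hp
    rw [hp, Nat.cast_zero]

theorem odd_set {ι : Type} (T : Finset ι) {a : ℕ} {y : ι → ℕ} (c : ι → ℕ) (ha : Squarefree a)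
    (hy : ∀ i ∈ T, Squarefree (y i)) (p : ℕ) :
    p ∈ (sqn (a * ∏ i ∈ T, y i ^ c i)).primeFactors ↔
      ind a.primeFactors p + ∑ i ∈ T, (c i : ZMod 2) * ind (y i).primeFactors p = 1 := by
  have h0 : ∀ i ∈ T, y i ^ c i ≠ 0 := fun i hi => pow_ne_zero _ (hy i hi).ne_zero
  have h1 : ∏ i ∈ T, y i ^ c i ≠ 0 := Finset.prod_ne_zero_iff.2 h0
  have h2 : (((a * ∏ i ∈ T, y i ^ c i).factorization p : ℕ) : ZMod 2) =
      ind a.primeFactors p + ∑ i ∈ T, (c i : ZMod 2) * ind (y i).primeFactors p := by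
    rw [Nat.factorization_mul ha.ne_zero h1, Nat.factorization_prod h0, Finsupp.add_apply,
      Finsupp.finsetSum_apply]
    push_cast
    rw [sqf_nat ha]
    congr 1
    refine sum_congr rfl fun i hi => ?_
    rw [Nat.factorization_pow, Finsupp.smul_apply, smul_eq_mul]
    push_cast
    rw [sqf_nat (hy i hi)]
  have h4 : ((((a * ∏ i ∈ T, y i ^ c i).factorization p : ℕ) : ZMod 2) = 1) ↔
      (a * ∏ i ∈ T, y i ^ c i).factorization p % 2 = 1 := by
    have h5 := ZMod.natCast_eq_natCast_iff' ((a * ∏ i ∈ T, y i ^ c i).factorization p) 1 2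
    rw [Nat.cast_one] at h5
    exact h5
  rw [sqn_pf, mem_filter, ← h2, h4]
  constructor
  · intro h
    exact h.2
  · intro h
    refine ⟨?_, h⟩
    rw [← Nat.support_factorization, Finsupp.mem_support_iff]
    intro h3
    rw [h3] at h
    exact absurd h (by decide)

theorem sqn_of_sqf {a : ℕ} (ha : Squarefree a) : sqn a = a := by
  have h1 : (sqn a).primeFactors = a.primeFactors := by
    ext p
    have h2 := odd_set (ι := Fin 0) univ (y := fun _ => 1) (fun _ => 0) ha (fun i _ => squarefree_one) p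
    rw [univ_eq_empty, prod_empty, mul_one, sum_empty, add_zero] at h2
    rw [h2]
    exact ind_one
  rw [← Nat.prod_primeFactors_of_squarefree (sqn_sqf a), h1, Nat.prod_primeFactors_of_squarefree ha]

section
variable {Φ : Fam} {n M : ℕ}

theorem mem_dvN {D : ℕ} (hD : D ≠ 0) {d : ℕ} : d ∈ dvN Φ D ↔ Cl Φ d ∧ d ∣ D := by
  unfold dvN
  rw [mem_filter, Nat.mem_divisors]
  tauto

/-- the set of the form -/
theorem frn_pf {N : Fin M → ℕ} (hN : ∀ j, Squarefree (N j)) (e : Fin M → Fin n → ZMod 2)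
    {d : Fin n → ℕ} (hd : ∀ i, Squarefree (d i)) (j : Fin M) :
    (sqn (frn (N j) (e j) d)).primeFactors =
      Fs e (fun j => (N j).primeFactors) (fun i => (d i).primeFactors) j := by
  ext p
  unfold frn
  rw [odd_set univ (fun i => (e j i).val) (hN j) (fun i _ => hd i), mem_Fs]
  simp only [ZMod.natCast_val, ZMod.cast_id', id_eq]

/-- the form is in the class -/
theorem frn_Cl {N : ℕ} (hN : Cl Φ N) (e : Fin n → ZMod 2) {d : Fin n → ℕ} (hd : ∀ i, Cl Φ (d i)) :
    Cl Φ (sqn (frn N e d)) := by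
  refine ⟨sqn_sqf _, fun p hp => ?_⟩
  rw [frn_pf (M := 1) (N := fun _ => N) (fun _ => hN.1) (fun _ => e) (fun i => (hd i).1) 0] at hp
  unfold Fs at hp
  rcases mem_union.1 (mem_filter.1 hp).1 with h | h
  · exact hN.2 p h
  · obtain ⟨i, -, hi⟩ := mem_biUnion.1 h
    exact (hd i).2 p hi

theorem prod_Cl {S : Finset ℕ} (hS : ∀ p ∈ S, Φ.P p) : Cl Φ (∏ p ∈ S, p) ∧
    (∏ p ∈ S, p).primeFactors = S := by
  have h1 : (∏ p ∈ S, p).primeFactors = S := Nat.primeFactors_prod fun p hp => (hS p hp).prime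
  refine ⟨⟨?_, fun p hp => hS p (h1 ▸ hp)⟩, h1⟩
  exact Finset.squarefree_prod_of_pairwise_isCoprime (fun x hx y hy hxy => by
    rw [Function.onFun, ← Nat.coprime_iff_isRelPrime]
    exact (Nat.coprime_primes (hS x hx).prime (hS y hy).prime).2 hxy)
    fun x hx => (hS x hx).prime.squarefree

/-- sums over tuples of divisors and tuples of sets -/
theorem sum_tupN {D : ℕ} (hD : D ≠ 0) (F : (Fin n → Finset ℕ) → ℝ) :
    ∑ S ∈ Tp (Fin n) (fun _ => 0) (prt Φ D).primeFactors, F S =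
      ∑ d ∈ Fintype.piFinset fun _ : Fin n => dvN Φ D, F fun i => (d i).primeFactors := by
  symm
  refine sum_bij (fun d _ i => (d i).primeFactors) ?_ ?_ ?_ fun _ _ => rfl
  · intro d hd
    rw [Fintype.mem_piFinset] at hd
    refine mem_Tp.2 fun i => ⟨fun p hp => ?_, by simp⟩
    obtain ⟨h1, h2⟩ := (mem_dvN hD).1 (hd i)
    rw [prt_pf, mem_filter]
    exact ⟨Nat.primeFactors_mono h2 hD hp, h1.2 p hp⟩
  · intro d hd d' hd' he
    rw [Fintype.mem_piFinset] at hd hd'
    funext i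
    rw [← Nat.prod_primeFactors_of_squarefree ((mem_dvN hD).1 (hd i)).1.1,
      ← Nat.prod_primeFactors_of_squarefree ((mem_dvN hD).1 (hd' i)).1.1]
    exact congrArg (fun S : Finset ℕ => ∏ p ∈ S, p) (congrFun he i)
  · intro S hS
    rw [mem_Tp] at hS
    have h1 : ∀ i, ∀ p ∈ S i, p ∈ D.primeFactors ∧ Φ.P p := by
      intro i p hp
      have h2 := (hS i).1 hp
      rw [prt_pf, mem_filter] at h2
      exact h2
    refine ⟨fun i => ∏ p ∈ S i, p, ?_, ?_⟩
    · rw [Fintype.mem_piFinset]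
      intro i
      refine (mem_dvN hD).2 ⟨(prod_Cl fun p hp => (h1 i p hp).2).1, ?_⟩
      have h3 : ∏ p ∈ S i, p ∣ ∏ p ∈ D.primeFactors, p :=
        Finset.prod_dvd_prod_of_subset _ _ _ fun p hp => (h1 i p hp).1
      exact h3.trans (Nat.prod_primeFactors_dvd D)
    · funext i
      exact (prod_Cl fun p hp => (h1 i p hp).2).2

/-- the share of the tuples of members of the class which divide `D` -/
noncomputable def shN (Φ : Fam) (D : ℕ) (P : (Fin n → ℕ) → Prop) : ℝ :=
  (((Fintype.piFinset fun _ : Fin n => dvN Φ D).filter P).card : ℝ) /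
    (Fintype.piFinset fun _ : Fin n => dvN Φ D).card

theorem card_tupN {D : ℕ} (hD : D ≠ 0) (P : (Fin n → ℕ) → Prop) (Q : (Fin n → Finset ℕ) → Prop)
    (h : ∀ d : Fin n → ℕ, (∀ i, d i ∈ dvN Φ D) → (Q (fun i => (d i).primeFactors) ↔ P d)) :
    (((Tp (Fin n) (fun _ => 0) (prt Φ D).primeFactors).filter Q).card : ℝ) =
      (((Fintype.piFinset fun _ : Fin n => dvN Φ D).filter P).card : ℝ) := by
  rw [card_filter, card_filter, Nat.cast_sum, Nat.cast_sum]
  rw [sum_tupN hD fun S => ((if Q S then 1 else 0 : ℕ) : ℝ)]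
  refine sum_congr rfl fun d hd => ?_
  rw [Fintype.mem_piFinset] at hd
  by_cases h1 : P d
  · rw [if_pos h1, if_pos ((h d hd).2 h1)]
  · rw [if_neg h1, if_neg fun h2 => h1 ((h d hd).1 h2)]

theorem card_tupN' {D : ℕ} (hD : D ≠ 0) :
    ((Tp (Fin n) (fun _ => 0) (prt Φ D).primeFactors).card : ℝ) =
      ((Fintype.piFinset fun _ : Fin n => dvN Φ D).card : ℝ) := by
  have h := sum_tupN (Φ := Φ) (n := n) hD fun _ => 1
  rw [sum_const, sum_const, nsmul_eq_mul, nsmul_eq_mul, mul_one, mul_one] at h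
  exact h

/-- **The law for the integers.** -/
theorem law_N {D : ℕ} (hD : D ≠ 0) {f : ℕ → ZMod 2} {N : Fin M → ℕ} (hN : ∀ j, Squarefree (N j))
    {e : Fin M → Fin n → ZMod 2} {ε : ℝ}
    (h : TT Φ f e (fun j => (N j).primeFactors) (fun _ => 0) ε (prt Φ D).primeFactors)
    (R : Set (Fin M → ℕ)) :
    |shN Φ D (fun d => (fun j => rk Φ f (sqn (frn (N j) (e j) d)).primeFactors) ∈ R) -
      ∑' r : R, ∏ j, al (r.1 j)| ≤ ε := by
  have h1 := h R
  refine le_trans (le_of_eq ?_) h1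
  unfold shN
  rw [card_tupN' hD, card_tupN hD (fun d =>
    (fun j => rk Φ f (sqn (frn (N j) (e j) d)).primeFactors) ∈ R)]
  intro d hd
  have h2 : (fun j => rk Φ f (sqn (frn (N j) (e j) d)).primeFactors) = fun j =>
      rk Φ f (Fs e (fun j => (N j).primeFactors) (fun i => (d i).primeFactors) j) := by
    funext j
    rw [frn_pf hN e (fun i => ((mem_dvN hD).1 (hd i)).1.1) j]
  rw [h2]

/-- **No correlation with polynomial phases, for the integers.** -/
theorem pseudo_N (hGCS : S_GCS) {D k : ℕ} (hD : D ≠ 0) {f : ℕ → ZMod 2} {N : ℕ} (hN : Squarefree N)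
    {ε : ℝ} (h : TT Φ f (fun j => eG k (eqF k j)) (fun _ => N.primeFactors) (fun _ => 0) ε
      (prt Φ D).primeFactors) (φ : ℕ → ℝ)
    (hφ : ∀ x ∈ dvN Φ D, ∀ y : Fin k → ℕ, (∀ i, y i ∈ dvN Φ D) →
      ∏ ω : Finset (Fin k), φ (sqn (x * ∏ i ∈ ω, y i)) = 1) :
    ((∑ d ∈ dvN Φ D, ((if rk Φ f (sqn (N * d)).primeFactors = 0 then 1 else 0) - al 0) * φ d) /
      ((dvN Φ D).card : ℝ)) ^ (2 ^ k) ≤ 2 ^ (2 ^ k) * ε := by
  have hsup : ∀ z : Vp (fun _ => 0) (prt Φ D).primeFactors, (∏ p ∈ sup z.1, p) ∈ dvN Φ D ∧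
      (∏ p ∈ sup z.1, p).primeFactors = sup z.1 := by
    intro z
    have h1 : ∀ p ∈ sup z.1, p ∈ D.primeFactors ∧ Φ.P p := by
      intro p hp
      have h2 := sup_sub z.1 hp
      rw [prt_pf, mem_filter] at h2
      exact h2
    obtain ⟨h2, h3⟩ := prod_Cl fun p hp => (h1 p hp).2
    refine ⟨(mem_dvN hD).2 ⟨h2, ?_⟩, h3⟩
    exact (Finset.prod_dvd_prod_of_subset _ _ _ fun p hp => (h1 p hp).1).trans
      (Nat.prod_primeFactors_dvd D)
  have h1 := pseudo_set hGCS h (fun S => φ (∏ p ∈ S, p)) (by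
    intro x y
    rw [← hφ _ (hsup x).1 (fun i => ∏ p ∈ sup (y i).1, p) fun i => (hsup (y i)).1]
    refine prod_congr rfl fun ω _ => ?_
    beta_reduce
    congr 1
    rw [← Nat.prod_primeFactors_of_squarefree (sqn_sqf _)]
    refine prod_congr ?_ fun _ _ => rfl
    ext p
    have h2 := odd_set ω (a := ∏ p ∈ sup x.1, p) (y := fun i => ∏ p ∈ sup (y i).1, p) (fun _ => 1)
      ((mem_dvN hD).1 (hsup x).1).1.1 (fun i _ => ((mem_dvN hD).1 (hsup (y i)).1).1.1) p
    simp only [pow_one, Nat.cast_one, one_mul] at h2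
    rw [h2, (hsup x).2, ← ind_one]
    have h5 : ∑ i ∈ ω, ind (∏ p ∈ sup (y i).1, p).primeFactors p = ∑ i ∈ ω, ind (sup (y i).1) p :=
      sum_congr rfl fun i _ => by rw [(hsup (y i)).2]
    rw [h5]
    by_cases hp : p ∈ (prt Φ D).primeFactors
    · have h6 : ∀ z : Vp (fun _ => 0) (prt Φ D).primeFactors, ind (sup z.1) p = z.1 ⟨p, hp⟩ :=
        fun z => ind_sup z.1 ⟨p, hp⟩
      have h7 : (x + ∑ i ∈ ω, y i).1 ⟨p, hp⟩ = x.1 ⟨p, hp⟩ + ∑ i ∈ ω, (y i).1 ⟨p, hp⟩ := by
        rw [Submodule.coe_add, Submodule.coe_sum, Pi.add_apply, Finset.sum_apply]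
      rw [h6, h6, h7, sum_congr rfl fun i _ => h6 (y i)]
    · have h6 : ∀ z : Vp (fun _ => 0) (prt Φ D).primeFactors, ind (sup z.1) p = 0 := fun z =>
        ind_not fun h => hp (sup_sub z.1 h)
      rw [h6, h6, sum_eq_zero fun i _ => h6 (y i), add_zero])
  have h2 : ∀ F : ℕ → ℝ, ∑ d ∈ Fintype.piFinset fun _ : Fin 1 => dvN Φ D, F (d 0) =
      ∑ d ∈ dvN Φ D, F d := by
    intro F
    refine sum_bij (fun d _ => d 0) (fun d hd => (Fintype.mem_piFinset.1 hd) 0) ?_ ?_ fun _ _ => rfl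
    · intro d _ d' _ he
      funext i
      rw [Subsingleton.elim i 0]
      exact he
    · intro d hd
      exact ⟨fun _ => d, Fintype.mem_piFinset.2 fun _ => hd, rfl⟩
  have h3 : ((Tp (Fin 1) (fun _ => 0) (prt Φ D).primeFactors).card : ℝ) = ((dvN Φ D).card : ℝ) := by
    have h4 := sum_tupN (Φ := Φ) (n := 1) hD fun _ => 1
    have h5 := h2 fun _ => 1
    rw [h5, sum_const, sum_const, nsmul_eq_mul, nsmul_eq_mul, mul_one, mul_one] at h4
    exact h4
  have h4 : ∑ S ∈ Tp (Fin 1) (fun _ => 0) (prt Φ D).primeFactors,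
      ((if rk Φ f (sN N.primeFactors (S 0)) = 0 then 1 else 0) - al 0) * φ (∏ p ∈ S 0, p) =
      ∑ d ∈ dvN Φ D, ((if rk Φ f (sqn (N * d)).primeFactors = 0 then 1 else 0) - al 0) * φ d := by
    rw [sum_tupN hD fun S => ((if rk Φ f (sN N.primeFactors (S 0)) = 0 then 1 else 0) - al 0) *
      φ (∏ p ∈ S 0, p), ← h2 fun d =>
        ((if rk Φ f (sqn (N * d)).primeFactors = 0 then 1 else 0) - al 0) * φ d]
    refine sum_congr rfl fun d hd => ?_
    have h5 := (mem_dvN hD).1 (Fintype.mem_piFinset.1 hd 0)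
    rw [Nat.prod_primeFactors_of_squarefree h5.1.1]
    have h6 : (sqn (N * d 0)).primeFactors = sN N.primeFactors (d 0).primeFactors := by
      ext p
      have h7 := odd_set (univ : Finset (Fin 1)) (a := N) (y := fun _ => d 0) (fun _ => 1) hN
        (fun _ _ => h5.1.1) p
      rw [Fin.prod_univ_one, Fin.sum_univ_one, pow_one, Nat.cast_one, one_mul] at h7
      rw [h7, sN, ← ind_one, ← ind_add]
    rw [h6]
  rw [h3, h4] at h1
  exact h1

end

end Q283.LP
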