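import Pool.Agent.Q283.LP.X5

/-!
# Project LP: arbitrary sets of coranks
-/

set_option autoImplicit false
set_option linter.unusedSectionVars false
set_option linter.unusedVariables false

open scoped Classical

namespace Q283.LP

open Finset Module Filter
open Q283.GM (Fam rk RC)
open Q283.GS (al)
open Q283.NJ (wt)
open Q155.NL (Cl Alm)

/-- the measure of a set for the law of the coranks -/
noncomputable def alS (T : Set ℕ) : ℝ := ∑' r : T, al r.1

theorem hasSum_alS (T : Set ℕ) : HasSum (fun r : ℕ => if r ∈ T then al r else 0) (alS T) := by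
  have h1 : HasSum (fun r : T => al r.1) (alS T) :=
    (Q283.GS.hasSum_al.summable.subtype T).hasSum
  have h2 := (hasSum_subtype_iff_indicator (f := al) (s := T)).1 h1
  refine h2.congr_fun fun r => ?_
  by_cases hr : r ∈ T
  · rw [if_pos hr, Set.indicator_of_mem hr]
  · rw [if_neg hr, Set.indicator_of_notMem hr]

theorem hasSum_alS' (T : Set ℕ) : HasSum (fun r : ℕ => if r ∈ T then 0 else al r) (1 - alS T) := by
  refine (Q283.GS.hasSum_al.sub (hasSum_alS T)).congr_fun fun r => ?_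
  by_cases hr : r ∈ T
  · rw [if_pos hr, if_pos hr, sub_self]
  · rw [if_neg hr, if_neg hr, sub_zero]

theorem alS_nonneg (T : Set ℕ) : 0 ≤ alS T := tsum_nonneg fun r => al_ge r.1

theorem alS_le (T : Set ℕ) : alS T ≤ 1 := by
  have h := hasSum_le (fun r => ?_) hasSum_zero (hasSum_alS' T)
  · linarith
  · show (0 : ℝ) ≤ if r ∈ T then 0 else al r
    split_ifs
    · exact le_rfl
    · exact al_ge r

/-- the measure of the vectors whose entries are in `T` exactly on a set -/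
theorem meas_set {M : ℕ} (T : Set ℕ) (A : Finset (Fin M)) :
    ∑' r : {r : Fin M → ℕ | ∀ k, (r k ∈ T ↔ k ∈ A)}, ∏ k, al (r.1 k) = wt (alS T) A := by
  unfold wt
  have h1 : ∀ k : Fin M, HasSum (fun r : ℕ => if (r ∈ T ↔ k ∈ A) then al r else 0)
      (if k ∈ A then alS T else 1 - alS T) := by
    intro k
    by_cases hk : k ∈ A
    · rw [if_pos hk]
      refine (hasSum_alS T).congr_fun fun r => ?_
      by_cases hr : r ∈ T
      · rw [if_pos hr, if_pos (iff_of_true hr hk)]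
      · rw [if_neg hr, if_neg fun h => hr (h.2 hk)]
    · rw [if_neg hk]
      refine (hasSum_alS' T).congr_fun fun r => ?_
      by_cases hr : r ∈ T
      · rw [if_pos hr, if_neg fun h => hk (h.1 hr)]
      · rw [if_neg hr, if_pos (iff_of_false hr hk)]
  have h2 := Q283.T3B.hasSum_pi (M := M) (fun k r => if (r ∈ T ↔ k ∈ A) then al r else 0) _
    (fun k r => by
      show 0 ≤ if (r ∈ T ↔ k ∈ A) then al r else 0
      split_ifs
      · exact al_ge r
      · exact le_rfl) h1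
  rw [tsum_subtype {r : Fin M → ℕ | ∀ k, (r k ∈ T ↔ k ∈ A)} fun r => ∏ k, al (r k)]
  have h3 : (fun r : Fin M → ℕ => ({r : Fin M → ℕ | ∀ k, (r k ∈ T ↔ k ∈ A)}.indicator
      fun r => ∏ k, al (r k)) r) =
      fun r => ∏ k, if (r k ∈ T ↔ k ∈ A) then al (r k) else 0 := by
    funext r
    by_cases hr : ∀ k, (r k ∈ T ↔ k ∈ A)
    · rw [Set.indicator_of_mem (show r ∈ {r : Fin M → ℕ | ∀ k, (r k ∈ T ↔ k ∈ A)} from hr)]
      exact prod_congr rfl fun k _ => (if_pos (hr k)).symm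
    · rw [Set.indicator_of_notMem (show r ∉ {r : Fin M → ℕ | ∀ k, (r k ∈ T ↔ k ∈ A)} from hr)]
      obtain ⟨k, hk⟩ := not_forall.1 hr
      exact (prod_eq_zero (mem_univ k) (if_neg hk)).symm
  rw [h3, h2.tsum_eq]
  rw [Finset.prod_ite, Finset.prod_const, Finset.prod_const]
  congr 2
  · congr 1
    ext k
    simp
  · have h4 : (univ.filter fun k : Fin M => ¬ k ∈ A) = univ \ A := by
      ext k
      simp
    rw [h4, card_sdiff_of_subset (subset_univ A), card_univ, Fintype.card_fin]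

/-- the patterns -/
theorem pat_TS {Φ : Fam} {f par : ℕ → ZMod 2} {P : Finset ℕ} {M n : ℕ} {e : Fin M → Fin n → ZMod 2}
    {Nn : Fin M → Finset ℕ} {ε : ℝ} (h : TT Φ f e Nn par ε P) (T : Set ℕ) (A : Finset (Fin M)) :
    |(((Tp (Fin n) par P).filter fun d => ∀ j, (rk Φ f (Fs e Nn d j) ∈ T ↔ j ∈ A)).card : ℝ) /
      ((Tp (Fin n) par P).card : ℝ) - wt (alS T) A| ≤ ε := by
  have h1 := h {r | ∀ k, (r k ∈ T ↔ k ∈ A)}
  rw [meas_set] at h1
  refine le_trans (le_of_eq ?_) h1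
  congr 3
  exact congrArg Nat.cast (fcc fun _ _ => Iff.rfl)

/-- **No correlation with polynomial phases.** -/
theorem pseudo_setT (hGCS : S_GCS) {Φ : Fam} {f par : ℕ → ZMod 2} {P : Finset ℕ} {k : ℕ}
    {Nb : Finset ℕ} {ε : ℝ}
    (h : TT Φ f (fun j => eG k (eqF k j)) (fun _ => Nb) par ε P) (T : Set ℕ) (φ : Finset ℕ → ℝ)
    (hφ : ∀ (x : Vp par P) (y : Fin k → Vp par P),
      ∏ ω : Finset (Fin k), φ (sup (x + ∑ i ∈ ω, y i).1) = 1) :
    ((∑ d ∈ Tp (Fin 1) par P, ((if rk Φ f (sN Nb (d 0)) ∈ T then 1 else 0) - alS T) * φ (d 0)) /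
      ((Tp (Fin 1) par P).card : ℝ)) ^ (2 ^ k) ≤ 2 ^ (2 ^ k) * ε := by
  obtain ⟨g, hg⟩ : ∃ g : Vp par P → ℝ, g = fun x =>
    (if rk Φ f (sN Nb (sup x.1)) ∈ T then 1 else 0) - alS T := ⟨_, rfl⟩
  have h1 := hGCS (Vp par P) k g (fun x => φ (sup x.1)) hφ
  have hM : Fintype.card (Finset (Fin k)) = 2 ^ k := by
    rw [Fintype.card_finset, Fintype.card_fin]
  have hM0 : 0 < Fintype.card (Finset (Fin k)) := by
    rw [hM]
    positivity
  have h2 := mean_prod hM0 (Tp (Fin (k + 1)) par P) (Tp_ne par P)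
    (fun j d => rk Φ f (Fs (fun j => eG k (eqF k j)) (fun _ => Nb) d j) ∈ T) (κ := alS T) (ε := ε)
    (alS_nonneg T) (alS_le T) (fun A => pat_TS h T A)
  -- the two sides
  have e1 : (∑ d ∈ Tp (Fin 1) par P, ((if rk Φ f (sN Nb (d 0)) ∈ T then 1 else 0) - alS T) * φ (d 0)) /
      ((Tp (Fin 1) par P).card : ℝ) =
      (∑ x, g x * φ (sup x.1)) / (Fintype.card (Vp par P) : ℝ) := by
    rw [card_Tp, sum_Tp]
    congr 1
    · rw [hg]
      refine Fintype.sum_equiv (Equiv.funUnique (Fin 1) (Vp par P)) _ _ fun x => ?_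
      rfl
    · norm_cast
      exact Fintype.card_congr (Equiv.funUnique (Fin 1) (Vp par P))
  have e2 : (∑ d ∈ Tp (Fin (k + 1)) par P, ∏ j,
      ((if rk Φ f (Fs (fun j => eG k (eqF k j)) (fun _ => Nb) d j) ∈ T then 1 else 0) - alS T)) /
        ((Tp (Fin (k + 1)) par P).card : ℝ) =
      (∑ x, ∑ y : Fin k → Vp par P, ∏ ω : Finset (Fin k), g (x + ∑ i ∈ ω, y i)) /
        ((Fintype.card (Vp par P) : ℝ) * (Fintype.card (Fin k → Vp par P) : ℝ)) := by
    rw [card_Tp, sum_Tp, sum_cons]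
    congr 1
    · refine sum_congr rfl fun x _ => sum_congr rfl fun y _ => ?_
      rw [← Equiv.prod_comp (eqF k) fun ω => g (x + ∑ i ∈ ω, y i)]
      refine prod_congr rfl fun j _ => ?_
      rw [Fs_eG Nb (eqF k) x y j, hg]
    · rw [Fintype.card_fun, Fintype.card_fun, Fintype.card_fin, Fintype.card_fin, pow_succ]
      push_cast
      ring
  have h3 : |(∑ d ∈ Tp (Fin (k + 1)) par P, ∏ j,
      ((if rk Φ f (Fs (fun j => eG k (eqF k j)) (fun _ => Nb) d j) ∈ T then (1 : ℝ) else 0) - alS T)) /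
        ((Tp (Fin (k + 1)) par P).card : ℝ)| ≤ 2 ^ Fintype.card (Finset (Fin k)) * ε := h2
  rw [e1]
  rw [e2, hM] at h3
  exact h1.trans ((le_abs_self _).trans h3)

/-- **No correlation with polynomial phases, for the integers.** -/
theorem pseudo_NT (hGCS : S_GCS) {Φ : Fam} {D k : ℕ} (hD : D ≠ 0) {f : ℕ → ZMod 2} {N : ℕ}
    (hN : Squarefree N) {ε : ℝ}
    (h : TT Φ f (fun j => eG k (eqF k j)) (fun _ => N.primeFactors) (fun _ => 0) ε
      (prt Φ D).primeFactors) (T : Set ℕ) (φ : ℕ → ℝ)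
    (hφ : ∀ x ∈ dvN Φ D, ∀ y : Fin k → ℕ, (∀ i, y i ∈ dvN Φ D) →
      ∏ ω : Finset (Fin k), φ (sqn (x * ∏ i ∈ ω, y i)) = 1) :
    ((∑ d ∈ dvN Φ D, ((if rk Φ f (sqn (N * d)).primeFactors ∈ T then 1 else 0) - alS T) * φ d) /
      ((dvN Φ D).card : ℝ)) ^ (2 ^ k) ≤ 2 ^ (2 ^ k) * ε := by
  have hsup : ∀ z : Vp (fun _ => 0) (prt Φ D).primeFactors, (∏ p ∈ sup z.1, p) ∈ dvN Φ D ∧
      (∏ p ∈ sup z.1, p).primeFactors = sup z.1 := by
    intro z
    have h1 : ∀ p ∈ sup z.1, p ∈ D.primeFactors ∧ Φ.P p := by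
      intro p hp
      have h2 := sup_sub z.1 hp
      rw [prt_pf, mem_filter] at h2
      exact h2
    obtain ⟨h2, h3⟩ := prod_Cl fun p hp => (h1 p hp).2
    refine ⟨(mem_dvN hD).2 ⟨h2, ?_⟩, h3⟩
    exact (Finset.prod_dvd_prod_of_subset _ _ _ fun p hp => (h1 p hp).1).trans
      (Nat.prod_primeFactors_dvd D)
  have h1 := pseudo_setT hGCS h T (fun S => φ (∏ p ∈ S, p)) (by
    intro x y
    rw [← hφ _ (hsup x).1 (fun i => ∏ p ∈ sup (y i).1, p) fun i => (hsup (y i)).1]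
    refine prod_congr rfl fun ω _ => ?_
    congr 1
    rw [← Nat.prod_primeFactors_of_squarefree (sqn_sqf _)]
    refine prod_congr ?_ fun _ _ => rfl
    ext p
    have h2 := odd_set ω (a := ∏ p ∈ sup x.1, p) (y := fun i => ∏ p ∈ sup (y i).1, p) (fun _ => 1)
      ((mem_dvN hD).1 (hsup x).1).1.1 (fun i _ => ((mem_dvN hD).1 (hsup (y i)).1).1.1) p
    simp only [pow_one, Nat.cast_one, one_mul] at h2
    rw [h2, (hsup x).2, ← ind_one]
    have h5 : ∑ i ∈ ω, ind (∏ p ∈ sup (y i).1, p).primeFactors p = ∑ i ∈ ω, ind (sup (y i).1) p :=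
      sum_congr rfl fun i _ => by rw [(hsup (y i)).2]
    rw [h5]
    by_cases hp : p ∈ (prt Φ D).primeFactors
    · have h6 : ∀ z : Vp (fun _ => 0) (prt Φ D).primeFactors, ind (sup z.1) p = z.1 ⟨p, hp⟩ :=
        fun z => ind_sup z.1 ⟨p, hp⟩
      have h7 : (x + ∑ i ∈ ω, y i).1 ⟨p, hp⟩ = x.1 ⟨p, hp⟩ + ∑ i ∈ ω, (y i).1 ⟨p, hp⟩ := by
        rw [Submodule.coe_add, Submodule.coe_sum, Pi.add_apply, Finset.sum_apply]
      rw [h6, h6, h7, sum_congr rfl fun i _ => h6 (y i)]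
    · have h6 : ∀ z : Vp (fun _ => 0) (prt Φ D).primeFactors, ind (sup z.1) p = 0 := fun z =>
        ind_not fun h => hp (sup_sub z.1 h)
      rw [h6, h6, sum_eq_zero fun i _ => h6 (y i), add_zero])
  have h2 : ∀ F : ℕ → ℝ, ∑ d ∈ Fintype.piFinset fun _ : Fin 1 => dvN Φ D, F (d 0) =
      ∑ d ∈ dvN Φ D, F d := by
    intro F
    refine sum_bij (fun d _ => d 0) (fun d hd => (Fintype.mem_piFinset.1 hd) 0) ?_ ?_ fun _ _ => rfl
    · intro d _ d' _ he
      funext i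
      rw [Subsingleton.elim i 0]
      exact he
    · intro d hd
      exact ⟨fun _ => d, Fintype.mem_piFinset.2 fun _ => hd, rfl⟩
  have h3 : ((Tp (Fin 1) (fun _ => 0) (prt Φ D).primeFactors).card : ℝ) = ((dvN Φ D).card : ℝ) := by
    rw [card_tupN' (n := 1) hD, Fintype.card_piFinset, Fin.prod_const, pow_one]
  rw [h3] at h1
  rw [sum_tupN (n := 1) hD fun d =>
    ((if rk Φ f (sN N.primeFactors (d 0)) ∈ T then 1 else 0) - alS T) * φ (∏ p ∈ d 0, p)] at h1
  refine le_trans (le_of_eq ?_) h1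
  congr 2
  rw [← h2 fun d => ((if rk Φ f (sqn (N * d)).primeFactors ∈ T then 1 else 0) - alS T) * φ d]
  refine sum_congr rfl fun d hd => ?_
  have h4 := (mem_dvN hD).1 (Fintype.mem_piFinset.1 hd 0)
  have h5 : (sqn (N * d 0)).primeFactors = sN N.primeFactors (d 0).primeFactors := by
    ext p
    have h6 := odd_set {0} (a := N) (y := d) (fun _ : Fin 1 => 1) hN (fun i hi => by
      rw [Finset.mem_singleton.1 hi]
      exact h4.1.1) p
    rw [prod_singleton, sum_singleton, pow_one, Nat.cast_one, one_mul] at h6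
    rw [h6]
    unfold sN
    rw [← ind_one, ← ind_add]
  rw [h5, Nat.prod_primeFactors_of_squarefree h4.1.1]

/-- no correlation with phases, for all sets of coranks -/
def PhS (ρ : RC) (f : ℕ → ZMod 2) (S : ℕ → Prop) : Prop :=
  ∀ (k N : ℕ), Cl ρ.Φ N → ∀ ε : ℝ, 0 < ε → ∀ᶠ D in atTop, S D → ∀ (T : Set ℕ) (φ : ℕ → ℝ),
      (∀ x ∈ dvN ρ.Φ D, ∀ y : Fin (k + 1) → ℕ, (∀ i, y i ∈ dvN ρ.Φ D) →
        ∏ ω : Finset (Fin (k + 1)), φ (sqn (x * ∏ i ∈ ω, y i)) = 1) →
      |(∑ d ∈ dvN ρ.Φ D, ((if rk ρ.Φ f (sqn (N * d)).primeFactors ∈ T then 1 else 0) - alS T) * φ d) /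
        ((dvN ρ.Φ D).card : ℝ)| ≤ ε

/-- **One set of integers of density one for all the families of forms and all sets of coranks.** -/
theorem mainT (ρ : RC) (f : ℕ → ZMod 2) : ∃ S : ℕ → Prop, Alm (fun _ => True) S ∧ Alm (Cl ρ.Φ) S ∧
    LawS ρ f S ∧ PhS ρ f S := by
  obtain ⟨S, hS1, hS2, hS3⟩ := mainF ρ f (fun _ => 0) fun _ _ _ _ _ _ => rfl
  refine ⟨S, hS1, hS2, fun M n N e hN he hd ε hε => ?_, fun k N hN ε hε => ?_⟩
  · have h1 := hS3 M n (fun j => (N j).primeFactors) e (fun j p hp => (hN j).2 p hp) he (by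
      intro j l hjl hel hpf
      refine hd j l hjl ⟨hel, ?_⟩
      rw [← Nat.prod_primeFactors_of_squarefree (hN j).1,
        ← Nat.prod_primeFactors_of_squarefree (hN l).1]
      exact congrArg (fun S : Finset ℕ => ∏ p ∈ S, p) hpf) ε hε
    filter_upwards [h1, eventually_ne_atTop 0] with D hD hD0 hSD R
    exact law_N hD0 (fun j => (hN j).1) (hD hSD) R
  · obtain ⟨K, hK⟩ : ∃ K, K = 2 ^ (k + 1) := ⟨_, rfl⟩
    have h1 := hS3 _ _ (fun _ => N.primeFactors) (fun j => eG (k + 1) (eqF (k + 1) j))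
      (fun j p hp => hN.2 p hp) (fun j => eG_ne _) (by
      intro j l hjl hel
      exact absurd ((eqF (k + 1)).injective (eG_inj (k + 1) hel)) hjl) (ε ^ K / 2 ^ K) (by positivity)
    filter_upwards [h1, eventually_ne_atTop 0] with D hD hD0 hSD T φ hφ
    have h2 := pseudo_NT Pool.Agent.Q222.LP.t_GCS hD0 hN.1 (hD hSD) T φ hφ
    rw [← hK, mul_div_cancel₀ _ (by positivity : (2 : ℝ) ^ K ≠ 0)] at h2
    have hKe : Even K := by
      rw [hK, pow_succ]
      exact even_two.mul_left _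
    have hK0 : K ≠ 0 := by
      rw [hK]
      positivity
    refine le_of_pow_le_pow_left₀ hK0 hε.le ?_
    rw [hKe.pow_abs]
    exact h2

/-- the patterns for a set of coranks, for any finite index type -/
theorem law_tyT {ρ : RC} {f : ℕ → ZMod 2} {S : ℕ → Prop} (h : LawS ρ f S) (J : Type) [Fintype J]
    {n : ℕ} (N : J → ℕ) (e : J → Fin n → ZMod 2) (hN : ∀ j, Cl ρ.Φ (N j)) (he : ∀ j, e j ≠ 0)
    (hd : ∀ j l, j ≠ l → ¬ (e j = e l ∧ N j = N l)) {ε : ℝ} (hε : 0 < ε) :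
    ∀ᶠ D in atTop, S D → ∀ (T : Set ℕ) (Q : Finset J),
      |shN ρ.Φ D (fun d => ∀ j, (rk ρ.Φ f (sqn (frn (N j) (e j) d)).primeFactors ∈ T ↔ j ∈ Q)) -
        alS T ^ Q.card * (1 - alS T) ^ (Fintype.card J - Q.card)| ≤ ε := by
  obtain ⟨g⟩ : Nonempty (J ≃ Fin (Fintype.card J)) := ⟨Fintype.equivFin J⟩
  have h1 := h (Fintype.card J) n (fun i => N (g.symm i)) (fun i => e (g.symm i)) (fun _ => hN _)
    (fun _ => he _) (fun i l hil => hd _ _ fun h' => hil (g.symm.injective h')) ε hε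
  filter_upwards [h1] with D hD hS T Q
  have h2 := hD hS {r | ∀ k, (r k ∈ T ↔ k ∈ Q.map g.toEmbedding)}
  rw [meas_set] at h2
  unfold wt at h2
  rw [card_map] at h2
  refine le_trans (le_of_eq ?_) h2
  congr 2
  refine shN_congr fun d => ?_
  constructor
  · intro h3 k
    rw [mem_map_equiv]
    exact h3 (g.symm k)
  · intro h3 j
    have h4 := h3 (g j)
    rw [mem_map_equiv] at h4
    simp only [Equiv.symm_apply_apply] at h4
    exact h4

end Q283.LP
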