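import Pool.Agent.Q283.LP.X6
import Pool.Agent.Q283.GM.Eul

/-!
# Project LP: average ranks
-/

set_option autoImplicit false
set_option linter.unusedSectionVars false
set_option linter.unusedVariables false

open scoped Classical

namespace Q283.LP

open Finset Module Filter
open Q283.GS (al tail_al)
open Pool.Agent.Y697.PQ (cf cf_pos)
open Pool.Agent.Y703.CQ (c2)

/-- the set of the larger numbers -/
def tl (b : ℕ) : Set ℕ := {r | b + 1 ≤ r}

theorem mem_tl {b r : ℕ} : r ∈ tl b ↔ b + 1 ≤ r := Iff.rfl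

/-- the tails of the law -/
theorem alS_tail (b : ℕ) : alS (tl b) = 1 - ∑ r ∈ range (b + 1), al r := by
  have h1 := hasSum_alS' (tl b)
  have h2 : HasSum (fun r : ℕ => if r ∈ tl b then 0 else al r)
      (∑ r ∈ range (b + 1), al r) := by
    have h3 : HasSum (fun r : ℕ => if r ∈ tl b then 0 else al r)
        (∑ r ∈ range (b + 1), if r ∈ tl b then 0 else al r) :=
      hasSum_sum_of_ne_finset_zero (fun r hr => by
        rw [mem_range, not_lt] at hr
        exact if_pos hr)
    have h4 : ∑ r ∈ range (b + 1), (if r ∈ tl b then 0 else al r) =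
        ∑ r ∈ range (b + 1), al r := by
      refine sum_congr rfl fun r hr => if_neg fun h => ?_
      have h5 : b + 1 ≤ r := h
      have h6 := mem_range.1 hr
      omega
    rwa [h4] at h3
  have h3 := h1.unique h2
  linarith

theorem cf_half (r : ℕ) (hr : 1 ≤ r) : cf (r + 1) ≤ cf r / 2 := by
  have h1 : cf (r + 1) = cf r / (2 ^ (r + 1) - 1) := rfl
  rw [h1]
  have h2 : (2 : ℝ) ^ 2 ≤ 2 ^ (r + 1) := pow_le_pow_right₀ (by norm_num) (by omega)
  refine div_le_div_of_nonneg_left (cf_pos r).le (by norm_num) ?_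
  linarith

theorem cf_vals : cf 0 = 1 ∧ cf 1 = 1 ∧ cf 2 = 1 / 3 ∧ cf 3 = 1 / 21 ∧ cf 4 = 1 / 315 ∧
    cf 5 = 1 / 9765 := by
  have h0 : cf 0 = 1 := rfl
  have h : ∀ r, cf (r + 1) = cf r / (2 ^ (r + 1) - 1) := fun r => rfl
  have h1 : cf 1 = 1 := by rw [h 0, h0]; norm_num
  have h2 : cf 2 = 1 / 3 := by rw [h 1, h1]; norm_num
  have h3 : cf 3 = 1 / 21 := by rw [h 2, h2]; norm_num
  have h4 : cf 4 = 1 / 315 := by rw [h 3, h3]; norm_num
  have h5 : cf 5 = 1 / 9765 := by rw [h 4, h4]; norm_num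
  exact ⟨h0, h1, h2, h3, h4, h5⟩

theorem sum_cf (n : ℕ) : ∑ i ∈ range n, cf (i + 5) ≤ 2 * cf 5 * (1 - (1 / 2) ^ n) ∧
    cf (n + 5) ≤ cf 5 * (1 / 2) ^ n := by
  induction n with
  | zero => simp
  | succ n ih =>
    constructor
    · rw [sum_range_succ, pow_succ]
      have h1 := ih.1
      have h2 := ih.2
      linarith
    · have h1 := cf_half (n + 5) (by omega)
      have h2 := ih.2
      rw [pow_succ]
      have e : n + 1 + 5 = n + 5 + 1 := by ring
      rw [e]
      linarith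

theorem al_c2 (r : ℕ) : al r = c2 * cf r := rfl

/-- the mean of the law -/
theorem sum_tails (B : ℕ) : ∑ b ∈ range B, alS (tl b) ≤ 0.765 := by
  have hmono : ∀ B C : ℕ, B ≤ C → ∑ b ∈ range B, alS (tl b) ≤
      ∑ b ∈ range C, alS (tl b) := fun B C h =>
    sum_le_sum_of_subset_of_nonneg (range_mono h) fun _ _ _ => alS_nonneg _
  refine (hmono B (4 + B) (by omega)).trans ?_
  rw [sum_range_add]
  obtain ⟨c0, c1, c3, c4, c5, c6⟩ := cf_vals
  have hc : 0.4194 < c2 := Pool.Agent.Y948.CQ.t_C2.2.2.2.1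
  have h4 : ∑ b ∈ range 4, alS (tl b) = 4 - (4 + 3 + 2 / 3 + 1 / 21) * c2 := by
    have e : ∀ b, alS (tl b) = 1 - ∑ r ∈ range (b + 1), c2 * cf r := fun b => by
      rw [alS_tail]
      rfl
    simp only [e, sum_range_succ, range_zero, sum_empty, c0, c1, c3, c4]
    ring
  have h5 : ∑ b ∈ range B, alS (tl (4 + b)) ≤ 2 * cf 5 := by
    have h6 : ∀ b ∈ range B, alS (tl (4 + b)) ≤ cf (b + 5) := by
      intro b _
      rw [alS_tail]
      have h7 := tail_al (4 + b)
      have e2 : 4 + b + 1 = b + 5 := by ring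
      rw [e2] at h7 ⊢
      exact h7
    refine (sum_le_sum h6).trans ((sum_cf B).1.trans ?_)
    have h8 : (0 : ℝ) ≤ (1 / 2) ^ B := by positivity
    rw [c6]
    linarith
  rw [h4]
  rw [c6] at h5
  linarith

/-- **The average of the truncated ranks.** -/
theorem avg_rank {E : Type} {I : Finset E} (hI : 0 < (I.card : ℝ)) {M : ℕ} (hM : 0 < M)
    (r ra : Fin M → E → ℕ) (hr : ∀ e ∈ I, ∀ j, ra j e ≤ 2 * r j e) {δ : ℝ}
    (h : ∀ (T : Set ℕ) (Q : Finset (Fin M)), |cE I (fun e => ∀ j, (r j e ∈ T ↔ j ∈ Q)) -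
      alS T ^ Q.card * (1 - alS T) ^ (M - Q.card) * I.card| ≤ δ * I.card) {B : ℕ} (hB : 0 < B) {η : ℝ}
    (hη : 0 < η) :
    cE I (fun e => 1.53 + η ≤ (∑ j, ((min (ra j e) (2 * B) : ℕ) : ℝ)) / M) ≤
      (2 * B * Real.exp (-(η ^ 2 * M / (16 * B ^ 2))) + B * (2 ^ M * δ)) * I.card := by
  have hB' : (0 : ℝ) < B := by exact_mod_cast hB
  have hM' : (0 : ℝ) < M := by exact_mod_cast hM
  have hη' : 0 < η / (2 * B) := by positivity
  have h1 : ∀ b ∈ range B, cE I (fun e => η / (2 * B) ≤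
      |(nJ (Fin M) (fun j => r j e ∈ tl b) : ℝ) / Fintype.card (Fin M) - alS (tl b)|) ≤
      (2 * Real.exp (-(η ^ 2 * M / (16 * B ^ 2))) + 2 ^ M * δ) * I.card := by
    intro b _
    have h2 := lln_gen hI (Fin M) (fun j e => r j e ∈ tl b) (p := alS (tl b))
      (δ := δ) (alS_nonneg _) (alS_le _) (fun Q => by
        rw [Fintype.card_fin]
        exact h _ Q) (by rw [Fintype.card_fin]; exact hM) hη'
    refine h2.trans (le_of_eq ?_)
    rw [Fintype.card_fin]
    congr 4
    field_simp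
    norm_num
  have h2 : (I.filter fun e => 1.53 + η ≤ (∑ j, ((min (ra j e) (2 * B) : ℕ) : ℝ)) / M) ⊆
      (range B).biUnion fun b => I.filter fun e => η / (2 * B) ≤
        |(nJ (Fin M) (fun j => r j e ∈ tl b) : ℝ) / Fintype.card (Fin M) -
          alS (tl b)| := by
    intro e he
    obtain ⟨heI, he⟩ := mem_filter.1 he
    by_contra hc
    have h3 : ∀ b ∈ range B, (nJ (Fin M) (fun j => r j e ∈ tl b) : ℝ) <
        M * (alS (tl b) + η / (2 * B)) := by
      intro b hb
      by_contra hb'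
      apply hc
      refine mem_biUnion.2 ⟨b, hb, mem_filter.2 ⟨heI, ?_⟩⟩
      rw [Fintype.card_fin]
      refine le_trans ?_ (le_abs_self _)
      rw [not_lt] at hb'
      rw [le_sub_iff_add_le, le_div_iff₀ hM']
      linarith
    have h4 : ∑ j, ((min (ra j e) (2 * B) : ℕ) : ℝ) ≤
        2 * ∑ b ∈ range B, (nJ (Fin M) (fun j => r j e ∈ tl b) : ℝ) := by
      have h5 : ∀ j, ((min (ra j e) (2 * B) : ℕ) : ℝ) ≤
          2 * ∑ b ∈ range B, (if b + 1 ≤ r j e then (1 : ℝ) else 0) := by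
        intro j
        have h6 : ∑ b ∈ range B, (if b + 1 ≤ r j e then (1 : ℝ) else 0) = ((min (r j e) B : ℕ) : ℝ) := by
          rw [sum_boole]
          congr 1
          have h7 : (range B).filter (fun b => b + 1 ≤ r j e) = range (min (r j e) B) := by
            ext b
            rw [mem_filter, mem_range, mem_range]
            omega
          rw [h7, card_range]
        rw [h6]
        have h8 := hr e heI j
        have h9 : min (ra j e) (2 * B) ≤ 2 * min (r j e) B := by omega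
        exact_mod_cast h9
      refine (sum_le_sum fun j _ => h5 j).trans (le_of_eq ?_)
      rw [← mul_sum, sum_comm]
      congr 1
      refine sum_congr rfl fun b _ => ?_
      rw [sum_boole]
      exact congrArg Nat.cast (fcc fun _ _ => Iff.rfl)
    have h5 : ∑ b ∈ range B, (nJ (Fin M) (fun j => r j e ∈ tl b) : ℝ) <
        ∑ b ∈ range B, M * (alS (tl b) + η / (2 * B)) :=
      sum_lt_sum_of_nonempty (nonempty_range_iff.2 hB.ne') h3
    rw [← mul_sum, sum_add_distrib, sum_const, card_range, nsmul_eq_mul] at h5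
    have h6 := sum_tails B
    have h7 : (B : ℝ) * (η / (2 * B)) = η / 2 := by field_simp
    rw [h7] at h5
    have h8 : (M : ℝ) * (∑ b ∈ range B, alS (tl b) + η / 2) ≤ M * (0.765 + η / 2) :=
      mul_le_mul_of_nonneg_left (by linarith) hM'.le
    rw [le_div_iff₀ hM'] at he
    nlinarith
  have h3 : cE I (fun e => 1.53 + η ≤ (∑ j, ((min (ra j e) (2 * B) : ℕ) : ℝ)) / M) ≤
      ∑ b ∈ range B, cE I (fun e => η / (2 * B) ≤
        |(nJ (Fin M) (fun j => r j e ∈ tl b) : ℝ) / Fintype.card (Fin M) -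
          alS (tl b)|) := by
    unfold cE
    exact_mod_cast (card_le_card h2).trans card_biUnion_le
  refine h3.trans ((sum_le_sum h1).trans (le_of_eq ?_))
  rw [sum_const, card_range, nsmul_eq_mul]
  ring

/-- two properties which cover everything -/
theorem shN_or {Φ : Q283.GM.Fam} {n D : ℕ} (hD : D ≠ 0) {P Q : (Fin n → ℕ) → Prop}
    (h : ∀ d ∈ Fintype.piFinset fun _ : Fin n => dvN Φ D, P d ∨ Q d) : 1 ≤ shN Φ D P + shN Φ D Q := by
  have hI := pi_pos Φ (n := n) hD
  unfold shN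
  rw [← add_div, le_div_iff₀ hI, one_mul]
  have h3 : (Fintype.piFinset fun _ : Fin n => dvN Φ D) ⊆
      ((Fintype.piFinset fun _ : Fin n => dvN Φ D).filter P) ∪
      ((Fintype.piFinset fun _ : Fin n => dvN Φ D).filter Q) := by
    intro d hd
    rcases h d hd with h1 | h1
    · exact mem_union_left _ (mem_filter.2 ⟨hd, h1⟩)
    · exact mem_union_right _ (mem_filter.2 ⟨hd, h1⟩)
  have h4 := (card_le_card h3).trans (card_union_le _ _)
  exact_mod_cast h4

theorem alS_zero : alS {0} = al 0 := by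
  obtain ⟨T, hT⟩ : ∃ T : Set ℕ, T = {0} := ⟨_, rfl⟩
  rw [← hT]
  have h3 := hasSum_alS T
  have h4 : HasSum (fun r : ℕ => if r ∈ T then al r else 0)
      (∑ r ∈ ({0} : Finset ℕ), if r ∈ T then al r else 0) :=
    hasSum_sum_of_ne_finset_zero (fun r hr => by
      rw [mem_singleton] at hr
      refine if_neg fun h => hr ?_
      rw [hT] at h
      exact h)
  rw [h3.unique h4, sum_singleton, if_pos]
  rw [hT]
  exact Set.mem_singleton 0

end Q283.LP
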